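import Pool.Agent.H19.ES.Lagr

/-! # ES.DD : the algebra `A[τ]/(q + τ h)` (Mathlib only, about 250 lines)

`D = A[Y] / (C q + Y * C h)` (`Y = τ`; define a new type for it, or `Ideal.Quotient`, with the `K[X]`-algebra structure `X ↦ τ` given by `RingHom.toAlgebra`; NOT the one coming from `A`).  BASIS `t^i f_j`, `i < k`, `j < m` over `K[τ]`.
The elements of `A[Y]` are `∑ Y^n a_n`; its `t`-degree is the maximal degree of the coordinates of the `a_n`.  `q` is monic of degree `k` in `t`; `h y` has coordinates of degree `< k + deg y` (coordinates of `h` of degree `< k - s0`, structure constants of degree `≤ s0`).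
SPAN: every `t^d f_l` (`d ≥ k`) is modulo the ideal a `K[τ]`-combination of `t^i f_j` with `i < d`: `t^(d-k) f_l (q + τ h) = t^d f_l + (terms of t-degree < d)`; strong induction on `d`.
INDEPENDENCE: if `∑ p_{ij}(τ) t^i f_j = (q + τ h) y` in `A[Y]` with `y ≠ 0` of `t`-degree `d` then the right hand side has `t`-degree exactly `k + d ≥ k` (the coefficient of `t^(k+d)` comes from `q y` only), the left hand side has `t`-degree `< k`: contradiction; so `y = 0` and all `p_{ij} = 0`.
The index type `Fin k × Fin m` may be replaced by `Fin (k * m)` by `finProdFinEquiv`.  `i y` = class of `C y`.  Universal property: `Ideal.Quotient.liftₐ`, `Polynomial.eval₂`; uniqueness: `D` is generated by `τ` and the image of `A`. -/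

namespace H19.ES

open Polynomial

variable {K A : Type} [Field K] [CommRing A] [Algebra K A] [Algebra K[X] A] [IsScalarTower K K[X] A] {m k s0 : ℕ}

section deg

variable (f : Module.Basis (Fin m) K[X] A)

omit [Algebra K A] [IsScalarTower K K[X] A] in
private theorem dg_coeff {d : ℕ} {y : A} : dg f d y ↔ ∀ l N, d ≤ N → (f.repr y l).coeff N = 0 := by
  unfold dg
  simp only [degree_lt_iff_coeff_zero]

omit [Algebra K A] [IsScalarTower K K[X] A] in
private theorem dg_nat {d : ℕ} {y : A} (h : dg f (d + 1) y) (l : Fin m) : (f.repr y l).natDegree ≤ d := by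
  rw [natDegree_le_iff_coeff_eq_zero]
  intro N hN
  exact (dg_coeff f).1 h l N hN

omit [Algebra K A] [IsScalarTower K K[X] A] in
private theorem dg_mono {d e : ℕ} (h : d ≤ e) {y : A} (hy : dg f d y) : dg f e y :=
  (dg_coeff f).2 fun l N hN => (dg_coeff f).1 hy l N (h.trans hN)

omit [Algebra K A] [IsScalarTower K K[X] A] in
private theorem dg_zero {y : A} (h : dg f 0 y) : y = 0 := by
  apply f.repr.injective
  rw [map_zero]
  ext l N
  rw [(dg_coeff f).1 h l N (Nat.zero_le _)]
  simp

omit [Algebra K A] [IsScalarTower K K[X] A] in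
private theorem dg_exists (y : A) : ∃ d, dg f d y := by
  refine ⟨Finset.univ.sup (fun l => (f.repr y l).natDegree + 1), (dg_coeff f).2 fun l N hN => ?_⟩
  apply coeff_eq_zero_of_natDegree_lt
  have h := Finset.le_sup (f := fun l => (f.repr y l).natDegree + 1) (Finset.mem_univ l)
  have h' : (f.repr y l).natDegree + 1 ≤ Finset.univ.sup (fun l => (f.repr y l).natDegree + 1) := h
  omega

omit [Algebra K A] [IsScalarTower K K[X] A] in
private theorem repr_q (q : K[X]) (y : A) (l : Fin m) : f.repr (algebraMap K[X] A q * y) l = q * f.repr y l := by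
  rw [← Algebra.smul_def, map_smul, Finsupp.smul_apply, smul_eq_mul]

/-- the element with given coefficients -/
private noncomputable def elt (c : Fin k × Fin m → K) : A :=
  ∑ x, algebraMap K A (c x) * (tA K A ^ (x.1 : ℕ) * f x.2)

private theorem repr_elt (c : Fin k × Fin m → K) (l : Fin m) :
    f.repr (elt f c) l = ∑ i : Fin k, C (c (i, l)) * X ^ (i : ℕ) := by
  unfold elt
  rw [map_sum, Finsupp.finset_sum_apply, Fintype.sum_prod_type]
  refine Finset.sum_congr rfl fun i _ => ?_
  have h : ∀ j : Fin m, f.repr (algebraMap K A (c (i, j)) * (tA K A ^ (i : ℕ) * f j)) l =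
      if j = l then C (c (i, j)) * X ^ (i : ℕ) else 0 := by
    intro j
    have e : algebraMap K A (c (i, j)) * (tA K A ^ (i : ℕ) * f j) =
        algebraMap K[X] A (C (c (i, j)) * X ^ (i : ℕ)) * f j := by
      rw [map_mul, map_pow, tA, mul_assoc, IsScalarTower.algebraMap_apply K K[X] A]
      rfl
    rw [e, repr_q, Module.Basis.repr_self, Finsupp.single_apply]
    split <;> simp
  rw [Finset.sum_congr rfl fun j _ => h j, Finset.sum_ite_eq' Finset.univ l, if_pos (Finset.mem_univ l)]

private theorem coeff_elt (c : Fin k × Fin m → K) (l : Fin m) (N : ℕ) :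
    (f.repr (elt f c) l).coeff N = if h : N < k then c (⟨N, h⟩, l) else 0 := by
  rw [repr_elt, finsetSum_coeff]
  simp only [coeff_C_mul_X_pow]
  split
  · rename_i h
    rw [Finset.sum_eq_single ⟨N, h⟩]
    · simp
    · intro b _ hb
      rw [if_neg]
      intro h1
      exact hb (Fin.ext h1.symm)
    · intro h1
      exact absurd (Finset.mem_univ _) h1
  · rename_i h
    refine Finset.sum_eq_zero fun b _ => ?_
    rw [if_neg]
    have := b.2
    omega

private theorem dg_elt (c : Fin k × Fin m → K) : dg f k (elt f c) :=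
  (dg_coeff f).2 fun l N hN => by rw [coeff_elt, dif_neg (by omega)]

private theorem eq_elt {a : A} (h : dg f k a) : a = elt f (fun x : Fin k × Fin m => (f.repr a x.2).coeff (x.1 : ℕ)) := by
  apply f.repr.injective
  ext l N
  rw [coeff_elt]
  split
  · rfl
  · rename_i h1
    exact (dg_coeff f).1 h l N (by omega)

end deg

/-- the ideal -/
private noncomputable def dI (q h : A) : Ideal A[X] := Ideal.span {C q + X * C h}

/-- the quotient -/
private def DT (_K : Type) {A : Type} [CommRing A] (q h : A) : Type := A[X] ⧸ dI q h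

private noncomputable instance dRing (q h : A) : CommRing (DT K q h) := inferInstanceAs (CommRing (A[X] ⧸ dI q h))

private noncomputable instance dAlg (q h : A) : Algebra K (DT K q h) := inferInstanceAs (Algebra K (A[X] ⧸ dI q h))

/-- the projection -/
private noncomputable def mkD (K : Type) {A : Type} [Field K] [CommRing A] [Algebra K A] (q h : A) :
    A[X] →ₐ[K] DT K q h := Ideal.Quotient.mkₐ K (dI q h)

private noncomputable instance dAlgX (q h : A) : Algebra K[X] (DT K q h) :=
  (((mkD K q h : A[X] →ₐ[K] DT K q h) : A[X] →+* DT K q h).comp (mapRingHom (algebraMap K A))).toAlgebra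

omit [Algebra K[X] A] [IsScalarTower K K[X] A] in
private theorem algX (q h : A) (p : K[X]) :
    algebraMap K[X] (DT K q h) p = mkD K q h (p.map (algebraMap K A)) := rfl

omit [Algebra K[X] A] [IsScalarTower K K[X] A] in
private theorem smulX (q h : A) (p : K[X]) (y : A[X]) :
    p • mkD K q h y = mkD K q h (p.map (algebraMap K A) * y) := by
  rw [Algebra.smul_def, algX, map_mul]

omit [Algebra K[X] A] [IsScalarTower K K[X] A] in
private theorem mkD_zero (q h : A) (y : A[X]) : mkD K q h y = 0 ↔ ∃ z, z * (C q + X * C h) = y := by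
  have h1 : mkD K q h y = 0 ↔ y ∈ dI q h := Ideal.Quotient.eq_zero_iff_mem
  rw [h1]
  unfold dI
  exact Ideal.mem_span_singleton'

omit [Algebra K[X] A] [IsScalarTower K K[X] A] in
private theorem mkD_rel (q h : A) : mkD K q h (C q + X * C h) = 0 := (mkD_zero q h _).2 ⟨1, one_mul _⟩

omit [Algebra K[X] A] [IsScalarTower K K[X] A] in
private theorem mkD_surj (q h : A) : Function.Surjective (mkD K q h) := Ideal.Quotient.mk_surjective

private instance dTower (q h : A) : IsScalarTower K K[X] (DT K q h) := by
  refine IsScalarTower.of_algebraMap_eq fun c => ?_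
  have e : algebraMap K K[X] c = C c := rfl
  rw [e, algX, map_C]
  exact ((mkD K q h).commutes c).symm

/-- the vectors of the basis -/
private noncomputable def vv (f : Module.Basis (Fin m) K[X] A) (q h : A) (x : Fin k × Fin m) : DT K q h :=
  mkD K q h (C (tA K A ^ (x.1 : ℕ) * f x.2))

private theorem uniq_aux (f : Module.Basis (Fin m) K[X] A) (hs : StB f s0) (hk : s0 ≤ k) {q : K[X]} (hq : q.Monic)
    (hqd : q.natDegree = k) {h : A} (hh : dg f (k - s0) h) (y : A[X])
    (hy : ∀ n, dg f k (((C (algebraMap K[X] A q) + X * C h) * y).coeff n)) : y = 0 := by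
  have step : ∀ d, (∀ n, dg f (d + 1) (y.coeff n)) → ∀ n, dg f d (y.coeff n) := by
    intro d hd n
    rw [dg_coeff]
    intro l N hN
    rcases hN.eq_or_lt with rfl | hN
    · have h1 := (dg_coeff f).1 (hy n) l (k + d) (by omega)
      have h2 : ((C (algebraMap K[X] A q) + X * C h) * y).coeff n =
          algebraMap K[X] A q * y.coeff n + (X * (C h * y)).coeff n := by
        rw [add_mul, coeff_add, coeff_C_mul, mul_assoc]
      rw [h2, map_add, Finsupp.add_apply, coeff_add, repr_q] at h1
      have h3 : (q * f.repr (y.coeff n) l).coeff (k + d) = (f.repr (y.coeff n) l).coeff d := by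
        rw [coeff_mul_add_eq_of_natDegree_le hqd.le (dg_nat f (hd n) l)]
        have h4 : q.coeff k = 1 := by rw [← hqd]; exact hq.coeff_natDegree
        rw [h4, one_mul]
      have h5 : (f.repr ((X * (C h * y)).coeff n) l).coeff (k + d) = 0 := by
        cases n with
        | zero => rw [coeff_X_mul_zero, map_zero]; simp
        | succ n =>
          rw [coeff_X_mul, coeff_C_mul]
          have h6 := dg_mul f hs hh (fun j => dg_nat f (hd n) j)
          exact (dg_coeff f).1 h6 l _ (by omega)
      rw [h3, h5, add_zero] at h1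
      exact h1
    · exact (dg_coeff f).1 (hd n) l N hN
  have all : ∀ d, (∀ n, dg f d (y.coeff n)) → ∀ n, dg f 0 (y.coeff n) := by
    intro d
    induction d with
    | zero => exact fun h => h
    | succ d ih => exact fun h => ih (step d h)
  choose e he using dg_exists f
  have h0 : ∀ n, dg f (y.support.sup fun n => e (y.coeff n)) (y.coeff n) := by
    intro n
    by_cases hn : n ∈ y.support
    · exact dg_mono f (Finset.le_sup (f := fun n => e (y.coeff n)) hn) (he _)
    · rw [notMem_support_iff.1 hn]
      rw [dg_coeff]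
      intro l N _
      rw [map_zero]
      simp
  ext n
  rw [dg_zero f (all _ h0 n), coeff_zero]

private theorem li_aux (f : Module.Basis (Fin m) K[X] A) (hs : StB f s0) (hk : s0 ≤ k) {q : K[X]} (hq : q.Monic)
    (hqd : q.natDegree = k) {h : A} (hh : dg f (k - s0) h) :
    LinearIndependent K[X] (vv (k := k) f (algebraMap K[X] A q) h) := by
  rw [Fintype.linearIndependent_iff]
  intro g hg x
  have e1 : ∑ x, g x • vv (k := k) f (algebraMap K[X] A q) h x =
      mkD K (algebraMap K[X] A q) h (∑ x, (g x).map (algebraMap K A) * C (tA K A ^ (x.1 : ℕ) * f x.2)) := by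
    rw [map_sum]
    exact Finset.sum_congr rfl fun x _ => smulX _ _ _ _
  rw [e1, mkD_zero] at hg
  obtain ⟨y, hy⟩ := hg
  have e2 : ∀ n, (∑ x : Fin k × Fin m, (g x).map (algebraMap K A) * C (tA K A ^ (x.1 : ℕ) * f x.2)).coeff n =
      elt f (fun x => (g x).coeff n) := by
    intro n
    rw [finsetSum_coeff]
    exact Finset.sum_congr rfl fun x _ => by rw [coeff_mul_C, coeff_map]
  have h0 : y = 0 := by
    apply uniq_aux f hs hk hq hqd hh
    intro n
    rw [mul_comm, hy, e2]
    exact dg_elt f _
  rw [h0, zero_mul] at hy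
  ext n
  have e3 := e2 n
  rw [← hy, coeff_zero] at e3
  have e4 := coeff_elt f (fun x : Fin k × Fin m => (g x).coeff n) x.2 (x.1 : ℕ)
  rw [← e3, map_zero, dif_pos x.1.2] at e4
  simp only [Finsupp.coe_zero, Pi.zero_apply, coeff_zero] at e4
  rw [coeff_zero]
  exact e4.symm

private theorem span_aux (f : Module.Basis (Fin m) K[X] A) (hs : StB f s0) (hk : s0 ≤ k) {q : K[X]} (hq : q.Monic)
    (hqd : q.natDegree = k) {h : A} (hh : dg f (k - s0) h) (d : ℕ) : ∀ a : A, dg f d a →
    mkD K (algebraMap K[X] A q) h (C a) ∈ Submodule.span K[X] (Set.range (vv (k := k) f (algebraMap K[X] A q) h)) := by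
  have base : ∀ a : A, dg f k a →
      mkD K (algebraMap K[X] A q) h (C a) ∈ Submodule.span K[X] (Set.range (vv (k := k) f (algebraMap K[X] A q) h)) := by
    intro a ha
    rw [eq_elt f ha]
    unfold elt
    rw [map_sum, map_sum]
    refine Submodule.sum_mem _ fun x _ => ?_
    have e : mkD K (algebraMap K[X] A q) h (C (algebraMap K A ((f.repr a x.2).coeff (x.1 : ℕ)) *
        (tA K A ^ (x.1 : ℕ) * f x.2))) = (C ((f.repr a x.2).coeff (x.1 : ℕ)) : K[X]) •
          vv (k := k) f (algebraMap K[X] A q) h x := by
      unfold vv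
      rw [smulX, map_C, ← C_mul]
    rw [e]
    exact Submodule.smul_mem _ _ (Submodule.subset_span ⟨x, rfl⟩)
  induction d with
  | zero => exact fun a ha => base a (dg_mono f (Nat.zero_le _) ha)
  | succ d ih =>
    intro a ha
    rcases Nat.lt_or_ge d k with hdk | hdk
    · exact base a (dg_mono f hdk ha)
    · obtain ⟨b, hb⟩ : ∃ b : A, ∀ l, f.repr b l = C ((f.repr a l).coeff d) * X ^ (d - k) := by
        refine ⟨f.repr.symm (Finsupp.equivFunOnFinite.symm fun l => C ((f.repr a l).coeff d) * X ^ (d - k)), fun l => ?_⟩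
        rw [LinearEquiv.apply_symm_apply]
        rfl
      have hbn : ∀ l, (f.repr b l).natDegree ≤ d - k := by
        intro l
        rw [hb l]
        exact natDegree_C_mul_X_pow_le _ _
      have h1 : dg f d (a - algebraMap K[X] A q * b) := by
        rw [dg_coeff]
        intro l N hN
        rw [map_sub, Finsupp.sub_apply, coeff_sub, repr_q]
        rcases hN.eq_or_lt with rfl | hN
        · have h2 : (q * f.repr b l).coeff (k + (d - k)) = (f.repr b l).coeff (d - k) := by
            rw [coeff_mul_add_eq_of_natDegree_le hqd.le (hbn l)]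
            have h4 : q.coeff k = 1 := by rw [← hqd]; exact hq.coeff_natDegree
            rw [h4, one_mul]
          have h3 : k + (d - k) = d := by omega
          rw [h3] at h2
          rw [h2, hb l, coeff_C_mul_X_pow, if_pos rfl, sub_self]
        · rw [(dg_coeff f).1 ha l N hN, zero_sub, neg_eq_zero]
          apply coeff_eq_zero_of_natDegree_lt
          refine lt_of_le_of_lt natDegree_mul_le ?_
          have := hbn l
          omega
      have h2 : dg f d (h * b) := by
        have h3 := dg_mul f hs hh hbn
        exact dg_mono f (by omega) h3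
      have h3 : mkD K (algebraMap K[X] A q) h (C a) = mkD K (algebraMap K[X] A q) h (C (a - algebraMap K[X] A q * b)) -
          (X : K[X]) • mkD K (algebraMap K[X] A q) h (C (h * b)) := by
        rw [smulX, map_X, eq_sub_iff_add_eq, ← sub_eq_zero, ← map_add, ← map_sub]
        have e : C a + X * C (h * b) - C (a - algebraMap K[X] A q * b) =
            (C (algebraMap K[X] A q) + X * C h) * C b := by
          rw [C_sub, C_mul, C_mul]
          ring
        rw [e, map_mul, mkD_rel, zero_mul]
      rw [h3]
      exact Submodule.sub_mem _ (ih _ h1) (Submodule.smul_mem _ _ (ih _ h2))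

private theorem top_aux (f : Module.Basis (Fin m) K[X] A) (hs : StB f s0) (hk : s0 ≤ k) {q : K[X]} (hq : q.Monic)
    (hqd : q.natDegree = k) {h : A} (hh : dg f (k - s0) h) :
    ⊤ ≤ Submodule.span K[X] (Set.range (vv (k := k) f (algebraMap K[X] A q) h)) := by
  rintro z -
  obtain ⟨p, rfl⟩ := mkD_surj (K := K) (algebraMap K[X] A q) h z
  rw [p.as_sum_support_C_mul_X_pow, map_sum]
  refine Submodule.sum_mem _ fun n _ => ?_
  have e : mkD K (algebraMap K[X] A q) h (C (p.coeff n) * X ^ n) =
      (X ^ n : K[X]) • mkD K (algebraMap K[X] A q) h (C (p.coeff n)) := by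
    rw [smulX, Polynomial.map_pow, map_X, mul_comm]
  rw [e]
  obtain ⟨d, hd⟩ := dg_exists f (p.coeff n)
  exact Submodule.smul_mem _ _ (span_aux f hs hk hq hqd hh d _ hd)

theorem dd (f : Module.Basis (Fin m) K[X] A) (hs : StB f s0) (hk : s0 ≤ k) (t : Fin k → K) {h : A} (hh : dg f (k - s0) h) :
    ∃ (D : Type) (_ : CommRing D) (_ : Algebra K D) (_ : Algebra K[X] D) (_ : IsScalarTower K K[X] D)
      (_ : Module.Basis (Fin k × Fin m) K[X] D) (i : A →ₐ[K] D),
      i (algebraMap K[X] A (qq t)) + algebraMap K[X] D X * i h = 0 ∧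
      ∀ (F : Type) [CommRing F] [Algebra K F] (b : A →ₐ[K] F) (τ : F), b (algebraMap K[X] A (qq t)) + τ * b h = 0 →
        ∃! b' : D →ₐ[K] F, b'.comp i = b ∧ b' (algebraMap K[X] D X) = τ := by
  have hq : (qq t).Monic := monic_prod_X_sub_C t Finset.univ
  have hqd : (qq t).natDegree = k := by
    unfold qq
    rw [natDegree_prod_of_monic _ _ fun i _ => monic_X_sub_C (t i)]
    simp
  refine ⟨DT K (algebraMap K[X] A (qq t)) h, dRing _ _, dAlg _ _, dAlgX _ _, dTower _ _,
    Module.Basis.mk (li_aux f hs hk hq hqd hh) (top_aux f hs hk hq hqd hh),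
    (mkD K (algebraMap K[X] A (qq t)) h).comp CAlgHom, ?_, ?_⟩
  · rw [algX, map_X]
    have h1 := mkD_rel (K := K) (algebraMap K[X] A (qq t)) h
    rw [map_add, map_mul] at h1
    exact h1
  · intro F _ _ b τ hb
    have hc : ∀ a : A[X], a ∈ dI (algebraMap K[X] A (qq t)) h → aevalTower b τ a = 0 := by
      intro a ha
      unfold dI at ha
      obtain ⟨z, rfl⟩ := Ideal.mem_span_singleton'.1 ha
      rw [map_mul]
      have e : aevalTower b τ (C (algebraMap K[X] A (qq t)) + X * C h) = 0 := by
        rw [map_add, map_mul, aevalTower_C, aevalTower_C, aevalTower_X]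
        exact hb
      rw [e, mul_zero]
    refine ⟨Ideal.Quotient.liftₐ (dI (algebraMap K[X] A (qq t)) h) (aevalTower b τ) hc,
      ⟨?_, ?_⟩, ?_⟩
    · ext a
      change aevalTower b τ (C a) = b a
      exact aevalTower_C b τ a
    · rw [algX, map_X]
      change aevalTower b τ X = τ
      exact aevalTower_X b τ
    · rintro g ⟨hg1, hg2⟩
      apply Ideal.Quotient.algHom_ext
      refine Polynomial.algHom_ext' ?_ ?_
      · ext a
        have h1 := DFunLike.congr_fun hg1 a
        change g (mkD K (algebraMap K[X] A (qq t)) h (C a)) = aevalTower b τ (C a)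
        rw [aevalTower_C]
        exact h1
      · rw [algX, map_X] at hg2
        change g (mkD K (algebraMap K[X] A (qq t)) h X) = aevalTower b τ X
        rw [aevalTower_X]
        exact hg2

end H19.ES
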