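import Pool.Agent.H68.BB.Plc
import Pool.Agent.H68.BB.Red

/-! # ES.Pl : values of polynomials over `K` at integral and at nonintegral elements (proved) -/

namespace H19.ES

open Polynomial H68.BB

variable {K : Type} [Field K]

theorem rd_aeval {π : Place K (Om K)} {x : Om K} {x' : K} (h : Rd π.V π.φ x x') (p : K[X]) :
    Rd π.V π.φ (aeval x p) (p.eval x') := by
  induction p using Polynomial.induction_on' with
  | add p q hp hq => rw [map_add, eval_add]; exact hp.add hq
  | monomial n a =>
    rw [aeval_monomial, eval_monomial]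
    exact Rd.mul (π.const a) (h.pow n)

theorem natDegree_of_mem {π : Place K (Om K)} {x : Om K} (hx : x ∉ π.V) {p : K[X]} (h : aeval x p ∈ π.V) :
    p.natDegree = 0 := by
  have := π.isLocal
  by_contra hd
  have hx0 : x ≠ 0 := by
    intro h0
    apply hx
    rw [h0]
    exact π.V.zero_mem
  have hi : Rd π.V π.φ x⁻¹ 0 := Rd.inv_zero hx
  have h1 : Rd π.V π.φ (aeval x p * x⁻¹ ^ p.natDegree) 0 := by
    have h2 := (Rd.of_mem (φ := π.φ) h).mul (hi.pow p.natDegree)
    rw [zero_pow hd, mul_zero] at h2
    exact h2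
  have h3 : aeval x p * x⁻¹ ^ p.natDegree = aeval x⁻¹ p.reverse := by
    have : Invertible x := invertibleOfNonzero hx0
    have h5 := eval₂_reverse_mul_pow (algebraMap K (Om K)) x p
    rw [aeval_def, aeval_def, ← h5, invOf_eq_inv, mul_assoc, ← mul_pow, mul_inv_cancel₀ hx0, one_pow, mul_one]
  rw [h3] at h1
  have h4 := rd_aeval hi p.reverse
  have h5 := h1.unique h4
  rw [← coeff_zero_eq_eval_zero, coeff_zero_reverse] at h5
  have h6 : p = 0 := leadingCoeff_eq_zero.mp h5.symm
  exact hd (by rw [h6, natDegree_zero])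

end H19.ES
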