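import Pool.Agent.H19.ES.Fun
import Pool.Agent.H19.ES.Pl
import Pool.Agent.H67.KH.Roots

/-! # ES.ET : finite free algebras over `K[τ]`, unramified over `τ = 0` (about 300 lines)

`D` is finite free of rank `N` over `K[X]` (`X ↦ τ`), with `N` distinct homomorphisms `z j : D → K` over `τ ↦ 0`.  Then (at the place `π` with `tt ↦ 0`) every `z j` lifts to a homomorphism `bt j : D → Ω` over `τ ↦ tt`, and these are all.
`Algebra K[X] (Om K)` is the instance through `RatFunc K` (`algebraMap K[X] (Om K) X = tt K`).  `e : Basis (Fin N) K[X] D`.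
1. `E₀ = (z i (e a))` is invertible over `K`: `z i (∑ p_a e_a) = ∑ p_a(0) z i (e_a)` and the `z i` are linearly independent (Dedekind), so the rows of `E₀` are.
2. Fix `j`; choose `v ∈ D` with `z j v = 1`, `z i v = 0` for `i ≠ j` (the map `D → K^N` is surjective, by 1.).  `L` = the matrix of multiplication by `v` (`Algebra.leftMulMatrix e v`), `χ` = its characteristic polynomial in `K[X][T]`, monic of degree `N`.  `E₀ · L(0) = diag(z i v) · E₀`, so
`χ(0, T) = ∏ (T - z i v) = T^(N-1)(T - 1)`.
3. `χ` mapped to `Ω[T]`: coefficients reduce to those of `χ(0, T)` (the value of a polynomial of `K[X]` at `tt` reduces to its value at `0`), same degree: by `roots_rd` there is a root `ρ ∈ Ω` which reduces to `1`.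
4. `D_Ω = Ω ⊗_{K[X]} D` is a finite-dimensional commutative `Ω`-algebra, `det (ρ - v) = χ(ρ) = 0` (base change of the basis and the matrix), so `ρ ⊗ 1 - 1 ⊗ v` is not a unit; a maximal ideal containing it has residue field `Ω` (finite over the algebraically closed field `Ω`): a homomorphism
`b : D → Ω` over `X ↦ tt` with `b v = ρ`.
5. Every homomorphism `b : D → Ω` over `X ↦ tt` is integral at `π` (elements of `D` are integral over `K[X]`; `mem_of_root` in `H67.KH.Val`), so it reduces (`exists_redHom`) to a homomorphism `D → K` over `0`; that is one of the `z i` (`N + 1` distinct homomorphisms over `0` would be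
linearly independent, but they are determined by the values on the `e_a`).  For the `b` of 4. the reduction maps `v` to `1`: it is `z j`.  Put `bt j = b`.
6. The `bt j` are distinct, and `N + 1` distinct homomorphisms `D → Ω` over `X ↦ tt` are impossible (Dedekind over `Ω`, values on the `e_a`): every `b` is a `bt j`. -/

namespace H19.ES

open H68.BB Polynomial TensorProduct


/-- lifting of a point of a finite free algebra over a valuation ring of an algebraically closed field (going down) -/
private theorem gd {Ω κ A D : Type} [Field Ω] [IsAlgClosed Ω] [Field κ] [CommRing A] [CommRing D] [Algebra A D]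
    [Module.Free A D] [Module.Finite A D] (V : ValuationSubring Ω) (φ : V →+* κ) (f : A →+* V) (z : D →+* κ)
    (hz : ∀ a, z (algebraMap A D a) = φ (f a)) :
    ∃ b : D →+* V, (∀ a, b (algebraMap A D a) = f a) ∧ ∀ d, φ (b d) = z d := by
  let : Algebra A V := f.toAlgebra
  let : Algebra A κ := (φ.comp f).toAlgebra
  let φ' : V →ₐ[A] κ := { φ with commutes' := fun _ => rfl }
  let z' : D →ₐ[A] κ := { z with commutes' := fun a => hz a }
  let Z : V ⊗[A] D →ₐ[A] κ := Algebra.TensorProduct.productMap φ' z'
  let m : Ideal (V ⊗[A] D) := RingHom.ker Z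
  have hmp : m.IsPrime := RingHom.ker_isPrime Z
  obtain ⟨P, hP, hPp, hPo⟩ := Ideal.exists_ideal_le_liesOver_of_le (p := (⊥ : Ideal V)) (q := m.under V) m bot_le
  have hinj : Function.Injective (algebraMap V ((V ⊗[A] D) ⧸ P)) := by
    rw [RingHom.injective_iff_ker_eq_bot]
    have h1 := hPo.over
    rw [h1]
    ext v
    rw [RingHom.mem_ker, IsScalarTower.algebraMap_apply V (V ⊗[A] D) ((V ⊗[A] D) ⧸ P)]
    exact Ideal.Quotient.eq_zero_iff_mem
  have : Module.IsTorsionFree V ((V ⊗[A] D) ⧸ P) := Module.isTorsionFree_iff_algebraMap_injective.2 hinj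
  let g : ((V ⊗[A] D) ⧸ P) →ₐ[V] Ω := IsAlgClosed.lift
  have hg : Function.Injective g := by
    rw [RingHom.injective_iff_ker_eq_bot]
    apply Ideal.eq_bot_of_comap_eq_bot (R := V)
    rw [eq_bot_iff]
    intro v hv
    have h1 : g (algebraMap V _ v) = 0 := hv
    rw [AlgHom.commutes] at h1
    exact (Subtype.ext h1 : v = 0)
  have hV : ∀ x : V ⊗[A] D, g (Ideal.Quotient.mk P x) ∈ V := by
    intro x
    have h1 : IsIntegral V (g (Ideal.Quotient.mk P x)) := (Algebra.IsIntegral.isIntegral (R := V) (Ideal.Quotient.mk P x)).map g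
    obtain ⟨y, hy⟩ := (IsIntegrallyClosed.isIntegral_iff (K := Ω)).1 h1
    rw [← hy]
    exact y.2
  let b1 : V ⊗[A] D →+* V := ((g : _ →+* Ω).comp (Ideal.Quotient.mk P)).codRestrict V.toSubring hV
  have hb1 : ∀ v : V, b1 (algebraMap V (V ⊗[A] D) v) = v := by
    intro v
    apply Subtype.ext
    change g (Ideal.Quotient.mk P (algebraMap V (V ⊗[A] D) v)) = (v : Ω)
    exact g.commutes v
  have hk : ∀ x, φ (b1 x) = Z x := by
    intro x
    have h1 : x - algebraMap V (V ⊗[A] D) (b1 x) ∈ P := by
      rw [← Ideal.Quotient.eq_zero_iff_mem]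
      apply hg
      rw [map_zero]
      have h2 : b1 (x - algebraMap V (V ⊗[A] D) (b1 x)) = 0 := by
        rw [map_sub, hb1, sub_self]
      exact congrArg (fun v : V => (v : Ω)) h2
    have h3 : Z (x - algebraMap V (V ⊗[A] D) (b1 x)) = 0 := hP h1
    rw [map_sub, sub_eq_zero] at h3
    rw [h3]
    change _ = Z ((b1 x) ⊗ₜ[A] (1 : D))
    rw [Algebra.TensorProduct.productMap_apply_tmul, map_one, mul_one]
    rfl
  refine ⟨b1.comp (Algebra.TensorProduct.includeRight : D →ₐ[A] V ⊗[A] D).toRingHom, ?_, ?_⟩
  · intro a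
    change b1 ((1 : V) ⊗ₜ[A] algebraMap A D a) = f a
    have h1 : (1 : V) ⊗ₜ[A] algebraMap A D a = algebraMap V (V ⊗[A] D) (f a) := by
      rw [Algebra.algebraMap_eq_smul_one, ← TensorProduct.smul_tmul, Algebra.smul_def, mul_one]
      rfl
    rw [h1, hb1]
  · intro d
    change φ (b1 ((1 : V) ⊗ₜ[A] d)) = z d
    rw [hk, Algebra.TensorProduct.productMap_apply_tmul, map_one, one_mul]
    rfl

/-- at most `N` homomorphisms over `X ↦ c` -/
private theorem card_hom {K : Type} [Field K] {D F : Type} [CommRing D] [Algebra K D] [Algebra K[X] D] [IsScalarTower K K[X] D] [Field F]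
    [Algebra K F] {N : ℕ} (e : Module.Basis (Fin N) K[X] D) (c : F) {ι : Type} [Fintype ι] (b : ι → (D →ₐ[K] F))
    (hb : Function.Injective b) (hc : ∀ i, b i (algebraMap K[X] D X) = c) : Fintype.card ι ≤ N := by
  have h1 : LinearIndependent F (fun i => (b i).toLinearMap) :=
    (linearIndependent_algHom_toLinearMap K D F).comp b hb
  have hX : ∀ i (p : K[X]), b i (algebraMap K[X] D p) = aeval c p := by
    intro i p
    have h2 : (b i).comp (IsScalarTower.toAlgHom K K[X] D) = aeval c := by
      apply Polynomial.algHom_ext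
      rw [aeval_X]
      exact hc i
    exact DFunLike.congr_fun h2 p
  have h2 : LinearIndependent F (fun i => (fun a => b i (e a) : Fin N → F)) := by
    rw [Fintype.linearIndependent_iff] at h1 ⊢
    intro g hg
    apply h1 g
    ext d
    rw [LinearMap.sum_apply, LinearMap.zero_apply]
    have h3 : d = ∑ a, e.repr d a • e a := (e.sum_repr d).symm
    have h4 : ∀ i, b i d = ∑ a, aeval c (e.repr d a) * b i (e a) := by
      intro i
      conv_lhs => rw [h3]
      rw [map_sum]
      refine Finset.sum_congr rfl fun a _ => ?_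
      rw [Algebra.smul_def, map_mul, hX]
    have h5 : ∀ a, ∑ i, g i * b i (e a) = 0 := by
      intro a
      have := congrFun hg a
      rw [Finset.sum_apply] at this
      exact this
    calc ∑ i, (g i • (b i).toLinearMap) d = ∑ i, ∑ a, aeval c (e.repr d a) * (g i * b i (e a)) := by
          refine Finset.sum_congr rfl fun i _ => ?_
          rw [LinearMap.smul_apply, AlgHom.toLinearMap_apply, smul_eq_mul, h4, Finset.mul_sum]
          refine Finset.sum_congr rfl fun a _ => ?_
          ring
      _ = ∑ a, aeval c (e.repr d a) * ∑ i, g i * b i (e a) := by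
          rw [Finset.sum_comm]
          refine Finset.sum_congr rfl fun a _ => ?_
          rw [Finset.mul_sum]
      _ = 0 := by
          refine Finset.sum_eq_zero fun a _ => ?_
          rw [h5, mul_zero]
  have h3 := h2.fintype_card_le_finrank
  rwa [Module.finrank_fin_fun] at h3

variable {K : Type} [Field K] [IsAlgClosed K]

theorem et {D : Type} [CommRing D] [Algebra K D] [Algebra K[X] D] [IsScalarTower K K[X] D] {N : ℕ}
    (e : Module.Basis (Fin N) K[X] D) (z : Fin N → (D →ₐ[K] K)) (hz : Function.Injective z)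
    (hz0 : ∀ j, z j (algebraMap K[X] D X) = 0) {π : Place K (Om K)} (h0 : Rd π.V π.φ (tt K) 0) :
    ∃ bt : Fin N → (D →ₐ[K] Om K), (∀ j, bt j (algebraMap K[X] D X) = tt K) ∧ (∀ j r, Rd π.V π.φ (bt j r) (z j r)) ∧
      ∀ b : D →ₐ[K] Om K, b (algebraMap K[X] D X) = tt K → ∃ j, b = bt j := by
  have hmem : ∀ p : K[X], aeval (tt K) p ∈ π.V := fun p => (rd_aeval h0 p).mem
  let f : K[X] →+* π.V := ((aeval (tt K) : K[X] →ₐ[K] Om K) : K[X] →+* Om K).codRestrict π.V.toSubring hmem
  have hf : ∀ p, ((f p : π.V) : Om K) = aeval (tt K) p := fun p => rfl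
  have hfφ : ∀ p, π.φ (f p) = p.eval 0 := by
    intro p
    obtain ⟨h1, h2⟩ := rd_aeval h0 p
    exact h2
  have hzX : ∀ j (p : K[X]), z j (algebraMap K[X] D p) = p.eval 0 := by
    intro j p
    have h2 : (z j).comp (IsScalarTower.toAlgHom K K[X] D) = aeval (0 : K) := by
      apply Polynomial.algHom_ext
      rw [aeval_X]
      exact hz0 j
    have h3 := DFunLike.congr_fun h2 p
    rw [coe_aeval_eq_eval] at h3
    exact h3
  have : Module.Free K[X] D := Module.Free.of_basis e
  have : Module.Finite K[X] D := Module.Finite.of_basis e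
  have hlift : ∀ j, ∃ b : D →ₐ[K] Om K, b (algebraMap K[X] D X) = tt K ∧ ∀ r, Rd π.V π.φ (b r) (z j r) := by
    intro j
    obtain ⟨b, hb1, hb2⟩ := gd (A := K[X]) (D := D) π.V π.φ f (z j : D →+* K) (fun p => (hzX j p).trans (hfφ p).symm)
    refine ⟨{ (π.V.subtype : π.V →+* Om K).comp b with
      commutes' := fun c => ?_ }, ?_, ?_⟩
    · change ((b (algebraMap K D c) : π.V) : Om K) = _
      rw [IsScalarTower.algebraMap_apply K K[X] D, hb1, hf, algebraMap_eq, aeval_C]
    · change ((b (algebraMap K[X] D X) : π.V) : Om K) = _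
      rw [hb1, hf, aeval_X]
    · intro r
      exact ⟨(b r).2, hb2 r⟩
  choose bt hbt1 hbt2 using hlift
  refine ⟨bt, hbt1, hbt2, ?_⟩
  intro b hb
  by_contra hne
  push Not at hne
  have hbi : Function.Injective bt := by
    intro i j hij
    apply hz
    ext r
    have h1 := hbt2 i r
    rw [hij] at h1
    exact h1.unique (hbt2 j r)
  have h1 := card_hom e (tt K) (fun o : Option (Fin N) => o.elim b bt) (by
    intro o o' h
    cases o with
    | none =>
      cases o' with
      | none => rfl
      | some j => exact absurd h (hne j)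
    | some i =>
      cases o' with
      | none => exact absurd h.symm (hne i)
      | some j => rw [hbi h]) (by
    intro o
    cases o with
    | none => exact hb
    | some i => exact hbt1 i)
  rw [Fintype.card_option, Fintype.card_fin] at h1
  omega

end H19.ES
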