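import Pool.Agent.H19.ES.Def2

/-! # ES.Frm : formal properties of products of the matrices `Bm` (about 200 lines)

`Frm.mul`: entries `(MN)₀₀ = M₀₀N₀₀ + M₀₁N₁₀` etc., `Polynomial.reflect_mul` (`reflect (F+G) (f*g) = reflect F f * reflect G g` if `natDegree f ≤ F`, `natDegree g ≤ G`), `reflect N (reflect N f) = f` (`Polynomial.reflect_invol`),
`natDegree` of `M 1 0`, `M 1 1` by `deg`; top coefficient of `(MN)₀₀`: `coeff (k+l)` of a product is the product of the top coefficients (`Polynomial.coeff_mul_of_natDegree_le` or `coeff_mul_degree_add_degree`),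
the top coefficient of `N₁₀` is `±` the `0`-th coefficient of `N₀₁`, which is `0`.  `frm_Ch`, `det_Ch`: induction with `Ch_succ` (`List.ofFn_succ`, `List.prod_cons`).  `adj`: `(Bm β x δ) (Bm x β (-δ)) = x f`.
`Ch_recut`: `Ch` is the product of the parts before, at and after `i, i+1`: write `List.ofFn` as `take i ++ [a, b] ++ drop (i+2)`, or induction on `i`. -/

namespace H19.ES

open H68.BB Polynomial

variable {R : Type} [CommRing R]

private theorem lin_deg (a b : R) : (C a * X + C b).natDegree ≤ 1 := natDegree_linear_le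

private theorem lin_reflect (a b : R) : (C a * X + C b).reflect 1 = C b * X + C a := by
  have h := reflect_C_mul_X_pow (R := R) 1 1 (c := a)
  rw [pow_one] at h
  rw [reflect_add, h, reflect_C, revAt_le (le_refl 1), Nat.sub_self, pow_zero, pow_one, mul_one,
    add_comm]

private theorem quad_reflect (a b c : R) :
    (C a * X ^ 2 + C b * X + C c).reflect 2 = C c * X ^ 2 + C b * X + C a := by
  have h := reflect_C_mul_X_pow (R := R) 2 1 (c := b)
  rw [pow_one] at h
  rw [reflect_add, reflect_add, h, reflect_C_mul_X_pow, reflect_C, revAt_le (le_refl 2),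
    revAt_le (by norm_num : 1 ≤ 2)]
  norm_num
  ring

private theorem reflect_sgn (n N : ℕ) (p : R[X]) :
    ((-1) ^ n * p).reflect N = (-1) ^ n * p.reflect N := by
  have : ((-1 : R[X]) ^ n) = C ((-1) ^ n) := by simp
  rw [this, reflect_C_mul]

private theorem coeff_sgn (n N : ℕ) (p : R[X]) :
    ((-1) ^ n * p).coeff N = (-1) ^ n * p.coeff N := by
  have : ((-1 : R[X]) ^ n) = C ((-1) ^ n) := by simp
  rw [this, coeff_C_mul]

private theorem coeff_mul_add {k l : ℕ} {p q : R[X]} (hp : p.natDegree ≤ k)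
    (hq : q.natDegree ≤ l) : (p * q).coeff (k + l) = p.coeff k * q.coeff l :=
  coeff_mul_add_eq_of_natDegree_le hp hq

private theorem prod_natDegree {k : ℕ} (be ga : Fin k → R) :
    (∏ i, ff (be i) (ga i)).natDegree ≤ 2 * k := by
  have h1 : ∀ i, (ff (be i) (ga i)).natDegree ≤ 2 := by
    intro i
    unfold ff
    compute_degree
  refine (natDegree_prod_le _ _).trans ((Finset.sum_le_sum fun i _ => h1 i).trans ?_)
  simp [mul_comm]

theorem Ch_succ {k : ℕ} (be x d : Fin (k + 1) → R) :
    Ch be x d = Bm (be 0) (x 0) (d 0) * Ch (fun i => be i.succ) (fun i => x i.succ) (fun i => d i.succ) := by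
  unfold Ch
  rw [List.ofFn_succ, List.prod_cons]

theorem frm_one : Frm 0 (1 : Matrix (Fin 2) (Fin 2) R[X]) 1 1 := by
  refine ⟨?_, ?_, ?_, ?_, ?_, ?_⟩
  · intro i j
    rw [Matrix.one_apply]
    split_ifs
    · rw [natDegree_one]
    · rw [natDegree_zero]
  · rw [Matrix.one_apply_eq, Matrix.one_apply_eq, ← C_1, reflect_C]
    simp
  · rw [Matrix.one_apply_ne (by decide), Matrix.one_apply_ne (by decide), reflect_zero, mul_zero]
  · rw [Matrix.one_apply_eq, coeff_one_zero]
  · rw [Matrix.one_apply_eq, coeff_one_zero]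
    simp
  · rw [Matrix.one_apply_ne (by decide), coeff_zero]

theorem frm_Bm (be x d : R) : Frm 1 (Bm be x d) x be := by
  have h00 : Bm be x d 0 0 = C x * X + C (-be) := by
    rw [C_neg, ← sub_eq_add_neg]
    rfl
  have h01 : Bm be x d 0 1 = C d * X + C 0 := by
    rw [C_0, add_zero]
    rfl
  have h10 : Bm be x d 1 0 = C 0 * X + C d := by
    rw [C_0, zero_mul, zero_add]
    rfl
  have h11 : Bm be x d 1 1 = C be * X + C (-x) := by
    rw [C_neg, ← sub_eq_add_neg]
    rfl
  refine ⟨?_, ?_, ?_, ?_, ?_, ?_⟩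
  · intro i j
    fin_cases i <;> fin_cases j
    · change (Bm be x d 0 0).natDegree ≤ 1
      rw [h00]
      exact lin_deg _ _
    · change (Bm be x d 0 1).natDegree ≤ 1
      rw [h01]
      exact lin_deg _ _
    · change (Bm be x d 1 0).natDegree ≤ 1
      rw [h10]
      exact lin_deg _ _
    · change (Bm be x d 1 1).natDegree ≤ 1
      rw [h11]
      exact lin_deg _ _
  · rw [h11, h00, lin_reflect]
    simp only [C_neg]
    ring
  · rw [h10, h01, lin_reflect]
    simp only [C_0]
    ring
  · rw [h00]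
    simp
  · rw [h00]
    simp
  · rw [h01]
    simp

theorem Frm.mul {k l : ℕ} {M N : Matrix (Fin 2) (Fin 2) R[X]} {X0 B0 Y0 D0 : R} (h : Frm k M X0 B0) (h' : Frm l N Y0 D0) :
    Frm (k + l) (M * N) (X0 * Y0) (B0 * D0) := by
  have m00 : (M * N) 0 0 = M 0 0 * N 0 0 + M 0 1 * N 1 0 := by
    rw [Matrix.mul_apply, Fin.sum_univ_two]
  have m01 : (M * N) 0 1 = M 0 0 * N 0 1 + M 0 1 * N 1 1 := by
    rw [Matrix.mul_apply, Fin.sum_univ_two]
  have m10 : (M * N) 1 0 = M 1 0 * N 0 0 + M 1 1 * N 1 0 := by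
    rw [Matrix.mul_apply, Fin.sum_univ_two]
  have m11 : (M * N) 1 1 = M 1 0 * N 0 1 + M 1 1 * N 1 1 := by
    rw [Matrix.mul_apply, Fin.sum_univ_two]
  have hone : ((-1 : R[X]) ^ l) * (-1) ^ l = 1 := by
    rw [← mul_pow]
    simp
  have hra : ∀ (p q : R[X]), p.natDegree ≤ k → q.natDegree ≤ l →
      (p * q).reflect (k + l) = p.reflect k * q.reflect l := fun p q hp hq => reflect_mul p q hp hq
  have hrN10 : (N 1 0).reflect l = (-1) ^ (l + 1) * N 0 1 := by
    rw [h'.m10, reflect_sgn, reflect_reflect]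
  have hrN11 : (N 1 1).reflect l = (-1) ^ l * N 0 0 := by
    rw [h'.m11, reflect_sgn, reflect_reflect]
  refine ⟨?_, ?_, ?_, ?_, ?_, ?_⟩
  · intro i j
    rw [Matrix.mul_apply, Fin.sum_univ_two]
    refine (natDegree_add_le _ _).trans (max_le ?_ ?_)
    · exact natDegree_mul_le.trans (add_le_add (h.deg _ _) (h'.deg _ _))
    · exact natDegree_mul_le.trans (add_le_add (h.deg _ _) (h'.deg _ _))
  · rw [m11, m00, reflect_add, hra _ _ (h.deg _ _) (h'.deg _ _), hra _ _ (h.deg _ _) (h'.deg _ _),
      hrN10, h.m10, h.m11, h'.m11, pow_add, pow_succ, pow_succ]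
    linear_combination ((-1 : R[X]) ^ k * (M 0 1).reflect k * N 0 1) * hone
  · rw [m10, m01, reflect_add, hra _ _ (h.deg _ _) (h'.deg _ _), hra _ _ (h.deg _ _) (h'.deg _ _),
      hrN11, h.m10, h.m11, h'.m10, pow_succ, pow_succ, pow_succ, pow_add]
    linear_combination ((-1 : R[X]) ^ k * (M 0 1).reflect k * N 0 0) * hone
  · rw [m00, coeff_add, coeff_mul_add (h.deg _ _) (h'.deg _ _),
      coeff_mul_add (h.deg _ _) (h'.deg _ _), h.top, h'.top, h'.m10, coeff_sgn, coeff_reflect,
      revAt_le (le_refl l), Nat.sub_self, h'.r0]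
    ring
  · rw [m00, coeff_add, mul_coeff_zero, mul_coeff_zero, h.bot, h'.bot, h.r0, pow_add]
    ring
  · rw [m01, coeff_add, mul_coeff_zero, mul_coeff_zero, h'.r0, h.r0]
    ring

theorem frm_Ch {k : ℕ} (be x d : Fin k → R) : Frm k (Ch be x d) (∏ i, x i) (∏ i, be i) := by
  induction k with
  | zero =>
    have : Ch be x d = 1 := by
      unfold Ch
      simp
    rw [this]
    simpa using frm_one (R := R)
  | succ k ih =>
    rw [Ch_succ, Fin.prod_univ_succ, Fin.prod_univ_succ]
    have h1 := (frm_Bm (be 0) (x 0) (d 0)).mul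
      (ih (fun i => be i.succ) (fun i => x i.succ) (fun i => d i.succ))
    have h2 : 1 + k = k + 1 := add_comm _ _
    rw [h2] at h1
    exact h1

theorem det_Bm {be ga x d : R} (h : Con be ga x d) : (Bm be x d).det = C x * ff be ga := by
  have h' : (C (d ^ 2 + x ^ 2 - 2 * ga * x + be ^ 2) : R[X]) = 0 := by
    have h0 : d ^ 2 + x ^ 2 - 2 * ga * x + be ^ 2 = 0 := h
    rw [h0, C_0]
  unfold Bm ff
  rw [Matrix.det_fin_two_of]
  simp only [C_add, C_sub, C_mul, C_pow] at h' ⊢
  linear_combination (-X) * h'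

theorem adj_Bm (be x d : R) : Bm be x d * Bm x be (-d) = (Bm be x d).det • 1 ∧ Bm x be (-d) * Bm be x d = (Bm be x d).det • 1 := by
  have hd : (Bm be x d).det = (C x * X - C be) * (C be * X - C x) - C d * X * C d := by
    unfold Bm
    rw [Matrix.det_fin_two_of]
  rw [hd]
  unfold Bm
  constructor
  · ext1 i j
    fin_cases i <;> fin_cases j <;>
      simp [Matrix.mul_apply, Fin.sum_univ_two] <;> ring
  · ext1 i j
    fin_cases i <;> fin_cases j <;>
      simp [Matrix.mul_apply, Fin.sum_univ_two] <;> ring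

theorem det_Ch {k : ℕ} {be ga x d : Fin k → R} (h : ∀ i, Con (be i) (ga i) (x i) (d i)) :
    (Ch be x d).det = C (∏ i, x i) * ∏ i, ff (be i) (ga i) := by
  induction k with
  | zero =>
    have : Ch be x d = 1 := by
      unfold Ch
      simp
    rw [this]
    simp
  | succ k ih =>
    rw [Ch_succ, Matrix.det_mul, det_Bm (h 0), ih (fun i => h i.succ), Fin.prod_univ_succ,
      Fin.prod_univ_succ, C_mul]
    ring

theorem Frm.map {S : Type} [CommRing S] (φ : R →+* S) {k : ℕ} {M : Matrix (Fin 2) (Fin 2) R[X]} {X0 B0 : R}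
    (h : Frm k M X0 B0) : Frm k (M.map (mapRingHom φ)) (φ X0) (φ B0) := by
  refine ⟨?_, ?_, ?_, ?_, ?_, ?_⟩
  · intro i j
    rw [Matrix.map_apply]
    exact (natDegree_map_le).trans (h.deg i j)
  · rw [Matrix.map_apply, Matrix.map_apply, h.m11, map_mul, map_pow, map_neg, map_one]
    congr 1
    exact (reflect_map _ _ _).symm
  · rw [Matrix.map_apply, Matrix.map_apply, h.m10, map_mul, map_pow, map_neg, map_one]
    congr 1
    exact (reflect_map _ _ _).symm
  · rw [Matrix.map_apply, coe_mapRingHom, coeff_map, h.top]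
  · rw [Matrix.map_apply, coe_mapRingHom, coeff_map, h.bot]
    simp
  · rw [Matrix.map_apply, coe_mapRingHom, coeff_map, h.r0, map_zero]

theorem Ch_map {S : Type} [CommRing S] (φ : R →+* S) {k : ℕ} (be x d : Fin k → R) :
    (Ch be x d).map (mapRingHom φ) = Ch (φ ∘ be) (φ ∘ x) (φ ∘ d) := by
  induction k with
  | zero =>
    have h0 : ∀ (T : Type) [CommRing T] (b y e : Fin 0 → T), Ch b y e = 1 := by
      intro T _ b y e
      unfold Ch
      simp
    rw [h0, h0]
    exact Matrix.map_one _ (map_zero _) (map_one _)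
  | succ k ih =>
    rw [Ch_succ, Ch_succ, Matrix.map_mul, ih]
    congr 1
    unfold Bm
    ext1 i j
    fin_cases i <;> fin_cases j <;> simp

theorem ff_map {S : Type} [CommRing S] (φ : R →+* S) (be ga : R) : (ff be ga).map φ = ff (φ be) (φ ga) := by
  unfold ff
  rw [Polynomial.map_add, Polynomial.map_sub, Polynomial.map_mul, Polynomial.map_mul,
    Polynomial.map_pow, map_C, map_C, map_X, map_mul φ, map_ofNat φ]

theorem ff_reflect (be ga : R) : (ff be ga).reflect 2 = ff be ga := by
  have h : ff be ga = C be * X ^ 2 + C (-(2 * ga)) * X + C be := by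
    unfold ff
    rw [C_neg]
    ring
  rw [h, quad_reflect]

theorem ff_natDegree (be ga : R) : (ff be ga).natDegree ≤ 2 := by
  unfold ff
  compute_degree

theorem prod_ff_reflect {k : ℕ} (be ga : Fin k → R) : (∏ i, ff (be i) (ga i)).reflect (2 * k) = ∏ i, ff (be i) (ga i) := by
  induction k with
  | zero => simp
  | succ k ih =>
    rw [Fin.prod_univ_succ, show 2 * (k + 1) = 2 + 2 * k by ring,
      reflect_mul _ _ (ff_natDegree _ _) (prod_natDegree _ _), ff_reflect, ih]

theorem prod_ff_natDegree {k : ℕ} (be ga : Fin k → R) : (∏ i, ff (be i) (ga i)).natDegree ≤ 2 * k := by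
  exact prod_natDegree be ga

theorem prod_ff_coeff_zero {k : ℕ} (be ga : Fin k → R) : (∏ i, ff (be i) (ga i)).coeff 0 = ∏ i, be i := by
  have h : ∀ i, (ff (be i) (ga i)).coeff 0 = be i := by
    intro i
    unfold ff
    simp
  have h2 := map_prod (constantCoeff : R[X] →+* R) (fun i => ff (be i) (ga i)) Finset.univ
  simp only [constantCoeff_apply] at h2
  rw [h2]
  exact Finset.prod_congr rfl fun i _ => h i

/-- the determinant of a matrix with the formal properties -/
theorem Frm.det {k : ℕ} {M : Matrix (Fin 2) (Fin 2) R[X]} {X0 B0 : R} (h : Frm k M X0 B0) :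
    M.det = (-1) ^ k * (M 0 0 * (M 0 0).reflect k + M 0 1 * (M 0 1).reflect k) := by
  rw [Matrix.det_fin_two, h.m11, h.m10, pow_succ]
  ring

/-- recutting at the places `i, i + 1` does not change the product -/
theorem Ch_recut {k : ℕ} {be x d be' x' d' : Fin k → R} {i j : Fin k} (hij : (j : ℕ) = i + 1)
    (h : ∀ l, l ≠ i → l ≠ j → be l = be' l ∧ x l = x' l ∧ d l = d' l)
    (hB : Bm (be i) (x i) (d i) * Bm (be j) (x j) (d j) = Bm (be' i) (x' i) (d' i) * Bm (be' j) (x' j) (d' j)) :
    Ch be x d = Ch be' x' d' := by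
  induction k with
  | zero => exact i.elim0
  | succ k ih =>
    rw [Ch_succ be x d, Ch_succ be' x' d']
    rcases Fin.eq_zero_or_eq_succ i with rfl | ⟨i', rfl⟩
    · obtain ⟨k', rfl⟩ : ∃ k', k = k' + 1 := by
        have h1 := j.2
        rw [hij] at h1
        exact ⟨k - 1, by have h2 : ((0 : Fin (k + 1)) : ℕ) = 0 := rfl
                         omega⟩
      have hj : j = Fin.succ 0 := by
        apply Fin.ext
        rw [hij]
        rfl
      subst hj
      rw [Ch_succ (fun i => be i.succ), Ch_succ (fun i => be' i.succ), ← mul_assoc, ← mul_assoc,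
        hB]
      have hr : ∀ l : Fin k', be l.succ.succ = be' l.succ.succ ∧ x l.succ.succ = x' l.succ.succ ∧
          d l.succ.succ = d' l.succ.succ := by
        intro l
        apply h
        · exact Fin.succ_ne_zero _
        · intro h3
          exact Fin.succ_ne_zero _ (Fin.succ_injective _ h3)
      congr 2
      · funext l; exact (hr l).1
      · funext l; exact (hr l).2.1
      · funext l; exact (hr l).2.2
    · obtain ⟨j', rfl⟩ : ∃ j', j = Fin.succ j' := by
        rcases Fin.eq_zero_or_eq_succ j with rfl | h4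
        · exfalso
          have h5 : ((0 : Fin (k + 1)) : ℕ) = 0 := rfl
          omega
        · exact h4
      have h0 := h 0 (Fin.succ_ne_zero _).symm (Fin.succ_ne_zero _).symm
      rw [h0.1, h0.2.1, h0.2.2]
      congr 1
      refine ih (i := i') (j := j') ?_ ?_ hB
      · rw [Fin.val_succ, Fin.val_succ] at hij
        omega
      · intro l h1 h2
        exact h l.succ (fun h3 => h1 (Fin.succ_injective _ h3)) (fun h3 => h2 (Fin.succ_injective _ h3))

end H19.ES
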