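import Pool.Agent.H19.ES.Frm
import Pool.Agent.H67.KH.Krull

/-! # ES.Kr : the system of equations (about 300 lines)

`N ∈ K[u_0..u_E][τ][λ]` (outer variable `λ`, inner `τ`): `τ`-degree `≤ 2E`, `λ`-degree `≤ 2k`, palindromic for every value of `u`, at `u = 0` constant in `τ` and equal to `f0`, at `τ = 0` equal to `f0` for every `u`.  `M0` over `K[λ]` with `Frm k M0 (w0²) (f0 0)`, `det M0 = w0² f0`.
UNKNOWNS: `u` (`E + 1`), `dw_e` (`E`), `dp_{j,n}` (`j = 1..k-1`, `n < 2E`), `dr_{j,n}` (`j = 1..k`, `n < 2E`): together `4Ek + 1`.  `w = w0 + ∑ dw_e τ^(e+1)`; `p_j = (M0 0 0).coeff j + ∑ dp_{j,n} τ^(n+1)` for `1 ≤ j ≤ k-1`, `p_0 = (-1)^k N_u.coeff 0`, `p_k = w²`;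
`r_j = (M0 0 1).coeff j + ∑ dr_{j,n} τ^(n+1)`, `1 ≤ j ≤ k`, `r_0 = 0`; `M₀₀ = ∑ p_j λ^j`, `M₀₁ = ∑ r_j λ^j`, `M₁₁ = (-1)^k reflect k M₀₀`, `M₁₀ = (-1)^(k+1) reflect k M₀₁`: `Frm k M (w²) (N_u.coeff 0)`.
EQUATIONS: `P := det M - C (w²) * N_u` (`Frm.det`) has `τ`-degree `≤ 4E` (each coefficient in `λ`), `λ`-degree `≤ 2k`, is palindromic (`reflect (2k) P = P`), its coefficients at `λ^0` (and `λ^(2k)`) vanish (`(-1)^k p_0 p_k = w² N_u.coeff 0`), and at `τ = 0` it is `0`
(`M` becomes `M0`, `N_u` becomes `f0`).  So `P = 0` iff the coefficients at `τ^(n+1) λ^(j+1)`, `n < 4E`, `j < k`, vanish: `4Ek` equations.  They are polynomials in the unknowns (do the construction over the ring `MvPolynomial ι K` of the unknowns; all constructions commute with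
`MvPolynomial.eval`), and vanish when all unknowns are `0` (`M = M0`, `w = w0`, `N_0 = f0`).  `H67.KH.krull` gives `n` equations in `n + 1` unknowns a common zero `≠ 0` (reindex by `Fintype.equivFin`).  A solution with `u = 0`, `w` constant and all coefficients constant in `τ` has all unknowns `0`. -/

namespace H19.ES

open H68.BB Polynomial

variable {K : Type} [Field K] [IsAlgClosed K]

/-- the value of `N` at `u` -/
noncomputable def atU {E : ℕ} (N : (MvPolynomial (Fin (E + 1)) K)[X][X]) (u : Fin (E + 1) → K) : K[X][X] :=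
  N.map (mapRingHom (MvPolynomial.eval u))

/-! ### polynomials with prescribed coefficients -/

section inn
variable {R : Type} [CommRing R]

/-- the polynomial with the coefficients `c, y 0, y 1, ..` -/
private noncomputable def inn (c : R) (D : ℕ) (y : Fin D → R) : R[X] :=
  C c + ∑ n : Fin D, C (y n) * X ^ ((n : ℕ) + 1)

private theorem inn_coeff_zero (c : R) (D : ℕ) (y : Fin D → R) : (inn c D y).coeff 0 = c := by
  unfold inn
  rw [coeff_add, coeff_C_zero, finsetSum_coeff, Finset.sum_eq_zero, add_zero]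
  intro n _
  rw [coeff_C_mul, coeff_X_pow, if_neg (by omega), mul_zero]

private theorem inn_coeff_succ (c : R) (D : ℕ) (y : Fin D → R) (n : Fin D) : (inn c D y).coeff ((n : ℕ) + 1) = y n := by
  unfold inn
  rw [coeff_add, coeff_C_succ, zero_add, finsetSum_coeff, Finset.sum_eq_single n]
  · rw [coeff_C_mul, coeff_X_pow, if_pos rfl, mul_one]
  · intro m _ hm
    rw [coeff_C_mul, coeff_X_pow, if_neg, mul_zero]
    intro h
    exact hm (Fin.ext (by omega))
  · intro h
    exact absurd (Finset.mem_univ _) h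

private theorem inn_natDegree (c : R) (D : ℕ) (y : Fin D → R) : (inn c D y).natDegree ≤ D := by
  unfold inn
  refine (natDegree_add_le _ _).trans (max_le ?_ ?_)
  · rw [natDegree_C]
    exact Nat.zero_le _
  · refine natDegree_sum_le_of_forall_le _ _ fun n _ => ?_
    exact (natDegree_C_mul_X_pow_le _ _).trans n.2

private theorem inn_map {S : Type} [CommRing S] (φ : R →+* S) (c : R) (D : ℕ) (y : Fin D → R) :
    (inn c D y).map φ = inn (φ c) D (fun n => φ (y n)) := by
  unfold inn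
  rw [Polynomial.map_add, map_C, Polynomial.map_sum]
  congr 1
  refine Finset.sum_congr rfl fun n _ => ?_
  rw [Polynomial.map_mul, map_C, Polynomial.map_pow, map_X]

private theorem inn_ext {p : R[X]} {c : R} {D : ℕ} {y : Fin D → R} (hp : p.natDegree ≤ D) (h0 : p.coeff 0 = c)
    (h1 : ∀ n : Fin D, p.coeff ((n : ℕ) + 1) = y n) : p = inn c D y := by
  ext m
  rcases m with _ | m
  · rw [h0, inn_coeff_zero]
  · by_cases hm : m < D
    · exact (h1 ⟨m, hm⟩).trans (inn_coeff_succ c D y ⟨m, hm⟩).symm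
    · rw [coeff_eq_zero_of_natDegree_lt (by omega),
        coeff_eq_zero_of_natDegree_lt (lt_of_le_of_lt (inn_natDegree c D y) (by omega))]

private theorem reflect_natDegree {k : ℕ} {p : R[X]} (hp : p.natDegree ≤ k) : (p.reflect k).natDegree ≤ k := by
  rw [natDegree_le_iff_coeff_eq_zero]
  intro j hj
  rw [coeff_reflect]
  have h1 : (revAt k) j = j := by
    rw [revAt_eq_self_of_lt hj]
  rw [h1]
  exact coeff_eq_zero_of_natDegree_lt (by omega)

private theorem sgn_natDegree {k n : ℕ} {p : R[X]} (hp : p.natDegree ≤ k) : ((-1) ^ n * p).natDegree ≤ k := by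
  have : ((-1 : R[X]) ^ n) = C ((-1) ^ n) := by simp
  rw [this]
  exact (natDegree_C_mul_le _ _).trans hp

private theorem frm_mk {k : ℕ} {p r : R[X]} {X0 B0 : R} (hp : p.natDegree ≤ k) (hr : r.natDegree ≤ k)
    (h1 : p.coeff k = X0) (h2 : p.coeff 0 = (-1) ^ k * B0) (h3 : r.coeff 0 = 0) :
    Frm k !![p, r; (-1) ^ (k + 1) * r.reflect k, (-1) ^ k * p.reflect k] X0 B0 := by
  refine ⟨?_, rfl, rfl, h1, h2, h3⟩
  have h4 : ((-1) ^ (k + 1) * r.reflect k).natDegree ≤ k := sgn_natDegree (reflect_natDegree hr)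
  have h5 : ((-1) ^ k * p.reflect k).natDegree ≤ k := sgn_natDegree (reflect_natDegree hp)
  rw [Fin.forall_fin_two, Fin.forall_fin_two, Fin.forall_fin_two]
  exact ⟨⟨hp, hr⟩, ⟨h4, h5⟩⟩

private theorem map_mk {S : Type} [CommRing S] (φ : R →+* S) {k : ℕ} {p r : R[X]} {M0 : Matrix (Fin 2) (Fin 2) S[X]}
    {X0 B0 : S} (h : Frm k M0 X0 B0) (hp : p.map φ = M0 0 0) (hr : r.map φ = M0 0 1) :
    (!![p, r; (-1) ^ (k + 1) * r.reflect k, (-1) ^ k * p.reflect k]).map (mapRingHom φ) = M0 := by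
  ext1 i j
  rw [Matrix.map_apply]
  fin_cases i <;> fin_cases j
  · exact hp
  · exact hr
  · change (mapRingHom φ) ((-1) ^ (k + 1) * r.reflect k) = M0 1 0
    rw [map_mul, map_pow, map_neg, map_one, h.m10, coe_mapRingHom, ← reflect_map, hr]
  · change (mapRingHom φ) ((-1) ^ k * p.reflect k) = M0 1 1
    rw [map_mul, map_pow, map_neg, map_one, h.m11, coe_mapRingHom, ← reflect_map, hp]

private theorem det_mk (k : ℕ) (p r : R[X]) :
    (!![p, r; (-1) ^ (k + 1) * r.reflect k, (-1) ^ k * p.reflect k]).det =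
      (-1) ^ k * (p * p.reflect k + r * r.reflect k) := by
  rw [Matrix.det_fin_two_of, pow_succ]
  ring

end inn

/-! ### the construction over a ring of unknowns -/

/-- the unknowns -/
private abbrev Un (E k : ℕ) : Type := Fin (E + 1) ⊕ (Fin E ⊕ (Fin k × Fin (2 * E) ⊕ Fin (k + 1) × Fin (2 * E)))

section cons
omit [IsAlgClosed K]
variable {R : Type} [CommRing R] [Algebra K R] {E k : ℕ}

private noncomputable def WW (w0 : K) (z : Un E k → R) : R[X] :=
  inn (algebraMap K R w0) E (fun e => z (Sum.inr (Sum.inl e)))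

private noncomputable def NN (N : (MvPolynomial (Fin (E + 1)) K)[X][X]) (z : Un E k → R) : R[X][X] :=
  N.map (mapRingHom ((MvPolynomial.aeval (fun i => z (Sum.inl i)) : MvPolynomial (Fin (E + 1)) K →ₐ[K] R) :
    MvPolynomial (Fin (E + 1)) K →+* R))

private noncomputable def PP (N : (MvPolynomial (Fin (E + 1)) K)[X][X]) (w0 : K) (m : K[X]) (z : Un E k → R) : R[X][X] :=
  inn ((-1) ^ (k + 1) * (NN N z).coeff 0) (k + 1)
    (Fin.snoc (α := fun _ => R[X]) (fun j : Fin k => inn (algebraMap K R (m.coeff ((j : ℕ) + 1))) (2 * E)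
      (fun n => z (Sum.inr (Sum.inr (Sum.inl (j, n)))))) ((WW w0 z) ^ 2))

private noncomputable def RR (m : K[X]) (z : Un E k → R) : R[X][X] :=
  inn 0 (k + 1) (fun j => inn (algebraMap K R (m.coeff ((j : ℕ) + 1))) (2 * E)
      (fun n => z (Sum.inr (Sum.inr (Sum.inr (j, n))))))

private noncomputable def QQ (N : (MvPolynomial (Fin (E + 1)) K)[X][X]) (w0 : K) (m m' : K[X]) (z : Un E k → R) : R[X][X] :=
  (-1) ^ (k + 1) * (PP N w0 m z * (PP N w0 m z).reflect (k + 1) + RR m' z * (RR m' z).reflect (k + 1)) -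
    C ((WW w0 z) ^ 2) * NN N z

variable {S : Type} [CommRing S] [Algebra K S] (φ : R →ₐ[K] S)

private theorem inn_alg (c : K) (D : ℕ) (y : Fin D → R) :
    (inn (algebraMap K R c) D y).map (φ : R →+* S) = inn (algebraMap K S c) D (fun n => φ (y n)) := by
  rw [inn_map]
  congr 1
  exact φ.commutes c

private theorem WW_map (w0 : K) (z : Un E k → R) : (WW w0 z).map (φ : R →+* S) = WW w0 (φ ∘ z) := by
  unfold WW
  rw [inn_alg]
  rfl

private theorem NN_map (N : (MvPolynomial (Fin (E + 1)) K)[X][X]) (z : Un E k → R) :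
    (NN N z).map (mapRingHom (φ : R →+* S)) = NN N (φ ∘ z) := by
  unfold NN
  rw [Polynomial.map_map, mapRingHom_comp]
  congr 2
  apply MvPolynomial.ringHom_ext
  · intro r
    simp
  · intro i
    simp

private theorem PP_map (N : (MvPolynomial (Fin (E + 1)) K)[X][X]) (w0 : K) (m : K[X]) (z : Un E k → R) :
    (PP N w0 m z).map (mapRingHom (φ : R →+* S)) = PP N w0 m (φ ∘ z) := by
  unfold PP
  rw [inn_map, map_mul, map_pow, map_neg, map_one]
  have h0 : (mapRingHom (φ : R →+* S)) ((NN N z).coeff 0) = (NN N (φ ∘ z)).coeff 0 := by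
    rw [← NN_map, coeff_map]
  rw [h0]
  congr 1
  funext j
  refine Fin.lastCases ?_ (fun i => ?_) j
  · rw [Fin.snoc_last, Fin.snoc_last, map_pow, coe_mapRingHom, WW_map]
  · rw [Fin.snoc_castSucc, Fin.snoc_castSucc, coe_mapRingHom, inn_alg]
    rfl

private theorem RR_map (m : K[X]) (z : Un E k → R) :
    (RR m z).map (mapRingHom (φ : R →+* S)) = RR m (φ ∘ z) := by
  unfold RR
  rw [inn_map, map_zero]
  congr 1
  funext j
  rw [coe_mapRingHom, inn_alg]
  rfl

private theorem QQ_map (N : (MvPolynomial (Fin (E + 1)) K)[X][X]) (w0 : K) (m m' : K[X]) (z : Un E k → R) :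
    (QQ N w0 m m' z).map (mapRingHom (φ : R →+* S)) = QQ N w0 m m' (φ ∘ z) := by
  unfold QQ
  rw [Polynomial.map_sub, Polynomial.map_mul, Polynomial.map_pow, Polynomial.map_neg, Polynomial.map_one,
    Polynomial.map_add, Polynomial.map_mul, Polynomial.map_mul, Polynomial.map_mul, map_C, map_pow,
    ← reflect_map, ← reflect_map, PP_map, RR_map, NN_map, coe_mapRingHom, WW_map]

end cons

/-! ### Krull with arbitrary finite index types -/

private theorem krull_fin {ι κ : Type} [Fintype ι] [Fintype κ] (hc : Fintype.card ι = Fintype.card κ + 1)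
    (g : κ → MvPolynomial ι K) (h0 : ∀ i, MvPolynomial.eval 0 (g i) = 0) :
    ∃ u : ι → K, u ≠ 0 ∧ ∀ i, MvPolynomial.eval u (g i) = 0 := by
  classical
  let e1 : κ ≃ Fin (Fintype.card κ) := Fintype.equivFin κ
  let e2 : ι ≃ Fin (Fintype.card κ + 1) := (Fintype.equivFin ι).trans (finCongr hc)
  obtain ⟨u, hu, hg⟩ := H67.KH.krull (K := K) (fun i => MvPolynomial.rename e2 (g (e1.symm i))) (by
    intro i
    rw [MvPolynomial.eval_rename]
    exact h0 _)
  refine ⟨u ∘ e2, ?_, ?_⟩
  · intro h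
    apply hu
    funext i
    have := congrFun h (e2.symm i)
    simpa using this
  · intro i
    have := hg (e1 i)
    rwa [MvPolynomial.eval_rename, Equiv.symm_apply_apply] at this

/-! ### properties over `K` -/

section overK
omit [IsAlgClosed K]
variable {E k : ℕ} {N : (MvPolynomial (Fin (E + 1)) K)[X][X]} {f0 : K[X]} {w0 : K} {M0 : Matrix (Fin 2) (Fin 2) K[X]}

private theorem NN_eq (z : Un E k → K) : NN N z = atU N (fun i => z (Sum.inl i)) := by
  unfold NN atU
  congr 2

private theorem PP_natDegree (m : K[X]) (z : Un E k → K) : (PP N w0 m z).natDegree ≤ k + 1 := inn_natDegree _ _ _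

private theorem RR_natDegree (m : K[X]) (z : Un E k → K) : (RR m z).natDegree ≤ k + 1 := inn_natDegree _ _ _

private theorem WW_natDegree (z : Un E k → K) : (WW w0 z).natDegree ≤ E := inn_natDegree _ _ _

private theorem W2_natDegree (z : Un E k → K) : ((WW w0 z) ^ 2).natDegree ≤ 2 * E := by
  refine natDegree_pow_le.trans ?_
  exact Nat.mul_le_mul_left _ (WW_natDegree z)

private theorem NN_coeff_natDegree (dT : ∀ j, (N.coeff j).natDegree ≤ 2 * E) (z : Un E k → K) (j : ℕ) :
    ((NN N z).coeff j).natDegree ≤ 2 * E := by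
  unfold NN
  rw [coeff_map, coe_mapRingHom]
  exact natDegree_map_le.trans (dT j)

private theorem PP_coeff_natDegree (dT : ∀ j, (N.coeff j).natDegree ≤ 2 * E) (m : K[X]) (z : Un E k → K) (j : ℕ) :
    ((PP N w0 m z).coeff j).natDegree ≤ 2 * E := by
  rcases j with _ | j
  · unfold PP
    rw [inn_coeff_zero]
    exact sgn_natDegree (NN_coeff_natDegree dT z 0)
  · by_cases hj : j < k + 1
    · have h1 := inn_coeff_succ ((-1) ^ (k + 1) * (NN N z).coeff 0) (k + 1)
        (Fin.snoc (α := fun _ => K[X]) (fun j : Fin k => inn (algebraMap K K (m.coeff ((j : ℕ) + 1))) (2 * E)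
          (fun n => z (Sum.inr (Sum.inr (Sum.inl (j, n)))))) ((WW w0 z) ^ 2)) ⟨j, hj⟩
      unfold PP
      rw [h1]
      refine Fin.lastCases ?_ (fun i => ?_) (⟨j, hj⟩ : Fin (k + 1))
      · rw [Fin.snoc_last]
        exact W2_natDegree z
      · rw [Fin.snoc_castSucc]
        exact inn_natDegree _ _ _
    · rw [coeff_eq_zero_of_natDegree_lt (lt_of_le_of_lt (PP_natDegree m z) (by omega)), natDegree_zero]
      exact Nat.zero_le _

private theorem RR_coeff_natDegree (m : K[X]) (z : Un E k → K) (j : ℕ) :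
    ((RR m z).coeff j).natDegree ≤ 2 * E := by
  rcases j with _ | j
  · unfold RR
    rw [inn_coeff_zero, natDegree_zero]
    exact Nat.zero_le _
  · by_cases hj : j < k + 1
    · have h1 := inn_coeff_succ (0 : K[X]) (k + 1) (fun j : Fin (k + 1) => inn (algebraMap K K (m.coeff ((j : ℕ) + 1))) (2 * E)
          (fun n => z (Sum.inr (Sum.inr (Sum.inr (j, n)))))) ⟨j, hj⟩
      unfold RR
      rw [h1]
      exact inn_natDegree _ _ _
    · rw [coeff_eq_zero_of_natDegree_lt (lt_of_le_of_lt (RR_natDegree m z) (by omega)), natDegree_zero]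
      exact Nat.zero_le _

private theorem mul_coeff_natDegree {a b : K[X][X]} {A B : ℕ} (ha : ∀ j, (a.coeff j).natDegree ≤ A)
    (hb : ∀ j, (b.coeff j).natDegree ≤ B) (j : ℕ) : ((a * b).coeff j).natDegree ≤ A + B := by
  rw [coeff_mul]
  refine natDegree_sum_le_of_forall_le _ _ fun x _ => ?_
  exact natDegree_mul_le.trans (add_le_add (ha _) (hb _))

private theorem reflect_coeff_natDegree {a : K[X][X]} {A : ℕ} (ha : ∀ j, (a.coeff j).natDegree ≤ A) (n j : ℕ) :
    ((a.reflect n).coeff j).natDegree ≤ A := by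
  rw [coeff_reflect]
  exact ha _

private theorem QQ_coeff_natDegree (dT : ∀ j, (N.coeff j).natDegree ≤ 2 * E) (m m' : K[X]) (z : Un E k → K) (j : ℕ) :
    ((QQ N w0 m m' z).coeff j).natDegree ≤ 4 * E := by
  have hs : ((-1 : K[X][X]) ^ (k + 1)) = C ((-1) ^ (k + 1)) := by simp
  unfold QQ
  rw [coeff_sub, hs, coeff_C_mul, coeff_C_mul, coeff_add]
  refine (natDegree_sub_le _ _).trans (max_le ?_ ?_)
  · refine sgn_natDegree ((natDegree_add_le _ _).trans (max_le ?_ ?_))
    · refine (mul_coeff_natDegree (PP_coeff_natDegree dT m z)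
        (reflect_coeff_natDegree (PP_coeff_natDegree dT m z) _) j).trans (by omega)
    · refine (mul_coeff_natDegree (RR_coeff_natDegree m' z)
        (reflect_coeff_natDegree (RR_coeff_natDegree m' z) _) j).trans (by omega)
  · refine natDegree_mul_le.trans ?_
    have h1 := W2_natDegree (w0 := w0) z
    have h2 := NN_coeff_natDegree dT z j
    omega

private theorem QQ_natDegree (dL : N.natDegree ≤ 2 * (k + 1)) (m m' : K[X]) (z : Un E k → K) :
    (QQ N w0 m m' z).natDegree ≤ 2 * (k + 1) := by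
  unfold QQ
  refine (natDegree_sub_le _ _).trans (max_le ?_ ?_)
  · refine sgn_natDegree ((natDegree_add_le _ _).trans (max_le ?_ ?_))
    · refine natDegree_mul_le.trans ?_
      have h1 := PP_natDegree (N := N) (w0 := w0) m z
      have h2 := reflect_natDegree h1
      omega
    · refine natDegree_mul_le.trans ?_
      have h1 := RR_natDegree m' z
      have h2 := reflect_natDegree h1
      omega
  · refine (natDegree_C_mul_le _ _).trans ?_
    unfold NN
    exact natDegree_map_le.trans dL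

private theorem QQ_reflect (hpal : ∀ u, (atU N u).reflect (2 * (k + 1)) = atU N u) (m m' : K[X]) (z : Un E k → K) :
    (QQ N w0 m m' z).reflect (2 * (k + 1)) = QQ N w0 m m' z := by
  have hs : ((-1 : K[X][X]) ^ (k + 1)) = C ((-1) ^ (k + 1)) := by simp
  have h2 : 2 * (k + 1) = (k + 1) + (k + 1) := by omega
  have hP := PP_natDegree (N := N) (w0 := w0) m z
  have hR := RR_natDegree m' z
  have hN : (NN N z).reflect (2 * (k + 1)) = NN N z := by
    rw [NN_eq]
    exact hpal _
  have key : ∀ p : K[X][X], p.natDegree ≤ k + 1 →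
      (p * p.reflect (k + 1)).reflect (2 * (k + 1)) = p * p.reflect (k + 1) := by
    intro p hp
    rw [h2, reflect_mul _ _ hp (reflect_natDegree hp), reflect_reflect]
    ring
  unfold QQ
  rw [reflect_sub, hs, reflect_C_mul, reflect_C_mul, reflect_add, key _ hP, key _ hR, hN]

private theorem PP_coeff_zero (m : K[X]) (z : Un E k → K) :
    (PP N w0 m z).coeff 0 = (-1) ^ (k + 1) * (NN N z).coeff 0 := inn_coeff_zero _ _ _

private theorem PP_coeff_last (m : K[X]) (z : Un E k → K) :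
    (PP N w0 m z).coeff (k + 1) = (WW w0 z) ^ 2 := by
  have h1 := inn_coeff_succ ((-1) ^ (k + 1) * (NN N z).coeff 0) (k + 1)
    (Fin.snoc (α := fun _ => K[X]) (fun j : Fin k => inn (algebraMap K K (m.coeff ((j : ℕ) + 1))) (2 * E)
      (fun n => z (Sum.inr (Sum.inr (Sum.inl (j, n)))))) ((WW w0 z) ^ 2)) (Fin.last k)
  rw [Fin.snoc_last, Fin.val_last] at h1
  exact h1

private theorem PP_coeff_mid (m : K[X]) (z : Un E k → K) (j : Fin k) :
    (PP N w0 m z).coeff ((j : ℕ) + 1) = inn (m.coeff ((j : ℕ) + 1)) (2 * E)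
      (fun n => z (Sum.inr (Sum.inr (Sum.inl (j, n))))) := by
  have h1 := inn_coeff_succ ((-1) ^ (k + 1) * (NN N z).coeff 0) (k + 1)
    (Fin.snoc (α := fun _ => K[X]) (fun j : Fin k => inn (algebraMap K K (m.coeff ((j : ℕ) + 1))) (2 * E)
      (fun n => z (Sum.inr (Sum.inr (Sum.inl (j, n)))))) ((WW w0 z) ^ 2)) j.castSucc
  rw [Fin.snoc_castSucc, Fin.val_castSucc] at h1
  exact h1

private theorem RR_coeff_zero (m : K[X]) (z : Un E k → K) : (RR m z).coeff 0 = 0 := inn_coeff_zero _ _ _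

private theorem RR_coeff_succ (m : K[X]) (z : Un E k → K) (j : Fin (k + 1)) :
    (RR m z).coeff ((j : ℕ) + 1) = inn (m.coeff ((j : ℕ) + 1)) (2 * E)
      (fun n => z (Sum.inr (Sum.inr (Sum.inr (j, n))))) := inn_coeff_succ _ _ _ _

private theorem QQ_coeff_zero (m m' : K[X]) (z : Un E k → K) : (QQ N w0 m m' z).coeff 0 = 0 := by
  have hs : ((-1 : K[X][X]) ^ (k + 1)) = C ((-1) ^ (k + 1)) := by simp
  have hone : ((-1 : K[X]) ^ (k + 1)) * (-1) ^ (k + 1) = 1 := by
    rw [← mul_pow]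
    simp
  unfold QQ
  rw [coeff_sub, hs, coeff_C_mul, coeff_C_mul, coeff_add, mul_coeff_zero, mul_coeff_zero, RR_coeff_zero,
    PP_coeff_zero, coeff_reflect, revAt_le (Nat.zero_le _), Nat.sub_zero, PP_coeff_last]
  linear_combination ((NN N z).coeff 0 * (WW w0 z) ^ 2) * hone

private theorem ev_coeff (p : K[X]) : (evalRingHom (0 : K)) p = p.coeff 0 := by
  rw [coe_evalRingHom, coeff_zero_eq_eval_zero]

private theorem PP_ev (ht0 : ∀ u, (atU N u).map (evalRingHom 0) = f0) (hM0 : Frm (k + 1) M0 (w0 ^ 2) (f0.coeff 0))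
    (z : Un E k → K) : (PP N w0 (M0 0 0) z).map (evalRingHom 0) = M0 0 0 := by
  ext j
  rw [coeff_map, ev_coeff]
  rcases j with _ | j
  · rw [PP_coeff_zero, hM0.bot, mul_coeff_zero]
    have h1 : ((NN N z).coeff 0).coeff 0 = f0.coeff 0 := by
      rw [← ht0 (fun i => z (Sum.inl i)), coeff_map, ev_coeff, NN_eq]
    rw [h1]
    congr 1
    have : ((-1 : K[X]) ^ (k + 1)) = C ((-1) ^ (k + 1)) := by simp
    rw [this, coeff_C_zero]
  · by_cases hj : j < k
    · rw [PP_coeff_mid _ _ ⟨j, hj⟩, inn_coeff_zero]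
    · by_cases hj' : j = k
      · subst hj'
        rw [PP_coeff_last, hM0.top]
        unfold WW
        rw [pow_two, mul_coeff_zero, inn_coeff_zero, pow_two]
        rfl
      · rw [coeff_eq_zero_of_natDegree_lt (lt_of_le_of_lt (PP_natDegree _ z) (by omega)), coeff_zero,
          coeff_eq_zero_of_natDegree_lt (lt_of_le_of_lt (hM0.deg 0 0) (by omega))]

private theorem RR_ev (hM0 : Frm (k + 1) M0 (w0 ^ 2) (f0.coeff 0))
    (z : Un E k → K) : (RR (M0 0 1) z).map (evalRingHom 0) = M0 0 1 := by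
  ext j
  rw [coeff_map, ev_coeff]
  rcases j with _ | j
  · rw [RR_coeff_zero, hM0.r0, coeff_zero]
  · by_cases hj : j < k + 1
    · rw [RR_coeff_succ _ _ ⟨j, hj⟩, inn_coeff_zero]
    · rw [coeff_eq_zero_of_natDegree_lt (lt_of_le_of_lt (RR_natDegree _ z) (by omega)), coeff_zero,
        coeff_eq_zero_of_natDegree_lt (lt_of_le_of_lt (hM0.deg 0 1) (by omega))]

private theorem QQ_ev (ht0 : ∀ u, (atU N u).map (evalRingHom 0) = f0) (hM0 : Frm (k + 1) M0 (w0 ^ 2) (f0.coeff 0))
    (hdet : M0.det = C (w0 ^ 2) * f0) (z : Un E k → K) :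
    (QQ N w0 (M0 0 0) (M0 0 1) z).map (evalRingHom 0) = 0 := by
  unfold QQ
  rw [Polynomial.map_sub, Polynomial.map_mul, Polynomial.map_pow, Polynomial.map_neg, Polynomial.map_one,
    Polynomial.map_add, Polynomial.map_mul, Polynomial.map_mul, Polynomial.map_mul, map_C,
    ← reflect_map, ← reflect_map, PP_ev ht0 hM0, RR_ev hM0, ← hM0.det, hdet, NN_eq, ht0, ev_coeff]
  have hW : ((WW w0 z) ^ 2).coeff 0 = w0 ^ 2 := by
    unfold WW
    rw [pow_two, mul_coeff_zero, inn_coeff_zero, pow_two]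
    rfl
  rw [hW]
  exact sub_self _

private theorem inn_zero (c : K) (D : ℕ) : inn c D (fun _ => (0 : K)) = C c := by
  unfold inn
  simp

private theorem QQ_zero (hu0 : atU N 0 = f0.map C) (hM0 : Frm (k + 1) M0 (w0 ^ 2) (f0.coeff 0))
    (hdet : M0.det = C (w0 ^ 2) * f0) :
    QQ N w0 (M0 0 0) (M0 0 1) (0 : Un E k → K) = 0 := by
  have hN : NN N (0 : Un E k → K) = f0.map C := by
    rw [NN_eq]
    exact hu0
  have hW : WW w0 (0 : Un E k → K) = C w0 := by
    unfold WW
    exact inn_zero _ _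
  have hP : PP N w0 (M0 0 0) (0 : Un E k → K) = (M0 0 0).map C := by
    ext1 j
    rw [coeff_map]
    rcases j with _ | j
    · rw [PP_coeff_zero, hM0.bot, hN, coeff_map]
      simp
    · by_cases hj : j < k
      · rw [PP_coeff_mid _ _ ⟨j, hj⟩]
        exact inn_zero _ _
      · by_cases hj' : j = k
        · subst hj'
          rw [PP_coeff_last, hM0.top, hW, C_pow]
        · rw [coeff_eq_zero_of_natDegree_lt (lt_of_le_of_lt (PP_natDegree _ _) (by omega)),
            coeff_eq_zero_of_natDegree_lt (lt_of_le_of_lt (hM0.deg 0 0) (by omega)), C_0]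
  have hR : RR (M0 0 1) (0 : Un E k → K) = (M0 0 1).map C := by
    ext1 j
    rw [coeff_map]
    rcases j with _ | j
    · rw [RR_coeff_zero, hM0.r0, C_0]
    · by_cases hj : j < k + 1
      · rw [RR_coeff_succ _ _ ⟨j, hj⟩]
        exact inn_zero _ _
      · rw [coeff_eq_zero_of_natDegree_lt (lt_of_le_of_lt (RR_natDegree _ _) (by omega)),
          coeff_eq_zero_of_natDegree_lt (lt_of_le_of_lt (hM0.deg 0 1) (by omega)), C_0]
  have h1 := congrArg (Polynomial.map (C : K →+* K[X])) (hM0.det.symm.trans hdet)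
  unfold QQ
  rw [hN, hW, hP, hR, sub_eq_zero]
  rw [Polynomial.map_mul, Polynomial.map_pow, Polynomial.map_neg, Polynomial.map_one,
    Polynomial.map_add, Polynomial.map_mul, Polynomial.map_mul, Polynomial.map_mul, map_C,
    ← reflect_map, ← reflect_map, C_pow] at h1
  exact h1

end overK

theorem kr {k E : ℕ} (hk : 0 < k) {N : (MvPolynomial (Fin (E + 1)) K)[X][X]} {f0 : K[X]} {w0 : K} {M0 : Matrix (Fin 2) (Fin 2) K[X]}
    (dT : ∀ j, (N.coeff j).natDegree ≤ 2 * E) (dL : N.natDegree ≤ 2 * k) (hu0 : atU N 0 = f0.map C)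
    (ht0 : ∀ u, (atU N u).map (evalRingHom 0) = f0) (hpal : ∀ u, (atU N u).reflect (2 * k) = atU N u)
    (hM0 : Frm k M0 (w0 ^ 2) (f0.coeff 0)) (hdet : M0.det = C (w0 ^ 2) * f0) :
    ∃ (u : Fin (E + 1) → K) (w : K[X]) (M : Matrix (Fin 2) (Fin 2) K[X][X]), w.eval 0 = w0 ∧
      M.map (mapRingHom (evalRingHom 0)) = M0 ∧ Frm k M (w ^ 2) ((atU N u).coeff 0) ∧
      M.det = C (w ^ 2) * atU N u ∧
      ¬ (u = 0 ∧ w.natDegree = 0 ∧ ∀ i j n, ((M i j).coeff n).natDegree = 0) := by
  obtain ⟨k, rfl⟩ : ∃ k', k = k' + 1 := ⟨k - 1, by omega⟩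
  obtain ⟨z, hz, hg⟩ := krull_fin (K := K) (ι := Un E k) (κ := Fin (4 * E) × Fin (k + 1)) (by
      simp only [Fintype.card_sum, Fintype.card_prod, Fintype.card_fin]
      ring)
    (fun i => ((QQ N w0 (M0 0 0) (M0 0 1) (MvPolynomial.X : Un E k → MvPolynomial (Un E k) K)).coeff ((i.2 : ℕ) + 1)).coeff
      ((i.1 : ℕ) + 1)) (by
      intro i
      have h1 := QQ_map (MvPolynomial.aeval (0 : Un E k → K)) N w0 (M0 0 0) (M0 0 1)
        (MvPolynomial.X : Un E k → MvPolynomial (Un E k) K)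
      have h2 : (MvPolynomial.aeval (0 : Un E k → K) : MvPolynomial (Un E k) K →ₐ[K] K) ∘ MvPolynomial.X = (0 : Un E k → K) := by
        funext i
        simp
      rw [h2, QQ_zero hu0 hM0 hdet] at h1
      have h3 := congrArg (fun p : K[X][X] => (p.coeff ((i.2 : ℕ) + 1)).coeff ((i.1 : ℕ) + 1)) h1
      simp only [coeff_map, coe_mapRingHom, coeff_zero] at h3
      exact h3)
  have hQ : QQ N w0 (M0 0 0) (M0 0 1) z = 0 := by
    have h1 := QQ_map (MvPolynomial.aeval z) N w0 (M0 0 0) (M0 0 1)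
      (MvPolynomial.X : Un E k → MvPolynomial (Un E k) K)
    have h2 : (MvPolynomial.aeval z : MvPolynomial (Un E k) K →ₐ[K] K) ∘ MvPolynomial.X = z := by
      funext i
      simp
    rw [h2] at h1
    have h3 : ∀ j : Fin (k + 1), (QQ N w0 (M0 0 0) (M0 0 1) z).coeff ((j : ℕ) + 1) = 0 := by
      intro j
      ext n
      rw [coeff_zero]
      rcases n with _ | n
      · rw [← ev_coeff, ← coeff_map, QQ_ev ht0 hM0 hdet, coeff_zero]
      · by_cases hn : n < 4 * E
        · have h4 := hg (⟨n, hn⟩, j)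
          have h5 := congrArg (fun p : K[X][X] => (p.coeff ((j : ℕ) + 1)).coeff (n + 1)) h1
          simp only [coeff_map, coe_mapRingHom] at h5
          rw [← h5]
          exact h4
        · exact coeff_eq_zero_of_natDegree_lt (lt_of_le_of_lt (QQ_coeff_natDegree dT _ _ _ _) (by omega))
    have hr := QQ_reflect (w0 := w0) hpal (M0 0 0) (M0 0 1) z
    ext1 j
    rw [coeff_zero]
    by_cases hj : j < 2 * (k + 1) + 1
    · by_cases hj0 : j = 0
      · rw [hj0]
        exact QQ_coeff_zero _ _ _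
      · by_cases hj1 : j < k + 2
        · have := h3 ⟨j - 1, by omega⟩
          rwa [show ((⟨j - 1, by omega⟩ : Fin (k + 1)) : ℕ) + 1 = j by
            change j - 1 + 1 = j
            omega] at this
        · rw [← hr, coeff_reflect, revAt_le (by omega)]
          by_cases hj2 : j = 2 * (k + 1)
          · rw [hj2, Nat.sub_self]
            exact QQ_coeff_zero _ _ _
          · have := h3 ⟨2 * (k + 1) - j - 1, by omega⟩
            rwa [show ((⟨2 * (k + 1) - j - 1, by omega⟩ : Fin (k + 1)) : ℕ) + 1 = 2 * (k + 1) - j by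
              change 2 * (k + 1) - j - 1 + 1 = _
              omega] at this
    · exact coeff_eq_zero_of_natDegree_lt (lt_of_le_of_lt (QQ_natDegree dL _ _ _) (by omega))
  refine ⟨fun i => z (Sum.inl i), WW w0 z, !![PP N w0 (M0 0 0) z, RR (M0 0 1) z;
    (-1) ^ (k + 1 + 1) * (RR (M0 0 1) z).reflect (k + 1), (-1) ^ (k + 1) * (PP N w0 (M0 0 0) z).reflect (k + 1)],
    ?_, ?_, ?_, ?_, ?_⟩
  · rw [← coeff_zero_eq_eval_zero]
    exact inn_coeff_zero _ _ _
  · exact map_mk _ hM0 (PP_ev ht0 hM0 z) (RR_ev hM0 z)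
  · refine frm_mk (PP_natDegree _ _) (RR_natDegree _ _) (PP_coeff_last _ _) ?_ (RR_coeff_zero _ _)
    rw [PP_coeff_zero, NN_eq]
  · rw [det_mk]
    unfold QQ at hQ
    rw [sub_eq_zero, NN_eq] at hQ
    exact hQ
  · rintro ⟨hu, hw, hM⟩
    apply hz
    have hc : ∀ (p : K[X]) (n : ℕ), p.natDegree = 0 → p.coeff (n + 1) = 0 := fun p n hp =>
      coeff_eq_zero_of_natDegree_lt (by omega)
    funext x
    rcases x with i | e | ⟨j, n⟩ | ⟨j, n⟩
    · exact congrFun hu i
    · have h1 := hc _ e hw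
      unfold WW at h1
      rwa [inn_coeff_succ] at h1
    · have h1 := hc _ n (hM 0 0 ((j : ℕ) + 1))
      change ((PP N w0 (M0 0 0) z).coeff ((j : ℕ) + 1)).coeff ((n : ℕ) + 1) = 0 at h1
      rwa [PP_coeff_mid, inn_coeff_succ] at h1
    · have h1 := hc _ n (hM 0 1 ((j : ℕ) + 1))
      change ((RR (M0 0 1) z).coeff ((j : ℕ) + 1)).coeff ((n : ℕ) + 1) = 0 at h1
      rwa [RR_coeff_succ, inn_coeff_succ] at h1

end H19.ES
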