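import Pool.Agent.H19.ES.Lagr

/-! # ES.SylP : the determinant of the Sylvester matrix (Mathlib only, about 300 lines)

Assumptions: `h l` has coordinates of degree `< k - s0` and vanishes at the points which are not chosen, structure constants of degree `≤ s0`, `v` dual.
`sQ_zero`: `h_l t^{i'} f_{j'}` has coordinates of degree `< k + i'` (`dg_mul`), so its quotient by `q` has degree `< i'`: the entry of `sQ` at `((i,j),(i',j'))` is `0` unless `i < i'`.  `det_U`: so `1 + τ ∑ u_l Q_l` is (block) triangular with respect to the first index, with identity diagonal blocks: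
determinant `1` (`Matrix.BlockTriangular`, `Matrix.det_of_upperTriangular` for a suitable order, or `Matrix.BlockTriangular.det`).
`syl_zero`: for `τ = 0` (or `u = 0`) the lower left block is `0`: `Matrix.det_fromBlocks_zero₂₁`.
`syl_map`: all entries are mapped (`RingHom.map_det`, `φ` commutes with `algebraMap K`).
`syl_deg`: over `R[X]`, `τ = X`, `c1, c2` and `u` constants: the entries in the first `s m` columns have degree `≤ 1`, the others `0`: every term of the determinant has degree `≤ s m`.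
`syl_prod`: `R` is a domain, `bt l : A → R` homomorphisms with `bt l q + τ ∑ u_l bt l (h_l) = 0`, `det (bt l (v i)) ≠ 0`.  Let `Ψ = [[1, 0], [Z₁, Z₂]]`, `Z₁ = (bt l (q t^i f_j))`, `Z₂ = (bt l (v i))`.  By `rem` (applied to `y = h_l t^i f_j` and `y = g v_i`; they are `Van`), `Ψ · Syl = [[U, *], [0, diag(c₁ bt l g₁ + c₂ bt l g₂) Z₂]]`:
the second row block is the evaluation at `bt l` of the elements `(q + τ ∑ u h) t^i f_j` and `(c₁g₁ + c₂g₂) v_i`.  Determinants: `det Z₂ · det Syl = det U · ∏ (…) · det Z₂`; cancel. -/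

namespace H19.ES

open Polynomial

variable {K A : Type} [Field K] [CommRing A] [Algebra K A] [Algebra K[X] A] [IsScalarTower K K[X] A] {m k e s0 : ℕ}
  {f : Module.Basis (Fin m) K[X] A} {Z : Fbr K A m k} {v : Fin k → A} {h : Fin e → A}

omit [IsScalarTower K K[X] A] in
private theorem syp_repr_tf (i : ℕ) (j j' : Fin m) :
    (f.repr (tA K A ^ i * f j) j') = if j = j' then X ^ i else 0 := by
  have h1 : tA K A ^ i * f j = (X ^ i : K[X]) • f j := by
    rw [Algebra.smul_def, map_pow]
    rfl
  rw [h1, map_smul, f.repr_self, Finsupp.smul_apply, Finsupp.single_apply]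
  split_ifs <;> simp

omit [IsScalarTower K K[X] A] in
private theorem syp_repr_le (i : ℕ) (j : Fin m) : ∀ j', (f.repr (tA K A ^ i * f j) j').natDegree ≤ i := by
  intro j'
  rw [syp_repr_tf]
  split_ifs
  · exact natDegree_X_pow_le i
  · simp

private theorem syp_dg (hs : StB f s0) (hh : ∀ l, dg f (k - s0) (h l)) (hk : s0 ≤ k) (l : Fin e) (i : ℕ) (j : Fin m) :
    dg f (k + i) (h l * (tA K A ^ i * f j)) := by
  have h1 := dg_mul f hs (hh l) (syp_repr_le (f := f) i j)
  have h2 : k - s0 + i + s0 = k + i := by omega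
  rw [h2] at h1
  exact h1

omit [CommRing A] [Algebra K A] [Algebra K[X] A] [IsScalarTower K K[X] A] in
private theorem syp_qq_natDegree (t : Fin k → K) : (qq t).natDegree = k := by
  unfold qq
  rw [natDegree_prod_of_monic _ _ (fun i _ => monic_X_sub_C (t i))]
  simp

omit [CommRing A] [Algebra K A] [Algebra K[X] A] [IsScalarTower K K[X] A] in
private theorem syp_qq_monic (t : Fin k → K) : (qq t).Monic := by
  unfold qq
  exact monic_prod_of_monic _ _ (fun i _ => monic_X_sub_C (t i))

omit [IsScalarTower K K[X] A] in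
private theorem syp_quo_zero {y : A} {n i : ℕ} (hy : dg f (k + n) y) (hi : n ≤ i) (j : Fin m) :
    quo f Z.t y i j = 0 := by
  unfold quo
  have h1 := hy j
  by_cases h2 : (f.repr y j).degree < (qq Z.t).degree
  · rw [(divByMonic_eq_zero_iff (syp_qq_monic Z.t)).2 h2, coeff_zero]
  · have h3 : (qq Z.t).natDegree ≤ (f.repr y j).natDegree := natDegree_le_natDegree (not_lt.1 h2)
    have h0 : f.repr y j ≠ 0 := by
      intro h4
      rw [h4, degree_zero] at h2
      apply h2
      rw [bot_lt_iff_ne_bot, degree_ne_bot]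
      exact (syp_qq_monic Z.t).ne_zero
    have h4 : (f.repr y j).natDegree < k + n := by
      rw [degree_eq_natDegree h0] at h1
      exact_mod_cast h1
    apply coeff_eq_zero_of_natDegree_lt
    rw [natDegree_divByMonic _ (syp_qq_monic Z.t)]
    rw [syp_qq_natDegree] at h3 ⊢
    omega

private theorem syp_sQ_zero (hs : StB f s0) (hh : ∀ l, dg f (k - s0) (h l)) (hk : s0 ≤ k) {R : Type} [CommRing R] [Algebra K R]
    (s : ℕ) (l : Fin e) {p p' : Fin s × Fin m} (hp : p'.1 ≤ p.1) : sQ f Z h R s l p p' = 0 := by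
  unfold sQ
  rw [syp_quo_zero (syp_dg hs hh hk l (p'.1 : ℕ) p'.2) hp, map_zero]

theorem det_U (hs : StB f s0) (hh : ∀ l, dg f (k - s0) (h l)) (hk : s0 ≤ k) {R : Type} [CommRing R] [Algebra K R] (s : ℕ)
    (u : Fin e → R) (τ : R) : (1 + τ • ∑ l, u l • sQ f Z h R s l : Matrix (Fin s × Fin m) (Fin s × Fin m) R).det = 1 := by
  classical
  have hz : ∀ p p' : Fin s × Fin m, p'.1 ≤ p.1 → (τ • ∑ l, u l • sQ f Z h R s l) p p' = 0 := by
    intro p p' hp
    rw [Matrix.smul_apply, Matrix.sum_apply]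
    have h1 : ∑ l, (u l • sQ f Z h R s l) p p' = 0 := by
      apply Finset.sum_eq_zero
      intro l _
      rw [Matrix.smul_apply, syp_sQ_zero hs hh hk s l hp, smul_zero]
    rw [h1, smul_zero]
  have hb : (1 + τ • ∑ l, u l • sQ f Z h R s l : Matrix (Fin s × Fin m) (Fin s × Fin m) R).BlockTriangular Prod.fst := by
    intro p p' hp
    rw [Matrix.add_apply, hz p p' (le_of_lt hp), add_zero, Matrix.one_apply_ne]
    intro he
    rw [he] at hp
    exact lt_irrefl _ hp
  rw [hb.det]
  apply Finset.prod_eq_one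
  intro a _
  have h1 : (1 + τ • ∑ l, u l • sQ f Z h R s l : Matrix (Fin s × Fin m) (Fin s × Fin m) R).toSquareBlock Prod.fst a = 1 := by
    ext p p'
    rw [Matrix.toSquareBlock_def, Matrix.of_apply, Matrix.add_apply,
      hz p.1 p'.1 (le_of_eq (p'.2.trans p.2.symm)), add_zero, Matrix.one_apply, Matrix.one_apply]
    simp only [Subtype.ext_iff]
  rw [h1, Matrix.det_one]

theorem syl_zero (hs : StB f s0) (hh : ∀ l, dg f (k - s0) (h l)) (hk : s0 ≤ k) {R : Type} [CommRing R] [Algebra K R] (s : ℕ)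
    (u : Fin e → R) (τ c1 c2 : R) (hτ : τ = 0 ∨ u = 0) (g1 g2 : A) :
    (Syl f Z v h R s u τ c1 c2 g1 g2).det = ∏ a, (c1 * algebraMap K R (Z.b a g1) + c2 * algebraMap K R (Z.b a g2)) := by
  have h1 : τ • ∑ l, u l • sW f Z h R s l = 0 := by
    rcases hτ with rfl | rfl
    · rw [zero_smul]
    · simp
  unfold Syl
  rw [h1, Matrix.det_fromBlocks_zero₂₁, Matrix.det_diagonal, det_U hs hh hk, one_mul]

theorem syl_map {R S : Type} [CommRing R] [Algebra K R] [CommRing S] [Algebra K S] (φ : R →ₐ[K] S) (s : ℕ) (u : Fin e → R)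
    (τ c1 c2 : R) (g1 g2 : A) :
    φ (Syl f Z v h R s u τ c1 c2 g1 g2).det = (Syl f Z v h S s (fun l => φ (u l)) (φ τ) (φ c1) (φ c2) g1 g2).det := by
  rw [AlgHom.map_det]
  congr 1
  ext p p'
  rw [AlgHom.mapMatrix_apply, Matrix.map_apply]
  unfold Syl
  rcases p with p | p <;> rcases p' with p' | p'
  · rw [Matrix.fromBlocks_apply₁₁, Matrix.fromBlocks_apply₁₁]
    simp only [Matrix.add_apply, Matrix.smul_apply, Matrix.sum_apply, smul_eq_mul, map_add, map_mul, map_sum, sQ,
      AlgHom.commutes, Matrix.one_apply]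
    congr 1
    split_ifs <;> simp
  · rw [Matrix.fromBlocks_apply₁₂, Matrix.fromBlocks_apply₁₂]
    simp only [Matrix.add_apply, Matrix.smul_apply, smul_eq_mul, map_add, map_mul, sV, AlgHom.commutes]
  · rw [Matrix.fromBlocks_apply₂₁, Matrix.fromBlocks_apply₂₁]
    simp only [Matrix.smul_apply, Matrix.sum_apply, smul_eq_mul, map_mul, map_sum, sW, AlgHom.commutes]
  · rw [Matrix.fromBlocks_apply₂₂, Matrix.fromBlocks_apply₂₂]
    rw [Matrix.diagonal_apply, Matrix.diagonal_apply]
    split_ifs <;> simp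

theorem syl_deg {R : Type} [CommRing R] [Algebra K R] (s : ℕ) (u : Fin e → R) (c1 c2 : R) (g1 g2 : A) :
    (Syl f Z v h R[X] s (fun l => C (u l)) X (C c1) (C c2) g1 g2).det.natDegree ≤ s * m := by
  have h1 : ∀ p p', (Syl f Z v h R[X] s (fun l => C (u l)) X (C c1) (C c2) g1 g2 p p').natDegree ≤
      Sum.elim (fun _ => 1) (fun _ => 0) p' := by
    intro p p'
    have hC : ∀ (x : K), algebraMap K R[X] x = C (algebraMap K R x) := fun x => rfl
    unfold Syl
    rcases p with p | p <;> rcases p' with p' | p'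
    · rw [Matrix.fromBlocks_apply₁₁]
      simp only [Matrix.add_apply, Matrix.smul_apply, Matrix.sum_apply, smul_eq_mul, sQ, hC, Sum.elim_inl, Matrix.one_apply]
      have h2 : ∑ x, C (u x) * C (algebraMap K R (quo f Z.t (h x * (tA K A ^ (p'.1 : ℕ) * f p'.2)) p.1 p.2)) =
          C (∑ x, u x * algebraMap K R (quo f Z.t (h x * (tA K A ^ (p'.1 : ℕ) * f p'.2)) p.1 p.2)) := by
        rw [map_sum]
        simp only [map_mul]
      rw [h2]
      refine (natDegree_add_le _ _).trans (max_le ?_ ?_)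
      · split_ifs <;> simp
      · refine natDegree_mul_le.trans ?_
        rw [natDegree_C, add_zero]
        exact natDegree_X_le
    · rw [Matrix.fromBlocks_apply₁₂]
      simp only [Matrix.add_apply, Matrix.smul_apply, smul_eq_mul, sV, hC, Sum.elim_inr]
      rw [← C_mul, ← C_mul, ← C_add, natDegree_C]
    · rw [Matrix.fromBlocks_apply₂₁]
      simp only [Matrix.smul_apply, Matrix.sum_apply, smul_eq_mul, sW, hC, Sum.elim_inl]
      have h2 : ∑ x, C (u x) * C (algebraMap K R (Z.b p (h x * (tA K A ^ (p'.1 : ℕ) * f p'.2)))) =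
          C (∑ x, u x * algebraMap K R (Z.b p (h x * (tA K A ^ (p'.1 : ℕ) * f p'.2)))) := by
        rw [map_sum]
        simp only [map_mul]
      rw [h2]
      refine natDegree_mul_le.trans ?_
      rw [natDegree_C, add_zero]
      exact natDegree_X_le
    · rw [Matrix.fromBlocks_apply₂₂, Matrix.diagonal_apply]
      simp only [hC, Sum.elim_inr]
      split_ifs
      · rw [← C_mul, ← C_mul, ← C_add, natDegree_C]
      · simp
  rw [Matrix.det_apply]
  apply natDegree_sum_le_of_forall_le
  intro σ _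
  refine (natDegree_smul_le _ _).trans ?_
  refine (natDegree_prod_le _ _).trans ?_
  refine (Finset.sum_le_sum fun i _ => h1 (σ i) i).trans ?_
  rw [Fintype.sum_sum_type]
  simp

theorem syl_prod (hs : StB f s0) (hh : ∀ l, dg f (k - s0) (h l)) (hV : ∀ l, Z.Van (h l)) (hv : Dual f Z v) (hk : s0 ≤ k)
    {R : Type} [CommRing R] [IsDomain R] [Algebra K R] {s : ℕ} {u : Fin e → R} {τ c1 c2 : R} {g1 g2 : A}
    (hg1 : ∀ i, dg f (k + s) (g1 * v i)) (hg2 : ∀ i, dg f (k + s) (g2 * v i)) {bt : Fin k → (A →ₐ[K] R)}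
    (hb : ∀ l, bt l (algebraMap K[X] A (qq Z.t)) + τ * ∑ a, u a * bt l (h a) = 0)
    (hd : (Matrix.of fun l i => bt l (v i)).det ≠ 0) :
    (Syl f Z v h R s u τ c1 c2 g1 g2).det = ∏ l, (c1 * bt l g1 + c2 * bt l g2) := by
  classical
  obtain ⟨Z1, hZ1⟩ : ∃ Z1 : Matrix (Fin k) (Fin s × Fin m) R, Z1 = Matrix.of fun l p =>
      bt l (algebraMap K[X] A (qq Z.t) * (tA K A ^ (p.1 : ℕ) * f p.2)) := ⟨_, rfl⟩
  obtain ⟨Z2, hZ2⟩ : ∃ Z2 : Matrix (Fin k) (Fin k) R, Z2 = Matrix.of fun l i => bt l (v i) := ⟨_, rfl⟩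
  rw [← hZ2] at hd
  -- the remainder formula after evaluation
  have key : ∀ (y : A), Z.Van y → dg f (k + s) y → ∀ l, bt l y =
      ∑ p : Fin s × Fin m, Z1 l p * algebraMap K R (quo f Z.t y p.1 p.2) + ∑ i, Z2 l i * algebraMap K R (Z.b i y) := by
    intro y hy hdy l
    conv_lhs => rw [rem f Z hv hy hdy]
    rw [map_add, map_mul, map_sum, map_sum, Fintype.sum_prod_type, Finset.mul_sum]
    congr 1
    · refine Finset.sum_congr rfl fun i _ => ?_
      rw [map_sum, Finset.mul_sum]
      refine Finset.sum_congr rfl fun j _ => ?_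
      rw [hZ1, Matrix.of_apply]
      simp only [map_mul, AlgHom.commutes]
      ring
    · refine Finset.sum_congr rfl fun i _ => ?_
      rw [map_mul, AlgHom.commutes, hZ2, Matrix.of_apply]
      ring
  have hle : ∀ {n : ℕ} {y : A}, n ≤ k + s → dg f n y → dg f (k + s) y := by
    intro n y hn hy j
    exact lt_of_lt_of_le (hy j) (by exact_mod_cast hn)
  have hVan : ∀ {x : A} (y : A), Z.Van x → Z.Van (x * y) := by
    intro x y hx i j hj
    rw [map_mul, hx i j hj, zero_mul]
  have hmul : Matrix.fromBlocks 1 0 Z1 Z2 * Syl f Z v h R s u τ c1 c2 g1 g2 =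
      Matrix.fromBlocks (1 + τ • ∑ l, u l • sQ f Z h R s l) (c1 • sV f Z v R s g1 + c2 • sV f Z v R s g2) 0
        (Matrix.diagonal (fun l => c1 * bt l g1 + c2 * bt l g2) * Z2) := by
    unfold Syl
    rw [Matrix.fromBlocks_multiply]
    congr 1
    · simp
    · simp
    · ext l p'
      rw [Matrix.add_apply, Matrix.mul_apply, Matrix.mul_apply, Matrix.zero_apply]
      have h1 : ∀ a, bt l (h a * (tA K A ^ (p'.1 : ℕ) * f p'.2)) = _ := fun a =>
        key (h a * (tA K A ^ (p'.1 : ℕ) * f p'.2)) (hVan _ (hV a))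
          (hle (by have := p'.1.2; omega) (syp_dg hs hh hk a (p'.1 : ℕ) p'.2)) l
      have h2 : ∑ j, Z1 l j * (1 + τ • ∑ l, u l • sQ f Z h R s l : Matrix (Fin s × Fin m) (Fin s × Fin m) R) j p' =
          Z1 l p' + τ * ∑ a, u a * ∑ p : Fin s × Fin m, Z1 l p *
            algebraMap K R (quo f Z.t (h a * (tA K A ^ (p'.1 : ℕ) * f p'.2)) p.1 p.2) := by
        simp only [Matrix.add_apply, mul_add, Finset.sum_add_distrib]
        congr 1
        · simp [Matrix.one_apply]
        · simp only [Matrix.smul_apply, Matrix.sum_apply, smul_eq_mul, sQ, Finset.mul_sum]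
          rw [Finset.sum_comm]
          refine Finset.sum_congr rfl fun a _ => Finset.sum_congr rfl fun p _ => ?_
          ring
      have h3 : ∑ j, Z2 l j * (τ • ∑ l, u l • sW f Z h R s l) j p' =
          τ * ∑ a, u a * ∑ i, Z2 l i * algebraMap K R (Z.b i (h a * (tA K A ^ (p'.1 : ℕ) * f p'.2))) := by
        simp only [Matrix.smul_apply, Matrix.sum_apply, smul_eq_mul, sW, Finset.mul_sum]
        rw [Finset.sum_comm]
        refine Finset.sum_congr rfl fun a _ => Finset.sum_congr rfl fun p _ => ?_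
        ring
      rw [h2, h3, add_assoc, ← mul_add, ← Finset.sum_add_distrib]
      have h4 : ∀ a, u a * ∑ p : Fin s × Fin m, Z1 l p *
            algebraMap K R (quo f Z.t (h a * (tA K A ^ (p'.1 : ℕ) * f p'.2)) p.1 p.2) +
          u a * ∑ i, Z2 l i * algebraMap K R (Z.b i (h a * (tA K A ^ (p'.1 : ℕ) * f p'.2))) =
          u a * bt l (h a) * bt l (tA K A ^ (p'.1 : ℕ) * f p'.2) := by
        intro a
        rw [← mul_add, ← h1 a, map_mul, mul_assoc]
      simp only [h4]
      rw [← Finset.sum_mul, hZ1, Matrix.of_apply, map_mul, ← mul_assoc, ← add_mul, hb l, zero_mul]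
    · ext l i
      rw [Matrix.add_apply, Matrix.mul_apply, Matrix.mul_diagonal, Matrix.diagonal_mul]
      have hvi : Z.Van (v i) := fun i' j hj => hv.zero i i' j (Or.inr hj)
      have hbv : ∀ (g : A) (i' : Fin k), Z.b i' (g * v i) = if i' = i then Z.b i' g else 0 := by
        intro g i'
        rw [map_mul]
        by_cases h5 : i' = i
        · subst h5
          rw [hv.one, mul_one, if_pos rfl]
        · have h6 : Z.b i' (v i) = 0 := hv.zero i i' _ (Or.inl h5)
          rw [h6, mul_zero, if_neg h5]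
      have h1 : ∀ g : A, (∀ i, dg f (k + s) (g * v i)) → bt l g * Z2 l i =
          ∑ p : Fin s × Fin m, Z1 l p * algebraMap K R (quo f Z.t (g * v i) p.1 p.2) +
            Z2 l i * algebraMap K R (Z.b i g) := by
        intro g hg
        have h7 := key (g * v i) (fun i' j hj => by rw [map_mul, hvi i' j hj, mul_zero]) (hg i) l
        rw [map_mul] at h7
        have h8 : ∑ i', Z2 l i' * algebraMap K R (Z.b i' (g * v i)) = Z2 l i * algebraMap K R (Z.b i g) := by
          rw [Finset.sum_eq_single i]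
          · rw [hbv, if_pos rfl]
          · intro i' _ hi'
            rw [hbv, if_neg hi', map_zero, mul_zero]
          · intro h9
            exact absurd (Finset.mem_univ i) h9
        rw [h8] at h7
        rw [← h7, hZ2, Matrix.of_apply]
      rw [add_mul, mul_assoc, mul_assoc, h1 g1 hg1, h1 g2 hg2]
      simp only [Matrix.add_apply, Matrix.smul_apply, smul_eq_mul, sV, mul_add, Finset.sum_add_distrib, Finset.mul_sum]
      have h9 : ∀ c : R, ∀ g : A, ∑ x, Z1 l x * (c * algebraMap K R (quo f Z.t (g * v i) x.1 x.2)) =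
          ∑ x, c * (Z1 l x * algebraMap K R (quo f Z.t (g * v i) x.1 x.2)) := by
        intro c g
        refine Finset.sum_congr rfl fun x _ => ?_
        ring
      rw [h9, h9]
      ring
  have hdet := congrArg Matrix.det hmul
  rw [Matrix.det_mul, Matrix.det_fromBlocks_zero₁₂, Matrix.det_one, one_mul, Matrix.det_fromBlocks_zero₂₁,
    det_U hs hh hk, one_mul, Matrix.det_mul, Matrix.det_diagonal, mul_comm] at hdet
  exact mul_right_cancel₀ hd hdet

end H19.ES
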