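import Pool.Agent.H19.ES.Def2

/-! # ES.SolDef : chains over `Ω` (definitions only) -/

namespace H19.ES

open H68.BB Polynomial

variable {K A : Type} [Field K] [CommRing A] [Algebra K A] {k : ℕ}

/-- a chain over `Ω` with the points `bt` of the base (in some order), with product `M` and product of the `w` equal to `wt` -/
structure Sol (be ga : A) (bt : Fin k → (A →ₐ[K] Om K)) (M : Matrix (Fin 2) (Fin 2) (Om K)[X]) (wt : Om K)
    (s : Fin k → Pt K A (Om K)) : Prop where
  b : ∃ ρ : Equiv.Perm (Fin k), ∀ j, (s j).b = bt (ρ j)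
  on : ∀ j, OnT be ga (s j)
  M : Mt be s = M
  w : ∏ j, (s j).x = wt

/-- changing the signs of the `w` -/
noncomputable def sg {F : Type} [Field F] [Algebra K F] (ε : Fin k → ℤˣ) (s : Fin k → Pt K A F) : Fin k → Pt K A F :=
  fun j => ⟨(s j).b, (((ε j : ℤˣ) : ℤ) : F) * (s j).x, (s j).y⟩

/-- the value of a polynomial matrix at `τ = tt` -/
noncomputable def atT (M : Matrix (Fin 2) (Fin 2) K[X][X]) : Matrix (Fin 2) (Fin 2) (Om K)[X] :=
  M.map (mapRingHom (aeval (tt K) : K[X] →ₐ[K] Om K).toRingHom)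

end H19.ES
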