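import Pool.Agent.H19.ES.Frm

/-! # ES.Uniq : a product of matrices determines its factors (about 150 lines)

Induction on `k` (`Ch_succ`).  Let `λ` be a root of `f₀ = ff (be 0) (ga 0)` in `F` (`F` algebraically closed, degree 2): `λ ≠ 0` (`f₀(0) = β ≠ 0`), `λ² ≠ 1` (`f₀(±1) = 2(β ∓ γ) ≠ 0`), `2γλ = β(λ² + 1)`, and `f_i(λ) ≠ 0` for `i ≠ 0`
(otherwise `γ_i β₀ = γ₀ β_i`).  So the rest `M'(λ)` of the product is invertible (`det_Ch`) for both chains and the matrices `B(λ)`, `B'(λ)` (evaluations of `Bm` at `λ`) of the first points have the same column space, of rank 1.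
`B(λ) = [[λx - β, λδ], [δ, λβ - x]]` has determinant `0` and is not `0` (`λ² ≠ 1`).  So all `2 × 2` minors of the `2 × 4` matrix `(B(λ), B'(λ))` are `0`: with `v = (λx - β, δ)` or `v = (λδ, λβ - x)`, whichever is not `0`,
`v·v = x(λ²-1)(λx-β)/λ`, `v₀² + λ²v₁² = β(λ²-1)(λx-β)`, resp. `x(λ²-1)(βλ-x)`, `λβ(λ²-1)(λβ-x)`, so in both cases
`x (v₀² + λ²v₁²) = βλ (v₀² + v₁²)`, `δ (v₀² + λ²v₁²) = β v₀v₁(λ²-1)` with `v₀² + λ²v₁² ≠ 0`: `x`, `δ` depend only on the line spanned by `v`.
Then cancel the first factor (multiply by `Bm x β (-δ)`: `adj_Bm`; its determinant `x f₀ ≠ 0` is a nonzerodivisor) and use induction. -/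

namespace H19.ES

open H68.BB Polynomial

variable {F : Type} [Field F] [IsAlgClosed F] [CharZero F]

omit [IsAlgClosed F] in
private theorem root_ne {be ga l : F} (hbe : be ≠ 0) (hns : ga ^ 2 ≠ be ^ 2)
    (hl : be * l ^ 2 - 2 * ga * l + be = 0) : l ≠ 0 ∧ l ^ 2 - 1 ≠ 0 := by
  constructor
  · rintro rfl
    apply hbe
    linear_combination hl
  · intro h1
    apply hns
    have h2 : be - ga * l = 0 := by
      have h3 : (2 : F) * (be - ga * l) = 0 := by linear_combination hl - be * h1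
      exact (mul_eq_zero.mp h3).resolve_left two_ne_zero
    linear_combination (-ga * l - be) * h2 - ga ^ 2 * h1

omit [IsAlgClosed F] [CharZero F] in
private theorem ff_eval (be ga l : F) : (ff be ga).eval l = be * l ^ 2 - 2 * ga * l + be := by
  unfold ff
  simp

/-- the point is determined by the line spanned by a nonzero column of its matrix at `λ` -/
theorem line {be ga x d l v0 v1 : F} (hbe : be ≠ 0) (hns : ga ^ 2 ≠ be ^ 2) (hc : Con be ga x d) (hx : x ≠ 0)
    (hl : (ff be ga).eval l = 0) (hv : (v0 = l * x - be ∧ v1 = d ∨ v0 = l * d ∧ v1 = l * be - x)) (hv0 : v0 ≠ 0 ∨ v1 ≠ 0) :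
    v0 ^ 2 + v1 ^ 2 ≠ 0 ∧ v0 ^ 2 + l ^ 2 * v1 ^ 2 ≠ 0 ∧ x * (v0 ^ 2 + l ^ 2 * v1 ^ 2) = be * l * (v0 ^ 2 + v1 ^ 2) ∧
      d * (v0 ^ 2 + l ^ 2 * v1 ^ 2) = be * v0 * v1 * (l ^ 2 - 1) := by
  rw [ff_eval] at hl
  obtain ⟨hl0, hl1⟩ := root_ne hbe hns hl
  have hc' : d ^ 2 + x ^ 2 - 2 * ga * x + be ^ 2 = 0 := hc
  have hd : l * d ^ 2 = (l * x - be) * (l * be - x) := by linear_combination l * hc' - x * hl
  rcases hv with ⟨rfl, rfl⟩ | ⟨rfl, rfl⟩
  · have hv0' : l * x - be ≠ 0 := by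
      intro h0
      rcases hv0 with h | h
      · exact h h0
      · have h2 : l * v1 ^ 2 = 0 := by rw [hd, h0, zero_mul]
        exact h (pow_eq_zero_iff (two_ne_zero) |>.mp ((mul_eq_zero.mp h2).resolve_left hl0))
    have e1 : l * ((l * x - be) ^ 2 + v1 ^ 2) = (l * x - be) * x * (l ^ 2 - 1) := by
      linear_combination hd
    have e2 : (l * x - be) ^ 2 + l ^ 2 * v1 ^ 2 = (l * x - be) * be * (l ^ 2 - 1) := by
      linear_combination l * hd
    refine ⟨?_, ?_, ?_, ?_⟩
    · intro h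
      rw [h, mul_zero] at e1
      exact mul_ne_zero (mul_ne_zero hv0' hx) hl1 e1.symm
    · rw [e2]
      exact mul_ne_zero (mul_ne_zero hv0' hbe) hl1
    · rw [e2]
      linear_combination (-be) * e1
    · rw [e2]
      ring
  · have hv1' : l * be - x ≠ 0 := by
      intro h0
      rcases hv0 with h | h
      · have h2 : l * d ^ 2 = 0 := by rw [hd, h0, mul_zero]
        have h3 : d = 0 := pow_eq_zero_iff (two_ne_zero) |>.mp ((mul_eq_zero.mp h2).resolve_left hl0)
        exact h (by rw [h3, mul_zero])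
      · exact h h0
    have e1 : (l * d) ^ 2 + (l * be - x) ^ 2 = (l * be - x) * x * (l ^ 2 - 1) := by
      linear_combination l * hd
    have e2 : (l * d) ^ 2 + l ^ 2 * (l * be - x) ^ 2 = l * be * (l ^ 2 - 1) * (l * be - x) := by
      linear_combination l * hd
    refine ⟨?_, ?_, ?_, ?_⟩
    · rw [e1]
      exact mul_ne_zero (mul_ne_zero hv1' hx) hl1
    · rw [e2]
      exact mul_ne_zero (mul_ne_zero (mul_ne_zero hl0 hbe) hl1) hv1'
    · rw [e2, e1]
      ring
    · rw [e2]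
      ring

omit [IsAlgClosed F] [CharZero F] in
private theorem prop_of_minor {v0 v1 w0 w1 : F} (hv : v0 ≠ 0 ∨ v1 ≠ 0) (hw : w0 ≠ 0 ∨ w1 ≠ 0)
    (h : v0 * w1 = v1 * w0) : ∃ c, c ≠ 0 ∧ w0 = c * v0 ∧ w1 = c * v1 := by
  rcases hv with hv | hv
  · have h1 : w1 = w0 / v0 * v1 := by
      field_simp
      linear_combination h
    refine ⟨w0 / v0, ?_, by field_simp, h1⟩
    intro h0
    rw [h0, zero_mul] at h1
    have h2 : w0 = 0 := by
      rcases div_eq_zero_iff.mp h0 with h3 | h3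
      · exact h3
      · exact absurd h3 hv
    rcases hw with hw | hw
    · exact hw h2
    · exact hw h1
  · have h1 : w0 = w1 / v1 * v0 := by
      field_simp
      linear_combination -h
    refine ⟨w1 / v1, ?_, h1, by field_simp⟩
    intro h0
    rw [h0, zero_mul] at h1
    have h2 : w1 = 0 := by
      rcases div_eq_zero_iff.mp h0 with h3 | h3
      · exact h3
      · exact absurd h3 hv
    rcases hw with hw | hw
    · exact hw h1
    · exact hw h2

private theorem col_exists {be ga x d l : F} (hbe : be ≠ 0) (hns : ga ^ 2 ≠ be ^ 2) (hx : x ≠ 0)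
    (hl : (ff be ga).eval l = 0) :
    ∃ v0 v1 : F, (v0 = l * x - be ∧ v1 = d ∨ v0 = l * d ∧ v1 = l * be - x) ∧ (v0 ≠ 0 ∨ v1 ≠ 0) := by
  rw [ff_eval] at hl
  obtain ⟨hl0, hl1⟩ := root_ne hbe hns hl
  by_cases h1 : l * x - be = 0
  · refine ⟨l * d, l * be - x, Or.inr ⟨rfl, rfl⟩, Or.inr ?_⟩
    intro h2
    have h3 : x * (l ^ 2 - 1) = 0 := by linear_combination l * h1 + h2
    exact mul_ne_zero hx hl1 h3
  · exact ⟨l * x - be, d, Or.inl ⟨rfl, rfl⟩, Or.inl h1⟩

/-- two conic points whose matrices at a root of `f` have the same column line are equal -/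
private theorem pt_eq {be ga x d x' d' l : F} (hbe : be ≠ 0) (hns : ga ^ 2 ≠ be ^ 2)
    (hc : Con be ga x d) (hc' : Con be ga x' d') (hx : x ≠ 0) (hx' : x' ≠ 0)
    (hl : (ff be ga).eval l = 0)
    (hm : ∀ v0 v1 w0 w1 : F, (v0 = l * x - be ∧ v1 = d ∨ v0 = l * d ∧ v1 = l * be - x) →
      (w0 = l * x' - be ∧ w1 = d' ∨ w0 = l * d' ∧ w1 = l * be - x') → v0 * w1 = v1 * w0) :
    x = x' ∧ d = d' := by
  obtain ⟨v0, v1, hv, hv0⟩ := col_exists (d := d) hbe hns hx hl
  obtain ⟨w0, w1, hw, hw0⟩ := col_exists (d := d') hbe hns hx' hl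
  obtain ⟨c, hc0, rfl, rfl⟩ := prop_of_minor hv0 hw0 (hm v0 v1 w0 w1 hv hw)
  obtain ⟨-, h2, h3, h4⟩ := line hbe hns hc hx hl hv hv0
  obtain ⟨-, -, h3', h4'⟩ := line hbe hns hc' hx' hl hw hw0
  have hc2 : c ^ 2 ≠ 0 := pow_ne_zero 2 hc0
  constructor
  · have h5 : c ^ 2 * ((v0 ^ 2 + l ^ 2 * v1 ^ 2) * (x - x')) = 0 := by
      linear_combination c ^ 2 * h3 - h3'
    have h6 := (mul_eq_zero.mp ((mul_eq_zero.mp h5).resolve_left hc2)).resolve_left h2
    exact sub_eq_zero.mp h6
  · have h5 : c ^ 2 * ((v0 ^ 2 + l ^ 2 * v1 ^ 2) * (d - d')) = 0 := by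
      linear_combination c ^ 2 * h4 - h4'
    have h6 := (mul_eq_zero.mp ((mul_eq_zero.mp h5).resolve_left hc2)).resolve_left h2
    exact sub_eq_zero.mp h6

omit [IsAlgClosed F] [CharZero F] in
private theorem Bm_eval (be x d l : F) :
    (Bm be x d).map (Polynomial.eval l) = !![l * x - be, l * d; d, l * be - x] := by
  unfold Bm
  ext1 i j
  fin_cases i <;> fin_cases j
  · change (C x * X - C be).eval l = l * x - be
    simp only [eval_sub, eval_mul, eval_C, eval_X]
    ring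
  · change (C d * X).eval l = l * d
    simp only [eval_mul, eval_C, eval_X]
    ring
  · change (C d).eval l = d
    rw [eval_C]
  · change (C be * X - C x).eval l = l * be - x
    simp only [eval_sub, eval_mul, eval_C, eval_X]
    ring

omit [IsAlgClosed F] [CharZero F] in
private theorem minors {A B N : Matrix (Fin 2) (Fin 2) F} (hA : A.det = 0) (h : B = A * N) :
    ∀ i j, A 0 i * B 1 j = A 1 i * B 0 j := by
  rw [Matrix.det_fin_two] at hA
  intro i j
  rw [h, Matrix.mul_apply, Matrix.mul_apply, Fin.sum_univ_two, Fin.sum_univ_two]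
  fin_cases i
  · change A 0 0 * (A 1 0 * N 0 j + A 1 1 * N 1 j) = A 1 0 * (A 0 0 * N 0 j + A 0 1 * N 1 j)
    linear_combination N 1 j * hA
  · change A 0 1 * (A 1 0 * N 0 j + A 1 1 * N 1 j) = A 1 1 * (A 0 0 * N 0 j + A 0 1 * N 1 j)
    linear_combination (-N 0 j) * hA

theorem uniq {k : ℕ} {be ga x d x' d' : Fin k → F} (hT : Ty be ga) (hc : ∀ i, Con (be i) (ga i) (x i) (d i))
    (hc' : ∀ i, Con (be i) (ga i) (x' i) (d' i)) (hx : ∀ i, x i ≠ 0) (hx' : ∀ i, x' i ≠ 0)
    (h : Ch be x d = Ch be x' d') : x = x' ∧ d = d' := by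
  induction k with
  | zero => exact ⟨Subsingleton.elim _ _, Subsingleton.elim _ _⟩
  | succ k ih =>
    have hbe := hT.be0 0
    have hns := hT.ns 0
    obtain ⟨s, hs⟩ := IsAlgClosed.exists_eq_mul_self (ga 0 ^ 2 - be 0 ^ 2)
    set l : F := (ga 0 + s) / be 0 with hldef
    have hl' : be 0 * l ^ 2 - 2 * ga 0 * l + be 0 = 0 := by
      rw [hldef]
      field_simp
      linear_combination -hs
    have hl : (ff (be 0) (ga 0)).eval l = 0 := by rw [ff_eval, hl']
    obtain ⟨hl0, hl1⟩ := root_ne hbe hns hl'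
    have hev : ∀ i : Fin k, (ff (be i.succ) (ga i.succ)).eval l ≠ 0 := by
      intro i h1
      rw [ff_eval] at h1
      apply hT.co i.succ 0 (Fin.succ_ne_zero i)
      have h2 : (2 * l) * (ga i.succ * be 0 - ga 0 * be i.succ) = 0 := by
        linear_combination be i.succ * hl' - be 0 * h1
      have h3 := (mul_eq_zero.mp h2).resolve_left (mul_ne_zero two_ne_zero hl0)
      exact sub_eq_zero.mp h3
    rw [Ch_succ be x d, Ch_succ be x' d'] at h
    set M := Ch (fun i : Fin k => be i.succ) (fun i => x i.succ) (fun i => d i.succ) with hM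
    set M' := Ch (fun i : Fin k => be i.succ) (fun i => x' i.succ) (fun i => d' i.succ) with hM'
    have hdet' : (M'.map (Polynomial.eval l)).det ≠ 0 := by
      have h1 : (M'.map (Polynomial.eval l)).det = M'.det.eval l := by
        have h2 := RingHom.map_det (evalRingHom l) M'
        simpa using h2.symm
      rw [h1, hM', det_Ch (ga := fun i => ga i.succ) (fun i => hc' i.succ), eval_mul, eval_C,
        eval_prod]
      exact mul_ne_zero (Finset.prod_ne_zero_iff.mpr fun i _ => hx' i.succ)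
        (Finset.prod_ne_zero_iff.mpr fun i _ => hev i)
    have hmap : ∀ P Q : Matrix (Fin 2) (Fin 2) F[X],
        (P * Q).map (Polynomial.eval l) = P.map (Polynomial.eval l) * Q.map (Polynomial.eval l) := by
      intro P Q
      exact Matrix.map_mul (f := evalRingHom l)
    have h1 := congrArg (fun P : Matrix (Fin 2) (Fin 2) F[X] => P.map (Polynomial.eval l)) h
    simp only [hmap, Bm_eval] at h1
    set A : Matrix (Fin 2) (Fin 2) F := !![l * x 0 - be 0, l * d 0; d 0, l * be 0 - x 0] with hA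
    set B : Matrix (Fin 2) (Fin 2) F := !![l * x' 0 - be 0, l * d' 0; d' 0, l * be 0 - x' 0] with hB
    have hinv : M'.map (Polynomial.eval l) * (M'.map (Polynomial.eval l))⁻¹ = 1 :=
      Matrix.mul_nonsing_inv _ (isUnit_iff_ne_zero.mpr hdet')
    have hBA : B = A * (M.map (Polynomial.eval l) * (M'.map (Polynomial.eval l))⁻¹) := by
      rw [← mul_assoc, h1, mul_assoc, hinv, mul_one]
    have hAdet : A.det = 0 := by
      rw [hA, Matrix.det_fin_two_of]
      have hc0 : d 0 ^ 2 + x 0 ^ 2 - 2 * ga 0 * x 0 + be 0 ^ 2 = 0 := hc 0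
      linear_combination x 0 * hl' - l * hc0
    have hmin := minors hAdet hBA
    have hp : x 0 = x' 0 ∧ d 0 = d' 0 := by
      apply pt_eq hbe hns (hc 0) (hc' 0) (hx 0) (hx' 0) hl
      rintro v0 v1 w0 w1 (⟨rfl, rfl⟩ | ⟨rfl, rfl⟩) (⟨rfl, rfl⟩ | ⟨rfl, rfl⟩)
      · exact hmin 0 0
      · exact hmin 0 1
      · exact hmin 1 0
      · exact hmin 1 1
    have hMM : M = M' := by
      rw [← hp.1, ← hp.2] at h
      have h2 := congrArg (fun P => Bm (x 0) (be 0) (-d 0) * P) h
      simp only [← mul_assoc, (adj_Bm (be 0) (x 0) (d 0)).2, smul_mul_assoc, one_mul] at h2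
      have hne : (Bm (be 0) (x 0) (d 0)).det ≠ 0 := by
        rw [det_Bm (hc 0)]
        refine mul_ne_zero (C_ne_zero.mpr (hx 0)) ?_
        intro h3
        have h4 : (ff (be 0) (ga 0)).coeff 0 = be 0 := by
          unfold ff
          simp
        rw [h3, coeff_zero] at h4
        exact hbe h4.symm
      ext1 i j
      have h3 := congrFun (congrFun h2 i) j
      rw [Matrix.smul_apply, Matrix.smul_apply, smul_eq_mul, smul_eq_mul] at h3
      exact mul_left_cancel₀ hne h3
    have hT' : Ty (fun i : Fin k => be i.succ) (fun i => ga i.succ) :=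
      ⟨fun i => hT.be0 _, fun i => hT.ns _,
        fun i j hij => hT.co _ _ (fun h5 => hij (Fin.succ_injective _ h5))⟩
    obtain ⟨h5, h6⟩ := ih hT' (fun i => hc i.succ) (fun i => hc' i.succ) (fun i => hx i.succ)
      (fun i => hx' i.succ) hMM
    constructor
    · funext i
      rcases Fin.eq_zero_or_eq_succ i with rfl | ⟨j, rfl⟩
      · exact hp.1
      · exact congrFun h5 j
    · funext i
      rcases Fin.eq_zero_or_eq_succ i with rfl | ⟨j, rfl⟩
      · exact hp.2
      · exact congrFun h6 j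

end H19.ES
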