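import Pool.Agent.H19.ES.Peel
import Pool.Agent.H19.ES.Uniq
import Pool.Agent.H67.KH.Roots

/-! # ES.LiftCh : a chain lifts along a place (about 250 lines)

`M` over `Ω` has the formal properties and the determinant of a product of `k` matrices of types `(be i, ga i)`, and its coefficients reduce to those of the product `Ch be0 x0 d0` over `K` of a nondegenerate chain.  Then `M` is the product of a chain which
reduces to the given one.  Induction on `k`.  `k = 0`: `Frm 0 M X0 1`: `M₀₀ = X0 = 1`, `M₀₁ = 0`, `M₁₀ = 0`, `M₁₁ = 1`.  Step: `f = ff (be 0) (ga 0)` reduces to `f₀ = ff (be0 0) (ga0 0)` of degree 2; let `λ` be a root of `f` in `Ω`, it reduces (`roots_rd`) to a root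
`λ₀` of `f₀`.  `Ch be0 x0 d0 = B₀ * R₀` (`Ch_succ`), `R₀(λ₀)` invertible (`det_Ch`; `f_i(λ₀) ≠ 0` for `i ≠ 0`, see `Uniq`).  So `(B₀R₀)(λ₀)` has rank 1 and a nonzero column `j`, a multiple `c v⁰` (`c ≠ 0`) of a nonzero column `v⁰` of `B₀(λ₀)`.
Let `v` be the column `j` of `M(λ)`: integral, reduces to `c v⁰`, so it is not `0`; `det M(λ) = 0`, so all columns of `M(λ)` are multiples of `v` (`hcol`).  By `line` for the point `(x0 0, d0 0)`: `v⁰·v⁰ ≠ 0`, `v⁰₀² + λ₀²v⁰₁² ≠ 0` and the formulas for `x0 0`, `d0 0`; so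
the same for `v` (their reductions are not `0`) and `x`, `δ` of `peel` reduce to `x0 0`, `d0 0` (`Rd.mul`, `Rd.inv`; `Place.isLocal`).  `peel` gives `M = Bm β x δ * M'`; `M'` reduces to `R₀`: `divRd` below applied to the entries of
`Bm x β (-δ) * M = x f M'` and `Bm x0 β0 (-δ0) * (B₀R₀) = x0 f₀ R₀`.  Induction for `M'` and the types `i.succ`.
`divRd`: `p g = h`, `p`, `h` reduce to `p₀`, `h₀ = p₀ g₀`, `natDegree p = natDegree p₀`, `p₀ ≠ 0` : the coefficients of `g` are integral (from the top: leading coefficient of `p` is a unit) and reduce to those of `g₀`. -/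

namespace H19.ES

open H68.BB Polynomial

variable {K : Type} [Field K] [IsAlgClosed K] [CharZero K] {π : Place K (Om K)}

omit [IsAlgClosed K] [CharZero K] in
private theorem Rd.fsum {ι : Type} (s : Finset ι) {f : ι → Om K} {g : ι → K} (h : ∀ i ∈ s, Rd π.V π.φ (f i) (g i)) :
    Rd π.V π.φ (∑ i ∈ s, f i) (∑ i ∈ s, g i) := by
  classical
  induction s using Finset.induction_on with
  | empty => simpa using Rd.zero
  | insert a s ha ih =>
    rw [Finset.sum_insert ha, Finset.sum_insert ha]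
    exact (h a (Finset.mem_insert_self _ _)).add (ih fun i hi => h i (Finset.mem_insert_of_mem hi))

theorem divRd {p g : (Om K)[X]} {p0 g0 : K[X]} (hp : ∀ n, Rd π.V π.φ (p.coeff n) (p0.coeff n)) (hp0 : p0 ≠ 0)
    (hd : p.natDegree ≤ p0.natDegree) (h : ∀ n, Rd π.V π.φ ((p * g).coeff n) ((p0 * g0).coeff n)) (n : ℕ) :
    Rd π.V π.φ (g.coeff n) (g0.coeff n) := by
  have := π.isLocal
  have hl : p0.coeff p0.natDegree ≠ 0 := by
    rw [coeff_natDegree]
    exact leadingCoeff_ne_zero.2 hp0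
  have key : ∀ m n, g.natDegree + g0.natDegree < n + m → Rd π.V π.φ (g.coeff n) (g0.coeff n) := by
    intro m
    induction m with
    | zero =>
      intro n hn
      rw [coeff_eq_zero_of_natDegree_lt (by omega), coeff_eq_zero_of_natDegree_lt (by omega)]
      exact Rd.zero
    | succ m ih =>
      intro n hn
      have h1 := h (p0.natDegree + n)
      have hmem : (p0.natDegree, n) ∈ Finset.HasAntidiagonal.antidiagonal (p0.natDegree + n) := by
        rw [Finset.HasAntidiagonal.mem_antidiagonal]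
      rw [coeff_mul, coeff_mul, ← Finset.add_sum_erase _ _ hmem, ← Finset.add_sum_erase _ _ hmem] at h1
      have h2 : Rd π.V π.φ
          (∑ x ∈ (Finset.HasAntidiagonal.antidiagonal (p0.natDegree + n)).erase (p0.natDegree, n), p.coeff x.1 * g.coeff x.2)
          (∑ x ∈ (Finset.HasAntidiagonal.antidiagonal (p0.natDegree + n)).erase (p0.natDegree, n), p0.coeff x.1 * g0.coeff x.2) := by
        refine Rd.fsum _ fun x hx => ?_
        rw [Finset.mem_erase, Finset.HasAntidiagonal.mem_antidiagonal] at hx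
        obtain ⟨hx1, hx2⟩ := hx
        by_cases hlt : p0.natDegree < x.1
        · rw [coeff_eq_zero_of_natDegree_lt (by omega), coeff_eq_zero_of_natDegree_lt (p := p0) hlt, zero_mul, zero_mul]
          exact Rd.zero
        · refine (hp _).mul (ih _ ?_)
          have : x.1 ≠ p0.natDegree := by
            intro he
            apply hx1
            ext
            · exact he
            · show x.2 = n
              omega
          omega
      have h3 := h1.sub h2
      rw [add_sub_cancel_right, add_sub_cancel_right] at h3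
      have h4 := ((hp p0.natDegree).inv hl).mul h3
      have hl' : p.coeff p0.natDegree ≠ 0 := (hp p0.natDegree).ne_zero hl
      rwa [inv_mul_cancel_left₀ hl', inv_mul_cancel_left₀ hl] at h4
  exact key (g.natDegree + g0.natDegree + 1) n (by omega)

/-- all coefficients reduce -/
private def RP (π : Place K (Om K)) (p : (Om K)[X]) (p0 : K[X]) : Prop := ∀ n, Rd π.V π.φ (p.coeff n) (p0.coeff n)

omit [IsAlgClosed K] [CharZero K] in
private theorem RP.add {p q : (Om K)[X]} {p0 q0 : K[X]} (h : RP π p p0) (h' : RP π q q0) : RP π (p + q) (p0 + q0) := by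
  intro n
  rw [coeff_add, coeff_add]
  exact (h n).add (h' n)

omit [IsAlgClosed K] [CharZero K] in
private theorem RP.sub {p q : (Om K)[X]} {p0 q0 : K[X]} (h : RP π p p0) (h' : RP π q q0) : RP π (p - q) (p0 - q0) := by
  intro n
  rw [coeff_sub, coeff_sub]
  exact (h n).sub (h' n)

omit [IsAlgClosed K] [CharZero K] in
private theorem RP.mul {p q : (Om K)[X]} {p0 q0 : K[X]} (h : RP π p p0) (h' : RP π q q0) : RP π (p * q) (p0 * q0) := by
  intro n
  rw [coeff_mul, coeff_mul]
  exact Rd.fsum _ fun x _ => (h _).mul (h' _)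

omit [IsAlgClosed K] [CharZero K] in
private theorem RP.C' {a : Om K} {a0 : K} (h : Rd π.V π.φ a a0) : RP π (C a) (C a0) := by
  intro n
  rw [coeff_C, coeff_C]
  split_ifs
  · exact h
  · exact Rd.zero

omit [IsAlgClosed K] [CharZero K] in
private theorem RP.X' : RP π X X := by
  intro n
  rw [coeff_X, coeff_X]
  split_ifs
  · exact Rd.one
  · exact Rd.zero

omit [IsAlgClosed K] [CharZero K] in
private theorem RP.pow {p : (Om K)[X]} {p0 : K[X]} (h : RP π p p0) (n : ℕ) : RP π (p ^ n) (p0 ^ n) := by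
  induction n with
  | zero =>
    rw [pow_zero, pow_zero, ← C_1, ← C_1]
    exact RP.C' Rd.one
  | succ n ih =>
    rw [pow_succ, pow_succ]
    exact ih.mul h

omit [IsAlgClosed K] [CharZero K] in
private theorem RP.ev {p : (Om K)[X]} {p0 : K[X]} (h : RP π p p0) {l : Om K} {l0 : K} (hl : Rd π.V π.φ l l0) :
    Rd π.V π.φ (p.eval l) (p0.eval l0) := by
  rw [eval_eq_sum_range' (n := p.natDegree + p0.natDegree + 1) (by omega),
    eval_eq_sum_range' (p := p0) (n := p.natDegree + p0.natDegree + 1) (by omega)]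
  exact Rd.fsum _ fun i _ => (h i).mul (hl.pow i)

omit [IsAlgClosed K] [CharZero K] in
private theorem RP.Bm' {be x d : Om K} {be0 x0 d0 : K} (hb : Rd π.V π.φ be be0) (hx : Rd π.V π.φ x x0)
    (hd : Rd π.V π.φ d d0) (i j : Fin 2) : RP π (Bm be x d i j) (Bm be0 x0 d0 i j) := by
  fin_cases i <;> fin_cases j
  · exact ((RP.C' hx).mul RP.X').sub (RP.C' hb)
  · exact (RP.C' hd).mul RP.X'
  · exact RP.C' hd
  · exact ((RP.C' hb).mul RP.X').sub (RP.C' hx)

omit [IsAlgClosed K] [CharZero K] in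
private theorem RP.ff' {be ga : Om K} {be0 ga0 : K} (hb : Rd π.V π.φ be be0) (hg : Rd π.V π.φ ga ga0) :
    RP π (ff be ga) (ff be0 ga0) :=
  (((RP.C' hb).mul (RP.X'.pow 2)).sub ((RP.C' (Rd.two.mul hg)).mul RP.X')).add (RP.C' hb)

private theorem ff_eval {F : Type} [Field F] (be ga l : F) : (ff be ga).eval l = be * l ^ 2 - 2 * ga * l + be := by
  simp [ff]

private theorem ff_deg {F : Type} [Field F] {be ga : F} (h : be ≠ 0) : (ff be ga).natDegree = 2 := by
  have h1 : ff be ga = C be * X ^ 2 + C (-(2 * ga)) * X + C be := by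
    rw [ff, C_neg]
    ring
  rw [h1]
  exact natDegree_quadratic h

private theorem ff_root_ne {F : Type} [Field F] {be ga l : F} (h : be ≠ 0) (hl : (ff be ga).eval l = 0) : l ≠ 0 := by
  rintro rfl
  rw [ff_eval] at hl
  apply h
  linear_combination hl

/-- a nonzero column -/
private theorem col {F : Type} [Field F] [CharZero F] {be ga x d l : F} (hbe : be ≠ 0) (hns : ga ^ 2 ≠ be ^ 2) (hc : Con be ga x d) (hx : x ≠ 0)
    (hl : (ff be ga).eval l = 0) : ∃ v0 v1 s0 s1 : F, (v0 = l * x - be ∧ v1 = d ∨ v0 = l * d ∧ v1 = l * be - x) ∧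
      (v0 ≠ 0 ∨ v1 ≠ 0) ∧ (s0 ≠ 0 ∨ s1 ≠ 0) ∧ l * x - be = s0 * v0 ∧ d = s0 * v1 ∧ l * d = s1 * v0 ∧ l * be - x = s1 * v1 := by
  rw [ff_eval] at hl
  unfold Con at hc
  have hdet : (l * x - be) * (l * be - x) = d * (l * d) := by
    linear_combination x * hl - l * hc
  by_cases h : l * x - be = 0 ∧ d = 0
  · obtain ⟨h1, h2⟩ := h
    have h3 : l * be - x ≠ 0 := by
      intro h3
      have h4 : be * (l ^ 2 - 1) = 0 := by linear_combination h1 + l * h3
      have h5 : l ^ 2 = 1 := by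
        have := (mul_eq_zero.1 h4).resolve_left hbe
        linear_combination this
      apply hns
      have h6 : 2 * (ga * l - be) = 0 := by linear_combination be * h5 - hl
      have h7 := (mul_eq_zero.1 h6).resolve_left two_ne_zero
      linear_combination (ga * l + be) * h7 - ga ^ 2 * h5
    refine ⟨l * d, l * be - x, 0, 1, Or.inr ⟨rfl, rfl⟩, Or.inr h3, Or.inr one_ne_zero, ?_, ?_, ?_, ?_⟩
    · rw [h1, zero_mul]
    · rw [h2, zero_mul]
    · rw [one_mul]
    · rw [one_mul]
  · by_cases h1 : l * x - be = 0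
    · have h2 : d ≠ 0 := fun h2 => h ⟨h1, h2⟩
      refine ⟨l * x - be, d, 1, (l * be - x) / d, Or.inl ⟨rfl, rfl⟩, Or.inr h2, Or.inl one_ne_zero, ?_, ?_, ?_, ?_⟩
      · rw [one_mul]
      · rw [one_mul]
      · rw [h1, zero_mul] at hdet
        have : d * (l * d) = 0 := hdet.symm
        rw [h1, mul_zero]
        exact (mul_eq_zero.1 this).resolve_left h2
      · field_simp
    · refine ⟨l * x - be, d, 1, (l * d) / (l * x - be), Or.inl ⟨rfl, rfl⟩, Or.inl h1, Or.inl one_ne_zero, ?_, ?_, ?_, ?_⟩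
      · rw [one_mul]
      · rw [one_mul]
      · field_simp
      · rw [div_mul_eq_mul_div, eq_div_iff h1]
        linear_combination hdet

theorem lift_ch {k : ℕ} {be ga : Fin k → Om K} {be0 ga0 x0 d0 : Fin k → K} (hbe : ∀ i, Rd π.V π.φ (be i) (be0 i))
    (hga : ∀ i, Rd π.V π.φ (ga i) (ga0 i)) (hT : Ty be0 ga0) (hc : ∀ i, Con (be0 i) (ga0 i) (x0 i) (d0 i))
    (hx : ∀ i, x0 i ≠ 0) {M : Matrix (Fin 2) (Fin 2) (Om K)[X]} {X0 : Om K} (hM : Frm k M X0 (∏ i, be i))
    (hdet : M.det = C X0 * ∏ i, ff (be i) (ga i))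
    (hr : ∀ i j n, Rd π.V π.φ ((M i j).coeff n) ((Ch be0 x0 d0 i j).coeff n)) :
    ∃ x d : Fin k → Om K, (∀ i, Con (be i) (ga i) (x i) (d i)) ∧ (∀ i, Rd π.V π.φ (x i) (x0 i)) ∧
      (∀ i, Rd π.V π.φ (d i) (d0 i)) ∧ Ch be x d = M := by
  have := π.isLocal
  induction k generalizing M X0 with
  | zero =>
    refine ⟨fun i => i.elim0, fun i => i.elim0, fun i => i.elim0, fun i => i.elim0, fun i => i.elim0, ?_⟩
    have h00 : M 0 0 = 1 := by
      have h1 := hM.bot
      rw [pow_zero, one_mul, Finset.univ_eq_empty, Finset.prod_empty] at h1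
      rw [eq_C_of_natDegree_eq_zero (Nat.le_zero.1 (hM.deg 0 0)), h1, C_1]
    have h01 : M 0 1 = 0 := by
      rw [eq_C_of_natDegree_eq_zero (Nat.le_zero.1 (hM.deg 0 1)), hM.r0, C_0]
    have h11 : M 1 1 = 1 := by
      rw [hM.m11, h00, pow_zero, one_mul, ← C_1, reflect_C, pow_zero, mul_one]
    have h10 : M 1 0 = 0 := by
      rw [hM.m10, h01, reflect_zero, mul_zero]
    have : Ch be (fun i => i.elim0) (fun i => i.elim0) = 1 := by
      simp [Ch]
    rw [this]
    refine Matrix.ext fun i j => ?_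
    fin_cases i <;> fin_cases j
    · exact h00.symm
    · exact h01.symm
    · exact h10.symm
    · exact h11.symm
  | succ k ih =>
    have hb0 : be 0 ≠ 0 := (hbe 0).ne_zero (hT.be0 0)
    have hns : ga 0 ^ 2 ≠ be 0 ^ 2 := by
      intro h
      have h1 := ((hga 0).pow 2).sub ((hbe 0).pow 2)
      rw [h, sub_self] at h1
      exact hT.ns 0 (sub_eq_zero.1 (h1.unique Rd.zero))
    -- a root and its reduction
    have hf0 : (ff (be0 0) (ga0 0)) ≠ 0 := by
      intro h
      have h1 := ff_deg (ga := ga0 0) (hT.be0 0)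
      rw [h, natDegree_zero] at h1
      omega
    have hrel := H67.KH.roots_rd (π := π) (p := ff (be 0) (ga 0)) (p' := ff (be0 0) (ga0 0)) hf0
      (RP.ff' (hbe 0) (hga 0)) (by rw [ff_deg hb0, ff_deg (hT.be0 0)])
    have hf : (ff (be 0) (ga 0)) ≠ 0 := by
      intro h
      have h1 := ff_deg (ga := ga 0) hb0
      rw [h, natDegree_zero] at h1
      omega
    obtain ⟨l, hl⟩ := IsAlgClosed.exists_root (ff (be 0) (ga 0)) (by
      intro h
      have h1 := natDegree_eq_of_degree_eq_some (n := 0) h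
      rw [ff_deg hb0] at h1
      omega)
    obtain ⟨l0, hl0, hll⟩ := Multiset.exists_mem_of_rel_of_mem hrel ((mem_roots hf).2 hl)
    have hl0' : (ff (be0 0) (ga0 0)).eval l0 = 0 := (mem_roots hf0).1 hl0
    have hl' : (ff (be 0) (ga 0)).eval l = 0 := hl
    have hln : l0 ≠ 0 := ff_root_ne (hT.be0 0) hl0'
    obtain ⟨v0, v1, s0, s1, hv, hv0, hs, e1, e2, e3, e4⟩ := col (hT.be0 0) (hT.ns 0) (hc 0) (hx 0) hl0'
    obtain ⟨n1, n2, n3, n4⟩ := line (hT.be0 0) (hT.ns 0) (hc 0) (hx 0) hl0' hv hv0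
    set R0 : Matrix (Fin 2) (Fin 2) K[X] := Ch (fun i => be0 i.succ) (fun i => x0 i.succ) (fun i => d0 i.succ) with hR0
    have hCh : Ch be0 x0 d0 = Bm (be0 0) (x0 0) (d0 0) * R0 := Ch_succ be0 x0 d0
    have hdR : R0.det = C (∏ i : Fin k, x0 i.succ) * ∏ i : Fin k, ff (be0 i.succ) (ga0 i.succ) :=
      det_Ch fun i => hc i.succ
    have hdR' : (R0 0 0).eval l0 * (R0 1 1).eval l0 - (R0 0 1).eval l0 * (R0 1 0).eval l0 ≠ 0 := by
      have h1 : (R0 0 0).eval l0 * (R0 1 1).eval l0 - (R0 0 1).eval l0 * (R0 1 0).eval l0 = R0.det.eval l0 := by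
        rw [Matrix.det_fin_two, eval_sub, eval_mul, eval_mul]
      rw [h1, hdR, eval_mul, eval_C, eval_prod]
      refine mul_ne_zero (Finset.prod_ne_zero_iff.2 fun i _ => hx _) (Finset.prod_ne_zero_iff.2 fun i _ => ?_)
      intro h2
      rw [ff_eval] at h2 hl0'
      apply hT.co i.succ 0 (Fin.succ_ne_zero i)
      have h3 : 2 * l0 * (ga0 i.succ * be0 0 - ga0 0 * be0 i.succ) = 0 := by
        linear_combination be0 i.succ * hl0' - be0 0 * h2
      have h4 := (mul_eq_zero.1 h3).resolve_left (mul_ne_zero two_ne_zero hln)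
      linear_combination h4
    -- a column of the product at `l0` which is not zero
    have hcol : ∀ i j, (Ch be0 x0 d0 i j).eval l0 =
        (s0 * (R0 0 j).eval l0 + s1 * (R0 1 j).eval l0) * (![v0, v1] i) := by
      intro i j
      rw [hCh, Matrix.mul_apply, Fin.sum_univ_two, eval_add, eval_mul, eval_mul]
      fin_cases i
      · simp only [Bm, Fin.zero_eta, Fin.mk_one, Matrix.of_apply, Matrix.cons_val', Matrix.cons_val_zero, Matrix.cons_val_one,
          Matrix.cons_val_fin_one, eval_sub, eval_mul, eval_C, eval_X]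
        linear_combination (R0 0 j).eval l0 * e1 + (R0 1 j).eval l0 * e3
      · simp only [Bm, Fin.zero_eta, Fin.mk_one, Matrix.of_apply, Matrix.cons_val', Matrix.cons_val_zero, Matrix.cons_val_one,
          Matrix.cons_val_fin_one, eval_sub, eval_mul, eval_C, eval_X]
        linear_combination (R0 0 j).eval l0 * e2 + (R0 1 j).eval l0 * e4
    obtain ⟨j, hj⟩ : ∃ j, s0 * (R0 0 j).eval l0 + s1 * (R0 1 j).eval l0 ≠ 0 := by
      by_contra hno
      push Not at hno
      have a0 := hno 0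
      have a1 := hno 1
      rcases hs with hs | hs
      · apply hdR'
        apply (mul_eq_zero.1 (_ : s0 * _ = 0)).resolve_left hs
        linear_combination (R0 1 1).eval l0 * a0 - (R0 1 0).eval l0 * a1
      · apply hdR'
        apply (mul_eq_zero.1 (_ : s1 * _ = 0)).resolve_left hs
        linear_combination (R0 0 0).eval l0 * a1 - (R0 0 1).eval l0 * a0
    set c : K := s0 * (R0 0 j).eval l0 + s1 * (R0 1 j).eval l0 with hcdef
    have r0 : Rd π.V π.φ ((M 0 j).eval l) (c * v0) := by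
      have h1 := RP.ev (hr 0 j) hll
      rw [hcol 0 j] at h1
      exact h1
    have r1 : Rd π.V π.φ ((M 1 j).eval l) (c * v1) := by
      have h1 := RP.ev (hr 1 j) hll
      rw [hcol 1 j] at h1
      exact h1
    have rA : Rd π.V π.φ ((M 0 j).eval l ^ 2 + (M 1 j).eval l ^ 2) (c ^ 2 * (v0 ^ 2 + v1 ^ 2)) := by
      have h1 := (r0.pow 2).add (r1.pow 2)
      have h2 : (c * v0) ^ 2 + (c * v1) ^ 2 = c ^ 2 * (v0 ^ 2 + v1 ^ 2) := by ring
      rwa [h2] at h1
    have rB : Rd π.V π.φ ((M 0 j).eval l ^ 2 + l ^ 2 * (M 1 j).eval l ^ 2) (c ^ 2 * (v0 ^ 2 + l0 ^ 2 * v1 ^ 2)) := by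
      have h1 := (r0.pow 2).add ((hll.pow 2).mul (r1.pow 2))
      have h2 : (c * v0) ^ 2 + l0 ^ 2 * (c * v1) ^ 2 = c ^ 2 * (v0 ^ 2 + l0 ^ 2 * v1 ^ 2) := by ring
      rwa [h2] at h1
    have nA : c ^ 2 * (v0 ^ 2 + v1 ^ 2) ≠ 0 := mul_ne_zero (pow_ne_zero 2 hj) n1
    have nB : c ^ 2 * (v0 ^ 2 + l0 ^ 2 * v1 ^ 2) ≠ 0 := mul_ne_zero (pow_ne_zero 2 hj) n2
    have mA := rA.ne_zero nA
    have mB := rB.ne_zero nB
    have hprod : ∏ i, be i = be 0 * ∏ i : Fin k, be i.succ := Fin.prod_univ_succ _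
    have hprodf : ∏ i, ff (be i) (ga i) = ff (be 0) (ga 0) * ∏ i : Fin k, ff (be i.succ) (ga i.succ) :=
      Fin.prod_univ_succ _
    have hdM : (M 0 0).eval l * (M 1 1).eval l - (M 0 1).eval l * (M 1 0).eval l = 0 := by
      have h1 : (M 0 0).eval l * (M 1 1).eval l - (M 0 1).eval l * (M 1 0).eval l = M.det.eval l := by
        rw [Matrix.det_fin_two, eval_sub, eval_mul, eval_mul]
      rw [h1, hdet, hprodf, eval_mul, eval_mul, hl', zero_mul, mul_zero]
    have hcol2 : ∀ j', ∃ t, (M 0 j').eval l = t * (M 0 j).eval l ∧ (M 1 j').eval l = t * (M 1 j).eval l := by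
      intro j'
      have hdd : (M 0 j').eval l * (M 1 j).eval l = (M 0 j).eval l * (M 1 j').eval l := by
        fin_cases j <;> fin_cases j'
        · rfl
        · simp only [Fin.zero_eta, Fin.mk_one]
          linear_combination -hdM
        · simp only [Fin.zero_eta, Fin.mk_one]
          linear_combination hdM
        · rfl
      by_cases h0 : (M 0 j).eval l = 0
      · have h1 : (M 1 j).eval l ≠ 0 := by
          intro h1
          apply mA
          rw [h0, h1]
          ring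
        refine ⟨(M 1 j').eval l / (M 1 j).eval l, ?_, ?_⟩
        · rw [h0, zero_mul] at hdd
          rw [h0, mul_zero]
          exact (mul_eq_zero.1 hdd).resolve_right h1
        · field_simp
      · refine ⟨(M 0 j').eval l / (M 0 j).eval l, ?_, ?_⟩
        · field_simp
        · rw [div_mul_eq_mul_div, eq_div_iff h0]
          linear_combination -hdd
    obtain ⟨p1, p2, M', p3, p4, p5⟩ := peel (k := k) (be := be 0) (ga := ga 0) (X0 := X0) (B0 := ∏ i : Fin k, be i.succ)
      (M := M) (g := ∏ i : Fin k, ff (be i.succ) (ga i.succ)) (by rw [← hprod]; exact hM) (by rw [hdet, hprodf]) hb0 hns hl'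
      hcol2 mA mB rfl rfl
    set x : Om K := be 0 * l * ((M 0 j).eval l ^ 2 + (M 1 j).eval l ^ 2) /
      ((M 0 j).eval l ^ 2 + l ^ 2 * (M 1 j).eval l ^ 2) with hxdef
    set d : Om K := be 0 * (M 0 j).eval l * (M 1 j).eval l * (l ^ 2 - 1) /
      ((M 0 j).eval l ^ 2 + l ^ 2 * (M 1 j).eval l ^ 2) with hddef
    have rx : Rd π.V π.φ x (x0 0) := by
      have h1 := (((hbe 0).mul hll).mul rA).div rB nB
      have h2 : be0 0 * l0 * (c ^ 2 * (v0 ^ 2 + v1 ^ 2)) / (c ^ 2 * (v0 ^ 2 + l0 ^ 2 * v1 ^ 2)) = x0 0 := by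
        rw [div_eq_iff nB]
        linear_combination -c ^ 2 * n3
      rwa [h2] at h1
    have rd : Rd π.V π.φ d (d0 0) := by
      have h1 := ((((hbe 0).mul r0).mul r1).mul ((hll.pow 2).sub Rd.one)).div rB nB
      have h2 : be0 0 * (c * v0) * (c * v1) * (l0 ^ 2 - 1) / (c ^ 2 * (v0 ^ 2 + l0 ^ 2 * v1 ^ 2)) = d0 0 := by
        rw [div_eq_iff nB]
        linear_combination -c ^ 2 * n4
      rwa [h2] at h1
    -- the rest reduces
    have hrest : ∀ i j n, Rd π.V π.φ ((M' i j).coeff n) ((R0 i j).coeff n) := by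
      intro i j
      have q1 : (Bm x (be 0) (-d) * M) i j = (C x * ff (be 0) (ga 0)) * M' i j := by
        rw [p4, ← Matrix.mul_assoc, (adj_Bm (be 0) x d).2, det_Bm p1, Matrix.smul_mul, Matrix.one_mul, Matrix.smul_apply,
          smul_eq_mul]
      have q2 : (Bm (x0 0) (be0 0) (-d0 0) * Ch be0 x0 d0) i j = (C (x0 0) * ff (be0 0) (ga0 0)) * R0 i j := by
        rw [hCh, ← Matrix.mul_assoc, (adj_Bm (be0 0) (x0 0) (d0 0)).2, det_Bm (hc 0), Matrix.smul_mul, Matrix.one_mul,
          Matrix.smul_apply, smul_eq_mul]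
      refine divRd (p := C x * ff (be 0) (ga 0)) (p0 := C (x0 0) * ff (be0 0) (ga0 0))
        ((RP.C' rx).mul (RP.ff' (hbe 0) (hga 0))) (mul_ne_zero (C_ne_zero.2 (hx 0)) hf0) ?_ ?_
      · rw [natDegree_C_mul (rx.ne_zero (hx 0)), natDegree_C_mul (hx 0), ff_deg hb0, ff_deg (hT.be0 0)]
      · rw [← q1, ← q2, Matrix.mul_apply, Matrix.mul_apply, Fin.sum_univ_two, Fin.sum_univ_two]
        exact ((RP.Bm' rx (hbe 0) rd.neg i 0).mul (hr 0 j)).add ((RP.Bm' rx (hbe 0) rd.neg i 1).mul (hr 1 j))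
    obtain ⟨x', d', i1, i2, i3, i4⟩ := ih (be := fun i => be i.succ) (ga := fun i => ga i.succ)
      (be0 := fun i => be0 i.succ) (ga0 := fun i => ga0 i.succ) (x0 := fun i => x0 i.succ) (d0 := fun i => d0 i.succ)
      (fun i => hbe _) (fun i => hga _)
      ⟨fun i => hT.be0 _, fun i => hT.ns _, fun i j hij => hT.co _ _ fun h => hij (Fin.succ_injective _ h)⟩
      (fun i => hc _) (fun i => hx _) (M := M') (X0 := X0 / x) p3 p5 hrest
    refine ⟨Fin.cons x x', Fin.cons d d', ?_, ?_, ?_, ?_⟩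
    · intro i
      refine Fin.cases ?_ (fun i => ?_) i
      · exact p1
      · exact i1 i
    · intro i
      refine Fin.cases ?_ (fun i => ?_) i
      · exact rx
      · exact i2 i
    · intro i
      refine Fin.cases ?_ (fun i => ?_) i
      · exact rd
      · exact i3 i
    · rw [Ch_succ, p4, ← i4]
      rfl

end H19.ES
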