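import Pool.Agent.H19.ES.Def2

/-! # ES.Slot : restriction of a functional to some slots, permutation of the slots, alternating sum (about 120 lines)

`slots`: `Ψ.cl p = Φ.cl (Function.extend e p s)`.  The relation: for a multiset `S` of `m`-tuples over `Ω` take
`S.map (fun q => Function.extend e q (fun i => cst' (s i)))`: all points are on the surface (`hs`), Galois-stable (`gal σ` fixes the constant
points: `sigma_cst` in `H67.KH.Val` is `σ (algebraMap K (Om K) c) = algebraMap K (Om K) c`, proof by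
`IsScalarTower.algebraMap_apply K (RatFunc K) (Om K)` and `σ.commutes`), and `Lim1 Ψ.cl π q c → Lim1 Φ.cl π (extend e q ..) c` : if `q` reduces to `p`
then the extended tuple reduces to `extend e p s` (`Sp_cst'`, case distinction `∃ j, e j = i`, `he.extend_apply`, `Function.extend_apply'`); if `q j` is not
integral then the member `e j` of the extended tuple is not.  Then `Φ.rel`; `Lim` of the mapped multiset by `Multiset.rel_map_left`.
`perm`: `slots` with `e = τ⁻¹` (`Function.extend τ⁻¹ p s = p ∘ τ`; if `n = 0` or in general give the proof directly in the same way).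
`alt`: first show: `Lim1` values are unique and exist (`Lim1.unique`, `Lim1.exists'`), so for functionals `Φ_i` (finite index type) and integers `a_i`
`∑ a_i Φ_i` is a functional: if `Lim (∑ a_i cl_i) π S c` choose (classically) for every member the limits for the `cl_i`: `c = ∑ a_i c_i` with `Lim cl_i π S c_i`
(induction over the multiset); apply `rel` for every `i`. -/

namespace H19.ES

open H68.BB

variable {K A : Type} [Field K] [CommRing A] [Algebra K A] {G : Type} [AddCommGroup G] {n : ℕ}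
  {On : Pt K A (Om K) → Prop}

private theorem slt_sigma (σ : Om K ≃ₐ[RatFunc K] Om K) (c : K) :
    σ (algebraMap K (Om K) c) = algebraMap K (Om K) c := by
  have h : (algebraMap K (Om K) c) = algebraMap (RatFunc K) (Om K) (algebraMap K (RatFunc K) c) :=
    IsScalarTower.algebraMap_apply K (RatFunc K) (Om K) c
  rw [h]
  exact σ.commutes _

private theorem slt_cst (σ : Om K ≃ₐ[RatFunc K] Om K) (p : Pt K A K) :
    (cst' p).map (σ.toAlgHom.restrictScalars K) = cst' p := by
  refine Pt.ext ?_ ?_ ?_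
  · apply AlgHom.ext
    intro r
    exact slt_sigma σ (p.b r)
  · exact slt_sigma σ p.x
  · exact slt_sigma σ p.y

/-- pull-back of a functional -/
private theorem slt_comap (Φ : Fnl On n G) {m : ℕ} (F : (Fin m → Pt K A (Om K)) → Fin n → Pt K A (Om K))
    (f : (Fin m → Pt K A K) → Fin n → Pt K A K) (h1 : ∀ q, (∀ i, On (q i)) → ∀ i, On (F q i))
    (h2 : ∀ (σ : Om K ≃ₐ[RatFunc K] Om K) q, gal σ (F q) = F (gal σ q))
    (h3 : ∀ (π : Place K (Om K)) q p, (∀ i, Sp π (q i) (p i)) → ∀ i, Sp π (F q i) (f p i))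
    (h4 : ∀ (π : Place K (Om K)) q, (∃ i, ¬ Int π (q i)) → ∃ i, ¬ Int π (F q i)) :
    ∃ Ψ : Fnl On m G, ∀ p, Ψ.cl p = Φ.cl (f p) := by
  have hl : ∀ (π : Place K (Om K)) (S : Multiset (Fin m → Pt K A (Om K))) (c : G),
      Lim (fun p => Φ.cl (f p)) π S c → Lim Φ.cl π (S.map F) c := by
    rintro π S c ⟨C, hC, rfl⟩
    refine ⟨C, ?_, rfl⟩
    rw [Multiset.rel_map_left]
    refine hC.mono fun q _ d _ hd => ?_
    rcases hd with ⟨p, hp, rfl⟩ | ⟨hq, rfl⟩
    · exact Or.inl ⟨f p, h3 π q p hp, rfl⟩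
    · exact Or.inr ⟨h4 π q hq, rfl⟩
  refine ⟨⟨fun p => Φ.cl (f p), fun S π π' c c' hS hG hc hc' => ?_⟩, fun _ => rfl⟩
  refine Φ.rel (S.map F) π π' c c' ?_ ?_ (hl π S c hc) (hl π' S c' hc')
  · intro t ht
    obtain ⟨q, hq, rfl⟩ := Multiset.mem_map.1 ht
    exact h1 q (hS q hq)
  · intro σ
    rw [Multiset.map_map]
    have e1 : Multiset.map (gal σ ∘ F) S = Multiset.map (F ∘ gal σ) S :=
      Multiset.map_congr rfl fun q _ => h2 σ q
    rw [e1, ← Multiset.map_map, hG σ]

private theorem slt_sum {ι α : Type} [Fintype ι] (S : Multiset α) (a : ι → ℤ) (c : ι → α → G) :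
    (S.map fun q => ∑ i, a i • c i q).sum = ∑ i, a i • (S.map (c i)).sum := by
  induction S using Multiset.induction_on with
  | empty => simp
  | cons q S ih =>
    simp only [Multiset.map_cons, Multiset.sum_cons, smul_add, Finset.sum_add_distrib]
    rw [ih]

private theorem slt_rel {α β : Type} {r : α → β → Prop} {g : α → β} (hr : ∀ q d, r q d → d = g q)
    {S : Multiset α} {C : Multiset β} (h : Multiset.Rel r S C) : C = S.map g := by
  induction h with
  | zero => rfl
  | cons hab _ ih => rw [Multiset.map_cons, ih, hr _ _ hab]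

private theorem slt_lin {ι : Type} [Fintype ι] (a : ι → ℤ) (Φ : ι → Fnl On n G) :
    ∃ Ψ : Fnl On n G, ∀ p, Ψ.cl p = ∑ i, a i • (Φ i).cl p := by
  have key : ∀ (π : Place K (Om K)) (S : Multiset (Fin n → Pt K A (Om K))) (c : G),
      Lim (fun p => ∑ i, a i • (Φ i).cl p) π S c →
      ∃ d : ι → G, (∀ i, Lim (Φ i).cl π S (d i)) ∧ c = ∑ i, a i • d i := by
    rintro π S c ⟨C, hC, rfl⟩
    choose g hg using fun (i : ι) (q : Fin n → Pt K A (Om K)) => Lim1.exists' (Φ i).cl π q
    refine ⟨fun i => (S.map (g i)).sum, fun i => ?_, ?_⟩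
    · have h1 := Lim.map (cl := (Φ i).cl) (π := π) S id (g i) fun q _ => hg i q
      rwa [Multiset.map_id] at h1
    · rw [← slt_sum]
      congr 1
      refine slt_rel (fun q d hd => ?_) hC
      rcases hd with ⟨p, hp, rfl⟩ | ⟨hq, rfl⟩
      · refine Finset.sum_congr rfl fun i _ => ?_
        have h1 : Lim1 (Φ i).cl π q ((Φ i).cl p) := Or.inl ⟨p, hp, rfl⟩
        rw [h1.unique (hg i q)]
      · symm
        refine Finset.sum_eq_zero fun i _ => ?_
        have h1 : Lim1 (Φ i).cl π q 0 := Or.inr ⟨hq, rfl⟩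
        rw [← h1.unique (hg i q), smul_zero]
  refine ⟨⟨fun p => ∑ i, a i • (Φ i).cl p, fun S π π' c c' hS hG hc hc' => ?_⟩, fun _ => rfl⟩
  obtain ⟨d, hd, rfl⟩ := key π S c hc
  obtain ⟨d', hd', rfl⟩ := key π' S c' hc'
  refine Finset.sum_congr rfl fun i _ => ?_
  rw [(Φ i).rel S π π' (d i) (d' i) hS hG (hd i) (hd' i)]

theorem slots (Φ : Fnl On n G) (s : Fin n → Pt K A K) (hs : ∀ i, On (cst' (s i))) {m : ℕ} (e : Fin m → Fin n)
    (he : Function.Injective e) : ∃ Ψ : Fnl On m G, ∀ p, Ψ.cl p = Φ.cl (Function.extend e p s) := by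
  refine slt_comap Φ (fun q => Function.extend e q (fun i => cst' (s i))) (fun p => Function.extend e p s)
    ?_ ?_ ?_ ?_
  · intro q hq i
    by_cases hi : ∃ j, e j = i
    · obtain ⟨j, rfl⟩ := hi
      rw [he.extend_apply]
      exact hq j
    · rw [Function.extend_apply' _ _ _ hi]
      exact hs i
  · intro σ q
    funext i
    by_cases hi : ∃ j, e j = i
    · obtain ⟨j, rfl⟩ := hi
      rw [he.extend_apply]
      unfold gal
      rw [he.extend_apply]
    · rw [Function.extend_apply' _ _ _ hi]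
      unfold gal
      rw [Function.extend_apply' _ _ _ hi]
      exact slt_cst σ (s i)
  · intro π q p hqp i
    by_cases hi : ∃ j, e j = i
    · obtain ⟨j, rfl⟩ := hi
      rw [he.extend_apply, he.extend_apply]
      exact hqp j
    · rw [Function.extend_apply' _ _ _ hi, Function.extend_apply' _ _ _ hi]
      exact Sp_cst' π (s i)
  · rintro π q ⟨j, hj⟩
    refine ⟨e j, ?_⟩
    rw [he.extend_apply]
    exact hj

theorem perm (Φ : Fnl On n G) (τ : Equiv.Perm (Fin n)) : ∃ Ψ : Fnl On n G, ∀ p, Ψ.cl p = Φ.cl (p ∘ τ) := by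
  refine slt_comap Φ (fun q => q ∘ τ) (fun p => p ∘ τ) (fun q hq i => hq (τ i)) (fun σ q => rfl)
    (fun π q p h i => h (τ i)) ?_
  rintro π q ⟨j, hj⟩
  refine ⟨τ.symm j, ?_⟩
  show ¬ Int π (q (τ (τ.symm j)))
  rw [Equiv.apply_symm_apply]
  exact hj

theorem alt (Φ : Fnl On n G) : ∃ Ψ : Fnl On n G, ∀ p, Ψ.cl p = altSum Φ.cl p := by
  choose Ψ hΨ using fun τ : Equiv.Perm (Fin n) => perm Φ τ
  obtain ⟨Θ, hΘ⟩ := slt_lin (fun τ : Equiv.Perm (Fin n) => (Equiv.Perm.sign τ : ℤ)) Ψ
  refine ⟨Θ, fun p => ?_⟩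
  rw [hΘ]
  unfold altSum
  exact Finset.sum_congr rfl fun τ _ => by rw [hΨ]

end H19.ES
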