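import Mathlib

/-! # ES.Fub : from a nonempty Zariski open set to everything, one variable at a time (Mathlib only, about 80 lines)

Induction on `k`.  `MvPolynomial.finSuccEquiv K k : MvPolynomial (Fin (k+1)) K ≃ₐ (MvPolynomial (Fin k) K)[X]`; let `G₁` be the leading coefficient of the image of `G` (not `0`).  If
`eval v' G₁ ≠ 0` then the polynomial `G(·, v')` in one variable is not `0`, has finitely many roots, so `Q (cons c v')` holds for all `c` outside of a finite set and by `hv` (slot `0`,
`Function.update (cons c v') 0 c' = cons c' v'`) for all `c`.  Apply the induction hypothesis to `Q' v' := ∀ c, Q (cons c v')` and `G₁`: `hv` for `Q'` in the slot `i`: if `∀ c' ∉ B, ∀ c, Q (cons c (update v' i c'))` then for every `c` apply `hv` in the slot `i.succ`. -/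

namespace H19.ES

theorem fub {K : Type} [Field K] [Infinite K] {k : ℕ} {G : MvPolynomial (Fin k) K} (hG : G ≠ 0) (Q : (Fin k → K) → Prop)
    (h : ∀ v, MvPolynomial.eval v G ≠ 0 → Q v)
    (hv : ∀ (v : Fin k → K) (i : Fin k) (B : Finset K), (∀ c, c ∉ B → Q (Function.update v i c)) →
      ∀ c, Q (Function.update v i c)) (v : Fin k → K) : Q v := by
  classical
  induction k with
  | zero =>
    refine h v ?_
    rw [MvPolynomial.eq_C_of_isEmpty G, MvPolynomial.eval_C]
    intro h0
    apply hG
    rw [MvPolynomial.eq_C_of_isEmpty G, h0, map_zero]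
  | succ k ih =>
    have hp : MvPolynomial.finSuccEquiv K k G ≠ 0 := by
      intro h0
      exact hG ((map_eq_zero_iff _ (MvPolynomial.finSuccEquiv K k).injective).mp h0)
    have hG1 : (MvPolynomial.finSuccEquiv K k G).leadingCoeff ≠ 0 := Polynomial.leadingCoeff_ne_zero.mpr hp
    have key := ih hG1 (fun v' => ∀ c, Q (Fin.cons c v')) ?_ ?_ (Fin.tail v)
    · have h1 := key (v 0)
      rwa [Fin.cons_self_tail] at h1
    · intro v' hv' c
      have hq : Polynomial.map (MvPolynomial.eval v') (MvPolynomial.finSuccEquiv K k G) ≠ 0 := by
        intro h0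
        have h1 := congrArg (fun q => q.coeff (MvPolynomial.finSuccEquiv K k G).natDegree) h0
        simp only [Polynomial.coeff_map, Polynomial.coeff_zero] at h1
        exact hv' h1
      have h2 := hv (Fin.cons 0 v') 0 (Polynomial.map (MvPolynomial.eval v') (MvPolynomial.finSuccEquiv K k G)).roots.toFinset
        (fun c hc => by
          rw [Fin.update_cons_zero]
          refine h _ ?_
          rw [MvPolynomial.eval_eq_eval_mv_eval']
          intro h0
          exact hc (Multiset.mem_toFinset.mpr ((Polynomial.mem_roots hq).mpr h0))) c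
      rwa [Fin.update_cons_zero] at h2
    · intro v' i B hB c' c
      have h2 := hv (Fin.cons c v') i.succ B (fun c' hc' => by
        rw [← Fin.cons_update]
        exact hB c' hc' c) c'
      rwa [← Fin.cons_update] at h2

end H19.ES
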