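import Pool.Agent.H19.ES.Crv

/-! # ES.Hom : points of affine curves (Mathlib only, about 150 lines)

`interp`: the linear map `D → (ι → K)`, `Y ↦ (z i Y)`, is surjective: otherwise its range is a proper subspace and there is a nonzero linear form on `ι → K` vanishing on it, i.e. a nontrivial
linear relation between the distinct homomorphisms `z i`, against `linearIndependent_monoidHom` (Dedekind).
`lift_hom`: lying over: a prime (maximal) ideal of `D` over `ker b` (`Ideal.exists_ideal_over_prime_of_isIntegral` or `exists_ideal_over_maximal_of_isIntegral`), its residue field is integral over `K`, so it is `K` (`IsAlgClosed.algebraMap_bijective_of_isIntegral`).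
`finite_hom`: `A` is finite over `K[X]`: every `r` in `A` is a root of a monic polynomial over `K[X]`, so for a homomorphism `z` with `z t = c` the value `z r` is a root of a monic polynomial over `K`; finitely many
generators.  `finite_zero`: for `y ≠ 0` in the domain `A` there are finitely many homomorphisms with `z y = 0`: `y` divides a nonzero element `p(t)` of `K[t]` (the constant coefficient of a monic equation of minimal degree), so `t` takes
finitely many values.  `exists_hom`: `lift_hom` for `K[X] → A` and evaluation at `c` (as `K`-algebras). -/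

namespace H19.ES

open Polynomial

variable {K : Type} [Field K]

theorem interp {D ι : Type} [CommRing D] [Algebra K D] [Finite ι] (z : ι → (D →ₐ[K] K)) (hz : Function.Injective z)
    (v : ι → K) : ∃ Y : D, ∀ i, z i Y = v i := by
  classical
  have := Fintype.ofFinite ι
  let L : D →ₗ[K] (ι → K) := LinearMap.pi fun i => (z i).toLinearMap
  have hL : ∀ Y i, L Y i = z i Y := fun Y i => rfl
  by_cases htop : LinearMap.range L = ⊤
  · obtain ⟨Y, hY⟩ := LinearMap.range_eq_top.1 htop v
    exact ⟨Y, fun i => by rw [← hL, hY]⟩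
  · exfalso
    obtain ⟨φ, hφ, hle⟩ := Submodule.exists_le_ker_of_lt_top (LinearMap.range L) (lt_top_iff_ne_top.2 htop)
    have hli : LinearIndependent K (fun i : ι => ((z i : D →* K) : D → K)) :=
      (linearIndependent_monoidHom D K).comp (fun i : ι => ((z i : D →ₐ[K] K) : D →* K)) (by
        intro i j hij
        apply hz
        ext Y
        exact DFunLike.congr_fun hij Y)
    rw [Fintype.linearIndependent_iff] at hli
    have hc := hli (fun i => φ (Pi.single i 1)) (by
      funext Y
      have h1 : φ (L Y) = 0 := hle ⟨Y, rfl⟩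
      have h2 : L Y = ∑ i, (z i Y) • (Pi.single i (1 : K) : ι → K) := by
        ext j
        simp [hL, Finset.sum_apply, Pi.single_apply]
      rw [h2, map_sum] at h1
      rw [Finset.sum_apply, Pi.zero_apply, ← h1]
      refine Finset.sum_congr rfl fun i _ => ?_
      rw [Pi.smul_apply, map_smul, smul_eq_mul, smul_eq_mul, mul_comm]
      rfl)
    apply hφ
    refine LinearMap.pi_ext' fun i => ?_
    ext
    simpa using hc i

theorem lift_hom [IsAlgClosed K] {A D : Type} [CommRing A] [CommRing D] [Algebra K A] [Algebra K D] (i : A →ₐ[K] D)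
    (hi : Function.Injective i) (hint : i.toRingHom.IsIntegral) (b : A →ₐ[K] K) : ∃ b' : D →ₐ[K] K, b'.comp i = b := by
  let : Algebra A D := i.toRingHom.toAlgebra
  have hmap : ∀ a, algebraMap A D a = i a := fun a => rfl
  have : Algebra.IsIntegral A D := ⟨fun d => hint d⟩
  have hbs : Function.Surjective b := fun c => ⟨algebraMap K A c, by rw [b.commutes]; rfl⟩
  have hmax : (RingHom.ker (b : A →+* K)).IsMaximal := RingHom.ker_isMaximal_of_surjective (b : A →+* K) hbs
  obtain ⟨Q, hQ, hQc⟩ := Ideal.exists_ideal_over_maximal_of_isIntegral (S := D) (RingHom.ker (b : A →+* K)) (by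
    intro a ha
    have h0 : i a = 0 := ha
    have h1 : a = 0 := hi (by rw [h0, map_zero])
    rw [h1]
    exact Ideal.zero_mem _)
  have := hQ
  have hmem : ∀ a : A, i a - algebraMap K D (b a) ∈ Q := by
    intro a
    have h1 : a - algebraMap K A (b a) ∈ RingHom.ker (b : A →+* K) := by
      rw [RingHom.mem_ker]
      change b (a - algebraMap K A (b a)) = 0
      rw [map_sub, b.commutes]
      exact sub_self _
    rw [← hQc, Ideal.mem_comap, map_sub, hmap, hmap, i.commutes] at h1
    exact h1
  let q : D →ₐ[K] D ⧸ Q := Ideal.Quotient.mkₐ K Q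
  have hq : ∀ a : A, q (i a) = algebraMap K (D ⧸ Q) (b a) := by
    intro a
    have h1 : q (i a - algebraMap K D (b a)) = 0 := Ideal.Quotient.eq_zero_iff_mem.2 (hmem a)
    rw [map_sub, q.commutes] at h1
    exact sub_eq_zero.1 h1
  have : Algebra.IsIntegral K (D ⧸ Q) := by
    refine ⟨fun w => ?_⟩
    obtain ⟨d, rfl⟩ := Ideal.Quotient.mkₐ_surjective K Q w
    obtain ⟨f, hf, hf0⟩ := hint d
    refine ⟨f.map (b : A →+* K), hf.map _, ?_⟩
    rw [Polynomial.eval₂_map]
    have h2 : (algebraMap K (D ⧸ Q)).comp (b : A →+* K) = (q : D →+* D ⧸ Q).comp i.toRingHom := by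
      ext a
      exact (hq a).symm
    rw [h2]
    have h3 := congrArg (q : D →+* D ⧸ Q) hf0
    rw [Polynomial.hom_eval₂, map_zero] at h3
    exact h3
  have hbij : Function.Bijective (algebraMap K (D ⧸ Q)) := IsAlgClosed.algebraMap_bijective_of_isIntegral
  let e : K ≃ₐ[K] D ⧸ Q := AlgEquiv.ofBijective (Algebra.ofId K (D ⧸ Q)) hbij
  refine ⟨(e.symm : (D ⧸ Q) →ₐ[K] K).comp q, ?_⟩
  ext a
  change e.symm (q (i a)) = b a
  rw [hq a, AlgEquiv.symm_apply_eq]
  rfl

variable {A : Type} [CommRing A] [Algebra K A] [Algebra K[X] A] [IsScalarTower K K[X] A]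

private theorem eval_tA (z : A →ₐ[K] K) (p : K[X]) : z (algebraMap K[X] A p) = p.eval (z (tA K A)) := by
  have h1 : (z.comp (IsScalarTower.toAlgHom K K[X] A)) = Polynomial.aeval (z (tA K A)) := by
    apply Polynomial.algHom_ext
    rw [Polynomial.aeval_X]
    rfl
  have h2 := DFunLike.congr_fun h1 p
  rw [← Polynomial.coe_aeval_eq_eval]
  exact h2

theorem finite_hom [Module.Finite K[X] A] (B : Finset K) : {z : A →ₐ[K] K | z (tA K A) ∈ B}.Finite := by
  classical
  obtain ⟨s, hs⟩ := (Module.Finite.fg_top : (⊤ : Submodule K[X] A).FG)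
  let g : (A →ₐ[K] K) → K × (s → K) := fun z => (z (tA K A), fun r => z r.1)
  have hg : Function.Injective g := by
    intro z z' h
    have ht : z (tA K A) = z' (tA K A) := congrArg Prod.fst h
    have hr : ∀ r ∈ s, z r = z' r := fun r hr => congrFun (congrArg Prod.snd h) ⟨r, hr⟩
    ext a
    have ha : a ∈ Submodule.span K[X] (s : Set A) := by rw [hs]; trivial
    induction ha using Submodule.span_induction with
    | mem x hx => exact hr x hx
    | zero => rw [map_zero, map_zero]
    | add x y _ _ hx hy => rw [map_add, map_add, hx, hy]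
    | smul p x _ hx => rw [Algebra.smul_def, map_mul, map_mul, hx, eval_tA, eval_tA, ht]
  have hint : ∀ r : A, IsIntegral K[X] r := fun r => Algebra.IsIntegral.isIntegral r
  choose f hf hf0 using hint
  have hT : ((B : Set K) ×ˢ (Set.pi Set.univ fun r : s => ⋃ c ∈ B, (((f r.1).map (evalRingHom c)).roots.toFinset : Set K))).Finite := by
    refine B.finite_toSet.prod (Set.Finite.pi fun r => ?_)
    exact Set.Finite.biUnion B.finite_toSet fun c _ => Finset.finite_toSet _
  refine (hT.preimage hg.injOn).subset ?_
  intro z hz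
  refine ⟨hz, fun r _ => ?_⟩
  refine Set.mem_iUnion₂.2 ⟨z (tA K A), hz, ?_⟩
  have hm : (((f r.1).map (evalRingHom (z (tA K A))))).Monic := (hf r.1).map _
  rw [Finset.mem_coe, Multiset.mem_toFinset, Polynomial.mem_roots hm.ne_zero, Polynomial.IsRoot.def, Polynomial.eval_map]
  have h3 := congrArg (z : A →+* K) (hf0 r.1)
  rw [Polynomial.hom_eval₂, map_zero] at h3
  have h4 : (z : A →+* K).comp (algebraMap K[X] A) = evalRingHom (z (tA K A)) := by
    apply RingHom.ext
    intro p
    exact eval_tA z p
  rw [h4] at h3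
  exact h3

theorem exists_hom [IsAlgClosed K] [Module.Finite K[X] A] [FaithfulSMul K[X] A] (c : K) :
    ∃ z : A →ₐ[K] K, z (tA K A) = c := by
  have hi : Function.Injective (IsScalarTower.toAlgHom K K[X] A) := FaithfulSMul.algebraMap_injective K[X] A
  obtain ⟨b', hb'⟩ := lift_hom (IsScalarTower.toAlgHom K K[X] A) hi
    (fun r => Algebra.IsIntegral.isIntegral (R := K[X]) r) (Polynomial.aeval c)
  refine ⟨b', ?_⟩
  have h1 := DFunLike.congr_fun hb' X
  rw [Polynomial.aeval_X] at h1
  exact h1

theorem finite_zero [IsDomain A] [Module.Finite K[X] A] [FaithfulSMul K[X] A] {y : A} (hy : y ≠ 0) :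
    ∃ B : Finset K, ∀ z : A →ₐ[K] K, z y = 0 → z (tA K A) ∈ B := by
  classical
  have h1 := Ideal.comap_ne_bot_of_integral_mem (R := K[X]) hy (Ideal.mem_span_singleton_self y)
    (Algebra.IsIntegral.isIntegral (R := K[X]) y)
  obtain ⟨p, hp, hp0⟩ := Submodule.exists_mem_ne_zero_of_ne_bot h1
  refine ⟨p.roots.toFinset, fun z hz => ?_⟩
  rw [Ideal.mem_comap, Ideal.mem_span_singleton] at hp
  obtain ⟨w, hw⟩ := hp
  rw [Multiset.mem_toFinset, Polynomial.mem_roots hp0, Polynomial.IsRoot.def, ← eval_tA, hw, map_mul, hz, zero_mul]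

end H19.ES
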