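import Pool.Agent.H68.BB.Plc

/-! # ES.Emb : embeddings of the coordinate ring of an affine curve into `Ω` (about 150 lines)

`alg_of`: `f` is algebraic over `K[t]`: there is a nonzero polynomial `G ∈ K[T, F]` with `G(t, f) = 0`; it involves `T` (otherwise `f` is algebraic over `K`), so `t` is algebraic over `K[f]`, and
`D` is algebraic over `K[t, f]` (transitivity, e.g. in the fraction field: `Algebra.IsAlgebraic.trans`, `IntermediateField` or `algebraicClosure`).  (Or transcendence degrees: `Algebra.trdeg`, `IsTranscendenceBasis`.)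
`emb_exists`: `K[X] → D`, `X ↦ f`, is injective and `D` is algebraic over it, so the fraction field of `D` is algebraic over `RatFunc K` and embeds in `Om K` (`IsAlgClosed.lift`) with `f ↦ tt`.
`emb_finite`: for every `r` in `D` there is a nonzero polynomial `G` over `K[X]` with `G(f)(r) = 0`, so `j r` is a root of the nonzero polynomial `G` mapped by `K[X] → Om K`, `X ↦ tt` (injective): finitely many values; `D` is
generated by finitely many elements (`Algebra.FiniteType`), and `j` is determined by its values on them. -/

namespace H19.ES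

open H68.BB

variable {K : Type} [Field K] {D : Type} [CommRing D] [IsDomain D] [Algebra K D]

theorem alg_of (t f : D) (ht : ∀ r : D, IsAlgebraic (Algebra.adjoin K {t}) r) (hf : Transcendental K f) (r : D) :
    IsAlgebraic (Algebra.adjoin K {f}) r := by
  haveI h1 : Algebra.IsAlgebraic (Algebra.adjoin K ({t} : Set D)) D := ⟨ht⟩
  have h2 : Algebra.trdeg K D ≤ 1 := by
    have h := Algebra.IsAlgebraic.trdeg_le_cardinalMk K ({t} : Set D)
    simpa using h
  have h3 : AlgebraicIndependent K (fun _ : Unit => f) := by
    rw [algebraicIndependent_unique_type_iff]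
    exact hf
  have h4 : IsTranscendenceBasis K (fun _ : Unit => f) :=
    h3.isTranscendenceBasis_of_trdeg_le_of_finite (by simpa using h2)
  have h5 := h4.isAlgebraic
  rw [Set.range_const] at h5
  exact h5.1 r

private theorem emb_surj (f : D) (y : Algebra.adjoin K ({f} : Set D)) :
    ∃ p : Polynomial K, Polynomial.aeval f p = (y : D) := by
  obtain ⟨y, hy⟩ := y
  rw [Algebra.adjoin_singleton_eq_range_aeval] at hy
  obtain ⟨p, hp⟩ := hy
  exact ⟨p, hp⟩

/-- the structure of a `K[X]`-algebra, `X ↦ f` -/
private noncomputable abbrev embAlg (f : D) : Algebra (Polynomial K) D :=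
  (Polynomial.aeval (R := K) f).toRingHom.toAlgebra

private theorem emb_alg (f : D) (halg : ∀ r : D, IsAlgebraic (Algebra.adjoin K {f}) r) (r : D) :
    letI := embAlg (K := K) f
    IsAlgebraic (Polynomial K) r := by
  letI := embAlg (K := K) f
  have hmem : ∀ p : Polynomial K, Polynomial.aeval f p ∈ Algebra.adjoin K ({f} : Set D) := by
    intro p
    rw [Algebra.adjoin_singleton_eq_range_aeval]
    exact ⟨p, rfl⟩
  let φ : Polynomial K →+* Algebra.adjoin K ({f} : Set D) :=
    (Polynomial.aeval (R := K) f).toRingHom.codRestrict (Algebra.adjoin K ({f} : Set D)).toSubring hmem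
  have hφ : Function.Surjective φ := by
    intro y
    obtain ⟨p, hp⟩ := emb_surj f y
    exact ⟨p, Subtype.ext hp⟩
  have h := halg r
  exact IsAlgebraic.of_ringHom_of_comp_eq (R := Polynomial K) (A := D) (S := Algebra.adjoin K ({f} : Set D)) (B := D)
    (a := r) φ (RingHom.id D) h hφ (fun a b hab => hab) rfl

private theorem emb_inj (f : D) (hf : Transcendental K f) :
    Function.Injective (Polynomial.aeval (R := K) f) :=
  transcendental_iff_injective.mp hf

private theorem emb_X : algebraMap (Polynomial K) (Om K) Polynomial.X = tt K := by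
  rw [IsScalarTower.algebraMap_apply (Polynomial K) (RatFunc K) (Om K), RatFunc.algebraMap_X]
  rfl

private theorem emb_OmInj : Function.Injective (algebraMap (Polynomial K) (Om K)) := by
  rw [IsScalarTower.algebraMap_eq (Polynomial K) (RatFunc K) (Om K)]
  exact (algebraMap (RatFunc K) (Om K)).injective.comp (RatFunc.algebraMap_injective K)

theorem emb_exists (f : D) (hf : Transcendental K f) (halg : ∀ r : D, IsAlgebraic (Algebra.adjoin K {f}) r) :
    ∃ ι : D →ₐ[K] Om K, Function.Injective ι ∧ ι f = tt K := by
  letI := embAlg (K := K) f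
  haveI hA : Algebra.IsAlgebraic (Polynomial K) D := ⟨emb_alg f halg⟩
  haveI hT : IsScalarTower K (Polynomial K) D := by
    refine IsScalarTower.of_algebraMap_eq fun c => ?_
    change algebraMap K D c = Polynomial.aeval f (algebraMap K (Polynomial K) c)
    rw [AlgHom.commutes]
  haveI hF1 : FaithfulSMul (Polynomial K) D :=
    (faithfulSMul_iff_algebraMap_injective (Polynomial K) D).mpr (emb_inj f hf)
  haveI hF2 : FaithfulSMul (Polynomial K) (Om K) :=
    (faithfulSMul_iff_algebraMap_injective (Polynomial K) (Om K)).mpr emb_OmInj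
  let g : D →ₐ[Polynomial K] Om K := IsAlgClosed.lift
  refine ⟨g.restrictScalars K, ?_, ?_⟩
  · have hcomp : ∀ p : Polynomial K, g (algebraMap (Polynomial K) D p) = algebraMap (Polynomial K) (Om K) p :=
      fun p => g.commutes p
    rw [injective_iff_map_eq_zero]
    intro r hr
    by_contra hr0
    obtain ⟨c, hc0, d, hd⟩ := (hA.isAlgebraic r).exists_nonzero_dvd (mem_nonZeroDivisors_of_ne_zero hr0)
    have h1 : g (algebraMap (Polynomial K) D c) = 0 := by
      have hr' : g r = 0 := hr
      rw [hd, map_mul, hr', zero_mul]
    rw [hcomp] at h1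
    exact hc0 (emb_OmInj (by rw [h1, map_zero]))
  · change g f = tt K
    have h := g.commutes Polynomial.X
    rw [emb_X] at h
    rw [← h]
    congr 1
    change f = Polynomial.aeval f Polynomial.X
    rw [Polynomial.aeval_X]

private theorem emb_val (f : D) (halg : ∀ r : D, IsAlgebraic (Algebra.adjoin K {f}) r) (r : D) :
    ∃ G : Polynomial (Om K), G ≠ 0 ∧ ∀ j : D →ₐ[K] Om K, j f = tt K → G.eval (j r) = 0 := by
  letI := embAlg (K := K) f
  obtain ⟨p, hp0, hp⟩ := emb_alg f halg r
  refine ⟨p.map (algebraMap (Polynomial K) (Om K)), ?_, ?_⟩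
  · rwa [Ne, Polynomial.map_eq_zero_iff emb_OmInj]
  · intro j hj
    have hcomp : (j : D →+* Om K).comp (algebraMap (Polynomial K) D) = algebraMap (Polynomial K) (Om K) := by
      apply Polynomial.ringHom_ext
      · intro c
        change j (Polynomial.aeval f (Polynomial.C c)) = _
        rw [Polynomial.aeval_C, AlgHom.commutes,
          IsScalarTower.algebraMap_apply K (Polynomial K) (Om K)]
        rfl
      · change j (Polynomial.aeval f Polynomial.X) = _
        rw [Polynomial.aeval_X, hj, emb_X]
    rw [Polynomial.eval_map]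
    have h1 : (j : D →+* Om K) (Polynomial.eval₂ (algebraMap (Polynomial K) D) r p) = 0 := by
      have h2 : Polynomial.eval₂ (algebraMap (Polynomial K) D) r p = 0 := hp
      rw [h2, map_zero]
    rw [Polynomial.hom_eval₂, hcomp] at h1
    exact h1

theorem emb_finite [Algebra.FiniteType K D] (f : D) (hf : Transcendental K f)
    (halg : ∀ r : D, IsAlgebraic (Algebra.adjoin K {f}) r) : Finite {j : D →ₐ[K] Om K // j f = tt K} := by
  classical
  obtain ⟨s, hs⟩ := (inferInstance : Algebra.FiniteType K D).out
  choose G hG0 hG using emb_val (K := K) f halg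
  let F : {j : D →ₐ[K] Om K // j f = tt K} → ((r : s) → (G r).roots.toFinset) := fun j r =>
    ⟨j.1 r, by
      rw [Multiset.mem_toFinset, Polynomial.mem_roots (hG0 r)]
      exact hG r j.1 j.2⟩
  refine Finite.of_injective F ?_
  intro a b hab
  apply Subtype.ext
  refine AlgHom.ext_of_adjoin_eq_top hs ?_
  intro x hx
  have h := congrFun hab ⟨x, hx⟩
  exact congrArg Subtype.val h

end H19.ES
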