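import Pool.Agent.H68.BB.Plc
import Pool.Agent.H68.BB.Red

/-! # ES.Place : a homomorphism `R → K` of a subring `K[tt] ⊆ R ⊆ Ω` extends to a place of `Ω` (about 100 lines)

Copy the proof of `H68.BB.place_exists` (file Pool/Agent/H68/BB/Plc.lean).  `I` = the kernel of `ψ` (a proper ideal of `R`);
`Ideal.image_subset_nonunits_valuationSubring I hI` gives a valuation subring `B ⊇ R` with the elements of `I` nonunits, in particular `tt - u` with `u = ψ tt`.
The argument in `place_exists` shows that every element of the residue field of `B` is algebraic over `K`, so it is `K`; let `π.φ` be the residue map followed by the inverse of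
`K ≃ κ`.  For `r ∈ R`: `r - ψ r` (constant) is in `I`, so it is a nonunit of `B` and its residue is `0`: `Rd π.V π.φ r (ψ r)`. -/

namespace H19.ES

open H68.BB Polynomial

private theorem pl_X (k : Type) [Field k] : algebraMap k[X] (Om k) X = tt k := by
  rw [IsScalarTower.algebraMap_apply k[X] (RatFunc k) (Om k), RatFunc.algebraMap_X]
  rfl

private theorem pl_C (k : Type) [Field k] (c : k) : algebraMap k[X] (Om k) (C c) = cst c := by
  rw [IsScalarTower.algebraMap_apply k[X] (RatFunc k) (Om k), RatFunc.algebraMap_C]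
  change _ = algebraMap k (Om k) c
  rw [IsScalarTower.algebraMap_apply k (RatFunc k) (Om k)]
  rfl

private theorem pl_inj (k : Type) [Field k] : Function.Injective (algebraMap k[X] (Om k)) := by
  rw [IsScalarTower.algebraMap_eq k[X] (RatFunc k) (Om k)]
  exact (algebraMap (RatFunc k) (Om k)).injective.comp (RatFunc.algebraMap_injective k)

private theorem pl_mem {K : Type} [Field K] (R : Subalgebra K (Om K)) (ht : tt K ∈ R) (p : K[X]) :
    algebraMap K[X] (Om K) p ∈ R := by
  induction p using Polynomial.induction_on' with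
  | add p q hp hq => rw [map_add]; exact R.add_mem hp hq
  | monomial n a =>
    rw [← C_mul_X_pow_eq_monomial, map_mul, map_pow, pl_X, pl_C]
    exact R.mul_mem (R.algebraMap_mem a) (R.pow_mem ht n)

theorem place_of_sub {K : Type} [Field K] [IsAlgClosed K] (R : Subalgebra K (Om K)) (ht : tt K ∈ R) (ψ : R →ₐ[K] K) :
    ∃ π : Place K (Om K), ∀ r : R, Rd π.V π.φ (r : Om K) (ψ r) := by
  classical
  let f : K[X] →+* Om K := algebraMap K[X] (Om K)
  have hf : Function.Injective f := pl_inj K
  let ψ' : R.toSubring →+* K := (ψ : R →+* K)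
  have hψ' : ∀ r : R, ψ' r = ψ r := fun _ => rfl
  let I : Ideal R.toSubring := RingHom.ker ψ'
  have hI : I ≠ ⊤ := RingHom.ker_ne_top ψ'
  obtain ⟨B, hAB, hIB⟩ := Ideal.image_subset_nonunits_valuationSubring I hI
  have hRB : ∀ r : R, (r : Om K) ∈ B := fun r => hAB r.2
  have hmem : ∀ p : K[X], f p ∈ B := fun p => hAB (pl_mem R ht p)
  have hcst : ∀ c : K, cst c ∈ B := fun c => by
    rw [← pl_C]
    exact hmem (C c)
  let fB : K[X] →+* B := f.codRestrict B.toSubring hmem
  let κ := IsLocalRing.ResidueField B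
  let r : B →+* κ := IsLocalRing.residue B
  let ι : K →+* κ := (r.comp fB).comp C
  have hfC : ∀ c : K, (⟨cst c, hcst c⟩ : B) = fB (C c) := fun c => Subtype.ext (pl_C K c).symm
  -- residues of the elements of `R`
  have hres : ∀ x : R, r ⟨x, hRB x⟩ = ι (ψ x) := by
    intro x
    have h0 : ψ (x - algebraMap K R (ψ x)) = 0 := by
      rw [map_sub, AlgHom.commutes, Algebra.algebraMap_self, RingHom.id_apply, sub_self]
    have h1 : ((x - algebraMap K R (ψ x) : R) : Om K) ∈ (B.nonunits : Set (Om K)) :=
      hIB ⟨x - algebraMap K R (ψ x), h0, rfl⟩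
    obtain ⟨ha, h2⟩ := ValuationSubring.mem_nonunits_iff_exists_mem_maximalIdeal.mp h1
    have h3 : r ⟨_, ha⟩ = 0 := (IsLocalRing.residue_eq_zero_iff _).mpr h2
    have h4 : (⟨x, hRB x⟩ : B) = ⟨_, ha⟩ + fB (C (ψ x)) := by
      rw [← hfC]
      apply Subtype.ext
      show (x : Om K) = ((x : Om K) - algebraMap K (Om K) (ψ x)) + algebraMap K (Om K) (ψ x)
      rw [sub_add_cancel]
    rw [h4, map_add, h3, zero_add]
    rfl
  set u : K := ψ ⟨tt K, ht⟩ with hu
  have hXu : r (fB (X - C u)) = 0 := by
    have h1 : fB X = ⟨((⟨tt K, ht⟩ : R) : Om K), hRB ⟨tt K, ht⟩⟩ := Subtype.ext (pl_X K)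
    rw [map_sub, map_sub, h1, hres]
    exact sub_self _
  -- evaluation of polynomials in the residue field
  have hev : ∀ p : K[X], r (fB p) = ι (p.eval u) := by
    intro p
    have h1 : X - C u ∣ p - C (p.eval u) := by
      rw [dvd_iff_isRoot]
      simp
    obtain ⟨q, hq⟩ := h1
    have h2 : p = (X - C u) * q + C (p.eval u) := by rw [← hq]; ring
    calc r (fB p) = r (fB ((X - C u) * q + C (p.eval u))) := by rw [← h2]
      _ = r (fB (X - C u)) * r (fB q) + r (fB (C (p.eval u))) := by
          rw [map_add, map_mul, map_add, map_mul]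
      _ = ι (p.eval u) := by
          rw [hXu, zero_mul, zero_add]
          rfl
  have hint : ι.IsIntegral := by
    intro b'
    obtain ⟨b, rfl⟩ := IsLocalRing.residue_surjective b'
    have hb : IsAlgebraic K[X] (b : Om K) :=
      (IsFractionRing.isAlgebraic_iff K[X] (RatFunc K) (Om K)).mpr
        (Algebra.IsAlgebraic.isAlgebraic _)
    obtain ⟨G, hG, hGb⟩ := hb
    have hirr : Irreducible (C (X - C u) : K[X][X]) :=
      (Polynomial.prime_C_iff.mpr (prime_X_sub_C u)).irreducible
    obtain ⟨n, G', hnd, hGG⟩ := WfDvdMonoid.max_power_factor hG hirr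
    have hG'b : aeval (b : Om K) G' = 0 := by
      rw [hGG, map_mul, map_pow, aeval_C, mul_eq_zero] at hGb
      rcases hGb with h | h
      · exfalso
        have h3 := eq_zero_of_pow_eq_zero h
        exact X_sub_C_ne_zero u (hf (h3.trans (map_zero f).symm))
      · exact h
    have hne : G'.map (evalRingHom u) ≠ 0 := by
      intro h0
      apply hnd
      rw [C_dvd_iff_dvd_coeff]
      intro i
      rw [dvd_iff_isRoot]
      have h4 := congrArg (fun q => q.coeff i) h0
      simpa [coeff_map] using h4
    have hev2 : eval₂ (r.comp fB) (r b) G' = 0 := by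
      have h5 : eval₂ fB b G' = 0 := by
        apply Subtype.val_injective
        have h6 : ((eval₂ fB b G' : B) : Om K) = eval₂ (B.subtype.comp fB) (B.subtype b) G' := by
          rw [← hom_eval₂]
          rfl
        rw [h6]
        exact hG'b
      rw [← hom_eval₂, h5, map_zero]
    have hcomp : r.comp fB = ι.comp (evalRingHom u) :=
      RingHom.ext fun p => hev p
    have hev3 : eval₂ ι (r b) (G'.map (evalRingHom u)) = 0 := by
      rw [eval₂_map, ← hcomp]
      exact hev2
    let _ : Algebra K κ := ι.toAlgebra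
    have halg : IsAlgebraic K (r b) := ⟨G'.map (evalRingHom u), hne, hev3⟩
    exact halg.isIntegral
  have hbij := IsAlgClosed.ringHom_bijective_of_isIntegral ι hint
  let E : K ≃+* κ := RingEquiv.ofBijective ι hbij
  have hE : ∀ c, E.symm (ι c) = c := fun c => E.symm_apply_apply c
  refine ⟨⟨B, (E.symm : κ →+* K).comp r, fun c => ⟨hcst c, ?_⟩⟩, fun x => ⟨hRB x, ?_⟩⟩
  · change E.symm (r ⟨cst c, _⟩) = c
    rw [hfC, hev, eval_C, hE]
  · change E.symm (r ⟨(x : Om K), _⟩) = ψ x
    rw [hres, hE]

end H19.ES
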