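import Pool.Agent.H19.ES.Def2
import Pool.Agent.H19.ES.Place
import Pool.Agent.H19.ES.Emb
import Pool.Agent.H71.K3.PlInf

/-! # ES.Psi : the zeros of a regular function on an affine curve (about 120 lines)

`D` is a domain over `K`, `(q, x, y)` a `D`-valued point of the surface which generates `D`: an affine curve mapping to the surface; `f ∈ D` is a nonconstant function with `f(p₀) = 0`, such that at every
zero `p` of `f` either the point of the surface is the same as at `p₀`, or `Φ` vanishes.  Then `Φ` vanishes at the point of `p₀`.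
PROOF.  `J = {j : D →ₐ[K] Om K // j f = tt K}` is finite (`emb_finite`); the multiset `S` of the points `⟨j.comp q, j x, j y⟩`, `j ∈ J`, (as 1-tuples) is on the surface (`hOn`) and Galois-stable:
`j ↦ σ ∘ j` is a permutation of `J` (`sigma_tt`: `σ.commutes`).  Let `ι ∈ J` be injective (`emb_exists`), `R = ι.range ∋ tt`, `ψ = p₀ ∘ ι⁻¹ : R → K`; by `place_of_sub` there is a place `π₀` with
`Rd (ι r) (p₀ r)` for all `r ∈ D`, in particular `tt ↦ 0`.  At `π₀` every `j ∈ J` is either dropped, or its point is integral and then `j r ∈ V` for all `r` (`hgen`), so by `exists_redHom` it reduces to a homomorphism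
`p : D → K` with `p f = 0` (the reduction of `tt`): the limit is `Φ(p)`, which is `Φ(p₀)` or `0` (`hz`).  So the sum of the limits is `n₀ • Φ(p₀)`, `n₀` = number of `j` with limit point that of `p₀` and integral,
`n₀ ≥ 1` because of `ι`.  At the place `π'` with `tt ∉ V` (`H71.K3.place_inf`) every point is dropped (otherwise `j f = tt ∈ V`, by `hgen`).  So `n₀ • Φ(p₀) = 0` (`Fnl.eq_zero`, `Lim.map`), `TF`. -/

namespace H19.ES

open H68.BB

variable {K A : Type} [Field K] [IsAlgClosed K] [CommRing A] [Algebra K A] {G : Type} [AddCommGroup G]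

theorem psi {On : Pt K A (Om K) → Prop} (tf : TF G) (Φ : Fnl On 1 G) {D : Type} [CommRing D] [IsDomain D] [Algebra K D]
    [Algebra.FiniteType K D] (q : A →ₐ[K] D) (x y : D) (hgen : Algebra.adjoin K (Set.range q ∪ {x, y}) = ⊤) (f : D)
    (hf : Transcendental K f) (halg : ∀ r : D, IsAlgebraic (Algebra.adjoin K {f}) r)
    (hOn : ∀ j : D →ₐ[K] Om K, On ⟨j.comp q, j x, j y⟩) (p0 : D →ₐ[K] K) (hp0 : p0 f = 0)
    (hz : ∀ p : D →ₐ[K] K, p f = 0 → (⟨p.comp q, p x, p y⟩ : Pt K A K) = ⟨p0.comp q, p0 x, p0 y⟩ ∨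
      Φ.cl (fun _ => ⟨p.comp q, p x, p y⟩) = 0) :
    Φ.cl (fun _ => ⟨p0.comp q, p0 x, p0 y⟩) = 0 := by
  classical
  have : Finite {j : D →ₐ[K] Om K // j f = tt K} := emb_finite f hf halg
  have : Fintype {j : D →ₐ[K] Om K // j f = tt K} := Fintype.ofFinite _
  set P : {j : D →ₐ[K] Om K // j f = tt K} → Fin 1 → Pt K A (Om K) :=
    fun j _ => ⟨j.1.comp q, j.1 x, j.1 y⟩ with hP
  set S : Multiset (Fin 1 → Pt K A (Om K)) :=
    (Finset.univ : Finset {j : D →ₐ[K] Om K // j f = tt K}).val.map P with hS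
  -- integrality of the point gives integrality of the homomorphism
  have hint : ∀ (π : Place K (Om K)) (j : {j : D →ₐ[K] Om K // j f = tt K}), Int π (P j 0) → ∀ r : D, j.1 r ∈ π.V := by
    intro π j hj r
    have hr : r ∈ Algebra.adjoin K (Set.range q ∪ {x, y}) := by
      rw [hgen]
      exact Algebra.mem_top
    induction hr using Algebra.adjoin_induction with
    | mem r hr =>
      rcases hr with ⟨a, rfl⟩ | hr
      · exact hj.1 a
      · rcases hr with rfl | hr
        · exact hj.2.1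
        · rw [Set.mem_singleton_iff] at hr
          subst hr
          exact hj.2.2
    | algebraMap c =>
      rw [AlgHom.commutes]
      exact (π.const c).choose
    | add r r' _ _ h1 h2 =>
      rw [map_add]
      exact π.V.add_mem _ _ h1 h2
    | mul r r' _ _ h1 h2 =>
      rw [map_mul]
      exact π.V.mul_mem _ _ h1 h2
  have hon : ∀ s ∈ S, ∀ i, On (s i) := by
    intro s hs i
    obtain ⟨j, -, rfl⟩ := Multiset.mem_map.1 hs
    exact hOn j.1
  -- Galois stability
  have hgal : GalStable S := by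
    intro σ
    have hσt : ∀ τ : Om K ≃ₐ[RatFunc K] Om K, τ (tt K) = tt K := fun τ => τ.commutes _
    let act : (Om K ≃ₐ[RatFunc K] Om K) → {j : D →ₐ[K] Om K // j f = tt K} → {j : D →ₐ[K] Om K // j f = tt K} :=
      fun τ j => ⟨(τ.toAlgHom.restrictScalars K).comp j.1, by
        show τ (j.1 f) = tt K
        rw [j.2, hσt]⟩
    let e : {j : D →ₐ[K] Om K // j f = tt K} ≃ {j : D →ₐ[K] Om K // j f = tt K} :=
      { toFun := act σ
        invFun := act σ.symm
        left_inv := fun j => by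
          apply Subtype.ext
          apply AlgHom.ext
          intro r
          exact σ.symm_apply_apply _
        right_inv := fun j => by
          apply Subtype.ext
          apply AlgHom.ext
          intro r
          exact σ.apply_symm_apply _ }
    have h1 : ∀ j, gal σ (P j) = P (e j) := fun j => rfl
    rw [hS, Multiset.map_map]
    have h2 : (gal σ ∘ P) = P ∘ e := funext h1
    rw [h2, ← Multiset.map_map, Multiset.map_univ_val_equiv]
  -- the place
  obtain ⟨ι, hι, hιf⟩ := emb_exists f hf halg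
  have ht : tt K ∈ ι.range := ⟨f, hιf⟩
  obtain ⟨π0, hπ0⟩ := place_of_sub ι.range ht (p0.comp (AlgEquiv.ofInjective ι hι).symm.toAlgHom)
  have hιr : ∀ r : D, Rd π0.V π0.φ (ι r) (p0 r) := by
    intro r
    have h1 := hπ0 (AlgEquiv.ofInjective ι hι r)
    have h2 : (p0.comp (AlgEquiv.ofInjective ι hι).symm.toAlgHom) (AlgEquiv.ofInjective ι hι r) = p0 r := by
      show p0 ((AlgEquiv.ofInjective ι hι).symm (AlgEquiv.ofInjective ι hι r)) = p0 r
      rw [AlgEquiv.symm_apply_apply]
    rw [h2] at h1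
    exact h1
  have htt : Rd π0.V π0.φ (tt K) 0 := by
    have h1 := hιr f
    rw [hιf, hp0] at h1
    exact h1
  set c0 : G := Φ.cl (fun _ => ⟨p0.comp q, p0 x, p0 y⟩) with hc0
  have hlim : ∀ j : {j : D →ₐ[K] Om K // j f = tt K}, Lim1 Φ.cl π0 (P j) c0 ∨ Lim1 Φ.cl π0 (P j) 0 := by
    intro j
    by_cases hj : Int π0 (P j 0)
    · obtain ⟨p, hp⟩ := exists_redHom (hint π0 j hj)
      have hpf : p f = 0 := by
        have h1 := hp f
        rw [j.2] at h1
        exact h1.unique htt
      have hsp : ∀ i : Fin 1, Sp π0 (P j i) (⟨p.comp q, p x, p y⟩ : Pt K A K) :=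
        fun i => ⟨fun r => hp (q r), hp x, hp y⟩
      rcases hz p hpf with h1 | h1
      · refine Or.inl (Or.inl ⟨fun _ => ⟨p0.comp q, p0 x, p0 y⟩, fun i => ?_, rfl⟩)
        rw [← h1]
        exact hsp i
      · exact Or.inr (Or.inl ⟨fun _ => ⟨p.comp q, p x, p y⟩, hsp, h1.symm⟩)
    · exact Or.inr (Or.inr ⟨⟨0, hj⟩, rfl⟩)
  have hι0 : Lim1 Φ.cl π0 (P ⟨ι, hιf⟩) c0 :=
    Or.inl ⟨fun _ => ⟨p0.comp q, p0 x, p0 y⟩, fun i => ⟨fun r => hιr (q r), hιr x, hιr y⟩, rfl⟩
  have hL := Lim.map (cl := Φ.cl) (π := π0) (Finset.univ : Finset {j : D →ₐ[K] Om K // j f = tt K}).val P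
    (fun j => if Lim1 Φ.cl π0 (P j) c0 then c0 else 0) (fun j _ => by
      by_cases h1 : Lim1 Φ.cl π0 (P j) c0
      · rw [if_pos h1]
        exact h1
      · rw [if_neg h1]
        exact (hlim j).resolve_left h1)
  obtain ⟨π1, hπ1⟩ := H71.K3.place_inf K
  have hdrop : ∀ s ∈ S, ∃ i, ¬ Int π1 (s i) := by
    intro s hs
    obtain ⟨j, -, rfl⟩ := Multiset.mem_map.1 hs
    refine ⟨0, fun hj => hπ1 ?_⟩
    have h1 := hint π1 j hj f
    rw [j.2] at h1
    exact h1
  have h0 := Φ.eq_zero hon hgal hL hdrop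
  have hsum : (Multiset.map (fun j => if Lim1 Φ.cl π0 (P j) c0 then c0 else 0)
      (Finset.univ : Finset {j : D →ₐ[K] Om K // j f = tt K}).val).sum =
      (Finset.univ.filter (fun j : {j : D →ₐ[K] Om K // j f = tt K} => Lim1 Φ.cl π0 (P j) c0)).card • c0 := by
    show ∑ j : {j : D →ₐ[K] Om K // j f = tt K}, (if Lim1 Φ.cl π0 (P j) c0 then c0 else 0) = _
    rw [Finset.sum_ite, Finset.sum_const_zero, add_zero, Finset.sum_const]
  rw [hsum] at h0
  refine tf _ _ ?_ h0
  rw [Finset.card_ne_zero]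
  exact ⟨⟨ι, hιf⟩, Finset.mem_filter.2 ⟨Finset.mem_univ _, hι0⟩⟩

end H19.ES
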