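import Pool.Agent.H19.ES.Def

/-! # ES.Fun : functionals on zero-cycles and limits of multisets at a place (definitions and formal lemmas; proved)

`Fnl On n G` : a homomorphism from the Chow group of zero-cycles of the `n`-th power of the surface `On` to an abelian group `G`, given
by its values `cl p` on the `n`-tuples `p` of points.  `Lim1 cl π s c` : the tuple `s` of points over `Ω` specialises at `π` to `p`
and `c = cl p`, or it is not integral and `c = 0`.  `Lim cl π S c` : the same for multisets. -/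

namespace H19.ES

open H68.BB

variable {K A : Type} [Field K] [CommRing A] [Algebra K A] {G : Type} [AddCommGroup G] {n : ℕ}

/-- torsion-free -/
def TF (G : Type) [AddCommGroup G] : Prop := ∀ (m : ℕ) (x : G), m ≠ 0 → m • x = 0 → x = 0

def Lim1 (cl : (Fin n → Pt K A K) → G) (π : Place K (Om K)) (s : Fin n → Pt K A (Om K)) (c : G) : Prop :=
  (∃ p : Fin n → Pt K A K, (∀ i, Sp π (s i) (p i)) ∧ c = cl p) ∨ ((∃ i, ¬ Int π (s i)) ∧ c = 0)

def Lim (cl : (Fin n → Pt K A K) → G) (π : Place K (Om K)) (S : Multiset (Fin n → Pt K A (Om K))) (c : G) : Prop :=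
  ∃ C : Multiset G, Multiset.Rel (Lim1 cl π) S C ∧ C.sum = c

/-- functionals on the zero-cycles of the `n`-th power modulo rational equivalence -/
structure Fnl (On : Pt K A (Om K) → Prop) (n : ℕ) (G : Type) [AddCommGroup G] where
  cl : (Fin n → Pt K A K) → G
  rel : ∀ (S : Multiset (Fin n → Pt K A (Om K))) (π π' : Place K (Om K)) (c c' : G), (∀ s ∈ S, ∀ i, On (s i)) →
    GalStable S → Lim cl π S c → Lim cl π' S c' → c = c'

/-- the constant point -/
noncomputable def cst' (p : Pt K A K) : Pt K A (Om K) := p.map (Algebra.ofId K (Om K))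

theorem Sp_cst' (π : Place K (Om K)) (p : Pt K A K) : Sp π (cst' p) p :=
  ⟨fun r => π.const _, π.const _, π.const _⟩

theorem Sp.int {π : Place K (Om K)} {P : Pt K A (Om K)} {p : Pt K A K} (h : Sp π P p) : Int π P :=
  ⟨fun r => (h.1 r).mem, h.2.1.mem, h.2.2.mem⟩

theorem Sp.unique {π : Place K (Om K)} {P : Pt K A (Om K)} {p p' : Pt K A K} (h : Sp π P p) (h' : Sp π P p') : p = p' := by
  ext r
  · exact (h.1 r).unique (h'.1 r)
  · exact h.2.1.unique h'.2.1
  · exact h.2.2.unique h'.2.2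

/-- an integral homomorphism reduces to a homomorphism -/
theorem exists_redHom {D : Type} [CommRing D] [Algebra K D] {π : Place K (Om K)} {b : D →ₐ[K] Om K}
    (h : ∀ r : D, b r ∈ π.V) : ∃ b' : D →ₐ[K] K, ∀ r, Rd π.V π.φ (b r) (b' r) := by
  let f : D →+* K := π.φ.comp ((b : D →+* Om K).codRestrict π.V.toSubring h)
  have hf : ∀ r, Rd π.V π.φ (b r) (f r) := fun r => ⟨h r, rfl⟩
  refine ⟨{ f with commutes' := fun c => ?_ }, fun r => hf r⟩
  have h1 := hf (algebraMap K D c)
  rw [b.commutes] at h1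
  exact h1.unique (π.const c)

theorem Int.exists_Sp {π : Place K (Om K)} {P : Pt K A (Om K)} (h : Int π P) : ∃ p, Sp π P p := by
  obtain ⟨b', hb'⟩ := exists_redHom h.1
  exact ⟨⟨b', _, _⟩, hb', Rd.of_mem h.2.1, Rd.of_mem h.2.2⟩

theorem Lim1.unique {cl : (Fin n → Pt K A K) → G} {π : Place K (Om K)} {s : Fin n → Pt K A (Om K)} {c c' : G}
    (h : Lim1 cl π s c) (h' : Lim1 cl π s c') : c = c' := by
  rcases h with ⟨p, hp, rfl⟩ | ⟨⟨i, hi⟩, rfl⟩
  · rcases h' with ⟨p', hp', rfl⟩ | ⟨⟨i, hi⟩, rfl⟩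
    · have h1 : p = p' := funext fun i => (hp i).unique (hp' i)
      rw [h1]
    · exact absurd (hp i).int hi
  · rcases h' with ⟨p', hp', rfl⟩ | ⟨_, rfl⟩
    · exact absurd (hp' i).int hi
    · rfl

theorem Lim1.exists' (cl : (Fin n → Pt K A K) → G) (π : Place K (Om K)) (s : Fin n → Pt K A (Om K)) :
    ∃ c, Lim1 cl π s c := by
  by_cases h : ∀ i, Int π (s i)
  · choose p hp using fun i => (h i).exists_Sp
    exact ⟨_, Or.inl ⟨p, hp, rfl⟩⟩
  · push Not at h
    exact ⟨0, Or.inr ⟨h, rfl⟩⟩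

variable {cl : (Fin n → Pt K A K) → G} {π : Place K (Om K)}

theorem Lim.zero : Lim cl π 0 0 := ⟨0, Multiset.Rel.zero, by simp⟩

theorem Lim.add {S T : Multiset (Fin n → Pt K A (Om K))} {c d : G} (h : Lim cl π S c) (h' : Lim cl π T d) :
    Lim cl π (S + T) (c + d) := by
  obtain ⟨C, h1, rfl⟩ := h
  obtain ⟨D, h2, rfl⟩ := h'
  exact ⟨C + D, Multiset.Rel.add h1 h2, by simp⟩

theorem Lim.single {s : Fin n → Pt K A (Om K)} {c : G} (h : Lim1 cl π s c) : Lim cl π {s} c :=
  ⟨{c}, Multiset.Rel.cons h Multiset.Rel.zero, by simp⟩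

theorem Lim.map {ι : Type*} (I : Multiset ι) (f : ι → Fin n → Pt K A (Om K)) (g : ι → G)
    (h : ∀ i ∈ I, Lim1 cl π (f i) (g i)) : Lim cl π (I.map f) (I.map g).sum := by
  induction I using Multiset.induction_on with
  | empty => simpa using Lim.zero
  | cons a I ih =>
    rw [Multiset.map_cons, Multiset.map_cons, Multiset.sum_cons, ← Multiset.singleton_add]
    exact (Lim.single (h a (Multiset.mem_cons_self _ _))).add
      (ih fun i hi => h i (Multiset.mem_cons_of_mem hi))

/-- for indices in two related multisets -/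
theorem Lim.rel {ι κ : Type} {r : ι → κ → Prop} {I : Multiset ι} {J : Multiset κ} (h : Multiset.Rel r I J)
    (f : ι → Fin n → Pt K A (Om K)) (g : κ → G) (hfg : ∀ i ∈ I, ∀ j ∈ J, r i j → Lim1 cl π (f i) (g j)) :
    Lim cl π (I.map f) (J.map g).sum := by
  induction h with
  | zero => simpa using Lim.zero
  | @cons x y as bs hxy hs ih =>
    rw [Multiset.map_cons, Multiset.map_cons, Multiset.sum_cons, ← Multiset.singleton_add]
    refine (Lim.single (hfg x (Multiset.mem_cons_self _ _) y (Multiset.mem_cons_self _ _) hxy)).add (ih ?_)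
    intro i hi j hj hr
    exact hfg i (Multiset.mem_cons_of_mem hi) j (Multiset.mem_cons_of_mem hj) hr

theorem Lim.bind {ι κ : Type} {r : ι → κ → Prop} {I : Multiset ι} {J : Multiset κ} (h : Multiset.Rel r I J)
    (f : ι → Multiset (Fin n → Pt K A (Om K))) (g : κ → G) (hfg : ∀ i ∈ I, ∀ j ∈ J, r i j → Lim cl π (f i) (g j)) :
    Lim cl π (I.bind f) (J.map g).sum := by
  induction h with
  | zero => simpa using Lim.zero
  | @cons x y as bs hxy hs ih =>
    rw [Multiset.cons_bind, Multiset.map_cons, Multiset.sum_cons]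
    refine Lim.add (hfg x (Multiset.mem_cons_self _ _) y (Multiset.mem_cons_self _ _) hxy) (ih ?_)
    intro i hi j hj hr
    exact hfg i (Multiset.mem_cons_of_mem hi) j (Multiset.mem_cons_of_mem hj) hr

/-- all members are dropped -/
theorem Lim.drop (S : Multiset (Fin n → Pt K A (Om K))) (h : ∀ s ∈ S, ∃ i, ¬ Int π (s i)) : Lim cl π S 0 := by
  have h1 := Lim.map (cl := cl) (π := π) S id (fun _ => (0 : G)) (fun s hs => Or.inr ⟨h s hs, rfl⟩)
  rw [Multiset.map_id] at h1
  convert h1
  simp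

/-- the form of the relation which is used: everything is dropped at `π'`, so the limit at `π` is `0` -/
theorem Fnl.eq_zero {On : Pt K A (Om K) → Prop} (Φ : Fnl On n G) {S : Multiset (Fin n → Pt K A (Om K))}
    {π π' : Place K (Om K)} {c : G} (hS : ∀ s ∈ S, ∀ i, On (s i)) (hG : GalStable S) (h : Lim Φ.cl π S c)
    (h' : ∀ s ∈ S, ∃ i, ¬ Int π' (s i)) : c = 0 :=
  Φ.rel S π π' c 0 hS hG h (Lim.drop S h')

end H19.ES
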