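import Mathlib

/-! # ES.Crv : an affine curve `Spec A`, finite over the line `Spec K[t]` (definitions only, Mathlib only)

`A` is a commutative `K`-algebra which is also a `K[X]`-algebra (`t = tA` is the image of `X`), free with basis `f : Fin m → A`.
`dg f d y` : the coordinates of `y` in the basis `f` are polynomials of degree `< d`.  `StB f s` : structure constants of degree `≤ s`.
`qq t` is the monic polynomial `∏ (X - t_i)`.  `Fbr` : `k` fibres of `Spec A` over the line (over `t_0, …, t_{k-1}`, distinct), each of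
them `m` distinct points `z i j`, with a chosen point `j0 i` in each of them. -/

namespace H19.ES

open Polynomial

variable {K A : Type} [Field K] [CommRing A] [Algebra K A] [Algebra K[X] A]

/-- the coordinate function `t` -/
noncomputable def tA (K A : Type) [Field K] [CommRing A] [Algebra K[X] A] : A := algebraMap K[X] A X

/-- the coordinates of `y` have degree `< d` -/
def dg {m : ℕ} (f : Module.Basis (Fin m) K[X] A) (d : ℕ) (y : A) : Prop := ∀ j, (f.repr y j).degree < (d : WithBot ℕ)

/-- the structure constants have degree `≤ s` -/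
def StB {m : ℕ} (f : Module.Basis (Fin m) K[X] A) (s : ℕ) : Prop := ∀ i j l, (f.repr (f i * f j) l).natDegree ≤ s

/-- `∏ (X - t_i)` -/
noncomputable def qq {k : ℕ} (t : Fin k → K) : K[X] := ∏ i, (X - C (t i))

/-- `k` complete fibres over distinct points of the line, with a chosen point in each -/
structure Fbr (K A : Type) [Field K] [CommRing A] [Algebra K A] [Algebra K[X] A] (m k : ℕ) where
  t : Fin k → K
  tinj : Function.Injective t
  z : Fin k → Fin m → (A →ₐ[K] K)
  zinj : ∀ i, Function.Injective (z i)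
  zt : ∀ i j, z i j (tA K A) = t i
  j0 : Fin k → Fin m

/-- the chosen points -/
def Fbr.b {m k : ℕ} (Z : Fbr K A m k) (i : Fin k) : A →ₐ[K] K := Z.z i (Z.j0 i)

/-- `y` vanishes at the points of the fibres which are not chosen -/
def Fbr.Van {m k : ℕ} (Z : Fbr K A m k) (y : A) : Prop := ∀ i j, j ≠ Z.j0 i → Z.z i j y = 0

/-- the quotient of (the coordinates of) `y` by `qq t`: the coefficient of `X ^ i` in the `j`-th coordinate -/
noncomputable def quo {m k : ℕ} (f : Module.Basis (Fin m) K[X] A) (t : Fin k → K) (y : A) (i : ℕ) (j : Fin m) : K :=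
  ((f.repr y j) /ₘ qq t).coeff i

/-- dual elements: `v i` has coordinates of degree `< k`, the value `1` at the chosen point of the `i`-th fibre and `0` at all
other points of the fibres -/
structure Dual {m k : ℕ} (f : Module.Basis (Fin m) K[X] A) (Z : Fbr K A m k) (v : Fin k → A) : Prop where
  deg : ∀ i, dg f k (v i)
  one : ∀ i, Z.b i (v i) = 1
  zero : ∀ i i' j, (i' ≠ i ∨ j ≠ Z.j0 i') → Z.z i' j (v i) = 0

section syl
variable {m k s e : ℕ} (f : Module.Basis (Fin m) K[X] A) (Z : Fbr K A m k) (v : Fin k → A) (h : Fin e → A)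
  (R : Type) [CommRing R] [Algebra K R]

/-- the matrix of `h_l` on `t^i f_j` (quotient part) -/
noncomputable def sQ (s : ℕ) (l : Fin e) : Matrix (Fin s × Fin m) (Fin s × Fin m) R :=
  fun p p' => algebraMap K R (quo f Z.t (h l * (tA K A ^ (p'.1 : ℕ) * f p'.2)) p.1 p.2)

/-- the values of `h_l t^i f_j` at the chosen points -/
noncomputable def sW (s : ℕ) (l : Fin e) : Matrix (Fin k) (Fin s × Fin m) R :=
  fun a p' => algebraMap K R (Z.b a (h l * (tA K A ^ (p'.1 : ℕ) * f p'.2)))

/-- the matrix of `g` on the `v_i` (quotient part) -/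
noncomputable def sV (s : ℕ) (g : A) : Matrix (Fin s × Fin m) (Fin k) R :=
  fun p i => algebraMap K R (quo f Z.t (g * v i) p.1 p.2)

/-- the Sylvester matrix of `q + τ ∑ u_l h_l` and `c₁ g₁ + c₂ g₂` -/
noncomputable def Syl (s : ℕ) (u : Fin e → R) (τ c1 c2 : R) (g1 g2 : A) :
    Matrix ((Fin s × Fin m) ⊕ Fin k) ((Fin s × Fin m) ⊕ Fin k) R :=
  Matrix.fromBlocks (1 + τ • ∑ l, u l • sQ f Z h R s l) (c1 • sV f Z v R s g1 + c2 • sV f Z v R s g2)
    (τ • ∑ l, u l • sW f Z h R s l)
    (Matrix.diagonal fun a => c1 * algebraMap K R (Z.b a g1) + c2 * algebraMap K R (Z.b a g2))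

end syl

end H19.ES
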