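import Pool.Agent.H68.BB.Plc
import Pool.Agent.H68.BB.Red

/-! # ES.Def : zero-cycles on the powers of the affine surface `S : y² = x³ + a x + b` over an affine curve
`Spec A` (definitions only, no sorry)

`K` is a field, `A` a commutative `K`-algebra, `Om K` the algebraic closure of `K(t)`, `Place K (Om K)` a `K`-rational place of it
(`H68.BB.Def`), `Rd V φ x a` means `x ∈ V` and `φ x = a` (`H68.BB.Red`).  The zero-cycles of an affine variety modulo rational
equivalence: points which are not integral at a place go to the boundary and are dropped. -/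

namespace H19.ES

open H68.BB

/-- an `F`-valued point of the affine plane over `Spec A`: a base point (a `K`-algebra homomorphism `b : A → F`) and two
coordinates in `F` -/
@[ext] structure Pt (K A F : Type) [Field K] [CommRing A] [Algebra K A] [Field F] [Algebra K F] where
  b : A →ₐ[K] F
  x : F
  y : F

variable {K A : Type} [Field K] [CommRing A] [Algebra K A]

/-- apply a homomorphism to a point -/
def Pt.map {F G : Type} [Field F] [Algebra K F] [Field G] [Algebra K G] (f : F →ₐ[K] G) (P : Pt K A F) : Pt K A G :=
  ⟨f.comp P.b, f P.x, f P.y⟩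

/-- the point lies on `S : y² = x³ + a x + b` -/
def OnS {F : Type} [Field F] [Algebra K F] (a b : A) (P : Pt K A F) : Prop :=
  P.y ^ 2 = P.x ^ 3 + P.b a * P.x + P.b b

/-- the point is integral at the place and reduces to `p` -/
def Sp (π : Place K (Om K)) (P : Pt K A (Om K)) (p : Pt K A K) : Prop :=
  (∀ r : A, Rd π.V π.φ (P.b r) (p.b r)) ∧ Rd π.V π.φ P.x p.x ∧ Rd π.V π.φ P.y p.y

/-- the point is integral at the place -/
def Int (π : Place K (Om K)) (P : Pt K A (Om K)) : Prop :=
  (∀ r : A, P.b r ∈ π.V) ∧ P.x ∈ π.V ∧ P.y ∈ π.V

/-- an automorphism of `Ω` over `K(t)` applied to a tuple of points -/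
noncomputable def gal (σ : Om K ≃ₐ[RatFunc K] Om K) {n : ℕ} (s : Fin n → Pt K A (Om K)) : Fin n → Pt K A (Om K) :=
  fun i => (s i).map (σ.toAlgHom.restrictScalars K)

/-- a finite multiset of tuples of points over `Ω` which is stable under all automorphisms of `Ω` over `K(t)`: the generic
fibre of an effective 1-cycle of `ℙ¹ × X` all of whose components dominate `ℙ¹` -/
def GalStable {n : ℕ} (S : Multiset (Fin n → Pt K A (Om K))) : Prop := ∀ σ, S.map (gal σ) = S

/-- specialisation of a tuple of points at a place: `some p` if all points are integral and reduce to the points `p i`, `none`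
if one of them is not integral -/
def SpO (π : Place K (Om K)) {n : ℕ} (s : Fin n → Pt K A (Om K)) : Option (Fin n → Pt K A K) → Prop
  | some p => ∀ i, Sp π (s i) (p i)
  | none => ∃ i, ¬ Int π (s i)

/-- zero-cycles: the free abelian group on `n`-tuples of points -/
abbrev Cyc (K A : Type) [Field K] [CommRing A] [Algebra K A] (n : ℕ) : Type := (Fin n → Pt K A K) →₀ ℤ

/-- the zero-cycle given by one tuple of points -/
noncomputable def pt {n : ℕ} (s : Fin n → Pt K A K) : Cyc K A n := Finsupp.single s 1

/-- the zero-cycle given by a specialisation (`none` is dropped) -/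
noncomputable def cyc {n : ℕ} (S : Multiset (Option (Fin n → Pt K A K))) : Cyc K A n := (S.map (fun o => o.elim 0 pt)).sum

/-- zero-cycles of the `n`-th power of the surface given by the condition `On`, rationally equivalent to zero: the
subgroup generated by the differences of two fibres over `ℙ¹` of effective 1-cycles on the product of `ℙ¹` and the `n`-th power
which are dominant over `ℙ¹` (1-cycles of `ℙ¹ × X`, `X` affine, are closed in a compactification: the points of a fibre in
the boundary are dropped) -/
noncomputable def RatEq (On : Pt K A (Om K) → Prop) (n : ℕ) : AddSubgroup (Cyc K A n) :=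
  AddSubgroup.closure {z | ∃ (S : Multiset (Fin n → Pt K A (Om K))) (π π' : Place K (Om K))
    (c c' : Multiset (Option (Fin n → Pt K A K))), (∀ s ∈ S, ∀ i, On (s i)) ∧ GalStable S ∧ Multiset.Rel (SpO π) S c ∧
    Multiset.Rel (SpO π') S c' ∧ z = cyc c - cyc c'}

end H19.ES
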