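import Pool.Agent.H19.ES.Fun

/-! # ES.Def2 : level 2 and the matrices (definitions; small facts proved)

LEVEL 2. `T : δ² + w⁴ - 2 γ w² + β² = 0` over `Spec A` (`be = β`, `ga = γ`; coordinates `P.x = w`, `P.y = δ`), a curve of genus 1 over every
base point with `β (γ² - β²) ≠ 0`, isogenous to `y² = x (x² - 2 γ x + β²)` by `x = w²`, `y = i δ w`.  `(x, δ)` is a point of the conic
`δ² + x² - 2 γ x + β² = 0`.  Its matrix is `Bm β x δ = [[λ x - β, λ δ], [δ, λ β - x]]`, with determinant `x f(λ)`, `f = β λ² - 2 γ λ + β`.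
`Ch` is the product of the matrices of a sequence of points of conics; `Frm k M X₀ B₀` are the formal properties of a product of `k`
such matrices (`X₀ = ∏ x_i`, `B₀ = ∏ β_i`). -/

namespace H19.ES

open H68.BB Polynomial

section ring
variable {R : Type} [CommRing R]

/-- the matrix of a point of the conic -/
noncomputable def Bm (be x d : R) : Matrix (Fin 2) (Fin 2) R[X] :=
  !![C x * X - C be, C d * X; C d, C be * X - C x]

/-- `f = β λ² - 2 γ λ + β` -/
noncomputable def ff (be ga : R) : R[X] := C be * X ^ 2 - C (2 * ga) * X + C be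

/-- the product of the matrices of a chain -/
noncomputable def Ch {k : ℕ} (be x d : Fin k → R) : Matrix (Fin 2) (Fin 2) R[X] :=
  (List.ofFn fun i => Bm (be i) (x i) (d i)).prod

/-- the point `(x, δ)` is on the conic -/
def Con (be ga x d : R) : Prop := d ^ 2 + x ^ 2 - 2 * ga * x + be ^ 2 = 0

/-- formal properties of a product of `k` matrices -/
structure Frm (k : ℕ) (M : Matrix (Fin 2) (Fin 2) R[X]) (X0 B0 : R) : Prop where
  deg : ∀ i j, (M i j).natDegree ≤ k
  m11 : M 1 1 = (-1) ^ k * (M 0 0).reflect k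
  m10 : M 1 0 = (-1) ^ (k + 1) * (M 0 1).reflect k
  top : (M 0 0).coeff k = X0
  bot : (M 0 0).coeff 0 = (-1) ^ k * B0
  r0 : (M 0 1).coeff 0 = 0

end ring

/-- nondegenerate pairwise coprime types -/
structure Ty {F : Type} [Field F] {k : ℕ} (be ga : Fin k → F) : Prop where
  be0 : ∀ i, be i ≠ 0
  ns : ∀ i, ga i ^ 2 ≠ be i ^ 2
  co : ∀ i j, i ≠ j → ga i * be j ≠ ga j * be i

variable {K A : Type} [Field K] [CommRing A] [Algebra K A] {F : Type} [Field F] [Algebra K F]

/-- the point is on `T` -/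
def OnT (be ga : A) (P : Pt K A F) : Prop := P.y ^ 2 + P.x ^ 4 - 2 * P.b ga * P.x ^ 2 + P.b be ^ 2 = 0

def neg1 (P : Pt K A F) : Pt K A F := ⟨P.b, -P.x, P.y⟩

def neg2 (P : Pt K A F) : Pt K A F := ⟨P.b, -P.x, -P.y⟩

/-- the functional does not distinguish `(w, δ)` and `(-w, -δ)` -/
def Inv {On : Pt K A (Om K) → Prop} {n : ℕ} {G : Type} [AddCommGroup G] (Φ : Fnl On n G) : Prop :=
  ∀ (s : Fin n → Pt K A K) (i : Fin n), Φ.cl (Function.update s i (neg2 (s i))) = Φ.cl s

/-- the coordinate `κ = δ + i (β + x)` of the conic (`im ^ 2 = -1`) -/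
def kap (im : K) (be : A) (P : Pt K A K) : K := P.y + im * (P.b be + P.x ^ 2)

/-- the product of the matrices of a tuple of points of `T` -/
noncomputable def Mt (be : A) {k : ℕ} (s : Fin k → Pt K A F) : Matrix (Fin 2) (Fin 2) F[X] :=
  Ch (fun i => (s i).b be) (fun i => (s i).x ^ 2) (fun i => (s i).y)

theorem OnT_iff {be ga : A} {P : Pt K A F} : OnT be ga P ↔ Con (P.b be) (P.b ga) (P.x ^ 2) P.y := by
  unfold OnT Con
  constructor <;> intro h <;> linear_combination h

theorem OnT_cst' {be ga : A} {P : Pt K A K} (h : OnT be ga P) : OnT be ga (cst' P) := by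
  have h1 := congrArg (algebraMap K (Om K)) h
  simp only [map_add, map_sub, map_mul, map_pow, map_zero, map_ofNat] at h1
  exact h1

/-- the alternating sum -/
noncomputable def altSum {G : Type} [AddCommGroup G] {n : ℕ} (cl : (Fin n → Pt K A K) → G) (p : Fin n → Pt K A K) : G :=
  ∑ σ : Equiv.Perm (Fin n), (Equiv.Perm.sign σ : ℤ) • cl (p ∘ σ)

end H19.ES
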