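import Pool.Agent.H19.ES.Pair

/-! # ES.Gen : generic chains can be recut arbitrarily often (about 250 lines)

`KPath im be ga v σ w` : the chain with coordinates `w` in the order `σ` (the slot `j` has the type `σ j`) is obtained from the chain `v` (order `1`) by recutting adjacent slots.
WORDS.  For types `T : Fin k → K × K` (pairwise coprime, `Ty`) and a list `L` of positions `i` (with `i + 1 < k`) define (recursion over the list) `GW T L v` : `[]`: `True`; `i :: L`: `UU` for the types and values in the slots `i, i+1`, and `GW T' L v'` for the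
swapped types and the recut values.  CLAIM: there is a polynomial `G ≠ 0` with `eval v G ≠ 0 → GW T L v`.  Induction over the list, for all `T`.  For `i :: L`: let `g, a1, a2` be the polynomials of `UU_poly` for the two types (renamed to the variables `i, i+1`:
`MvPolynomial.rename ![i, i+1]`), `G'` the polynomial for `L` and `T'`.  The recut values `v'_i = r2 = a2/g`, `v'_{i+1} = r1 = a1/g`, `v'_j = v_j`: there are `N` and a polynomial `H` with `eval v H = (eval v g)^N * eval v' G'` whenever
`eval v g ≠ 0` (clear denominators: induction over the polynomial `G'` (`MvPolynomial.induction_on`), or `H = ∑ coefficients * ∏ (numerators) * g^(N - ..)`).  `G := g * H`.  It is not zero: choose `w` with `eval w (G' * g_swapped) ≠ 0` (`K` infinite; `MvPolynomial.funext`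
or `MvPolynomial.exists_eval_ne_zero..`), `g_swapped` the polynomial of `UU_poly` for the swapped types; recut `w` at `i, i+1`: by `UU_swap` the result `v` satisfies `UU` and its recut values are `w`, so `eval v g ≠ 0` and `eval v H ≠ 0`.
GENERATION: every permutation is a product of adjacent transpositions `swap i (i+1)` (`Equiv.Perm.mclosure_swap_castSucc_succ` or `Submonoid`/`Subgroup` closure induction; `Fin k` with `k = 0, 1` trivial): a word `L_σ` for every `σ`; `GW` along `L_σ` gives `KPath` for `σ`.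
Take the product of the polynomials for all `L_σ` and of `v_i`, `v_i - 2iβ_i`, `2(γ_i+β_i) + 2i v_i`. -/

namespace H19.ES

open H68.BB

variable {K : Type} [Field K] [IsAlgClosed K] [CharZero K]

inductive KPath {k : ℕ} (im : K) (be ga v : Fin k → K) : Equiv.Perm (Fin k) → (Fin k → K) → Prop
  | refl : KPath im be ga v 1 v
  | step {σ : Equiv.Perm (Fin k)} {w : Fin k → K} {i j : Fin k} (hij : (j : ℕ) = i + 1) (h : KPath im be ga v σ w)
      (hU : UU im (be (σ i)) (ga (σ i)) (be (σ j)) (ga (σ j)) (w i) (w j)) :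
      KPath im be ga v (σ * Equiv.swap i j)
        (Function.update (Function.update w i (r2 im (be (σ i)) (ga (σ i)) (be (σ j)) (ga (σ j)) (w i) (w j))) j
          (r1 im (be (σ i)) (ga (σ i)) (be (σ j)) (ga (σ j)) (w i) (w j)))

omit [IsAlgClosed K] [CharZero K] in
private theorem ty_comp {k : ℕ} {be ga : Fin k → K} (hT : Ty be ga) (σ : Equiv.Perm (Fin k)) : Ty (be ∘ σ) (ga ∘ σ) :=
  ⟨fun i => hT.be0 (σ i), fun i => hT.ns (σ i), fun i j h => hT.co (σ i) (σ j) (fun h' => h (σ.injective h'))⟩

omit [IsAlgClosed K] [CharZero K] in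
private theorem ty_pair {k : ℕ} {be ga : Fin k → K} (hT : Ty be ga) {i j : Fin k} (hij : i ≠ j) :
    Ty ![be i, be j] ![ga i, ga j] := by
  refine ⟨?_, ?_, ?_⟩
  · intro l
    fin_cases l
    · exact hT.be0 i
    · exact hT.be0 j
  · intro l
    fin_cases l
    · exact hT.ns i
    · exact hT.ns j
  · intro l l' h
    fin_cases l <;> fin_cases l'
    · exact absurd rfl h
    · exact hT.co i j hij
    · exact hT.co j i hij.symm
    · exact absurd rfl h

omit [CharZero K] in
private theorem ex_ne {k : ℕ} {G : MvPolynomial (Fin k) K} (hG : G ≠ 0) : ∃ w, MvPolynomial.eval w G ≠ 0 := by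
  have : Infinite K := inferInstance
  by_contra h
  rw [not_exists] at h
  apply hG
  apply MvPolynomial.funext
  intro w
  rw [map_zero]
  exact not_not.1 (h w)

omit [IsAlgClosed K] [CharZero K] in
/-- clear the denominators -/
private theorem clear {k : ℕ} (D : MvPolynomial (Fin k) K) (num : Fin k → MvPolynomial (Fin k) K)
    (φ : (Fin k → K) → (Fin k → K)) (S : Set (Fin k → K))
    (h : ∀ w ∈ S, ∀ l, MvPolynomial.eval w D * φ w l = MvPolynomial.eval w (num l)) (p : MvPolynomial (Fin k) K) :
    ∃ (N : ℕ) (H : MvPolynomial (Fin k) K), ∀ w ∈ S, MvPolynomial.eval w H = MvPolynomial.eval w D ^ N * MvPolynomial.eval (φ w) p := by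
  induction p using MvPolynomial.induction_on with
  | C c => exact ⟨0, MvPolynomial.C c, fun w _ => by rw [MvPolynomial.eval_C, MvPolynomial.eval_C, pow_zero, one_mul]⟩
  | add p q hp hq =>
    obtain ⟨N1, H1, h1⟩ := hp
    obtain ⟨N2, H2, h2⟩ := hq
    refine ⟨N1 + N2, H1 * D ^ N2 + H2 * D ^ N1, fun w hw => ?_⟩
    rw [map_add, map_mul, map_mul, map_pow, map_pow, h1 w hw, h2 w hw, map_add]
    ring
  | mul_X p l hp =>
    obtain ⟨N, H, h1⟩ := hp
    refine ⟨N + 1, H * num l, fun w hw => ?_⟩
    rw [map_mul, h1 w hw, ← h w hw l, map_mul, MvPolynomial.eval_X]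
    ring

/-- recut at the slots `i`, `j` -/
private noncomputable def rc {k : ℕ} (im : K) (be ga : Fin k → K) (i j : Fin k) (w : Fin k → K) : Fin k → K :=
  Function.update (Function.update w i (r2 im (be i) (ga i) (be j) (ga j) (w i) (w j))) j
    (r1 im (be i) (ga i) (be j) (ga j) (w i) (w j))

private theorem step_poly {k : ℕ} {im : K} (him : im ^ 2 = -1) {be ga : Fin k → K} (hT : Ty be ga) {i j : Fin k}
    (hij : i ≠ j) {G' : MvPolynomial (Fin k) K} (hG' : G' ≠ 0) :
    ∃ G : MvPolynomial (Fin k) K, G ≠ 0 ∧ ∀ w, MvPolynomial.eval w G ≠ 0 →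
      UU im (be i) (ga i) (be j) (ga j) (w i) (w j) ∧ MvPolynomial.eval (rc im be ga i j w) G' ≠ 0 := by
  obtain ⟨g, a1, a2, hg0, hg, ha⟩ := UU_poly him (ty_pair hT hij)
  obtain ⟨g', _, _, hg0', hg', _⟩ := UU_poly him (ty_pair hT hij.symm)
  have hinj : Function.Injective (![i, j] : Fin 2 → Fin k) := by
    intro l l' h
    fin_cases l <;> fin_cases l'
    · rfl
    · exact absurd h hij
    · exact absurd h hij.symm
    · rfl
  have hcomp : ∀ w : Fin k → K, w ∘ ![i, j] = ![w i, w j] := by
    intro w
    funext l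
    fin_cases l <;> rfl
  have hev : ∀ (w : Fin k → K) (p : MvPolynomial (Fin 2) K),
      MvPolynomial.eval w (MvPolynomial.rename ![i, j] p) = MvPolynomial.eval ![w i, w j] p := by
    intro w p
    rw [MvPolynomial.eval_rename, hcomp]
  have hren : ∀ p : MvPolynomial (Fin 2) K, p ≠ 0 → MvPolynomial.rename ![i, j] p ≠ 0 := by
    intro p hp h
    apply hp
    apply MvPolynomial.rename_injective _ hinj
    rw [h, map_zero]
  let D : MvPolynomial (Fin k) K := MvPolynomial.rename ![i, j] g
  let num : Fin k → MvPolynomial (Fin k) K := fun l =>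
    if l = j then MvPolynomial.rename ![i, j] a1 else if l = i then MvPolynomial.rename ![i, j] a2 else D * MvPolynomial.X l
  obtain ⟨N, H, hH⟩ := clear D num (rc im be ga i j) {w | MvPolynomial.eval w D ≠ 0} (by
    intro w hw l
    have hw' : MvPolynomial.eval ![w i, w j] g ≠ 0 := by
      rw [← hev]
      exact hw
    obtain ⟨h1, h2⟩ := ha _ _ ((hg _ _).1 hw')
    change MvPolynomial.eval w (MvPolynomial.rename ![i, j] g) * rc im be ga i j w l = MvPolynomial.eval w (if l = j then _ else _)
    unfold rc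
    by_cases hlj : l = j
    · rw [if_pos hlj, hlj, Function.update_self, hev, hev, h1]
      exact mul_div_cancel₀ _ hw'
    · rw [if_neg hlj, Function.update_of_ne hlj]
      by_cases hli : l = i
      · rw [if_pos hli, hli, Function.update_self, hev, hev, h2]
        exact mul_div_cancel₀ _ hw'
      · rw [if_neg hli, Function.update_of_ne hli, map_mul, MvPolynomial.eval_X]) G'
  refine ⟨D * H, ?_, ?_⟩
  · obtain ⟨w, hw⟩ := ex_ne (mul_ne_zero hG' (hren g' hg0'))
    rw [map_mul, mul_ne_zero_iff, MvPolynomial.eval_rename] at hw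
    obtain ⟨hw1, hw2⟩ := hw
    rw [hcomp] at hw2
    have hU : UU im (be j) (ga j) (be i) (ga i) (w i) (w j) := (hg' _ _).1 hw2
    obtain ⟨s1, s2, s3⟩ := UU_swap him (ty_pair hT hij.symm) hU
    let v : Fin k → K := Function.update (Function.update w i (r2 im (be j) (ga j) (be i) (ga i) (w i) (w j))) j
      (r1 im (be j) (ga j) (be i) (ga i) (w i) (w j))
    have hvj : v j = r1 im (be j) (ga j) (be i) (ga i) (w i) (w j) := Function.update_self _ _ _
    have hvi : v i = r2 im (be j) (ga j) (be i) (ga i) (w i) (w j) := by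
      change Function.update (Function.update w i _) j _ i = _
      rw [Function.update_of_ne hij, Function.update_self]
    have hrc : rc im be ga i j v = w := by
      funext l
      unfold rc
      rw [hvi, hvj, s2, s3]
      by_cases hlj : l = j
      · rw [hlj, Function.update_self]
      · rw [Function.update_of_ne hlj]
        by_cases hli : l = i
        · rw [hli, Function.update_self]
        · rw [Function.update_of_ne hli]
          change Function.update (Function.update w i _) j _ l = _
          rw [Function.update_of_ne hlj, Function.update_of_ne hli]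
    have hDv : MvPolynomial.eval v D ≠ 0 := by
      change MvPolynomial.eval v (MvPolynomial.rename ![i, j] g) ≠ 0
      rw [hev, hvi, hvj]
      exact (hg _ _).2 s1
    intro h0
    have h1 := congrArg (MvPolynomial.eval v) h0
    rw [map_mul, hH v hDv, hrc, map_zero] at h1
    exact mul_ne_zero hDv (mul_ne_zero (pow_ne_zero _ hDv) hw1) h1
  · intro w hw
    rw [map_mul, mul_ne_zero_iff] at hw
    obtain ⟨hw1, hw2⟩ := hw
    refine ⟨?_, ?_⟩
    · apply (hg _ _).1
      rw [← hev]
      exact hw1
    · rw [hH w hw1, mul_ne_zero_iff] at hw2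
      exact hw2.2

private theorem path_poly {k : ℕ} {im : K} (him : im ^ 2 = -1) {be ga : Fin k → K} (hT : Ty be ga) (σ : Equiv.Perm (Fin k)) :
    ∀ G' : MvPolynomial (Fin k) K, G' ≠ 0 → ∃ G : MvPolynomial (Fin k) K, G ≠ 0 ∧ ∀ v, MvPolynomial.eval v G ≠ 0 →
      ∃ w, MvPolynomial.eval w G' ≠ 0 ∧ KPath im be ga v σ w := by
  cases k with
  | zero =>
    intro G' hG'
    have h1 : σ = 1 := Subsingleton.elim _ _
    rw [h1]
    exact ⟨G', hG', fun v hv => ⟨v, hv, KPath.refl⟩⟩
  | succ n =>
    have hσ : σ ∈ Submonoid.closure (Set.range fun i : Fin n ↦ Equiv.swap i.castSucc i.succ) := by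
      rw [Equiv.Perm.mclosure_swap_castSucc_succ]
      exact Submonoid.mem_top σ
    induction hσ using Submonoid.closure_induction_right with
    | one =>
      intro G' hG'
      exact ⟨G', hG', fun v hv => ⟨v, hv, KPath.refl⟩⟩
    | mul_right σ _ y hy ih =>
      obtain ⟨i, rfl⟩ := hy
      intro G' hG'
      have hne : i.castSucc ≠ i.succ := (Fin.castSucc_lt_succ).ne
      obtain ⟨G1, hG1, h1⟩ := step_poly him (ty_comp hT σ) hne hG'
      obtain ⟨G, hG, h2⟩ := ih G1 hG1
      refine ⟨G, hG, fun v hv => ?_⟩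
      obtain ⟨w, hw, hp⟩ := h2 v hv
      obtain ⟨hU, hw'⟩ := h1 w hw
      exact ⟨_, hw', KPath.step (by simp) hp hU⟩

theorem gen {k : ℕ} {im : K} (him : im ^ 2 = -1) {be ga : Fin k → K} (hT : Ty be ga) :
    ∃ G : MvPolynomial (Fin k) K, G ≠ 0 ∧ ∀ v, MvPolynomial.eval v G ≠ 0 →
      (∀ i, Okk im (be i) (ga i) (v i)) ∧ ∀ σ, ∃ w, KPath im be ga v σ w := by
  classical
  have him0 : im ≠ 0 := by
    rintro rfl
    norm_num at him
  have h2 : (2 : K) ≠ 0 := two_ne_zero
  have h := fun σ => path_poly him hT σ 1 one_ne_zero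
  choose Gs hGs hGs' using h
  have hq : ∀ i, (MvPolynomial.X i - MvPolynomial.C (2 * im * be i) : MvPolynomial (Fin k) K) ≠ 0 := by
    intro i h0
    have h1 := congrArg (MvPolynomial.eval (fun _ => 2 * im * be i + 1)) h0
    rw [map_sub, MvPolynomial.eval_X, MvPolynomial.eval_C, map_zero] at h1
    apply one_ne_zero (α := K)
    linear_combination h1
  have he : ∀ i, (MvPolynomial.C (2 * (ga i + be i)) + MvPolynomial.C (2 * im) * MvPolynomial.X i : MvPolynomial (Fin k) K) ≠ 0 := by
    intro i h0
    have h1 := congrArg (MvPolynomial.eval (fun _ => (1 - 2 * (ga i + be i)) / (2 * im))) h0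
    have e1 : ∀ t : K, MvPolynomial.eval (fun _ => t) (MvPolynomial.C (2 * (ga i + be i)) + MvPolynomial.C (2 * im) *
        MvPolynomial.X i : MvPolynomial (Fin k) K) = 2 * (ga i + be i) + 2 * im * t := by
      intro t
      simp only [map_add, map_mul, MvPolynomial.eval_X, MvPolynomial.eval_C]
    rw [e1, map_zero, mul_div_cancel₀ _ (mul_ne_zero h2 him0)] at h1
    apply one_ne_zero (α := K)
    linear_combination h1
  refine ⟨(∏ σ, Gs σ) * ∏ i, (MvPolynomial.X i * ((MvPolynomial.X i - MvPolynomial.C (2 * im * be i)) *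
    (MvPolynomial.C (2 * (ga i + be i)) + MvPolynomial.C (2 * im) * MvPolynomial.X i))), ?_, ?_⟩
  · refine mul_ne_zero (Finset.prod_ne_zero_iff.2 fun σ _ => hGs σ) (Finset.prod_ne_zero_iff.2 fun i _ => ?_)
    exact mul_ne_zero (MvPolynomial.X_ne_zero i) (mul_ne_zero (hq i) (he i))
  · intro v hv
    rw [map_mul, mul_ne_zero_iff, map_prod, map_prod, Finset.prod_ne_zero_iff, Finset.prod_ne_zero_iff] at hv
    obtain ⟨hv1, hv2⟩ := hv
    refine ⟨fun i => ?_, fun σ => ?_⟩
    · have h3 := hv2 i (Finset.mem_univ i)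
      have e2 : MvPolynomial.eval v (MvPolynomial.X i * ((MvPolynomial.X i - MvPolynomial.C (2 * im * be i)) *
          (MvPolynomial.C (2 * (ga i + be i)) + MvPolynomial.C (2 * im) * MvPolynomial.X i))) =
          v i * ((v i - 2 * im * be i) * (2 * (ga i + be i) + 2 * im * v i)) := by
        simp only [map_add, map_sub, map_mul, MvPolynomial.eval_X, MvPolynomial.eval_C]
      rw [e2, mul_ne_zero_iff, mul_ne_zero_iff] at h3
      exact ⟨h3.1, sub_ne_zero.1 h3.2.1, h3.2.2⟩
    · obtain ⟨w, _, hw⟩ := hGs' σ v (hv1 σ (Finset.mem_univ σ))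
      exact ⟨w, hw⟩

end H19.ES
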