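import Pool.Agent.H19.ES.Neg

/-! # ES.Rec : THE RELATION for two slots (about 250 lines)

Let `P, Q` (slots `a`, `b`) and `P', Q'` be points of `T` over the same base points, types `(β₁, γ₁)`, `(β₂, γ₂)`, `x = w²`, with `Bm P * Bm Q = Bm Q' * Bm P'`,
`w_P w_Q = w_P' w_Q' =: w` and `κ(P) ≠ κ(P')`.  Then `cl (P, Q) + cl (P', Q') = 0`.
ALGEBRA (over a field, `i² = -1`): `κ = δ + i (β + x)` satisfies `κ (κ - 2iβ) = x (2(γ+β) + 2iκ)` on the conic; `2(γ+β) + 2iκ ≠ 0` (otherwise `κ(κ - 2iβ) = -(γ+β)(γ-β) ≠ 0`), `κ ≠ 0`, `κ ≠ 2iβ` if `x ≠ 0`;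
`x` and `δ = κ - i(β + x)` are determined by `κ`.  Comparing coefficients in `Bm P * Bm Q = Bm Q' * Bm P'` (entries `00`, `01`, `10`) : `x₁x₂ = x₁'x₂' =: X`,
`I := x₁β₂ + x₂β₁ - δ₁δ₂` is the same, `D = x₁δ₂ + δ₁β₂`, `D^ = x₂δ₁ + β₁δ₂` are exchanged, so `κ₁κ₂ = -I - (β₁β₂ + X) + i(D + D^)` is the same: `c₀ := κ₁κ₂ = κ₁'κ₂'`.
With `c = κ₁κ₂`, `x₁x₂ = X` is equivalent to `Q_c(κ₁) = 0`, `Q_c(κ) = c(κ - 2iβ₁)(c - 2iβ₂κ) - 4X((γ₁+β₁) + iκ)((γ₂+β₂)κ + ic)`; its coefficients are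
`κ²: -2iβ₂c - 4iX(γ₂+β₂)`, `κ: c² - 4β₁β₂c - 4X((γ₁+β₁)(γ₂+β₂) - c)`, `1: -2iβ₁c² - 4iXc(γ₁+β₁)`.
FAMILY over `Ω`: `c = c₀ + tt`, `X = w²` fixed.  For every root `κ` of `Q_c` (a multiset of two roots; the leading coefficient is not `0`) `κ ≠ 0` (the constant coefficient
`-2ic(β₁c + 2X(γ₁+β₁)) ≠ 0`), `κ₂ = c/κ`, `x₁ = κ(κ-2iβ₁)/(2(γ₁+β₁)+2iκ)`, `x₂` similarly from `κ₂` (denominators `≠ 0`: if `(γ₁+β₁) + iκ = 0` then `Q_c(κ) = 0` gives `κ = 2iβ₁` (no, `γ₁ ≠ β₁`) or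
`c = 2iβ₂κ` constant (no); the same for the second), `δ_j = κ_j - i(β_j + x_j)`: points of the conics with `x₁x₂ = X`; for each of the two square roots `w₁` of `x₁` (roots of
`Y² - x₁`) put `w₂ = w/w₁`: pairs of points of `T` over `(b₁, b₂)` (constant), Galois-stable.
At `π₀`, `tt ↦ 0`: `Q_c` reduces to `Q_{c₀}`, which has the two DIFFERENT roots `κ₁, κ₁'` (of `P`, `P'`) and is not `0` (if all three coefficients vanish then, `c₀ ≠ 0`,
`β₂c₀ = -2X(γ₂+β₂)`, `β₁c₀ = -2X(γ₁+β₁)`, so `β₁(γ₂+β₂) = β₂(γ₁+β₁)`: types not coprime), so it has degree 2 and these roots, and `roots_rd` applies: the limit is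
`2 cl(P,Q) + 2 cl(P',Q')` (`(w₁,w₂)` and `(-w₁,-w₂)` have the same class by `neg_cl` twice; the roots of `Y² - x₁` reduce to `±w_P`; the denominators reduce to nonzero elements).
At `π` with `tt ∉ V` (`H71.K3.place_inf`): if both points were integral then `κ₁, κ₂` and `c = κ₁κ₂` would be: dropped.  `TF` with `m = 2`.
Slots: `slots` with `e = ![a, b]`. -/

namespace H19.ES

open H68.BB Polynomial

section scalars
variable {F : Type} [Field F]

/-- a point of the conic in the coordinate `κ` -/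
private theorem rc_conic {i b g x d : F} (hi : i ^ 2 = -1) (h : d ^ 2 + x ^ 2 - 2 * g * x + b ^ 2 = 0) :
    (d + i * (b + x)) * ((d + i * (b + x)) - 2 * i * b) = x * (2 * (g + b) + 2 * i * (d + i * (b + x))) := by
  linear_combination h - (b + x) ^ 2 * hi

private theorem rc_conic' {i b g x k : F} (hi : i ^ 2 = -1) (h : k * (k - 2 * i * b) = x * (2 * (g + b) + 2 * i * k)) :
    (k - i * (b + x)) ^ 2 + x ^ 2 - 2 * g * x + b ^ 2 = 0 := by
  linear_combination h + (b + x) ^ 2 * hi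

private theorem rc_k0 [CharZero F] {i b g x k : F} (hns : g ^ 2 ≠ b ^ 2) (hx : x ≠ 0)
    (h : k * (k - 2 * i * b) = x * (2 * (g + b) + 2 * i * k)) : k ≠ 0 := by
  rintro rfl
  have h1 : x * (2 * (g + b)) = 0 := by linear_combination -h
  have h2 : g + b = 0 := by
    rcases mul_eq_zero.1 h1 with h3 | h3
    · exact absurd h3 hx
    · rcases mul_eq_zero.1 h3 with h4 | h4
      · exact absurd h4 two_ne_zero
      · exact h4
  exact hns (by linear_combination (g - b) * h2)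

private theorem rc_e0 [CharZero F] {i b g x k : F} (hi : i ^ 2 = -1) (hns : g ^ 2 ≠ b ^ 2)
    (h : k * (k - 2 * i * b) = x * (2 * (g + b) + 2 * i * k)) : 2 * (g + b) + 2 * i * k ≠ 0 := by
  intro he
  rw [he, mul_zero] at h
  rcases mul_eq_zero.1 h with h1 | h1
  · rw [h1, mul_zero, add_zero] at he
    rcases mul_eq_zero.1 he with h4 | h4
    · exact absurd h4 two_ne_zero
    · exact hns (by linear_combination (g - b) * h4)
  · have h2 : k = 2 * i * b := sub_eq_zero.1 h1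
    rw [h2] at he
    have h3 : 2 * (g - b) = 0 := by linear_combination he - 4 * b * hi
    rcases mul_eq_zero.1 h3 with h4 | h4
    · exact absurd h4 two_ne_zero
    · exact hns (by linear_combination (g + b) * h4)

/-- the quadratic polynomial of the family -/
private noncomputable def qc (i b1 g1 b2 g2 Z c : F) : F[X] :=
  C (-2 * i * b2 * c - 4 * i * Z * (g2 + b2)) * X ^ 2 + C (c ^ 2 - 4 * b1 * b2 * c - 4 * Z * ((g1 + b1) * (g2 + b2) - c)) * X +
    C (-2 * i * b1 * c ^ 2 - 4 * i * Z * c * (g1 + b1))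

private theorem qc_eval {i b1 g1 b2 g2 Z c : F} (hi : i ^ 2 = -1) (k : F) : (qc i b1 g1 b2 g2 Z c).eval k =
    c * (k - 2 * i * b1) * (c - 2 * i * b2 * k) - 4 * Z * ((g1 + b1) + i * k) * ((g2 + b2) * k + i * c) := by
  unfold qc
  simp only [eval_add, eval_mul, eval_pow, eval_C, eval_X]
  linear_combination (-4 * b1 * b2 * c * k + 4 * Z * c * k) * hi

private theorem qc_deg (i b1 g1 b2 g2 Z c : F) : (qc i b1 g1 b2 g2 Z c).natDegree ≤ 2 := natDegree_quadratic_le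

private theorem qc_map {F' : Type} [Field F'] (φ : F →+* F') (i b1 g1 b2 g2 Z c : F) :
    (qc i b1 g1 b2 g2 Z c).map φ = qc (φ i) (φ b1) (φ g1) (φ b2) (φ g2) (φ Z) (φ c) := by
  unfold qc
  rw [Polynomial.map_add, Polynomial.map_add, Polynomial.map_mul, Polynomial.map_mul, Polynomial.map_pow, map_X, map_C,
    map_C, map_C]
  simp only [map_add, map_sub, map_mul, map_neg, map_pow, map_ofNat]

/-- `c` is not one of the finitely many bad values -/
private structure GoodC (b1 g1 b2 g2 Z c : F) : Prop where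
  c0 : c ≠ 0
  c1 : b1 * c + 2 * Z * (g1 + b1) ≠ 0
  c2 : c ≠ -2 * b2 * (g1 + b1)
  c3 : c ≠ -2 * b1 * (g2 + b2)

private theorem im_ne {i : F} (hi : i ^ 2 = -1) : i ≠ 0 := by
  rintro rfl
  have : (0 : F) = -1 := by rw [← hi]; ring
  exact one_ne_zero (α := F) (by linear_combination this)

private theorem qc_root [CharZero F] {i b1 g1 b2 g2 Z c : F} (hi : i ^ 2 = -1) (hns : g1 ^ 2 ≠ b1 ^ 2) (hZ : Z ≠ 0)
    (hc : GoodC b1 g1 b2 g2 Z c) {k : F} (hk : (qc i b1 g1 b2 g2 Z c).eval k = 0) :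
    k ≠ 0 ∧ k - 2 * i * b1 ≠ 0 ∧ 2 * (g1 + b1) + 2 * i * k ≠ 0 := by
  rw [qc_eval hi] at hk
  have hi0 := im_ne hi
  have h2 : (2 : F) ≠ 0 := two_ne_zero
  have h4 : (4 : F) ≠ 0 := by
    have h5 : (4 : F) = 2 * 2 := by norm_num
    rw [h5]
    exact mul_ne_zero h2 h2
  refine ⟨?_, ?_, ?_⟩
  · rintro rfl
    have h1 : (2 * i * c) * (b1 * c + 2 * Z * (g1 + b1)) = 0 := by linear_combination -hk
    rcases mul_eq_zero.1 h1 with h3 | h3
    · exact mul_ne_zero (mul_ne_zero h2 hi0) hc.c0 h3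
    · exact hc.c1 h3
  · intro h0
    have hkk : k = 2 * i * b1 := sub_eq_zero.1 h0
    have h1 : (4 * Z * i) * ((g1 - b1) * (c + 2 * b1 * (g2 + b2))) = 0 := by
      rw [hkk] at hk
      linear_combination -hk - (8 * Z * b1 * i * (2 * b1 * (g2 + b2) + c)) * hi
    rcases mul_eq_zero.1 h1 with h3 | h3
    · exact mul_ne_zero (mul_ne_zero h4 hZ) hi0 h3
    · rcases mul_eq_zero.1 h3 with h5 | h5
      · exact hns (by linear_combination (g1 + b1) * h5)
      · exact hc.c3 (by linear_combination h5)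
  · intro he
    have he' : (g1 + b1) + i * k = 0 := by
      have h3 : 2 * ((g1 + b1) + i * k) = 0 := by linear_combination he
      exact (mul_eq_zero.1 h3).resolve_left h2
    have hkk : k = i * (g1 + b1) := by linear_combination -i * he' + k * hi
    rw [he', mul_zero, zero_mul, sub_zero] at hk
    rcases mul_eq_zero.1 hk with h3 | h3
    · rcases mul_eq_zero.1 h3 with h5 | h5
      · exact hc.c0 h5
      · have h6 : i * (g1 - b1) = 0 := by linear_combination h5 - hkk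
        rcases mul_eq_zero.1 h6 with h7 | h7
        · exact hi0 h7
        · exact hns (by linear_combination (g1 + b1) * h7)
    · refine hc.c2 ?_
      rw [hkk] at h3
      linear_combination h3 + 2 * b2 * (g1 + b1) * hi

/-- the second point of the pair -/
private theorem rc_snd [CharZero F] {i b1 g1 b2 g2 Z c k w w1 : F} (hi : i ^ 2 = -1) (hZ : w ^ 2 = Z) (hk0 : k ≠ 0)
    (hk1 : k - 2 * i * b1 ≠ 0) (he : 2 * (g1 + b1) + 2 * i * k ≠ 0) (hk : (qc i b1 g1 b2 g2 Z c).eval k = 0)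
    (hw1 : w1 ^ 2 = k * (k - 2 * i * b1) / (2 * (g1 + b1) + 2 * i * k)) :
    (c / k) * (c / k - 2 * i * b2) = (w / w1) ^ 2 * (2 * (g2 + b2) + 2 * i * (c / k)) := by
  rw [qc_eval hi] at hk
  have hw0 : w1 ≠ 0 := by
    rintro rfl
    rw [zero_pow two_ne_zero] at hw1
    exact div_ne_zero (mul_ne_zero hk0 hk1) he hw1.symm
  have h1 : w1 ^ 2 * (2 * (g1 + b1) + 2 * i * k) = k * (k - 2 * i * b1) := by
    rw [hw1]
    exact div_mul_cancel₀ _ he
  rw [div_pow, hZ]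
  field_simp
  apply mul_left_cancel₀ hk1
  linear_combination w1 ^ 2 * hk + 2 * Z * ((g2 + b2) * k + i * c) * h1

end scalars

variable {K A : Type} [Field K] [IsAlgClosed K] [CharZero K] [CommRing A] [Algebra K A] {G : Type} [AddCommGroup G] {n : ℕ}

omit [IsAlgClosed K] [CharZero K] in
private theorem rc_upd (s : Fin n → Pt K A K) {a b : Fin n} (hab : a ≠ b) (p : Fin 2 → Pt K A K) :
    Function.extend ![a, b] p s = Function.update (Function.update s a (p 0)) b (p 1) := by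
  have he : Function.Injective ![a, b] := by
    intro x y hxy
    fin_cases x <;> fin_cases y <;> first | rfl | exact absurd hxy hab | exact absurd hxy.symm hab
  funext j
  by_cases hj : j = b
  · rw [hj, Function.update_self]
    exact he.extend_apply p s 1
  · rw [Function.update_of_ne hj]
    by_cases hj' : j = a
    · rw [hj', Function.update_self]
      exact he.extend_apply p s 0
    · rw [Function.update_of_ne hj', Function.extend_apply' _ _ _ fun h => ?_]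
      obtain ⟨x, hx⟩ := h
      fin_cases x
      · exact hj' hx.symm
      · exact hj hx.symm

omit [IsAlgClosed K] [CharZero K] in
private theorem rc_inv {be ga : A} {Φ : Fnl (OnT be ga) n G} (hI : Inv Φ) {Ψ : Fnl (OnT be ga) 2 G} (s : Fin n → Pt K A K) {a b : Fin n}
    (hab : a ≠ b) (hΨ : ∀ p, Ψ.cl p = Φ.cl (Function.extend ![a, b] p s)) : Inv Ψ := by
  intro q i
  rw [hΨ, hΨ, rc_upd s hab, rc_upd s hab]
  fin_cases i
  · have h := hI (Function.update (Function.update s a (q 0)) b (q 1)) a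
    rw [Function.update_of_ne hab, Function.update_self, Function.update_comm hab.symm, Function.update_idem] at h
    exact h
  · have h := hI (Function.update (Function.update s a (q 0)) b (q 1)) b
    rw [Function.update_self, Function.update_idem] at h
    exact h

/-- the comparison of the matrices -/
private theorem rc_mat {i b1 b2 x1 d1 x2 d2 x1' d1' x2' d2' : K} (hi : i ^ 2 = -1)
    (hM : Bm b1 x1 d1 * Bm b2 x2 d2 = Bm b2 x2' d2' * Bm b1 x1' d1') :
    (d1 + i * (b1 + x1)) * (d2 + i * (b2 + x2)) = (d1' + i * (b1 + x1')) * (d2' + i * (b2 + x2')) := by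
  have h0 := congrArg (fun M => (M 0 0).eval (-1)) hM
  have h1 := congrArg (fun M => (M 0 1).eval (-1)) hM
  simp [Bm, Matrix.mul_apply, Fin.sum_univ_two] at h0 h1
  linear_combination i * h1 - h0 + ((b1 + x1) * (b2 + x2) - (b1 + x1') * (b2 + x2')) * hi

omit [IsAlgClosed K] [CharZero K] in
private theorem rc_root {i b1 g1 b2 g2 x1 x2 k1 k2 : K} (hi : i ^ 2 = -1) (h1 : k1 * (k1 - 2 * i * b1) = x1 * (2 * (g1 + b1) + 2 * i * k1))
    (h2 : k2 * (k2 - 2 * i * b2) = x2 * (2 * (g2 + b2) + 2 * i * k2)) : (qc i b1 g1 b2 g2 (x1 * x2) (k1 * k2)).eval k1 = 0 := by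
  rw [qc_eval hi]
  linear_combination (k1 * (k2 * (k2 - 2 * i * b2))) * h1 + (k1 * (x1 * (2 * (g1 + b1) + 2 * i * k1))) * h2

omit [IsAlgClosed K] in
private theorem qc_ne {i b1 g1 b2 g2 Z c : K} (hi : i ^ 2 = -1) (hZ : Z ≠ 0) (hc : c ≠ 0) (hco : g1 * b2 ≠ g2 * b1) :
    qc i b1 g1 b2 g2 Z c ≠ 0 := by
  intro h
  have hi0 := im_ne hi
  have h2 : (2 : K) ≠ 0 := two_ne_zero
  have q2 : ∀ u v w : K, (C u * X ^ 2 + C v * X + C w : K[X]).coeff 2 = u := fun u v w => by simp [coeff_X, coeff_C]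
  have q0 : ∀ u v w : K, (C u * X ^ 2 + C v * X + C w : K[X]).coeff 0 = w := fun u v w => by simp
  have e2 := congrArg (fun q => q.coeff 2) h
  have e0 := congrArg (fun q => q.coeff 0) h
  unfold qc at e2 e0
  rw [q2, coeff_zero] at e2
  rw [q0, coeff_zero] at e0
  have f2 : b2 * c + 2 * Z * (g2 + b2) = 0 := by
    have h3 : (2 * i) * (b2 * c + 2 * Z * (g2 + b2)) = 0 := by linear_combination -e2
    exact (mul_eq_zero.1 h3).resolve_left (mul_ne_zero h2 hi0)
  have f0 : b1 * c + 2 * Z * (g1 + b1) = 0 := by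
    have h3 : (2 * i * c) * (b1 * c + 2 * Z * (g1 + b1)) = 0 := by linear_combination -e0
    exact (mul_eq_zero.1 h3).resolve_left (mul_ne_zero (mul_ne_zero h2 hi0) hc)
  have h4 : (2 * Z) * (g1 * b2 - g2 * b1) = 0 := by linear_combination b2 * f0 - b1 * f2
  rcases mul_eq_zero.1 h4 with h5 | h5
  · exact mul_ne_zero h2 hZ h5
  · exact hco (sub_eq_zero.1 h5)

omit [IsAlgClosed K] in
private theorem qc_roots {i b1 g1 b2 g2 Z c k k' : K} (hne : qc i b1 g1 b2 g2 Z c ≠ 0) (hk : (qc i b1 g1 b2 g2 Z c).eval k = 0)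
    (hk' : (qc i b1 g1 b2 g2 Z c).eval k' = 0) (hkk : k ≠ k') :
    (qc i b1 g1 b2 g2 Z c).roots = {k, k'} ∧ (qc i b1 g1 b2 g2 Z c).natDegree = 2 := by
  classical
  have h1 : ({k, k'} : Multiset K) ≤ (qc i b1 g1 b2 g2 Z c).roots := by
    rw [Multiset.le_iff_subset (by simp [hkk])]
    intro y hy
    rw [mem_roots hne]
    rcases Multiset.mem_cons.1 hy with rfl | hy
    · exact hk
    · rw [Multiset.mem_singleton.1 hy]
      exact hk'
  have h2 := card_roots' (qc i b1 g1 b2 g2 Z c)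
  have h3 := qc_deg i b1 g1 b2 g2 Z c
  have h4 : Multiset.card ({k, k'} : Multiset K) = 2 := by simp
  have h5 := Multiset.eq_of_le_of_card_le h1 (by rw [h4]; omega)
  refine ⟨h5.symm, le_antisymm h3 ?_⟩
  rw [← h4, h5]
  exact h2

omit [IsAlgClosed K] [CharZero K] in
private theorem rc_quad {π : Place K (Om K)} {u v w : Om K} {u0 v0 w0 : K} (hu : Rd π.V π.φ u u0) (hv : Rd π.V π.φ v v0)
    (hw : Rd π.V π.φ w w0) (j : ℕ) :
    Rd π.V π.φ ((C u * X ^ 2 + C v * X + C w).coeff j) ((C u0 * X ^ 2 + C v0 * X + C w0).coeff j) := by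
  rw [coeff_add, coeff_add, coeff_C_mul, coeff_C_mul, coeff_X_pow, coeff_X, coeff_C, coeff_add, coeff_add, coeff_C_mul,
    coeff_C_mul, coeff_X_pow, coeff_X, coeff_C]
  refine ((hu.mul ?_).add (hv.mul ?_)).add ?_
  · split_ifs
    · exact Rd.one
    · exact Rd.zero
  · split_ifs
    · exact Rd.one
    · exact Rd.zero
  · split_ifs
    · exact hw
    · exact Rd.zero

omit [IsAlgClosed K] [CharZero K] in
private theorem rc_four {π : Place K (Om K)} : Rd π.V π.φ (4 : Om K) (4 : K) := by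
  have h := (Rd.two (V := π.V) (φ := π.φ)).add Rd.two
  have e1 : (2 : Om K) + 2 = 4 := by norm_num
  have e2 : (2 : K) + 2 = 4 := by norm_num
  rwa [e1, e2] at h

omit [IsAlgClosed K] [CharZero K] in
private theorem rc_sq_deg {F : Type} [Field F] (c : F) : (X ^ 2 - C c : F[X]).natDegree = 2 := natDegree_X_pow_sub_C

omit [IsAlgClosed K] [CharZero K] in
private theorem rc_sq_ne {F : Type} [Field F] (c : F) : (X ^ 2 - C c : F[X]) ≠ 0 := by
  intro h
  have h1 := rc_sq_deg c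
  rw [h, natDegree_zero] at h1
  exact absurd h1 (by norm_num)

omit [IsAlgClosed K] [CharZero K] in
private theorem rc_sq_roots {F : Type} [Field F] (w : F) : (X ^ 2 - C (w ^ 2) : F[X]).roots = {w} + {-w} := by
  have h : (X ^ 2 - C (w ^ 2) : F[X]) = (X - C w) * (X - C (-w)) := by
    rw [C_neg, C_pow]
    ring
  rw [h, roots_mul (by rw [← h]; exact rc_sq_ne _), roots_X_sub_C, roots_X_sub_C]

/-- the pair of points with coordinates `κ`, `w` -/
private def pr {F : Type} [Field F] [Algebra K F] (im : F) (b1 b2 : A →ₐ[K] F) (be : A) (c W k y : F) : Fin 2 → Pt K A F :=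
  ![⟨b1, y, k - im * (b1 be + y ^ 2)⟩, ⟨b2, W / y, c / k - im * (b2 be + (W / y) ^ 2)⟩]

private theorem rc_pair {im : K} {be ga : A} (Ψ : Fnl (OnT be ga) 2 G) (hI : Inv Ψ) {b1 b2 : A →ₐ[K] K} {w1 d1 w2 d2 c W : K}
    (hP : OnT be ga (⟨b1, w1, d1⟩ : Pt K A K)) (hQ : OnT be ga (⟨b2, w2, d2⟩ : Pt K A K)) (hw1 : w1 ≠ 0)
    (hk : d1 + im * (b1 be + w1 ^ 2) ≠ 0) (hc : c = (d1 + im * (b1 be + w1 ^ 2)) * (d2 + im * (b2 be + w2 ^ 2)))
    (hW : W = w1 * w2) :
    (((X ^ 2 - C (w1 ^ 2) : K[X]).roots).map fun y => Ψ.cl (pr im b1 b2 be c W (d1 + im * (b1 be + w1 ^ 2)) y)).sum =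
      2 • Ψ.cl ![⟨b1, w1, d1⟩, ⟨b2, w2, d2⟩] := by
  have h1 : pr im b1 b2 be c W (d1 + im * (b1 be + w1 ^ 2)) w1 = ![⟨b1, w1, d1⟩, ⟨b2, w2, d2⟩] := by
    have e1 : W / w1 = w2 := by rw [hW]; field_simp
    have e2 : c / (d1 + im * (b1 be + w1 ^ 2)) = d2 + im * (b2 be + w2 ^ 2) := by
      rw [hc, mul_div_cancel_left₀ _ hk]
    unfold pr
    rw [e1, e2]
    congr 3
    · ring
    · ring
  have h2 : pr im b1 b2 be c W (d1 + im * (b1 be + w1 ^ 2)) (-w1) = ![neg1 ⟨b1, w1, d1⟩, neg1 ⟨b2, w2, d2⟩] := by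
    have e1 : W / (-w1) = -w2 := by rw [hW]; field_simp
    have e2 : c / (d1 + im * (b1 be + w1 ^ 2)) = d2 + im * (b2 be + w2 ^ 2) := by
      rw [hc, mul_div_cancel_left₀ _ hk]
    unfold pr neg1
    rw [e1, e2]
    congr 3
    · ring
    · ring
  have h3 := neg_cl Ψ hI ![⟨b1, w1, d1⟩, ⟨b2, w2, d2⟩] (fun i => by fin_cases i; exacts [hP, hQ]) 0
  have h4 := neg_cl Ψ hI ![neg1 ⟨b1, w1, d1⟩, ⟨b2, w2, d2⟩] (fun i => by
    fin_cases i
    · show OnT be ga (neg1 ⟨b1, w1, d1⟩)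
      unfold OnT neg1 at *
      dsimp only at *
      linear_combination hP
    · exact hQ) 1
  have h5 : Function.update ![(⟨b1, w1, d1⟩ : Pt K A K), ⟨b2, w2, d2⟩] 0 (neg1 (![(⟨b1, w1, d1⟩ : Pt K A K), ⟨b2, w2, d2⟩] 0)) =
      ![neg1 ⟨b1, w1, d1⟩, ⟨b2, w2, d2⟩] := by
    funext i
    fin_cases i <;> rfl
  have h6 : Function.update ![neg1 (⟨b1, w1, d1⟩ : Pt K A K), ⟨b2, w2, d2⟩] 1 (neg1 (![neg1 (⟨b1, w1, d1⟩ : Pt K A K), ⟨b2, w2, d2⟩] 1)) =
      ![neg1 ⟨b1, w1, d1⟩, neg1 ⟨b2, w2, d2⟩] := by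
    funext i
    fin_cases i <;> rfl
  rw [h5] at h3
  rw [h6, h3, neg_neg] at h4
  rw [rc_sq_roots, Multiset.map_add, Multiset.sum_add, Multiset.map_singleton, Multiset.map_singleton, Multiset.sum_singleton,
    Multiset.sum_singleton, h1, h2, h4, two_nsmul]

private theorem rec_two {im : K} (him : im ^ 2 = -1) {be ga : A} (tf : TF G) (Ψ : Fnl (OnT be ga) 2 G) (hI : Inv Ψ)
    {P Q P' Q' : Pt K A K} (hP : OnT be ga P) (hQ : OnT be ga Q) (hP' : OnT be ga P') (hQ' : OnT be ga Q')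
    (hbP : P'.b = P.b) (hbQ : Q'.b = Q.b) (hT : Ty ![P.b be, Q.b be] ![P.b ga, Q.b ga]) (hxP : P.x ≠ 0) (hxQ : Q.x ≠ 0)
    (hM : Bm (P.b be) (P.x ^ 2) P.y * Bm (Q.b be) (Q.x ^ 2) Q.y = Bm (Q'.b be) (Q'.x ^ 2) Q'.y * Bm (P'.b be) (P'.x ^ 2) P'.y)
    (hw : P.x * Q.x = P'.x * Q'.x) (hk : kap im be P ≠ kap im be P') : Ψ.cl ![P', Q'] = - Ψ.cl ![P, Q] := by
  classical
  -- the data over `K`
  obtain ⟨b1, w1, d1⟩ := P
  obtain ⟨b2, w2, d2⟩ := Q
  obtain ⟨b1', v1, e1⟩ := P'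
  obtain ⟨b2', v2, e2⟩ := Q'
  dsimp only at hbP hbQ hT hxP hxQ hM hw hk
  subst hbP hbQ
  unfold kap at hk
  dsimp only at hk
  have hB1 : b1' be ≠ 0 := hT.be0 0
  have hB2 : b2' be ≠ 0 := hT.be0 1
  have hn1 : b1' ga ^ 2 ≠ b1' be ^ 2 := hT.ns 0
  have hn2 : b2' ga ^ 2 ≠ b2' be ^ 2 := hT.ns 1
  have hco : b1' ga * b2' be ≠ b2' ga * b1' be := hT.co 0 1 (by decide)
  have hxv : v1 ≠ 0 ∧ v2 ≠ 0 := mul_ne_zero_iff.1 (hw ▸ mul_ne_zero hxP hxQ)
  set B1 : K := b1' be with hB1d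
  set B2 : K := b2' be with hB2d
  set G1 : K := b1' ga with hG1d
  set G2 : K := b2' ga with hG2d
  set k1 : K := d1 + im * (B1 + w1 ^ 2) with hk1d
  set k2 : K := d2 + im * (B2 + w2 ^ 2) with hk2d
  set l1 : K := e1 + im * (B1 + v1 ^ 2) with hl1d
  set l2 : K := e2 + im * (B2 + v2 ^ 2) with hl2d
  have hP1 : d1 ^ 2 + w1 ^ 4 - 2 * G1 * w1 ^ 2 + B1 ^ 2 = 0 := hP
  have hQ1 : d2 ^ 2 + w2 ^ 4 - 2 * G2 * w2 ^ 2 + B2 ^ 2 = 0 := hQ
  have hP1' : e1 ^ 2 + v1 ^ 4 - 2 * G1 * v1 ^ 2 + B1 ^ 2 = 0 := hP'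
  have hQ1' : e2 ^ 2 + v2 ^ 4 - 2 * G2 * v2 ^ 2 + B2 ^ 2 = 0 := hQ'
  have c1 : k1 * (k1 - 2 * im * B1) = w1 ^ 2 * (2 * (G1 + B1) + 2 * im * k1) := rc_conic him (by linear_combination hP1)
  have c2 : k2 * (k2 - 2 * im * B2) = w2 ^ 2 * (2 * (G2 + B2) + 2 * im * k2) := rc_conic him (by linear_combination hQ1)
  have c1' : l1 * (l1 - 2 * im * B1) = v1 ^ 2 * (2 * (G1 + B1) + 2 * im * l1) := rc_conic him (by linear_combination hP1')
  have c2' : l2 * (l2 - 2 * im * B2) = v2 ^ 2 * (2 * (G2 + B2) + 2 * im * l2) := rc_conic him (by linear_combination hQ1')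
  have k10 := rc_k0 hn1 (pow_ne_zero 2 hxP) c1
  have k20 := rc_k0 hn2 (pow_ne_zero 2 hxQ) c2
  have l10 := rc_k0 hn1 (pow_ne_zero 2 hxv.1) c1'
  have k1e := rc_e0 him hn1 c1
  have l1e := rc_e0 him hn1 c1'
  have hc0 : k1 * k2 = l1 * l2 := rc_mat him hM
  set W : K := w1 * w2 with hWd
  set Z : K := W ^ 2 with hZd
  set c0 : K := k1 * k2 with hc0d
  have hW0 : W ≠ 0 := mul_ne_zero hxP hxQ
  have hZ0 : Z ≠ 0 := pow_ne_zero 2 hW0
  have hc00 : c0 ≠ 0 := mul_ne_zero k10 k20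
  set p0 : K[X] := qc im B1 G1 B2 G2 Z c0 with hp0d
  have r1 : p0.eval k1 = 0 := by
    have h := rc_root him c1 c2
    have h2 : w1 ^ 2 * w2 ^ 2 = Z := by rw [hZd, hWd, mul_pow]
    rwa [h2] at h
  have r2 : p0.eval l1 = 0 := by
    have h := rc_root him c1' c2'
    have h2 : v1 ^ 2 * v2 ^ 2 = Z := by rw [hZd, hw, mul_pow]
    rwa [h2, ← hc0] at h
  have hp00 : p0 ≠ 0 := qc_ne him hZ0 hc00 hco
  obtain ⟨hroots0, hdeg0⟩ := qc_roots hp00 r1 r2 hk
  -- the places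
  obtain ⟨π₀, h0, h0'⟩ := place_exists K 0
  obtain ⟨π₁, hinf⟩ := H71.K3.place_inf K
  have ht : Rd π₀.V π₀.φ (tt K) 0 := ⟨h0, h0'⟩
  set a : K →+* Om K := algebraMap K (Om K) with had
  have ra : ∀ x : K, Rd π₀.V π₀.φ (a x) x := fun x => π₀.const x
  set cc : Om K := a c0 + tt K with hccd
  have rcc : Rd π₀.V π₀.φ cc c0 := by
    have h := (ra c0).add ht
    rwa [add_zero] at h
  have ccne : ∀ x : K, cc ≠ a x := by
    intro x hx
    refine tt_ne K (x - c0) ?_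
    show tt K = a (x - c0)
    rw [map_sub, ← hx, hccd]
    ring
  have him' : (a im) ^ 2 = -1 := by rw [← map_pow, him, map_neg, map_one]
  have hn1' : (a G1) ^ 2 ≠ (a B1) ^ 2 := fun h => hn1 (a.injective (by rw [map_pow, map_pow]; exact h))
  have hZ0' : a Z ≠ 0 := (map_ne_zero a).2 hZ0
  have hgood : GoodC (a B1) (a G1) (a B2) (a G2) (a Z) cc := by
    refine ⟨?_, ?_, ?_, ?_⟩
    · have h := ccne 0
      rwa [map_zero] at h
    · intro h
      refine ccne (-(2 * Z * (G1 + B1)) / B1) ?_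
      have hB1' : a B1 ≠ 0 := (map_ne_zero a).2 hB1
      rw [map_div₀, eq_div_iff hB1']
      simp only [map_neg, map_mul, map_add, map_ofNat]
      linear_combination h
    · have h := ccne (-2 * B2 * (G1 + B1))
      simp only [map_neg, map_mul, map_add, map_ofNat] at h
      exact h
    · have h := ccne (-2 * B1 * (G2 + B2))
      simp only [map_neg, map_mul, map_add, map_ofNat] at h
      exact h
  set p : (Om K)[X] := qc (a im) (a B1) (a G1) (a B2) (a G2) (a Z) cc with hpd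
  have hcoef : ∀ j, Rd π₀.V π₀.φ (p.coeff j) (p0.coeff j) := by
    intro j
    refine rc_quad ?_ ?_ ?_ j
    · exact (((Rd.two.neg.mul (ra im)).mul (ra B2)).mul rcc).sub
        (((rc_four.mul (ra im)).mul (ra Z)).mul ((ra G2).add (ra B2)))
    · exact ((rcc.pow 2).sub (((rc_four.mul (ra B1)).mul (ra B2)).mul rcc)).sub
        ((rc_four.mul (ra Z)).mul ((((ra G1).add (ra B1)).mul ((ra G2).add (ra B2))).sub rcc))
    · exact (((Rd.two.neg.mul (ra im)).mul (ra B1)).mul (rcc.pow 2)).sub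
        ((((rc_four.mul (ra im)).mul (ra Z)).mul rcc).mul ((ra G1).add (ra B1)))
  have hroots := H67.KH.roots_rd hp00 hcoef ((qc_deg _ _ _ _ _ _ _).trans hdeg0.ge)
  have hp_0 : p ≠ 0 := by
    intro h
    refine hp00 ?_
    ext j
    have h1 := hcoef j
    rw [h, coeff_zero] at h1
    rw [coeff_zero]
    exact h1.unique Rd.zero
  -- the family
  set xx : Om K → Om K := fun κ => κ * (κ - 2 * a im * a B1) / (2 * (a G1 + a B1) + 2 * a im * κ) with hxx
  set xx0 : K → K := fun κ => κ * (κ - 2 * im * B1) / (2 * (G1 + B1) + 2 * im * κ) with hxx0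
  set f : Om K → Om K → Fin 2 → Pt K A (Om K) := fun κ y =>
    pr (a im) ((Algebra.ofId K (Om K)).comp b1') ((Algebra.ofId K (Om K)).comp b2') be cc (a W) κ y with hf
  set f0 : K → K → Fin 2 → Pt K A K := fun κ y => pr im b1' b2' be c0 W κ y with hf0
  set F : Om K → Multiset (Fin 2 → Pt K A (Om K)) := fun κ => (X ^ 2 - C (xx κ) : (Om K)[X]).roots.map (f κ) with hF
  set g : K → G := fun κ => ((X ^ 2 - C (xx0 κ) : K[X]).roots.map fun y => Ψ.cl (f0 κ y)).sum with hg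
  have hx1 : xx0 k1 = w1 ^ 2 := by
    rw [hxx0]
    show k1 * (k1 - 2 * im * B1) / (2 * (G1 + B1) + 2 * im * k1) = w1 ^ 2
    rw [div_eq_iff k1e, c1]
  have hx2 : xx0 l1 = v1 ^ 2 := by
    rw [hxx0]
    show l1 * (l1 - 2 * im * B1) / (2 * (G1 + B1) + 2 * im * l1) = v1 ^ 2
    rw [div_eq_iff l1e, c1']
  have hk0 : ∀ κ ∈ p0.roots, κ ≠ 0 ∧ 2 * (G1 + B1) + 2 * im * κ ≠ 0 ∧ xx0 κ ≠ 0 := by
    intro κ hκ
    rw [hroots0] at hκ
    rcases Multiset.mem_cons.1 hκ with rfl | hκ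
    · exact ⟨k10, k1e, by rw [hx1]; exact pow_ne_zero 2 hxP⟩
    · rw [Multiset.mem_singleton.1 hκ]
      exact ⟨l10, l1e, by rw [hx2]; exact pow_ne_zero 2 hxv.1⟩
  have hlim : Lim Ψ.cl π₀ (p.roots.bind F) (p0.roots.map g).sum := by
    refine Lim.bind hroots F g fun κ hκ κ0 hκ0 hr => ?_
    obtain ⟨hq0, hqe, hqx⟩ := hk0 κ0 hκ0
    have hisl := π₀.isLocal
    have hrx : Rd π₀.V π₀.φ (xx κ) (xx0 κ0) := by
      refine Rd.div (hr.mul (hr.sub ((Rd.two.mul (ra im)).mul (ra B1)))) ?_ hqe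
      exact (Rd.two.mul ((ra G1).add (ra B1))).add ((Rd.two.mul (ra im)).mul hr)
    have hcq : ∀ j, Rd π₀.V π₀.φ ((X ^ 2 - C (xx κ) : (Om K)[X]).coeff j) ((X ^ 2 - C (xx0 κ0) : K[X]).coeff j) := by
      intro j
      rw [coeff_sub, coeff_sub, coeff_X_pow, coeff_X_pow, coeff_C, coeff_C]
      refine Rd.sub ?_ ?_
      · split_ifs
        · exact Rd.one
        · exact Rd.zero
      · split_ifs
        · exact hrx
        · exact Rd.zero
    have hrr := H67.KH.roots_rd (rc_sq_ne (xx0 κ0)) hcq ((rc_sq_deg _).trans (rc_sq_deg _).symm).le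
    refine Lim.rel hrr (f κ) (fun y => Ψ.cl (f0 κ0 y)) fun y hy y0 hy0 hyr => ?_
    have hy00 : y0 ≠ 0 := by
      rintro rfl
      have h1 : (X ^ 2 - C (xx0 κ0) : K[X]).eval 0 = 0 := (mem_roots (rc_sq_ne _)).1 hy0
      rw [eval_sub, eval_pow, eval_X, eval_C, zero_pow two_ne_zero, zero_sub, neg_eq_zero] at h1
      exact hqx h1
    refine Or.inl ⟨f0 κ0 y0, fun i => ?_, rfl⟩
    fin_cases i
    · exact ⟨fun r => ra (b1' r), hyr, hr.sub ((ra im).mul ((ra B1).add (hyr.pow 2)))⟩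
    · exact ⟨fun r => ra (b2' r), (ra W).div hyr hy00,
        (rcc.div hr hq0).sub ((ra im).mul ((ra B2).add (((ra W).div hyr hy00).pow 2)))⟩
  have hsum : (p0.roots.map g).sum = 2 • (Ψ.cl ![⟨b1', w1, d1⟩, ⟨b2', w2, d2⟩] + Ψ.cl ![⟨b1', v1, e1⟩, ⟨b2', v2, e2⟩]) := by
    have h1 : g k1 = 2 • Ψ.cl ![⟨b1', w1, d1⟩, ⟨b2', w2, d2⟩] := by
      rw [hg]
      show ((X ^ 2 - C (xx0 k1) : K[X]).roots.map fun y => Ψ.cl (f0 k1 y)).sum = _
      rw [hx1]
      exact rc_pair Ψ hI hP hQ hxP k10 hc0d hWd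
    have h2 : g l1 = 2 • Ψ.cl ![⟨b1', v1, e1⟩, ⟨b2', v2, e2⟩] := by
      rw [hg]
      show ((X ^ 2 - C (xx0 l1) : K[X]).roots.map fun y => Ψ.cl (f0 l1 y)).sum = _
      rw [hx2]
      exact rc_pair Ψ hI hP' hQ' hxv.1 l10 hc0 hw
    rw [hroots0]
    show (Multiset.map g (k1 ::ₘ {l1})).sum = _
    rw [Multiset.map_cons, Multiset.sum_cons, Multiset.map_singleton, Multiset.sum_singleton, h1, h2, smul_add]
  have hzero : (p0.roots.map g).sum = 0 := by
    refine Ψ.eq_zero (π := π₀) (π' := π₁) (S := p.roots.bind F) ?_ ?_ hlim ?_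
    · intro s hs i
      obtain ⟨κ, hκ, hs⟩ := Multiset.mem_bind.1 hs
      obtain ⟨y, hy, rfl⟩ := Multiset.mem_map.1 hs
      have hκ' : p.eval κ = 0 := (mem_roots hp_0).1 hκ
      obtain ⟨q1, q2, q3⟩ := qc_root him' hn1' hZ0' hgood hκ'
      have hy' : y ^ 2 = κ * (κ - 2 * a im * a B1) / (2 * (a G1 + a B1) + 2 * a im * κ) := by
        have h1 : (X ^ 2 - C (xx κ) : (Om K)[X]).eval y = 0 := (mem_roots (rc_sq_ne _)).1 hy
        rw [eval_sub, eval_pow, eval_X, eval_C] at h1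
        exact sub_eq_zero.1 h1
      fin_cases i
      · have h1 := rc_conic' (x := y ^ 2) him' (by rw [hy']; exact (div_mul_cancel₀ _ q3).symm)
        show (κ - a im * (a B1 + y ^ 2)) ^ 2 + y ^ 4 - 2 * a G1 * y ^ 2 + (a B1) ^ 2 = 0
        linear_combination h1
      · have hW2 : (a W) ^ 2 = a Z := by rw [hZd, map_pow]
        have h2 := rc_snd him' hW2 q1 q2 q3 hκ' hy'
        have h1 := rc_conic' (x := (a W / y) ^ 2) him' h2
        show (cc / κ - a im * (a B2 + (a W / y) ^ 2)) ^ 2 + (a W / y) ^ 4 - 2 * a G2 * (a W / y) ^ 2 + (a B2) ^ 2 = 0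
        linear_combination h1
    · intro σ
      have hσa : ∀ x : K, σ (a x) = a x := fun x => H67.KH.sigma_cst σ x
      have hσc : σ cc = cc := by rw [hccd, map_add, hσa, H67.KH.sigma_tt]
      have hσx : ∀ κ, σ (xx κ) = xx (σ κ) := by
        intro κ
        rw [hxx]
        simp only [map_div₀, map_mul, map_sub, map_add, map_ofNat, hσa]
      have hσp : p.map (σ : Om K →+* Om K) = p := by
        rw [hpd, qc_map]
        show qc (σ (a im)) (σ (a B1)) (σ (a G1)) (σ (a B2)) (σ (a G2)) (σ (a Z)) (σ cc) = _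
        rw [hσa, hσa, hσa, hσa, hσa, hσa, hσc]
      have hσr : p.roots.map σ = p.roots := by
        rw [H67.KH.roots_sigma, hσp]
      have hσf : ∀ κ y, gal σ (f κ y) = f (σ κ) (σ y) := by
        intro κ y
        funext i
        fin_cases i
        · refine Pt.ext ?_ rfl ?_
          · apply AlgHom.ext
            intro r
            exact H67.KH.sigma_cst σ (b1' r)
          · show σ (κ - a im * (a B1 + y ^ 2)) = σ κ - a im * (a B1 + σ y ^ 2)
            simp only [map_sub, map_mul, map_add, map_pow, hσa]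
        · refine Pt.ext ?_ ?_ ?_
          · apply AlgHom.ext
            intro r
            exact H67.KH.sigma_cst σ (b2' r)
          · show σ (a W / y) = a W / σ y
            rw [map_div₀, hσa]
          · show σ (cc / κ - a im * (a B2 + (a W / y) ^ 2)) = cc / σ κ - a im * (a B2 + (a W / σ y) ^ 2)
            simp only [map_sub, map_mul, map_add, map_pow, map_div₀, hσa, hσc]
      have hσq : ∀ κ, (X ^ 2 - C (xx κ) : (Om K)[X]).roots.map σ = (X ^ 2 - C (xx (σ κ)) : (Om K)[X]).roots := by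
        intro κ
        rw [H67.KH.roots_sigma, Polynomial.map_sub, Polynomial.map_pow, map_X, map_C, ← hσx]
        rfl
      have hσF : ∀ κ, (F κ).map (gal σ) = F (σ κ) := by
        intro κ
        rw [hF]
        show Multiset.map (gal σ) ((X ^ 2 - C (xx κ) : (Om K)[X]).roots.map (f κ)) =
          (X ^ 2 - C (xx (σ κ)) : (Om K)[X]).roots.map (f (σ κ))
        rw [Multiset.map_map, ← hσq κ, Multiset.map_map]
        exact Multiset.map_congr rfl fun y _ => hσf κ y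
      rw [Multiset.map_bind]
      have h1 : (p.roots.bind fun κ => (F κ).map (gal σ)) = p.roots.bind fun κ => F (σ κ) :=
        Multiset.bind_congr fun κ _ => hσF κ
      rw [h1, ← Multiset.bind_map, hσr]
    · intro s hs
      obtain ⟨κ, hκ, hs⟩ := Multiset.mem_bind.1 hs
      obtain ⟨y, hy, rfl⟩ := Multiset.mem_map.1 hs
      have hκ' : p.eval κ = 0 := (mem_roots hp_0).1 hκ
      obtain ⟨q1, q2, q3⟩ := qc_root him' hn1' hZ0' hgood hκ'
      by_contra hcon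
      push Not at hcon
      have i0 := hcon 0
      have i1 := hcon 1
      have va : ∀ x : K, a x ∈ π₁.V := fun x => (π₁.const x).choose
      have y0 : y ∈ π₁.V := i0.2.1
      have z0 : κ - a im * (a B1 + y ^ 2) ∈ π₁.V := i0.2.2
      have y1 : a W / y ∈ π₁.V := i1.2.1
      have z1 : cc / κ - a im * (a B2 + (a W / y) ^ 2) ∈ π₁.V := i1.2.2
      have u0 : κ ∈ π₁.V := by
        have h1 := π₁.V.add_mem _ _ z0 (π₁.V.mul_mem _ _ (va im) (π₁.V.add_mem _ _ (va B1) (pow_mem y0 2)))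
        rwa [sub_add_cancel] at h1
      have u1 : cc / κ ∈ π₁.V := by
        have h1 := π₁.V.add_mem _ _ z1 (π₁.V.mul_mem _ _ (va im) (π₁.V.add_mem _ _ (va B2) (pow_mem y1 2)))
        rwa [sub_add_cancel] at h1
      have u2 : cc ∈ π₁.V := by
        have h1 := π₁.V.mul_mem _ _ u1 u0
        rwa [div_mul_cancel₀ _ q1] at h1
      refine hinf ?_
      have h4 : tt K = cc - a c0 := by rw [hccd]; ring
      rw [h4]
      exact π₁.V.toSubring.sub_mem u2 (va c0)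
  rw [hsum] at hzero
  exact eq_neg_of_add_eq_zero_right (tf 2 _ two_ne_zero hzero)

theorem rec_rel {im : K} (him : im ^ 2 = -1) {be ga : A} (tf : TF G) (Φ : Fnl (OnT be ga) n G) (hI : Inv Φ)
    (s : Fin n → Pt K A K) (hs : ∀ i, OnT be ga (s i)) {a b : Fin n} (hab : a ≠ b) {P' Q' : Pt K A K}
    (hP' : OnT be ga P') (hQ' : OnT be ga Q') (hbP : P'.b = (s a).b) (hbQ : Q'.b = (s b).b)
    (hT : Ty ![(s a).b be, (s b).b be] ![(s a).b ga, (s b).b ga]) (hxP : (s a).x ≠ 0) (hxQ : (s b).x ≠ 0)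
    (hM : Bm ((s a).b be) ((s a).x ^ 2) (s a).y * Bm ((s b).b be) ((s b).x ^ 2) (s b).y =
      Bm (Q'.b be) (Q'.x ^ 2) Q'.y * Bm (P'.b be) (P'.x ^ 2) P'.y)
    (hw : (s a).x * (s b).x = P'.x * Q'.x) (hk : kap im be (s a) ≠ kap im be P') :
    Φ.cl (Function.update (Function.update s a P') b Q') = - Φ.cl s := by
  have he : Function.Injective ![a, b] := by
    intro x y hxy
    fin_cases x <;> fin_cases y <;> first | rfl | exact absurd hxy hab | exact absurd hxy.symm hab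
  obtain ⟨Ψ, hΨ⟩ := slots Φ s (fun j => OnT_cst' (hs j)) ![a, b] he
  have h1 := rec_two him tf Ψ (rc_inv hI s hab hΨ) (hs a) (hs b) hP' hQ' hbP hbQ hT hxP hxQ hM hw hk
  rw [hΨ, hΨ, rc_upd s hab, rc_upd s hab] at h1
  have h2 : Function.update (Function.update s a (![s a, s b] 0)) b (![s a, s b] 1) = s := by
    show Function.update (Function.update s a (s a)) b (s b) = s
    rw [Function.update_eq_self, Function.update_eq_self]
  rw [h2] at h1
  exact h1

end H19.ES
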