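import Pool.Agent.H19.ES.Gen
import Pool.Agent.H19.ES.Rec

/-! # ES.Sgn : the class of a recut chain (about 200 lines)

`Chn be ga P σ c` : `c` is a chain in the order `σ` with the same product of matrices and the same product of the `w` as `P`.
Induction over `KPath` (with the additional statement that the `κ`-coordinates of `c` are `w`, and for ALL permutations `ρ` of the slots: `Φ.cl (c ∘ ρ) = sign σ • Φ.cl (P ∘ σ ∘ ρ)`).  Step at `i, j = i + 1`: `c i`, `c j` are points of types `σ i`, `σ j` with coordinates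
`w i`, `w j`; `xk_of_con` : `(c i).x ^ 2 = xk .. (w i)`, `(c i).y = dk .. (w i)`.  `UU_rec` gives the points of the conics `x₁' = xk .. r1`, `δ₁' = dk .. r1` (type `σ i`) and `x₂', δ₂'` (type `σ j`), not `0`; choose `w₁'` with `w₁'² = x₁'` and put `w₂' = w_i w_j / w₁'`
(`w₂'² = x₂'` by `x₁'x₂' = x₁x₂`).  `P' = ⟨(c i).b, w₁', δ₁'⟩`, `Q' = ⟨(c j).b, w₂', δ₂'⟩`; new chain `c' = update (update c i Q') j P'`: `Mt` is the same by `Ch_recut`, the product of the `x` is the same.
CLASSES: by `rec_rel` for the tuple `s = c ∘ τ` and the slots `a = τ⁻¹ i`, `b = τ⁻¹ j` (any permutation `τ`): `Φ.cl ((update (update c i P') j Q') ∘ τ) = - Φ.cl (c ∘ τ)`, and `update (update c i P') j Q' = c' ∘ swap i j`.  With `τ = swap i j * ρ`: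
`Φ.cl (c' ∘ ρ) = - Φ.cl (c ∘ swap i j ∘ ρ) = - sign σ • Φ.cl (P ∘ σ ∘ swap i j ∘ ρ)`.  (`hk` of `rec_rel` is `UU.ne`.) -/

namespace H19.ES

open H68.BB

variable {K A : Type} [Field K] [IsAlgClosed K] [CharZero K] [CommRing A] [Algebra K A] {G : Type} [AddCommGroup G] {k : ℕ}

structure Chn (be ga : A) (P : Fin k → Pt K A K) (σ : Equiv.Perm (Fin k)) (c : Fin k → Pt K A K) : Prop where
  b : ∀ j, (c j).b = (P (σ j)).b
  on : ∀ j, OnT be ga (c j)
  x0 : ∀ j, (c j).x ≠ 0
  M : Mt be c = Mt be P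
  w : ∏ j, (c j).x = ∏ j, (P j).x

private theorem tinv1 (τ : Equiv.Perm (Fin k)) (l : Fin k) : τ (τ⁻¹ l) = l := τ.apply_symm_apply l

private theorem tinv2 (τ : Equiv.Perm (Fin k)) (l : Fin k) : τ⁻¹ (τ l) = l := τ.symm_apply_apply l

omit [IsAlgClosed K] [CharZero K] in
private theorem prod_two {f g : Fin k → K} {i j : Fin k} (hij : i ≠ j) (h : ∀ l, l ≠ i → l ≠ j → f l = g l)
    (h2 : f i * f j = g i * g j) : ∏ l, f l = ∏ l, g l := by
  classical
  have hi : i ∈ (Finset.univ : Finset (Fin k)) := Finset.mem_univ i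
  have hj : j ∈ (Finset.univ : Finset (Fin k)).erase i := Finset.mem_erase.2 ⟨hij.symm, Finset.mem_univ j⟩
  rw [← Finset.mul_prod_erase _ f hi, ← Finset.mul_prod_erase _ g hi, ← Finset.mul_prod_erase _ f hj,
    ← Finset.mul_prod_erase _ g hj, ← mul_assoc, ← mul_assoc, h2]
  congr 1
  refine Finset.prod_congr rfl fun l hl => ?_
  have h3 := Finset.mem_erase.1 hl
  exact h l (Finset.mem_erase.1 h3.2).1 h3.1

omit [IsAlgClosed K] [CharZero K] in
private theorem xk_ne {im b g r : K} (h : Okk im b g r) : xk im b g r ≠ 0 := by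
  unfold xk
  exact div_ne_zero (mul_ne_zero h.1 (sub_ne_zero.2 h.2.1)) h.2.2

omit [IsAlgClosed K] [CharZero K] in
private theorem kap_new {im : K} {be : A} {b : A →ₐ[K] K} {g r w1 : K} (h : w1 ^ 2 = xk im (b be) g r) :
    kap im be (⟨b, w1, dk im (b be) g r⟩ : Pt K A K) = r := by
  unfold kap
  simp only
  rw [h]
  unfold dk
  ring

theorem sgn_path {im : K} (him : im ^ 2 = -1) {be ga : A} (tf : TF G) (Φ : Fnl (OnT be ga) k G) (hI : Inv Φ)
    (P : Fin k → Pt K A K) (hP : ∀ i, OnT be ga (P i)) (hx : ∀ i, (P i).x ≠ 0)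
    (hT : Ty (fun i => (P i).b be) (fun i => (P i).b ga)) {σ : Equiv.Perm (Fin k)} {w : Fin k → K}
    (h : KPath im (fun i => (P i).b be) (fun i => (P i).b ga) (fun i => kap im be (P i)) σ w) :
    ∃ c, Chn be ga P σ c ∧ Φ.cl c = (Equiv.Perm.sign σ : ℤ) • Φ.cl (P ∘ σ) := by
  classical
  suffices key : ∃ c, Chn be ga P σ c ∧ (∀ l, kap im be (c l) = w l) ∧
      ∀ ρ : Equiv.Perm (Fin k), Φ.cl (c ∘ ρ) = (Equiv.Perm.sign σ : ℤ) • Φ.cl (P ∘ σ ∘ ρ) by
    obtain ⟨c, hc, -, h3⟩ := key
    exact ⟨c, hc, h3 1⟩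
  induction h with
  | refl =>
    refine ⟨P, ⟨fun _ => rfl, hP, hx, rfl, rfl⟩, fun _ => rfl, fun ρ => ?_⟩
    rw [Equiv.Perm.sign_one, Units.val_one, one_smul]
    rfl
  | @step σ w i j hij h hU ih =>
    obtain ⟨c, hc, hkap, hcl⟩ := ih
    have hne : i ≠ j := by
      intro h0
      rw [h0] at hij
      omega
    have hσ : σ i ≠ σ j := fun h0 => hne (σ.injective h0)
    have hTij : Ty ![(P (σ i)).b be, (P (σ j)).b be] ![(P (σ i)).b ga, (P (σ j)).b ga] := by
      refine ⟨fun l => ?_, fun l => ?_, fun l l' hl => ?_⟩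
      · fin_cases l
        · exact hT.be0 (σ i)
        · exact hT.be0 (σ j)
      · fin_cases l
        · exact hT.ns (σ i)
        · exact hT.ns (σ j)
      · fin_cases l <;> fin_cases l'
        · exact absurd rfl hl
        · exact hT.co _ _ hσ
        · exact hT.co _ _ hσ.symm
        · exact absurd rfl hl
    have hbi := hc.b i
    have hbj := hc.b j
    have hci : Con ((P (σ i)).b be) ((P (σ i)).b ga) ((c i).x ^ 2) (c i).y := by
      rw [← hbi]
      exact OnT_iff.1 (hc.on i)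
    have hcj : Con ((P (σ j)).b be) ((P (σ j)).b ga) ((c j).x ^ 2) (c j).y := by
      rw [← hbj]
      exact OnT_iff.1 (hc.on j)
    have hki : (c i).y + im * ((P (σ i)).b be + (c i).x ^ 2) = w i := by
      rw [← hbi]
      exact hkap i
    have hkj : (c j).y + im * ((P (σ j)).b be + (c j).x ^ 2) = w j := by
      rw [← hbj]
      exact hkap j
    obtain ⟨-, hxi, hdi⟩ := xk_of_con him (hT.ns (σ i)) hci (pow_ne_zero 2 (hc.x0 i))
    obtain ⟨-, hxj, hdj⟩ := xk_of_con him (hT.ns (σ j)) hcj (pow_ne_zero 2 (hc.x0 j))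
    rw [hki] at hxi hdi
    rw [hkj] at hxj hdj
    obtain ⟨ok1, ok2, hX, hM⟩ := UU_rec him hTij hU
    rw [hxi, hxj] at hX
    rw [hxi, hdi, hxj, hdj] at hM
    generalize hR1 : r1 im ((P (σ i)).b be) ((P (σ i)).b ga) ((P (σ j)).b be) ((P (σ j)).b ga) (w i) (w j) = R1 at *
    generalize hR2 : r2 im ((P (σ i)).b be) ((P (σ i)).b ga) ((P (σ j)).b be) ((P (σ j)).b ga) (w i) (w j) = R2 at *
    obtain ⟨w1, hw1⟩ := IsAlgClosed.exists_pow_nat_eq (xk im ((P (σ i)).b be) ((P (σ i)).b ga) R1) (n := 2) (by norm_num)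
    have hw10 : w1 ≠ 0 := by
      rintro rfl
      exact xk_ne ok1 (by rw [← hw1]; ring)
    obtain ⟨w2, hw2⟩ : ∃ w2, w2 = (c i).x * (c j).x / w1 := ⟨_, rfl⟩
    have hww : w1 * w2 = (c i).x * (c j).x := by
      rw [hw2]
      exact mul_div_cancel₀ _ hw10
    have hw20 : w2 ≠ 0 := by
      rintro rfl
      rw [mul_zero] at hww
      exact mul_ne_zero (hc.x0 i) (hc.x0 j) hww.symm
    have hw2' : w2 ^ 2 = xk im ((P (σ j)).b be) ((P (σ j)).b ga) R2 := by
      apply mul_left_cancel₀ (pow_ne_zero 2 hw10)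
      rw [← mul_pow, hww, hw1, hX]
      ring
    set P' : Pt K A K := ⟨(P (σ i)).b, w1, dk im ((P (σ i)).b be) ((P (σ i)).b ga) R1⟩ with hP'
    set Q' : Pt K A K := ⟨(P (σ j)).b, w2, dk im ((P (σ j)).b be) ((P (σ j)).b ga) R2⟩ with hQ'
    have onP' : OnT be ga P' := by
      apply OnT_iff.2
      change Con ((P (σ i)).b be) ((P (σ i)).b ga) (w1 ^ 2) (dk im ((P (σ i)).b be) ((P (σ i)).b ga) R1)
      rw [hw1]
      exact con_xk him ok1.2.2
    have onQ' : OnT be ga Q' := by
      apply OnT_iff.2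
      change Con ((P (σ j)).b be) ((P (σ j)).b ga) (w2 ^ 2) (dk im ((P (σ j)).b be) ((P (σ j)).b ga) R2)
      rw [hw2']
      exact con_xk him ok2.2.2
    have hkP : kap im be P' = R1 := kap_new hw1
    have hkQ : kap im be Q' = R2 := kap_new hw2'
    have hMM : Bm ((c i).b be) ((c i).x ^ 2) (c i).y * Bm ((c j).b be) ((c j).x ^ 2) (c j).y =
        Bm (Q'.b be) (Q'.x ^ 2) Q'.y * Bm (P'.b be) (P'.x ^ 2) P'.y := by
      rw [hbi, hbj]
      change _ = Bm ((P (σ j)).b be) (w2 ^ 2) (dk im ((P (σ j)).b be) ((P (σ j)).b ga) R2) *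
        Bm ((P (σ i)).b be) (w1 ^ 2) (dk im ((P (σ i)).b be) ((P (σ i)).b ga) R1)
      rw [hw1, hw2']
      exact hM
    set c' : Fin k → Pt K A K := Function.update (Function.update c i Q') j P' with hc'
    have e1 : c' j = P' := Function.update_self _ _ _
    have e2 : c' i = Q' := by
      rw [hc', Function.update_of_ne hne, Function.update_self]
    have e3 : ∀ l, l ≠ i → l ≠ j → c' l = c l := by
      intro l h1 h2
      rw [hc', Function.update_of_ne h2, Function.update_of_ne h1]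
    have hcases : ∀ l : Fin k, l = i ∨ l = j ∨ (l ≠ i ∧ l ≠ j) := by
      intro l
      by_cases h1 : l = i
      · exact Or.inl h1
      · by_cases h2 : l = j
        · exact Or.inr (Or.inl h2)
        · exact Or.inr (Or.inr ⟨h1, h2⟩)
    refine ⟨c', ⟨?_, ?_, ?_, ?_, ?_⟩, ?_, ?_⟩
    · intro l
      rcases hcases l with rfl | rfl | ⟨h1, h2⟩
      · rw [e2, Equiv.Perm.mul_apply, Equiv.swap_apply_left]
      · rw [e1, Equiv.Perm.mul_apply, Equiv.swap_apply_right]
      · rw [e3 l h1 h2, Equiv.Perm.mul_apply, Equiv.swap_apply_of_ne_of_ne h1 h2]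
        exact hc.b l
    · intro l
      rcases hcases l with rfl | rfl | ⟨h1, h2⟩
      · rw [e2]
        exact onQ'
      · rw [e1]
        exact onP'
      · rw [e3 l h1 h2]
        exact hc.on l
    · intro l
      rcases hcases l with rfl | rfl | ⟨h1, h2⟩
      · rw [e2]
        exact hw20
      · rw [e1]
        exact hw10
      · rw [e3 l h1 h2]
        exact hc.x0 l
    · rw [← hc.M]
      symm
      unfold Mt
      refine Ch_recut hij ?_ ?_
      · intro l h1 h2
        rw [e3 l h1 h2]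
        exact ⟨rfl, rfl, rfl⟩
      · simp only [e1, e2]
        exact hMM
    · rw [← hc.w]
      refine prod_two hne ?_ ?_
      · intro l h1 h2
        rw [e3 l h1 h2]
      · rw [e1, e2, ← hww]
        exact mul_comm w2 w1
    · intro l
      rcases hcases l with rfl | rfl | ⟨h1, h2⟩
      · rw [e2, Function.update_of_ne hne, Function.update_self]
        exact hkQ
      · rw [e1, Function.update_self]
        exact hkP
      · rw [e3 l h1 h2, Function.update_of_ne h2, Function.update_of_ne h1]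
        exact hkap l
    · intro ρ
      set τ : Equiv.Perm (Fin k) := Equiv.swap i j * ρ with hτ
      have t1 : ∀ l, τ l = Equiv.swap i j (ρ l) := fun l => rfl
      have ea : (c ∘ τ) (τ⁻¹ i) = c i := by
        change c (τ (τ⁻¹ i)) = c i
        rw [tinv1 τ]
      have eb : (c ∘ τ) (τ⁻¹ j) = c j := by
        change c (τ (τ⁻¹ j)) = c j
        rw [tinv1 τ]
      have hab : τ⁻¹ i ≠ τ⁻¹ j := fun h0 => hne (τ⁻¹.injective h0)
      have hrel := rec_rel him tf Φ hI (c ∘ τ) (fun l => hc.on (τ l)) hab (P' := P') (Q' := Q') onP' onQ'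
        (by rw [ea, hbi]) (by rw [eb, hbj]) (by rw [ea, eb, hbi, hbj]; exact hTij)
        (by rw [ea]; exact hc.x0 i) (by rw [eb]; exact hc.x0 j) (by rw [ea, eb]; exact hMM)
        (by rw [ea, eb]; exact hww.symm) (by rw [ea, hkap i, hkP]; rw [← hR1]; exact hU.ne)
      have hupd : Function.update (Function.update (c ∘ τ) (τ⁻¹ i) P') (τ⁻¹ j) Q' = c' ∘ ρ := by
        funext l
        rcases hcases (ρ l) with h1 | h1 | ⟨h1, h2⟩
        · have h3 : τ l = j := by rw [t1, h1, Equiv.swap_apply_left]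
          have h4 : l = τ⁻¹ j := by rw [← h3, tinv2 τ]
          rw [h4, Function.update_self, ← h4]
          change Q' = c' (ρ l)
          rw [h1, e2]
        · have h3 : τ l = i := by rw [t1, h1, Equiv.swap_apply_right]
          have h4 : l = τ⁻¹ i := by rw [← h3, tinv2 τ]
          rw [h4, Function.update_of_ne hab, Function.update_self, ← h4]
          change P' = c' (ρ l)
          rw [h1, e1]
        · have h3 : τ l = ρ l := by rw [t1, Equiv.swap_apply_of_ne_of_ne h1 h2]
          have h4 : l ≠ τ⁻¹ i := by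
            intro h0
            apply h1
            rw [← h3, h0, tinv1 τ]
          have h5 : l ≠ τ⁻¹ j := by
            intro h0
            apply h2
            rw [← h3, h0, tinv1 τ]
          rw [Function.update_of_ne h5, Function.update_of_ne h4]
          change c (τ l) = c' (ρ l)
          rw [h3, e3 _ h1 h2]
      rw [← hupd, hrel, hcl τ, Equiv.Perm.sign_mul, Equiv.Perm.sign_swap hne]
      rw [mul_neg, mul_one, Units.val_neg, neg_smul]
      rfl

end H19.ES
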