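import Pool.Agent.H19.ES.Slot
import Pool.Agent.H67.KH.Roots
import Pool.Agent.H71.K3.PlInf

/-! # ES.Neg : the class of `(−w, δ)` is minus the class of `(w, δ)` (about 120 lines)

Reduce to one slot: `slots` with `e : Fin 1 → Fin n`, `e 0 = i` (`Function.extend e (fun _ => P) s = Function.update s i P`).  One slot: let `P = (b, w₀, δ₀)` be on `T`.
Over `Ω` put `w = w₀ + tt`, `c = w⁴ - 2 γ w² + β²`; the roots of `Y² + c` (monic, two roots in `Om K`, `IsAlgClosed`) give the multiset of points `(b, w, root)`, on `T`, Galois-stable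
(`roots_sigma`, `sigma_tt`).  At `π₀` with `tt ↦ 0` (`place_exists K 0`) the roots reduce (`roots_rd`) to the roots of `Y² + c₀ = (Y - δ₀)(Y + δ₀)`, i.e. `{δ₀, -δ₀}` (as a multiset), so the limit is
`cl (w₀, δ₀) + cl (w₀, -δ₀)` (`Lim.rel`).  At the place with `tt ∉ V` (`H71.K3.place_inf`) `w ∉ V`: dropped.  Hence `cl (w₀, -δ₀) = - cl (w₀, δ₀)` (`Fnl.eq_zero`), and `(−w₀, δ₀)` is
`neg2` of `(w₀, -δ₀)`: use `hI` (`neg1 P = neg2 ⟨P.b, P.x, -P.y⟩`, apply `hI` to the tuple `update s i ⟨P.b, P.x, -P.y⟩`). -/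

namespace H19.ES

open H68.BB Polynomial

variable {K A : Type} [Field K] [IsAlgClosed K] [CharZero K] [CommRing A] [Algebra K A] {G : Type} [AddCommGroup G] {n : ℕ}

omit [IsAlgClosed K] [CharZero K] in
private theorem ng_upd (s : Fin n → Pt K A K) (i : Fin n) (P : Pt K A K) :
    Function.extend (fun _ : Fin 1 => i) (fun _ => P) s = Function.update s i P := by
  have he : Function.Injective (fun _ : Fin 1 => i) := fun a b _ => Subsingleton.elim a b
  funext j
  by_cases hj : j = i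
  · rw [hj, Function.update_self]
    exact he.extend_apply (fun _ => P) s 0
  · rw [Function.update_of_ne hj, Function.extend_apply' _ _ _ fun h => hj (by obtain ⟨_, h'⟩ := h; exact h'.symm)]

omit [IsAlgClosed K] [CharZero K] in
private theorem ng_natDegree {F : Type} [Field F] (c : F) : (X ^ 2 + C c : F[X]).natDegree = 2 :=
  natDegree_X_pow_add_C

private theorem ng_one {be ga : A} (Ψ : Fnl (OnT be ga) 1 G) {P : Pt K A K} (hP : OnT be ga P) :
    Ψ.cl (fun _ => P) + Ψ.cl (fun _ => ⟨P.b, P.x, -P.y⟩) = 0 := by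
  classical
  obtain ⟨π₀, h0, h0'⟩ := place_exists K 0
  obtain ⟨π₁, h1⟩ := H71.K3.place_inf K
  have ht : Rd π₀.V π₀.φ (tt K) 0 := ⟨h0, h0'⟩
  set w : Om K := algebraMap K (Om K) P.x + tt K with hw
  set be' : Om K := algebraMap K (Om K) (P.b be) with hbe
  set ga' : Om K := algebraMap K (Om K) (P.b ga) with hga
  set c : Om K := w ^ 4 - 2 * ga' * w ^ 2 + be' ^ 2 with hc
  set c0 : K := P.x ^ 4 - 2 * P.b ga * P.x ^ 2 + P.b be ^ 2 with hc0
  have hrw : Rd π₀.V π₀.φ w P.x := by
    have hcx : Rd π₀.V π₀.φ (algebraMap K (Om K) P.x) P.x := π₀.const P.x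
    have h := hcx.add ht
    rwa [add_zero] at h
  have hrc : Rd π₀.V π₀.φ c c0 := by
    have hg : Rd π₀.V π₀.φ ga' (P.b ga) := π₀.const _
    have hb : Rd π₀.V π₀.φ be' (P.b be) := π₀.const _
    exact ((hrw.pow 4).sub ((Rd.two.mul hg).mul (hrw.pow 2))).add (hb.pow 2)
  let f : Om K → Fin 1 → Pt K A (Om K) := fun y _ => ⟨(cst' P).b, w, y⟩
  let g : K → G := fun y => Ψ.cl fun _ => ⟨P.b, P.x, y⟩
  set p : (Om K)[X] := X ^ 2 + C c with hp
  set p0 : K[X] := X ^ 2 + C c0 with hp0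
  have hpd : p.natDegree = 2 := ng_natDegree c
  have hp0d : p0.natDegree = 2 := ng_natDegree c0
  have hp00 : p0 ≠ 0 := by
    intro h
    rw [h, natDegree_zero] at hp0d
    exact absurd hp0d (by norm_num)
  have hp_0 : p ≠ 0 := by
    intro h
    rw [h, natDegree_zero] at hpd
    exact absurd hpd (by norm_num)
  have hcoef : ∀ i, Rd π₀.V π₀.φ (p.coeff i) (p0.coeff i) := by
    intro i
    rw [hp, hp0, coeff_add, coeff_add, coeff_X_pow, coeff_X_pow, coeff_C, coeff_C]
    refine Rd.add ?_ ?_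
    · split_ifs
      · exact Rd.one
      · exact Rd.zero
    · split_ifs
      · exact hrc
      · exact Rd.zero
  have hroots := H67.KH.roots_rd hp00 hcoef (hpd.trans hp0d.symm).le
  have hlim : Lim Ψ.cl π₀ (p.roots.map f) (p0.roots.map g).sum := by
    refine Lim.rel hroots f g fun y _ y0 _ hy => ?_
    refine Or.inl ⟨fun _ => ⟨P.b, P.x, y0⟩, fun _ => ⟨fun r => π₀.const _, hrw, hy⟩, rfl⟩
  have hfac : p0 = (X - C P.y) * (X - C (-P.y)) := by
    have h2 : c0 = -(P.y ^ 2) := by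
      have h3 : P.y ^ 2 + P.x ^ 4 - 2 * P.b ga * P.x ^ 2 + P.b be ^ 2 = 0 := hP
      rw [hc0]
      linear_combination h3
    rw [hp0, h2, C_neg, C_neg, C_pow]
    ring
  have hr0 : p0.roots = {P.y} + {-P.y} := by
    rw [hfac, roots_mul (by rw [← hfac]; exact hp00), roots_X_sub_C, roots_X_sub_C]
  have hsum : (p0.roots.map g).sum = Ψ.cl (fun _ => P) + Ψ.cl (fun _ => ⟨P.b, P.x, -P.y⟩) := by
    rw [hr0, Multiset.map_add, Multiset.sum_add, Multiset.map_singleton, Multiset.map_singleton,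
      Multiset.sum_singleton, Multiset.sum_singleton]
  rw [← hsum]
  refine Ψ.eq_zero (π := π₀) (π' := π₁) (S := p.roots.map f) ?_ ?_ hlim ?_
  · intro s hs i
    obtain ⟨y, hy, rfl⟩ := Multiset.mem_map.1 hs
    have h2 : p.eval y = 0 := (mem_roots hp_0).1 hy
    rw [hp, eval_add, eval_pow, eval_X, eval_C] at h2
    show y ^ 2 + w ^ 4 - 2 * ga' * w ^ 2 + be' ^ 2 = 0
    rw [hc] at h2
    linear_combination h2
  · intro σ
    have hσw : σ w = w := by
      rw [hw, map_add, H67.KH.sigma_cst, H67.KH.sigma_tt]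
    have hσc : σ c = c := by
      rw [hc]
      simp only [map_add, map_sub, map_mul, map_pow, map_ofNat, hσw, hbe, hga, H67.KH.sigma_cst]
    have hσp : p.map (σ : Om K →+* Om K) = p := by
      rw [hp, Polynomial.map_add, Polynomial.map_pow, map_X, map_C]
      congr 2
    have hσr : p.roots.map σ = p.roots := by
      rw [H67.KH.roots_sigma, hσp]
    rw [Multiset.map_map]
    have h2 : Multiset.map (gal σ ∘ f) p.roots = Multiset.map (f ∘ σ) p.roots := by
      refine Multiset.map_congr rfl fun y _ => ?_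
      funext i
      refine Pt.ext ?_ ?_ ?_
      · apply AlgHom.ext
        intro r
        exact H67.KH.sigma_cst σ (P.b r)
      · exact hσw
      · rfl
    rw [h2, ← Multiset.map_map, hσr]
  · intro s hs
    obtain ⟨y, _, rfl⟩ := Multiset.mem_map.1 hs
    refine ⟨0, fun h => h1 ?_⟩
    have h2 : w ∈ π₁.V := h.2.1
    have h3 : algebraMap K (Om K) P.x ∈ π₁.V := (π₁.const P.x).choose
    have h4 : tt K = w - algebraMap K (Om K) P.x := by rw [hw]; ring
    rw [h4]
    exact π₁.V.toSubring.sub_mem h2 h3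

theorem neg_cl {be ga : A} (Φ : Fnl (OnT be ga) n G) (hI : Inv Φ) (s : Fin n → Pt K A K)
    (hs : ∀ i, OnT be ga (s i)) (i : Fin n) : Φ.cl (Function.update s i (neg1 (s i))) = - Φ.cl s := by
  have he : Function.Injective (fun _ : Fin 1 => i) := fun a b _ => Subsingleton.elim a b
  obtain ⟨Ψ, hΨ⟩ := slots Φ s (fun j => OnT_cst' (hs j)) (fun _ : Fin 1 => i) he
  have h1 := ng_one Ψ (hs i)
  rw [hΨ, hΨ, ng_upd, ng_upd, Function.update_eq_self] at h1
  have h2 := hI (Function.update s i ⟨(s i).b, (s i).x, -(s i).y⟩) i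
  rw [Function.update_self, Function.update_idem] at h2
  have h3 : neg2 (⟨(s i).b, (s i).x, -(s i).y⟩ : Pt K A K) = neg1 (s i) := by
    unfold neg2 neg1
    rw [neg_neg]
  rw [h3] at h2
  rw [h2]
  exact eq_neg_of_add_eq_zero_right h1

end H19.ES
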