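import Pool.Agent.H19.ES.SolDef
import Pool.Agent.H19.ES.Uniq
import Pool.Agent.H19.ES.Neg

/-! # ES.Sol2 : uniqueness, signs and Galois action for chains over `Ω` (about 200 lines)

`sol_gal`: `gal σ s` has base points `σ ∘ bt (ρ j) = bt (ρ' (ρ j))`; `OnT` and `Mt` are mapped by `σ` (`Ch_map`).  `sol_signs`: `uniq` for the types `(s j).b be`, `(s j).b ga` (`Ty` after a permutation): `(s j).x ^ 2 = (s' j).x ^ 2`, `(s j).y = (s' j).y`; so `(s' j).x = ε_j (s j).x`, and `∏ ε_j = 1` because both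
products are `wt ≠ 0`.  `sol_sg`: squares do not change.  `cl_sg`: one sign at a time by `neg_cl` (induction over the number of `j` with `ε j = -1`, or `Finset.induction` over the set of slots where the sign is applied); `Int.units_eq_one_or`. -/

namespace H19.ES

open H68.BB Polynomial

variable {K A : Type} [Field K] [IsAlgClosed K] [CharZero K] [CommRing A] [Algebra K A] {k : ℕ} {be ga : A}
  {bt : Fin k → (A →ₐ[K] Om K)} {M : Matrix (Fin 2) (Fin 2) (Om K)[X]} {wt : Om K} {s s' : Fin k → Pt K A (Om K)}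

theorem Sol.x0 (h : Sol be ga bt M wt s) (hwt : wt ≠ 0) (j : Fin k) : (s j).x ≠ 0 := by
  have h1 := h.w
  rw [← h1] at hwt
  exact (Finset.prod_ne_zero_iff.1 hwt) j (Finset.mem_univ j)

omit [IsAlgClosed K] [CharZero K] in
private theorem sol2_Mt_gal (σ : Om K ≃ₐ[RatFunc K] Om K) (s : Fin k → Pt K A (Om K)) :
    Mt be (gal σ s) = (Mt be s).map (mapRingHom (σ : Om K →+* Om K)) := by
  unfold Mt
  rw [Ch_map]
  congr 1
  funext i
  simp [gal, Pt.map]

theorem sol_gal (h : Sol be ga bt M wt s) (σ : Om K ≃ₐ[RatFunc K] Om K)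
    (hb : ∃ ρ : Equiv.Perm (Fin k), ∀ i, (σ.toAlgHom.restrictScalars K).comp (bt i) = bt (ρ i))
    (hM : M.map (mapRingHom (σ : Om K →+* Om K)) = M) (hw : σ wt = wt) : Sol be ga bt M wt (gal σ s) := by
  obtain ⟨ρ, hρ⟩ := hb
  obtain ⟨ρ', hρ'⟩ := h.b
  refine ⟨⟨ρ * ρ', fun j => ?_⟩, fun j => ?_, ?_, ?_⟩
  · have h1 : (gal σ s j).b = (σ.toAlgHom.restrictScalars K).comp (s j).b := rfl
    rw [h1, hρ' j, hρ (ρ' j), Equiv.Perm.mul_apply]
  · have h1 := congrArg (σ : Om K → Om K) (h.on j)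
    simp only [map_add, map_sub, map_mul, map_pow, map_zero, map_ofNat] at h1
    exact h1
  · rw [sol2_Mt_gal, h.M, hM]
  · have h1 : ∀ j, (gal σ s j).x = σ (s j).x := fun j => rfl
    simp only [h1]
    rw [← map_prod, h.w, hw]

private theorem sol2_cast_sq {F : Type} [Field F] (e : ℤˣ) : ((((e : ℤˣ) : ℤ) : F)) ^ 2 = 1 := by
  rcases Int.units_eq_one_or e with rfl | rfl <;> simp

theorem sol_signs (hT : Ty (fun i => bt i be) (fun i => bt i ga)) (hwt : wt ≠ 0) (h : Sol be ga bt M wt s)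
    (h' : Sol be ga bt M wt s') (hb : ∀ j, (s j).b = (s' j).b) : ∃ ε : Fin k → ℤˣ, ∏ j, ε j = 1 ∧ s' = sg ε s := by
  classical
  obtain ⟨ρ, hρ⟩ := h.b
  have hT' : Ty (fun j => (s j).b be) (fun j => (s j).b ga) := by
    refine ⟨fun i => ?_, fun i => ?_, fun i j hij => ?_⟩
    · simp only [hρ i]
      exact hT.be0 (ρ i)
    · simp only [hρ i]
      exact hT.ns (ρ i)
    · simp only [hρ i, hρ j]
      exact hT.co (ρ i) (ρ j) (fun he => hij (ρ.injective he))
  have hM : Ch (fun i => (s i).b be) (fun i => (s i).x ^ 2) (fun i => (s i).y) =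
      Ch (fun i => (s i).b be) (fun i => (s' i).x ^ 2) (fun i => (s' i).y) := by
    have h1 : Mt be s = Mt be s' := by rw [h.M, h'.M]
    have h2 : Mt be s' = Ch (fun i => (s i).b be) (fun i => (s' i).x ^ 2) (fun i => (s' i).y) := by
      unfold Mt
      congr 1
      funext i
      rw [hb i]
    rw [← h2, ← h1]
    rfl
  have hc : ∀ i, Con ((s i).b be) ((s i).b ga) ((s i).x ^ 2) ((s i).y) := fun i => OnT_iff.1 (h.on i)
  have hc' : ∀ i, Con ((s i).b be) ((s i).b ga) ((s' i).x ^ 2) ((s' i).y) := fun i => by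
    have h1 := OnT_iff.1 (h'.on i)
    rw [← hb i] at h1
    exact h1
  obtain ⟨hx, hy⟩ := uniq hT' hc hc' (fun i => pow_ne_zero 2 (h.x0 hwt i)) (fun i => pow_ne_zero 2 (h'.x0 hwt i)) hM
  have hx1 : ∀ i, (s i).x ^ 2 = (s' i).x ^ 2 := fun i => congrFun hx i
  have hy1 : ∀ i, (s i).y = (s' i).y := fun i => congrFun hy i
  have hex : ∀ i, ∃ e : ℤˣ, (s' i).x = (((e : ℤˣ) : ℤ) : Om K) * (s i).x := by
    intro i
    rcases sq_eq_sq_iff_eq_or_eq_neg.1 (hx1 i).symm with h1 | h1
    · exact ⟨1, by rw [h1]; simp⟩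
    · exact ⟨-1, by rw [h1]; simp⟩
  choose ε hε using hex
  refine ⟨ε, ?_, ?_⟩
  · have h1 : (((∏ j, ε j : ℤˣ) : ℤ) : Om K) * wt = wt := by
      conv_rhs => rw [← h'.w]
      rw [← h.w]
      simp only [hε]
      rw [Finset.prod_mul_distrib]
      congr 1
      rw [Units.coe_prod, Int.cast_prod]
    have h2 : (((∏ j, ε j : ℤˣ) : ℤ) : Om K) = 1 := mul_right_cancel₀ hwt (by rw [h1, one_mul])
    have h3 : ((∏ j, ε j : ℤˣ) : ℤ) = 1 := by exact_mod_cast h2
    exact Units.ext h3
  · funext i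
    apply Pt.ext
    · exact (hb i).symm
    · exact hε i
    · exact (hy1 i).symm

theorem sg_inj {ε ε' : Fin k → ℤˣ} (hx : ∀ j, (s j).x ≠ 0) (h : sg ε s = sg ε' s) : ε = ε' := by
  funext j
  have h1 : (((ε j : ℤˣ) : ℤ) : Om K) * (s j).x = (((ε' j : ℤˣ) : ℤ) : Om K) * (s j).x :=
    congrArg Pt.x (congrFun h j)
  have h2 := mul_right_cancel₀ (hx j) h1
  have h3 : ((ε j : ℤˣ) : ℤ) = ((ε' j : ℤˣ) : ℤ) := by exact_mod_cast h2
  exact Units.ext h3

theorem sol_sg (h : Sol be ga bt M wt s) {ε : Fin k → ℤˣ} (hε : ∏ j, ε j = 1) : Sol be ga bt M wt (sg ε s) := by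
  have hsq : ∀ j, (sg ε s j).x ^ 2 = (s j).x ^ 2 := fun j => by
    change ((((ε j : ℤˣ) : ℤ) : Om K) * (s j).x) ^ 2 = (s j).x ^ 2
    rw [mul_pow, sol2_cast_sq, one_mul]
  refine ⟨h.b, fun j => ?_, ?_, ?_⟩
  · rw [OnT_iff, hsq]
    exact OnT_iff.1 (h.on j)
  · rw [← h.M]
    unfold Mt
    congr 1
    funext i
    exact hsq i
  · have h1 : ∀ j, (sg ε s j).x = (((ε j : ℤˣ) : ℤ) : Om K) * (s j).x := fun j => rfl
    simp only [h1]
    rw [Finset.prod_mul_distrib, h.w]
    have h2 : (∏ j, (((ε j : ℤˣ) : ℤ) : Om K)) = (((∏ j, ε j : ℤˣ) : ℤ) : Om K) := by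
      rw [Units.coe_prod, Int.cast_prod]
    rw [h2, hε]
    simp

theorem Sp_sg {π : Place K (Om K)} {c : Fin k → Pt K A K} (h : ∀ j, Sp π (s j) (c j)) (ε : Fin k → ℤˣ) (j : Fin k) :
    Sp π (sg ε s j) (sg ε c j) := by
  refine ⟨(h j).1, ?_, (h j).2.2⟩
  change Rd π.V π.φ ((((ε j : ℤˣ) : ℤ) : Om K) * (s j).x) ((((ε j : ℤˣ) : ℤ) : K) * (c j).x)
  rcases Int.units_eq_one_or (ε j) with h1 | h1
  · rw [h1]
    simpa using (h j).2.1
  · rw [h1]
    simpa using (h j).2.1.neg

theorem cl_sg {G : Type} [AddCommGroup G] (Φ : Fnl (OnT be ga) k G) (hI : Inv Φ) {c : Fin k → Pt K A K}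
    (hc : ∀ j, OnT be ga (c j)) (ε : Fin k → ℤˣ) : Φ.cl (sg ε c) = ((∏ j, ε j : ℤˣ) : ℤ) • Φ.cl c := by
  classical
  have key : ∀ T : Finset (Fin k), Φ.cl (sg (fun j => if j ∈ T then ε j else 1) c) =
      ((∏ j ∈ T, ε j : ℤˣ) : ℤ) • Φ.cl c := by
    intro T
    induction T using Finset.induction_on with
    | empty =>
      have h1 : sg (fun j => if j ∈ (∅ : Finset (Fin k)) then ε j else 1) c = c := by
        funext j
        apply Pt.ext
        · rfl
        · simp [sg]
        · rfl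
      rw [h1]
      simp
    | insert a T ha ih =>
      rw [Finset.prod_insert ha]
      rcases Int.units_eq_one_or (ε a) with h1 | h1
      · have h2 : (fun j => if j ∈ insert a T then ε j else 1) = (fun j => if j ∈ T then ε j else 1) := by
          funext j
          by_cases hj : j = a
          · subst hj
            simp [ha, h1]
          · simp [hj]
        rw [h2, ih, h1, one_mul]
      · have h2 : sg (fun j => if j ∈ insert a T then ε j else 1) c =
            Function.update (sg (fun j => if j ∈ T then ε j else 1) c) a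
              (neg1 (sg (fun j => if j ∈ T then ε j else 1) c a)) := by
          funext j
          by_cases hj : j = a
          · subst hj
            rw [Function.update_self]
            apply Pt.ext
            · rfl
            · simp [sg, neg1, ha, h1]
            · rfl
          · rw [Function.update_of_ne hj]
            apply Pt.ext
            · rfl
            · simp [sg, hj]
            · rfl
        rw [h2, neg_cl Φ hI _ (fun i => ?_) a, ih, h1]
        · simp
        · have hon := hc i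
          rw [OnT_iff] at hon ⊢
          have h3 : (sg (fun j => if j ∈ T then ε j else 1) c i).x ^ 2 = (c i).x ^ 2 := by
            change ((((if i ∈ T then ε i else 1 : ℤˣ) : ℤ) : K) * (c i).x) ^ 2 = (c i).x ^ 2
            rw [mul_pow, sol2_cast_sq, one_mul]
          rw [h3]
          exact hon
  have h1 := key Finset.univ
  simpa using h1

end H19.ES
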