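import Pool.Agent.H19.ES.Bad
import Pool.Agent.H19.ES.SylP
import Pool.Agent.H19.ES.ET
import Pool.Agent.H19.ES.DD
import Pool.Agent.H19.ES.Frm
import Pool.Agent.H19.ES.Kr
import Pool.Agent.H19.ES.Pl

/-! # ES.Mov : families of `k` points of the curve with many parameters and bounded degree (about 300 lines)

`b : Fin k → (A → K)`, the values `t(b_i)` distinct and not in the exceptional set of `bad`, which gives all `m` points of the fibres; `b_i` is one of them (`all_hom`): a `Fbr` `Z` with `Z.b i = b i`.  `StB f s0`; `be`, `ga` have coordinates of degree `≤ e0`, `s := e0 + s0`, `E := s * m` (or `2E ≥ s m`), `k ≥ k1 := m s0 + E + 1` (these depend only on `m, s0, e0`).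
`h : Fin (E+1) → A` from `hsp` (with `s0`, `e = E + 1`), `v` from `exists_dual`.
`N := det Syl` over `R = (MvPolynomial (Fin (E+1)) K)[X][X]`, `u_l = C (C (X_l))`, `τ = C X`, `c1 = X² + 1`, `c2 = -2 X`, `g1 = be`, `g2 = ga` (`c1 be(b) + c2 ga(b) = ff (be b) (ga b)`).  `dT`: `syl_deg` with the roles of the variables exchanged (ring isomorphism of `R[τ][λ]` and `R[λ][τ]`, e.g. show that all
coefficients have bounded degree directly from the determinant: entries in the first `s m` columns have coefficients of `τ`-degree `≤ 1`, in the last `k` columns `0`).  `u0`, `t0`: `syl_map` and `syl_zero`.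
For given `u`: `h_u = ∑ u_l h_l`, the algebra `D` of `dd`, its `k m` homomorphisms `z i j` over `τ = 0` (universal property), `et` (reindexed): homomorphisms `bt (i,j) : D → Ω`.  `bt u i` := the restriction to `A` of `bt (i, j0 i)`.  They reduce to `b_i`, and `bt u i (q) + tt * ∑ u_l bt u i (h_l) = 0`; `det (bt u l (v i))` reduces to
`det 1 = 1`, so it is not `0`.  `prod`: `syl_map` and `syl_prod` over `Om K[X]` with `bt` composed with `C`.  `dL`: from `prod` (the map `K[X] → Om K`, `X ↦ tt` is injective) or from the shape of the matrix (only the last `k` columns contain `λ`, with degree `≤ 2`).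
`gal`: `σ ∘ bt u i` extends to `D` over `tt`, so it is one of the `bt (i', j)` restricted to `A`.  If `j ≠ j0 i'` then the constant homomorphism `z i' j` also kills `q + tt h_u` (`Van`), so it is (restricted) one of the `bt`, and reduces to `z i' j`: it is `bt (i', j)`; then `σ ∘ bt u i` is constant, so `bt u i` is constant `= z i' j`, but
it reduces to `b_i = z i (j0 i)`: contradiction.  So `σ ∘ bt u i = bt u (ρ i)`; `ρ` is injective.
`inf`: `g ∈ A` arbitrary, `s_g` large: by `syl_prod` with `c1 = X` (`T`), `c2 = -1`, `g1 = 1`, `g2 = g`: `∏_l (T - bt u l g)` has coefficients in `K[tt]`; if all `bt u l` are integral at a place with `tt ∉ V` these coefficients are integral, so constant (`natDegree_of_mem` in Pl.lean), so `bt u l g` is a root of a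
polynomial over `K`: constant, equal to its reduction `b_l g`.  So `q(b_l) + tt h_u(b_l) = 0`, `h_u(b_l) = 0` (`q(b_l) = 0`, `tt ≠ 0`); with `Van`, `van_zero`: `h_u = 0`, so `u = 0` by linear independence. -/

namespace H19.ES

open H68.BB Polynomial

/-- a family of `k` points of `Spec A` over the parameter space `K^(E+1)` and the line with coordinate `τ` -/
structure Mvg {K A : Type} [Field K] [CommRing A] [Algebra K A] (be ga : A) (k E : ℕ) (b : Fin k → (A →ₐ[K] K))
    (π0 : Place K (Om K)) where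
  N : (MvPolynomial (Fin (E + 1)) K)[X][X]
  dT : ∀ j, (N.coeff j).natDegree ≤ 2 * E
  dL : N.natDegree ≤ 2 * k
  u0 : atU N 0 = (∏ i, ff (b i be) (b i ga)).map C
  t0 : ∀ u, (atU N u).map (evalRingHom 0) = ∏ i, ff (b i be) (b i ga)
  bt : (Fin (E + 1) → K) → Fin k → (A →ₐ[K] Om K)
  red : ∀ u i r, Rd π0.V π0.φ (bt u i r) (b i r)
  gal : ∀ u (σ : Om K ≃ₐ[RatFunc K] Om K), ∃ ρ : Equiv.Perm (Fin k), ∀ i,
    (σ.toAlgHom.restrictScalars K).comp (bt u i) = bt u (ρ i)
  prod : ∀ u, (atU N u).map (aeval (tt K) : K[X] →ₐ[K] Om K).toRingHom = ∏ i, ff (bt u i be) (bt u i ga)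
  inf : ∀ u (π : Place K (Om K)), tt K ∉ π.V → (∀ i r, bt u i r ∈ π.V) → u = 0

/-- `E` and `k1` depend only on the rank `m`, the degree `s0` of the structure constants and the degree `e0` of the coordinates of
`be`, `ga` -/
private theorem mv_alg {K A F : Type} [Field K] [CommRing A] [Algebra K A] [Algebra K[X] A] [IsScalarTower K K[X] A]
    [CommRing F] [Algebra K F] (z : A →ₐ[K] F) (p : K[X]) : z (algebraMap K[X] A p) = aeval (z (tA K A)) p := by
  have h := Polynomial.aeval_algHom_apply (z.comp (IsScalarTower.toAlgHom K K[X] A)) X p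
  rw [aeval_X_left_apply] at h
  exact h.symm

private theorem mv_q {K A : Type} [Field K] [CommRing A] [Algebra K A] [Algebra K[X] A] [IsScalarTower K K[X] A]
    {m k : ℕ} (Z : Fbr K A m k) (i : Fin k) (j : Fin m) : Z.z i j (algebraMap K[X] A (qq Z.t)) = 0 := by
  rw [mv_alg, Z.zt, qq, map_prod]
  refine Finset.prod_eq_zero (Finset.mem_univ i) ?_
  rw [map_sub, aeval_X, aeval_C, Algebra.algebraMap_self, RingHom.id_apply, sub_self]

private theorem mv_dg {K A : Type} [Field K] [CommRing A] [Algebra K A] [Algebra K[X] A] [IsScalarTower K K[X] A]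
    {m d e : ℕ} (f : Module.Basis (Fin m) K[X] A) {h : Fin e → A} (hh : ∀ l, dg f d (h l)) (u : Fin e → K) :
    dg f d (∑ l, u l • h l) := by
  intro j
  have h1 : f.repr (∑ l, u l • h l) j = ∑ l, C (u l) * f.repr (h l) j := by
    have h2 : (∑ l, u l • h l) = ∑ l, (C (u l) : K[X]) • h l := by
      refine Finset.sum_congr rfl fun l _ => ?_
      rw [← algebraMap_eq, algebraMap_smul]
    rw [h2, map_sum, Finsupp.finsetSum_apply]
    refine Finset.sum_congr rfl fun l _ => ?_
    rw [map_smul, Finsupp.smul_apply, smul_eq_mul]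
  rw [h1, ← mem_degreeLT]
  refine sum_mem fun l _ => ?_
  rw [← smul_eq_C_mul]
  exact Submodule.smul_mem _ _ (mem_degreeLT.2 (hh l j))

private theorem mv_van {K A : Type} [Field K] [CommRing A] [Algebra K A] [Algebra K[X] A] [IsScalarTower K K[X] A]
    {m k e : ℕ} (Z : Fbr K A m k) {h : Fin e → A} (hh : ∀ l, Z.Van (h l)) (u : Fin e → K) :
    Z.Van (∑ l, u l • h l) := by
  intro i j hj
  rw [map_sum]
  refine Finset.sum_eq_zero fun l _ => ?_
  rw [map_smul, hh l i j hj, smul_zero]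

private theorem mv_lt {K A : Type} [Field K] [CommRing A] [Algebra K A] [Algebra K[X] A] [IsScalarTower K K[X] A]
    {m d d' : ℕ} (f : Module.Basis (Fin m) K[X] A) {y : A} (h : dg f d y) (hd : d ≤ d') : dg f d' y := fun j =>
  (h j).trans_le (by exact_mod_cast hd)


section syl
variable {K A : Type} [Field K] [CommRing A] [Algebra K A] [Algebra K[X] A] [IsScalarTower K K[X] A]
  {m k e s0 : ℕ} (f : Module.Basis (Fin m) K[X] A) (Z : Fbr K A m k) (v : Fin k → A) (h : Fin e → A)

private theorem mv_map {R S : Type} [CommRing R] [Algebra K R] [CommRing S] [Algebra K S] (φ : R →ₐ[K] S) (s : ℕ)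
    {u : Fin e → R} {τ c1 c2 : R} {u' : Fin e → S} {τ' c1' c2' : S} (g1 g2 : A) (hu : ∀ l, φ (u l) = u' l)
    (hτ : φ τ = τ') (h1 : φ c1 = c1') (h2 : φ c2 = c2') :
    φ (Syl f Z v h R s u τ c1 c2 g1 g2).det = (Syl f Z v h S s u' τ' c1' c2' g1 g2).det := by
  rw [syl_map, hτ, h1, h2, funext hu]

private theorem mv_neg2 {R S : Type} [CommRing R] [Algebra K R] [CommRing S] [Algebra K S] (φ : R →ₐ[K] S) (x : R) :
    φ (-2 * x) = -2 * φ x := by
  rw [map_mul, map_neg, map_ofNat]

/-- the determinant over `K[τ][λ]` -/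
private noncomputable def mv_S (s : ℕ) (u : Fin e → K) (c1 c2 : K[X][X]) (g1 g2 : A) : K[X][X] :=
  (Syl f Z v h K[X][X] s (fun l => C (C (u l))) (C X) c1 c2 g1 g2).det

/-- the universal determinant -/
private noncomputable def mv_N (s : ℕ) (g1 g2 : A) : (MvPolynomial (Fin e) K)[X][X] :=
  (Syl f Z v h (MvPolynomial (Fin e) K)[X][X] s (fun l => C (C (MvPolynomial.X l))) (C X) (X ^ 2 + 1) (-2 * X) g1 g2).det

/-- evaluation at `u` -/
private noncomputable def mv_ev (u : Fin e → K) : (MvPolynomial (Fin e) K)[X][X] →ₐ[K] K[X][X] :=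
  mapAlgHom (mapAlgHom (MvPolynomial.aeval u : MvPolynomial (Fin e) K →ₐ[K] K))

private theorem mv_ev_eq (u : Fin e → K) (p : (MvPolynomial (Fin e) K)[X][X]) :
    p.map (mapRingHom (MvPolynomial.eval u)) = mv_ev u p := by
  unfold mv_ev
  rw [coe_mapAlgHom]
  congr 1

private theorem mv_N_map (s : ℕ) (g1 g2 : A) (u : Fin e → K) :
    (mv_N f Z v h s g1 g2).map (mapRingHom (MvPolynomial.eval u)) = mv_S f Z v h s u (X ^ 2 + 1) (-2 * X) g1 g2 := by
  rw [mv_ev_eq]
  unfold mv_N mv_S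
  refine mv_map (R := (MvPolynomial (Fin e) K)[X][X]) (S := K[X][X]) f Z v h (mv_ev u) s g1 g2 ?_ ?_ ?_ ?_
  · intro l
    unfold mv_ev
    rw [coe_mapAlgHom, map_C]
    change C ((C (MvPolynomial.X l)).map _) = _
    rw [map_C]
    change C (C (MvPolynomial.aeval u (MvPolynomial.X l))) = _
    rw [MvPolynomial.aeval_X]
  · unfold mv_ev
    rw [coe_mapAlgHom, map_C]
    change C (X.map _) = _
    rw [map_X]
  · unfold mv_ev
    rw [map_add, map_pow, map_one, coe_mapAlgHom, map_X]
  · refine (mv_neg2 (R := (MvPolynomial (Fin e) K)[X][X]) (S := K[X][X]) (mv_ev u) X).trans ?_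
    unfold mv_ev
    rw [coe_mapAlgHom, map_X]

private theorem mv_ff {R : Type} [CommRing R] [Algebra K R] (x y : K) :
    (X ^ 2 + 1 : R[X]) * algebraMap K R[X] x + (-2 * X) * algebraMap K R[X] y = (ff x y).map (algebraMap K R) := by
  unfold ff
  rw [Polynomial.map_add, Polynomial.map_sub, Polynomial.map_mul, Polynomial.map_mul, Polynomial.map_pow, map_X, map_C,
    map_C, IsScalarTower.algebraMap_apply K R R[X], IsScalarTower.algebraMap_apply K R R[X], algebraMap_eq, map_mul, C_mul,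
    map_ofNat, map_ofNat]
  ring

variable {f Z v h}

private theorem mv_S0 (hs : StB f s0) (hh : ∀ l, dg f (k - s0) (h l)) (hk : s0 ≤ k) (s : ℕ) (g1 g2 : A) :
    mv_S f Z v h s 0 (X ^ 2 + 1) (-2 * X) g1 g2 = (∏ i, ff (Z.b i g1) (Z.b i g2)).map C := by
  unfold mv_S
  rw [syl_zero hs hh hk s _ _ _ _ (Or.inr (funext fun l => by simp)), Polynomial.map_prod]
  exact Finset.prod_congr rfl fun i _ => mv_ff (R := K[X]) _ _

private theorem mv_St (hs : StB f s0) (hh : ∀ l, dg f (k - s0) (h l)) (hk : s0 ≤ k) (s : ℕ) (u : Fin e → K) (g1 g2 : A) :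
    (mv_S f Z v h s u (X ^ 2 + 1) (-2 * X) g1 g2).map (evalRingHom 0) = ∏ i, ff (Z.b i g1) (Z.b i g2) := by
  have h0 : ∀ p : K[X][X], p.map (evalRingHom 0) = mapAlgHom (aeval (0 : K) : K[X] →ₐ[K] K) p := by
    intro p
    rw [coe_mapAlgHom]
    congr 1
  rw [h0]
  unfold mv_S
  refine (mv_map (R := K[X][X]) (S := K[X]) f Z v h (mapAlgHom (aeval (0 : K) : K[X] →ₐ[K] K)) s g1 g2
    (u' := fun l => C (u l)) (τ' := 0) (c1' := X ^ 2 + 1) (c2' := -2 * X) ?_ ?_ ?_ ?_).trans ?_
  · intro l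
    rw [coe_mapAlgHom, map_C]
    change C (aeval (0 : K) (C (u l))) = _
    rw [aeval_C]
    rfl
  · rw [coe_mapAlgHom, map_C]
    change C (aeval (0 : K) (X : K[X])) = _
    rw [aeval_X, C_0]
  · rw [map_add, map_pow, map_one, coe_mapAlgHom, map_X]
  · refine (mv_neg2 (R := K[X][X]) (S := K[X]) _ X).trans ?_
    rw [coe_mapAlgHom, map_X]
  · rw [syl_zero hs hh hk s _ _ _ _ (Or.inl rfl)]
    refine Finset.prod_congr rfl fun i _ => ?_
    refine (mv_ff (R := K) _ _).trans ?_
    rw [Algebra.algebraMap_self, Polynomial.map_id]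

private theorem mv_Sd (s : ℕ) (u : Fin e → K) (g1 g2 : A) (x : K) :
    ((mv_S f Z v h s u (X ^ 2 + 1) (-2 * X) g1 g2).eval (C x)).natDegree ≤ s * m := by
  have h0 : ∀ p : K[X][X], p.eval (C x) = ((aeval (C x) : K[X][X] →ₐ[K[X]] K[X]).restrictScalars K) p := by
    intro p
    rw [AlgHom.restrictScalars_apply, coe_aeval_eq_eval]
  rw [h0]
  unfold mv_S
  rw [mv_map (R := K[X][X]) (S := K[X]) f Z v h ((aeval (C x) : K[X][X] →ₐ[K[X]] K[X]).restrictScalars K) s g1 g2
    (u' := fun l => C (u l)) (τ' := X) (c1' := C (x ^ 2 + 1)) (c2' := C (-2 * x))]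
  · exact syl_deg s u _ _ g1 g2
  · intro l
    rw [← h0, eval_C]
  · rw [← h0, eval_C]
  · rw [← h0, eval_add, eval_pow, eval_X, eval_one, C_add, C_pow, C_1]
  · refine (mv_neg2 (R := K[X][X]) (S := K[X]) _ X).trans ?_
    rw [← h0, eval_X, C_mul, C_neg]
    rfl

private theorem mv_Sp (hs : StB f s0) (hh : ∀ l, dg f (k - s0) (h l)) (hV : ∀ l, Z.Van (h l)) (hv : Dual f Z v) (hk : s0 ≤ k)
    {s : ℕ} {u : Fin e → K} {c1 c2 : K[X][X]} {g1 g2 : A}
    (hg1 : ∀ i, dg f (k + s) (g1 * v i)) (hg2 : ∀ i, dg f (k + s) (g2 * v i)) {bt : Fin k → (A →ₐ[K] Om K)}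
    (hb : ∀ l, bt l (algebraMap K[X] A (qq Z.t)) + tt K * ∑ a, algebraMap K (Om K) (u a) * bt l (h a) = 0)
    (hd : (Matrix.of fun l i => bt l (v i)).det ≠ 0) :
    (mv_S f Z v h s u c1 c2 g1 g2).map (aeval (tt K) : K[X] →ₐ[K] Om K).toRingHom =
      ∏ l, (c1.map (aeval (tt K) : K[X] →ₐ[K] Om K).toRingHom * C (bt l g1) +
        c2.map (aeval (tt K) : K[X] →ₐ[K] Om K).toRingHom * C (bt l g2)) := by
  have h0 : ∀ p : K[X][X], p.map (aeval (tt K) : K[X] →ₐ[K] Om K).toRingHom =
      mapAlgHom (aeval (tt K) : K[X] →ₐ[K] Om K) p := by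
    intro p
    rw [coe_mapAlgHom]
    congr 1
  rw [h0, h0, h0]
  unfold mv_S
  rw [mv_map (R := K[X][X]) (S := (Om K)[X]) f Z v h (mapAlgHom (aeval (tt K) : K[X] →ₐ[K] Om K)) s g1 g2
    (u' := fun l => C (algebraMap K (Om K) (u l))) (τ' := C (tt K))
    (c1' := mapAlgHom (aeval (tt K) : K[X] →ₐ[K] Om K) c1) (c2' := mapAlgHom (aeval (tt K) : K[X] →ₐ[K] Om K) c2)]
  · exact syl_prod hs hh hV hv hk hg1 hg2 (bt := fun l => (CAlgHom (R := K) (A := Om K)).comp (bt l)) (by
      intro l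
      change C (bt l _) + C (tt K) * ∑ a, C (algebraMap K (Om K) (u a)) * C (bt l (h a)) = 0
      have h1 : (∑ a, C (algebraMap K (Om K) (u a)) * C (bt l (h a)) : (Om K)[X]) =
          C (∑ a, algebraMap K (Om K) (u a) * bt l (h a)) := by
        rw [map_sum]
        exact Finset.sum_congr rfl fun a _ => (C_mul).symm
      rw [h1, ← C_mul, ← C_add, hb, C_0]) (by
      have h1 : (Matrix.of fun l i => ((CAlgHom (R := K) (A := Om K)).comp (bt l)) (v i)) =
          (Matrix.of fun l i => bt l (v i)).map (C : Om K →+* (Om K)[X]) := by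
        ext1 l i
        rfl
      rw [h1]
      have h2 := RingHom.map_det (C : Om K →+* (Om K)[X]) (Matrix.of fun l i => bt l (v i))
      rw [RingHom.mapMatrix_apply] at h2
      rw [← h2]
      exact C_ne_zero.2 hd)
  · intro l
    rw [coe_mapAlgHom, map_C]
    change C (aeval (tt K) (C (u l))) = _
    rw [aeval_C]
  · rw [coe_mapAlgHom, map_C]
    change C (aeval (tt K) (X : K[X])) = _
    rw [aeval_X]
  · rfl
  · rfl

private theorem mv_homs [IsAlgClosed K] (hs : StB f s0) (hk : s0 ≤ k) {y : A} (hy : dg f (k - s0) y) (hyV : Z.Van y)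
    {π0 : Place K (Om K)} (hr : Rd π0.V π0.φ (tt K) 0) : ∃ bt : Fin k → (A →ₐ[K] Om K),
      (∀ i r, Rd π0.V π0.φ (bt i r) (Z.b i r)) ∧
      (∀ i, bt i (algebraMap K[X] A (qq Z.t)) + tt K * bt i y = 0) ∧
      (∀ σ : Om K ≃ₐ[RatFunc K] Om K, ∃ ρ : Equiv.Perm (Fin k), ∀ i,
        (σ.toAlgHom.restrictScalars K).comp (bt i) = bt (ρ i)) := by
  obtain ⟨D, iR, iK, iX, iT, e, i, hrel, huniv⟩ := dd f hs hk Z.t hy
  have hq0 : ∀ p : Fin k × Fin m, Z.z p.1 p.2 (algebraMap K[X] A (qq Z.t)) + 0 * Z.z p.1 p.2 y = 0 := by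
    intro p
    rw [mv_q, zero_mul, add_zero]
  choose z' hz1 hz2 using fun p : Fin k × Fin m => (huniv K (Z.z p.1 p.2) 0 (hq0 p)).exists
  have hzi : ∀ p r, z' p (i r) = Z.z p.1 p.2 r := fun p r => by
    rw [← hz1 p]
    rfl
  have hinj : ∀ p p' : Fin k × Fin m, (∀ r, Z.z p.1 p.2 r = Z.z p'.1 p'.2 r) → p = p' := by
    rintro ⟨a, b⟩ ⟨a', b'⟩ h1
    have h2 := h1 (tA K A)
    dsimp only at h1 h2
    rw [Z.zt, Z.zt] at h2
    have h3 := Z.tinj h2
    subst h3
    have h4 := Z.zinj a (AlgHom.ext h1)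
    rw [h4]
  have hz' : Function.Injective z' := by
    intro p p' h1
    refine hinj p p' fun r => ?_
    rw [← hzi, ← hzi, h1]
  obtain ⟨bt0, h1, h2, h3⟩ := et (e.reindex finProdFinEquiv) (fun j => z' (finProdFinEquiv.symm j))
    (hz'.comp finProdFinEquiv.symm.injective) (fun j => hz2 _) hr
  have h2' : ∀ p r, Rd π0.V π0.φ (bt0 (finProdFinEquiv p) r) (z' p r) := by
    intro p r
    have h := h2 (finProdFinEquiv p) r
    rwa [Equiv.symm_apply_apply] at h
  have h3' : ∀ b : D →ₐ[K] Om K, b (algebraMap K[X] D X) = tt K → ∃ p, b = bt0 (finProdFinEquiv p) := by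
    intro b hb
    obtain ⟨j, hj⟩ := h3 b hb
    exact ⟨finProdFinEquiv.symm j, by rw [Equiv.apply_symm_apply]; exact hj⟩
  have hred : ∀ a r, Rd π0.V π0.φ (((bt0 (finProdFinEquiv (a, Z.j0 a))).comp i) r) (Z.b a r) := by
    intro a r
    have h := h2' (a, Z.j0 a) (i r)
    rw [hzi] at h
    exact h
  refine ⟨fun a => (bt0 (finProdFinEquiv (a, Z.j0 a))).comp i, hred, ?_, ?_⟩
  · intro a
    have h := congrArg (bt0 (finProdFinEquiv (a, Z.j0 a))) hrel
    rw [map_add, map_mul, map_zero, h1] at h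
    exact h
  · intro σ
    have htt : σ (tt K) = tt K := σ.commutes _
    have key : ∀ a, ∃ a', (σ.toAlgHom.restrictScalars K).comp ((bt0 (finProdFinEquiv (a, Z.j0 a))).comp i) =
        (bt0 (finProdFinEquiv (a', Z.j0 a'))).comp i := by
      intro a
      obtain ⟨p, hp⟩ := h3' ((σ.toAlgHom.restrictScalars K).comp (bt0 (finProdFinEquiv (a, Z.j0 a)))) (by
        change σ (bt0 _ _) = tt K
        rw [h1, htt])
      by_cases hj : p.2 = Z.j0 p.1
      · refine ⟨p.1, ?_⟩
        rw [← hj, ← hp]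
        rfl
      · exfalso
        -- the constant homomorphism
        have hrel' : ((Algebra.ofId K (Om K)).comp (Z.z p.1 p.2)) (algebraMap K[X] A (qq Z.t)) +
            tt K * ((Algebra.ofId K (Om K)).comp (Z.z p.1 p.2)) y = 0 := by
          rw [AlgHom.comp_apply, AlgHom.comp_apply, mv_q, hyV p.1 p.2 hj, map_zero, mul_zero, add_zero]
        obtain ⟨b', hb1, hb2⟩ := (huniv (Om K) ((Algebra.ofId K (Om K)).comp (Z.z p.1 p.2)) (tt K) hrel').exists
        obtain ⟨p', hp'⟩ := h3' b' hb2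
        have hb3 : ∀ r, b' (i r) = algebraMap K (Om K) (Z.z p.1 p.2 r) := by
          intro r
          have h := congrArg (fun z : A →ₐ[K] Om K => z r) hb1
          exact h
        have hpp : p = p' := by
          refine hinj p p' fun r => ?_
          have h := h2' p' (i r)
          rw [hzi, ← hp', hb3] at h
          have h' : Rd π0.V π0.φ (algebraMap K (Om K) (Z.z p.1 p.2 r)) (Z.z p.1 p.2 r) := π0.const _
          exact h'.unique h
        rw [← hpp] at hp'
        -- so the conjugate is constant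
        have hc : ∀ r, σ (bt0 (finProdFinEquiv (a, Z.j0 a)) (i r)) = algebraMap K (Om K) (Z.z p.1 p.2 r) := by
          intro r
          have h := congrArg (fun z : D →ₐ[K] Om K => z (i r)) hp
          have h' : σ (bt0 (finProdFinEquiv (a, Z.j0 a)) (i r)) = bt0 (finProdFinEquiv p) (i r) := h
          rw [h', ← hp', hb3]
        have hc' : ∀ r, bt0 (finProdFinEquiv (a, Z.j0 a)) (i r) = algebraMap K (Om K) (Z.z p.1 p.2 r) := by
          intro r
          apply σ.injective
          rw [hc r]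
          exact (H67.KH.sigma_cst σ _).symm
        have hpa : p = (a, Z.j0 a) := by
          refine hinj p (a, Z.j0 a) fun r => ?_
          have h := h2' (a, Z.j0 a) (i r)
          rw [hzi, hc'] at h
          have h' : Rd π0.V π0.φ (algebraMap K (Om K) (Z.z p.1 p.2 r)) (Z.z p.1 p.2 r) := π0.const _
          exact h'.unique h
        rw [hpa] at hj
        exact hj rfl
    choose ρ hρ using key
    have hρi : Function.Injective ρ := by
      intro a a' haa
      have h4 := (hρ a).trans ((congrArg (fun c => (bt0 (finProdFinEquiv (c, Z.j0 c))).comp i) haa).trans (hρ a').symm)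
      apply Z.tinj
      have h5 := hred a (tA K A)
      have h6 := hred a' (tA K A)
      have h7 : ((bt0 (finProdFinEquiv (a, Z.j0 a))).comp i) (tA K A) = ((bt0 (finProdFinEquiv (a', Z.j0 a'))).comp i) (tA K A) := by
        apply σ.injective
        exact congrArg (fun z : A →ₐ[K] Om K => z (tA K A)) h4
      rw [← h7] at h6
      have h8 := h5.unique h6
      rw [← Z.zt a (Z.j0 a), ← Z.zt a' (Z.j0 a')]
      exact h8
    exact ⟨Equiv.ofBijective ρ (Finite.injective_iff_bijective.1 hρi), fun a => hρ a⟩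

omit [IsScalarTower K K[X] A] in
private theorem mv_det (hv : Dual f Z v) {π0 : Place K (Om K)} {bt : Fin k → (A →ₐ[K] Om K)}
    (hred : ∀ i r, Rd π0.V π0.φ (bt i r) (Z.b i r)) : (Matrix.of fun l i => bt l (v i)).det ≠ 0 := by
  obtain ⟨MV, hMV⟩ : ∃ MV : Matrix (Fin k) (Fin k) π0.V, MV = fun l i => ⟨bt l (v i), (hred l (v i)).mem⟩ := ⟨_, rfl⟩
  have h1 : MV.map π0.V.subtype = Matrix.of fun l i => bt l (v i) := by
    rw [hMV]
    rfl
  have h2 : MV.map π0.φ = 1 := by
    ext1 l i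
    rw [Matrix.map_apply, hMV]
    have h3 : π0.φ ⟨bt l (v i), (hred l (v i)).mem⟩ = Z.b l (v i) := (hred l (v i)).choose_spec
    rw [h3]
    by_cases hli : l = i
    · subst hli
      rw [hv.one, Matrix.one_apply_eq]
    · rw [Matrix.one_apply_ne hli]
      exact hv.zero i l _ (Or.inl hli)
  intro h0
  have h4 := RingHom.map_det π0.V.subtype MV
  rw [RingHom.mapMatrix_apply, h1, h0] at h4
  have h5 : MV.det = 0 := Subtype.ext h4
  have h6 := RingHom.map_det π0.φ MV
  rw [RingHom.mapMatrix_apply, h2, h5, map_zero, Matrix.det_one] at h6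
  exact zero_ne_one h6

private theorem mv_const [IsAlgClosed K] (hs : StB f s0) (hh : ∀ l, dg f (k - s0) (h l)) (hV : ∀ l, Z.Van (h l))
    (hv : Dual f Z v) (hk : s0 ≤ k) {u : Fin e → K} {bt : Fin k → (A →ₐ[K] Om K)}
    (hb : ∀ l, bt l (algebraMap K[X] A (qq Z.t)) + tt K * ∑ a, algebraMap K (Om K) (u a) * bt l (h a) = 0)
    {π0 : Place K (Om K)} (hred : ∀ i r, Rd π0.V π0.φ (bt i r) (Z.b i r))
    {π : Place K (Om K)} (hπ : tt K ∉ π.V) (hint : ∀ i r, bt i r ∈ π.V) (l : Fin k) (g : A) :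
    bt l g = algebraMap K (Om K) (Z.b l g) := by
  obtain ⟨eg, heg⟩ : ∃ eg, ∀ j, (f.repr g j).natDegree ≤ eg :=
    ⟨Finset.univ.sup fun j => (f.repr g j).natDegree, fun j =>
      Finset.le_sup (f := fun j => (f.repr g j).natDegree) (Finset.mem_univ j)⟩
  have hg1 : ∀ i, dg f (k + (eg + s0)) (1 * v i) := by
    intro i
    rw [one_mul]
    exact mv_lt f (hv.deg i) (by omega)
  have hg2 : ∀ i, dg f (k + (eg + s0)) (g * v i) := by
    intro i
    rw [mul_comm, ← add_assoc]
    exact dg_mul f hs (hv.deg i) heg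
  have hP := mv_Sp (c1 := X) (c2 := -1) hs hh hV hv hk hg1 hg2 hb (mv_det hv hred)
  obtain ⟨P, hPd⟩ : ∃ P, P = mv_S f Z v h (eg + s0) u X (-1) 1 g := ⟨_, rfl⟩
  rw [← hPd] at hP
  have hP2 : P.map (aeval (tt K) : K[X] →ₐ[K] Om K).toRingHom = ∏ l, (X - C (bt l g)) := by
    rw [hP]
    refine Finset.prod_congr rfl fun a _ => ?_
    rw [map_X, Polynomial.map_neg, Polynomial.map_one, map_one, C_1]
    ring
  -- the coefficients are integral
  have hV2 : ∀ n, (∏ l, (X - C (bt l g))).coeff n ∈ π.V := by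
    intro n
    have h1 : (∏ l, (X - C (bt l g))) = (∏ l, (X - C (⟨bt l g, hint l g⟩ : π.V))).map π.V.subtype := by
      rw [Polynomial.map_prod]
      refine Finset.prod_congr rfl fun a _ => ?_
      rw [Polynomial.map_sub, map_X, map_C]
      rfl
    rw [h1, coeff_map]
    exact Subtype.mem _
  have hc : ∀ n, (P.coeff n).natDegree = 0 := by
    intro n
    apply natDegree_of_mem hπ
    have h1 := hV2 n
    rw [← hP2, coeff_map] at h1
    exact h1
  obtain ⟨P', hP'⟩ : ∃ P' : K[X], P' = P.map (constantCoeff : K[X] →+* K) := ⟨_, rfl⟩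
  have hP3 : P'.map (algebraMap K (Om K)) = ∏ l, (X - C (bt l g)) := by
    rw [← hP2]
    ext n
    rw [hP', coeff_map, coeff_map, coeff_map]
    have h1 := eq_C_of_natDegree_eq_zero (hc n)
    change algebraMap K (Om K) ((P.coeff n).coeff 0) = aeval (tt K) (P.coeff n)
    conv_rhs => rw [h1]
    rw [aeval_C]
  have hP0 : P' ≠ 0 := by
    intro h0
    rw [h0, Polynomial.map_zero] at hP3
    exact (monic_prod_of_monic _ _ fun i _ => monic_X_sub_C (bt i g)).ne_zero hP3.symm
  have hroot : aeval (bt l g) P' = 0 := by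
    rw [aeval_def, ← eval_map, hP3, eval_prod]
    refine Finset.prod_eq_zero (Finset.mem_univ l) ?_
    rw [eval_sub, eval_X, eval_C, sub_self]
  have hI : IsIntegral K (bt l g) := (show IsAlgebraic K (bt l g) from ⟨P', hP0, hroot⟩).isIntegral
  obtain ⟨c, hc2⟩ := minpoly.mem_range_of_degree_eq_one K (bt l g)
    (IsAlgClosed.degree_eq_one_of_irreducible K (minpoly.irreducible hI))
  have h7 := hred l g
  rw [← hc2] at h7
  have h8 : Rd π0.V π0.φ (algebraMap K (Om K) c) c := π0.const c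
  rw [← hc2, h8.unique h7]

private theorem mv_inf [IsAlgClosed K] (hs : StB f s0) (hh : ∀ l, dg f (k - s0) (h l)) (hV : ∀ l, Z.Van (h l))
    (hv : Dual f Z v) (hk : s0 ≤ k) (hlin : LinearIndependent K h) {u : Fin e → K} {bt : Fin k → (A →ₐ[K] Om K)}
    (hb : ∀ l, bt l (algebraMap K[X] A (qq Z.t)) + tt K * ∑ a, algebraMap K (Om K) (u a) * bt l (h a) = 0)
    {π0 : Place K (Om K)} (hred : ∀ i r, Rd π0.V π0.φ (bt i r) (Z.b i r))
    {π : Place K (Om K)} (hπ : tt K ∉ π.V) (hint : ∀ i r, bt i r ∈ π.V) : u = 0 := by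
  have hc := mv_const hs hh hV hv hk hb hred hπ hint
  have htt : tt K ≠ 0 := by
    intro h0
    apply hπ
    rw [h0]
    exact π.V.zero_mem
  have hy : (∑ l, u l • h l) = 0 := by
    apply van_zero f Z (mv_lt f (mv_dg f hh u) (Nat.sub_le _ _))
    intro i j
    by_cases hj : j = Z.j0 i
    · subst hj
      have h1 := hb i
      rw [hc] at h1
      have h2 : Z.b i (algebraMap K[X] A (qq Z.t)) = 0 := mv_q Z i _
      rw [h2, map_zero, zero_add] at h1
      have h3 := (mul_eq_zero.1 h1).resolve_left htt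
      have h4 : (∑ a, algebraMap K (Om K) (u a) * bt i (h a)) = algebraMap K (Om K) (Z.b i (∑ a, u a • h a)) := by
        rw [map_sum, map_sum]
        refine Finset.sum_congr rfl fun a _ => ?_
        rw [hc, map_smul, smul_eq_mul, map_mul]
      rw [h4] at h3
      exact (map_eq_zero_iff _ (algebraMap K (Om K)).injective).1 h3
    · exact mv_van Z hV u i j hj
  exact funext (Fintype.linearIndependent_iff.1 hlin u hy)

end syl

private theorem mv_coef {K : Type} [Field K] [Infinite K] {p : K[X][X]} {d : ℕ}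
    (h : ∀ x : K, (p.eval (C x)).natDegree ≤ d) (j n : ℕ) (hn : d < n) : (p.coeff j).coeff n = 0 := by
  obtain ⟨Q, hQ⟩ : ∃ Q : K[X], Q = ∑ i ∈ Finset.range (p.natDegree + 1), C ((p.coeff i).coeff n) * X ^ i := ⟨_, rfl⟩
  have hQ0 : Q = 0 := by
    apply Polynomial.funext
    intro x
    have h1 : (p.eval (C x)).coeff n = 0 := coeff_eq_zero_of_natDegree_lt ((h x).trans_lt hn)
    rw [eval_eq_sum_range, finsetSum_coeff] at h1
    rw [hQ, eval_finsetSum, eval_zero, ← h1]
    refine Finset.sum_congr rfl fun i _ => ?_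
    rw [eval_mul, eval_C, eval_pow, eval_X, ← C_pow, coeff_mul_C]
  by_cases hj : j ≤ p.natDegree
  · have h2 : Q.coeff j = (0 : K[X]).coeff j := congrArg (fun q : K[X] => q.coeff j) hQ0
    rw [hQ, finsetSum_coeff, coeff_zero, Finset.sum_eq_single j] at h2
    · rw [coeff_C_mul_X_pow, if_pos rfl] at h2
      exact h2
    · intro i _ hi
      rw [coeff_C_mul_X_pow, if_neg hi.symm]
    · intro hj'
      exact absurd (Finset.mem_range.2 (by omega)) hj'
  · have h3 : p.coeff j = 0 := coeff_eq_zero_of_natDegree_lt (by omega)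
    rw [h3, coeff_zero]

private theorem mv_tt {K : Type} [Field K] {p : K[X]} (h : aeval (tt K) p = 0) : p = 0 := by
  unfold tt at h
  rw [aeval_algebraMap_apply] at h
  have h1 := (map_eq_zero_iff _ (algebraMap (RatFunc K) (Om K)).injective).1 h
  rw [RatFunc.aeval_X_left_eq_algebraMap] at h1
  exact (map_eq_zero_iff _ (RatFunc.algebraMap_injective K)).1 h1

theorem mvg (m s0 e0 : ℕ) : ∃ E k1 : ℕ, ∀ {K A : Type} [Field K] [IsAlgClosed K] [CharZero K] [CommRing A] [IsDomain A]
    [Algebra K A] [Algebra K[X] A] [IsScalarTower K K[X] A] (f : Module.Basis (Fin m) K[X] A), StB f s0 → ∀ be ga : A,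
    (∀ j, (f.repr be j).natDegree ≤ e0) → (∀ j, (f.repr ga j).natDegree ≤ e0) →
    ∃ B : Finset K, ∀ k, k1 ≤ k → ∀ b : Fin k → (A →ₐ[K] K),
      Function.Injective (fun i => b i (tA K A)) → (∀ i, b i (tA K A) ∉ B) → ∀ π0 : Place K (Om K),
      Rd π0.V π0.φ (tt K) 0 → Nonempty (Mvg be ga k E b π0) := by
  obtain ⟨s, hsd⟩ : ∃ s, s = e0 + s0 := ⟨_, rfl⟩
  obtain ⟨E, hE⟩ : ∃ E, E = s * m := ⟨_, rfl⟩
  refine ⟨E, m * s0 + (E + 1) + s0, ?_⟩
  intro K A _ _ _ _ _ _ _ _ f hs be ga hbe hga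
  obtain ⟨B, hB⟩ := bad f
  refine ⟨B, fun k hk b hbi hbB π0 hr => ?_⟩
  have hk' : s0 ≤ k := by omega
  choose z hz1 hz2 using fun i => hB _ (hbB i)
  choose j0 hj0 using fun i => all_hom f (hz1 i) (hz2 i) (b i) rfl
  obtain ⟨Z, hZb, hZt⟩ : ∃ Z : Fbr K A m k, (∀ i, Z.b i = b i) ∧ ∀ i, Z.t i = b i (tA K A) :=
    ⟨⟨fun i => b i (tA K A), hbi, z, hz1, hz2, j0⟩, fun i => (hj0 i).symm, fun _ => rfl⟩
  obtain ⟨v, hv⟩ := exists_dual f Z
  obtain ⟨h, hlin, hh⟩ := hsp f Z (s := s0) (e := E + 1) (by omega)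
  have hV : ∀ l, Z.Van (h l) := fun l => (hh l).1
  have hd : ∀ l, dg f (k - s0) (h l) := fun l => (hh l).2
  have hg : ∀ g : A, (∀ j, (f.repr g j).natDegree ≤ e0) → ∀ i, dg f (k + s) (g * v i) := by
    intro g hg i
    rw [mul_comm, hsd, ← add_assoc]
    exact dg_mul f hs (hv.deg i) hg
  have hg1 := hg be hbe
  have hg2 := hg ga hga
  choose bt hred hrel hgal using fun u : Fin (E + 1) → K => mv_homs hs hk' (mv_dg f hd u) (mv_van Z hV u) hr
  have hrel' : ∀ u l, bt u l (algebraMap K[X] A (qq Z.t)) + tt K * ∑ a, algebraMap K (Om K) (u a) * bt u l (h a) = 0 := by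
    intro u l
    have h1 := hrel u l
    rw [map_sum] at h1
    rw [← h1]
    congr 2
    refine Finset.sum_congr rfl fun a _ => ?_
    rw [map_smul, Algebra.smul_def]
  have hN : ∀ u, atU (mv_N f Z v h s be ga) u = mv_S f Z v h s u (X ^ 2 + 1) (-2 * X) be ga := by
    intro u
    unfold atU
    exact mv_N_map f Z v h s be ga u
  have hco : ∀ u j n, MvPolynomial.eval u (((mv_N f Z v h s be ga).coeff j).coeff n) =
      ((atU (mv_N f Z v h s be ga) u).coeff j).coeff n := by
    intro u j n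
    unfold atU
    rw [coeff_map, coe_mapRingHom, coeff_map]
  have hprod : ∀ u, (atU (mv_N f Z v h s be ga) u).map (aeval (tt K) : K[X] →ₐ[K] Om K).toRingHom =
      ∏ i, ff (bt u i be) (bt u i ga) := by
    intro u
    rw [hN, mv_Sp hs hd hV hv hk' hg1 hg2 (hrel' u) (mv_det hv (hred u))]
    refine Finset.prod_congr rfl fun i _ => ?_
    unfold ff
    rw [Polynomial.map_add, Polynomial.map_mul, Polynomial.map_pow, map_X, Polynomial.map_one, Polynomial.map_neg,
      Polynomial.map_ofNat, C_mul, map_ofNat]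
    ring
  refine ⟨⟨mv_N f Z v h s be ga, ?_, ?_, ?_, ?_, bt, ?_, hgal, hprod, ?_⟩⟩
  · intro j
    rw [natDegree_le_iff_coeff_eq_zero]
    intro n hn
    apply MvPolynomial.funext
    intro u
    rw [hco, map_zero]
    apply mv_coef (d := s * m) _ _ _ (by omega)
    intro x
    rw [hN]
    exact mv_Sd s u be ga x
  · rw [natDegree_le_iff_coeff_eq_zero]
    intro j hj
    ext1 n
    apply MvPolynomial.funext
    intro u
    rw [hco, coeff_zero, map_zero]
    have h1 : (atU (mv_N f Z v h s be ga) u).coeff j = 0 := by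
      apply mv_tt
      have h2 : ((atU (mv_N f Z v h s be ga) u).map (aeval (tt K) : K[X] →ₐ[K] Om K).toRingHom).coeff j =
          (∏ i, ff (bt u i be) (bt u i ga)).coeff j := congrArg (fun q : (Om K)[X] => q.coeff j) (hprod u)
      rw [coeff_map, coeff_eq_zero_of_natDegree_lt ((prod_ff_natDegree _ _).trans_lt hj)] at h2
      exact h2
    rw [h1, coeff_zero]
  · rw [hN, mv_S0 hs hd hk']
    simp only [hZb]
  · intro u
    rw [hN, mv_St hs hd hk']
    simp only [hZb]
  · intro u i r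
    rw [← hZb]
    exact hred u i r
  · intro u π hπ hint
    exact mv_inf hs hd hV hv hk' hlin (hrel' u) (hred u) hπ hint

end H19.ES
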