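import Pool.Agent.H19.ES.SolDef
import Pool.Agent.H19.ES.Mov
import Pool.Agent.H19.ES.Pl

/-! # ES.Sol3 : at a place over `τ = ∞` all chains are dropped (about 100 lines)

Suppose all `s j` are integral at `π`.  Every `bt i` is `(s j).b` for some `j` (`ρ` is a permutation), so all `bt u i r` are integral and `mv.inf` gives `u = 0`.  `aeval tt w = ∏ (s j).x` is integral: `w.natDegree = 0` (`natDegree_of_mem`).  The coefficients of the entries of `Mt be s` are integral (`Ch`: product
of the matrices `Bm`, whose entries have integral coefficients; induction over the list, or: `Mt be s` is the image of a matrix over `π.V[X]` by `Ch_map`), and they are the values at `tt` of the coefficients of the entries of `M`: degree `0`.  Contradiction to `hnot`. -/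

namespace H19.ES

open H68.BB Polynomial

variable {K A : Type} [Field K] [CommRing A] [Algebra K A] {k E : ℕ} {be ga : A}
  {b : Fin k → (A →ₐ[K] K)} {π0 : Place K (Om K)}

private def PV (V : ValuationSubring (Om K)) (M : Matrix (Fin 2) (Fin 2) (Om K)[X]) : Prop :=
  ∀ i j n, (M i j).coeff n ∈ V

private theorem PV_one (V : ValuationSubring (Om K)) : PV V (1 : Matrix (Fin 2) (Fin 2) (Om K)[X]) := by
  intro i j n
  rw [Matrix.one_apply]
  split_ifs
  · rw [coeff_one]
    split_ifs
    · exact V.one_mem
    · exact V.zero_mem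
  · rw [coeff_zero]
    exact V.zero_mem

private theorem PV_mul (V : ValuationSubring (Om K)) (M N : Matrix (Fin 2) (Fin 2) (Om K)[X]) (hM : PV V M)
    (hN : PV V N) : PV V (M * N) := by
  intro i j n
  rw [Matrix.mul_apply, finsetSum_coeff]
  refine sum_mem fun l _ => ?_
  rw [coeff_mul]
  exact sum_mem fun q _ => mul_mem (hM _ _ _) (hN _ _ _)

private theorem lin_mem (V : ValuationSubring (Om K)) {a b : Om K} (ha : a ∈ V) (hb : b ∈ V) (n : ℕ) :
    (C a * X - C b : (Om K)[X]).coeff n ∈ V := by
  rw [coeff_sub, coeff_C_mul, coeff_X, coeff_C]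
  refine sub_mem (mul_mem ha ?_) ?_
  · split_ifs
    · exact V.one_mem
    · exact V.zero_mem
  · split_ifs
    · exact hb
    · exact V.zero_mem

private theorem PV_Bm (V : ValuationSubring (Om K)) {e x d : Om K} (he : e ∈ V) (hx : x ∈ V) (hd : d ∈ V) :
    PV V (Bm e x d) := by
  intro i j n
  have h0 : (C d * X : (Om K)[X]).coeff n ∈ V := by
    have h := lin_mem V hd V.zero_mem n
    rwa [C_0, sub_zero] at h
  have h1 : (C d : (Om K)[X]).coeff n ∈ V := by
    rw [coeff_C]
    split_ifs
    · exact hd
    · exact V.zero_mem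
  fin_cases i <;> fin_cases j
  · exact lin_mem V hx he n
  · exact h0
  · exact h1
  · exact lin_mem V he hx n

theorem sol_inf (mv : Mvg be ga k E b π0) {u : Fin (E + 1) → K} {w : K[X]} {M : Matrix (Fin 2) (Fin 2) K[X][X]}
    (hnot : ¬ (u = 0 ∧ w.natDegree = 0 ∧ ∀ i j n, ((M i j).coeff n).natDegree = 0)) {π : Place K (Om K)}
    (hπ : tt K ∉ π.V) {s : Fin k → Pt K A (Om K)} (hs : Sol be ga (mv.bt u) (atT M) (aeval (tt K) w) s) :
    ∃ i, ¬ Int π (s i) := by
  by_contra hc
  push Not at hc
  obtain ⟨ρ, hρ⟩ := hs.b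
  apply hnot
  refine ⟨?_, ?_, ?_⟩
  · refine mv.inf u π hπ fun i r => ?_
    have h1 := hρ (ρ.symm i)
    rw [Equiv.apply_symm_apply] at h1
    rw [← h1]
    exact (hc _).1 r
  · refine natDegree_of_mem hπ ?_
    rw [← hs.w]
    exact prod_mem fun j _ => (hc j).2.1
  · intro i j n
    refine natDegree_of_mem hπ ?_
    have h1 : PV π.V (Mt be s) := by
      unfold Mt Ch
      refine List.prod_induction (PV π.V) (PV_mul π.V) (PV_one π.V) fun N hN => ?_
      rw [List.mem_ofFn] at hN
      obtain ⟨l, rfl⟩ := hN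
      exact PV_Bm π.V ((hc l).1 be) (pow_mem (hc l).2.1 2) (hc l).2.2
    rw [hs.M] at h1
    have h2 := h1 i j n
    unfold atT at h2
    rw [Matrix.map_apply] at h2
    simpa using h2

end H19.ES
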