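import Pool.Agent.H19.ES.Sol1
import Pool.Agent.H19.ES.Sol2
import Pool.Agent.H19.ES.Sol3
import Pool.Agent.H19.ES.Sgn
import Pool.Agent.H71.K3.PlInf

/-! # ES.Good : the theorem for good tuples (about 250 lines)

`P` is a tuple of points of `T` with good types, `mv` the moving family, and for every permutation `σ` a chain `c_σ` (`Chn`).  `k > 0`.
KRULL: `kr` with `N = mv.N`, `f0 = ∏ ff (b i be) (b i ga)`, `M0 = Mt be P` (`frm_Ch`, `det_Ch`, `prod_ff_coeff_zero`), `w0 = ∏ (P i).x`; `hpal`: from `mv.prod` and `prod_ff_reflect` (the map `K[X] → Om K`, `X ↦ tt`, is injective; `reflect` commutes with `map`).  Solution `u, w, M`.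
`Mτ = atT M`, `wt = aeval tt w`, `bt = mv.bt u`: `Frm k Mτ (wt²) (∏ bt i be)` (`Frm.map`, `(atU N u).coeff 0` at `tt` is `∏ bt i be` by `mv.prod` and `prod_ff_coeff_zero`), `det Mτ = wt² ∏ ff (bt i be) (bt i ga)`; the coefficients of `Mτ` reduce at `π0` to those of `M` at `τ = 0`, i.e. of `Mt be P = Mt be (c_σ)` (`rd_aeval`); `wt` reduces to
`w0 = ∏ (c_σ j).x ≠ 0`, so `wt ≠ 0`.  `Ty` for `bt` follows from `Ty` for `b` by reduction.
By `sol_lift` there is for every `σ` a chain `s_σ` over `Ω` with base points `bt (σ j)`, reducing to `c_σ`; `Sol`.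
INDEX SET `I = {(σ, ε) | ∏ ε = 1}` (finite), `F (σ, ε) = sg ε s_σ`: all are `Sol` (`sol_sg`), every `Sol` is an `F (σ, ε)` (`b`: order `ρ`; `sol_signs` with `s_ρ`), `F` is injective (the base points `bt` are pairwise different because of `Ty`, so `σ` is determined; `sg_inj`).
`S = (univ image of I under F).val` (or `Finset.image`), Galois-stable: `gal σ` maps `Sol`s to `Sol`s injectively (`sol_gal`; `Mτ`, `wt` are fixed because `σ tt = tt`), so `S.map (gal σ)` has no duplicates and the same members (`Multiset.Nodup.ext`; surjectivity by `σ⁻¹`).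
LIMIT at `π0`: `Sp_sg`: `F (σ, ε)` has the limit `Φ.cl (sg ε c_σ) = Φ.cl c_σ = sign σ • Φ.cl (P ∘ σ)` (`cl_sg`): `Lim.map`: the sum is `#{ε | ∏ ε = 1} • altSum Φ.cl P`.  At the place `π` with `tt ∉ V` (`H71.K3.place_inf`) all are dropped (`sol_inf`).  `Fnl.eq_zero`, `TF`.
(`k = 0` does not occur.) -/

namespace H19.ES

open H68.BB Polynomial

variable {K A : Type} [Field K] [IsAlgClosed K] [CharZero K] [CommRing A] [Algebra K A] {k E : ℕ} {be ga : A}

private theorem good_tr (K : Type) [Field K] : Function.Injective ((aeval (tt K) : K[X] →ₐ[K] Om K).toRingHom) := by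
  have hX : algebraMap K[X] (Om K) X = tt K := by
    rw [IsScalarTower.algebraMap_apply K[X] (RatFunc K) (Om K), RatFunc.algebraMap_X]
    rfl
  have htr : Transcendental K (tt K) := by
    rw [← hX, transcendental_iff]
    intro p hp
    have h1 : algebraMap K[X] (Om K) p = 0 := by
      have h2 : aeval (algebraMap K[X] (Om K) X) p = algebraMap K[X] (Om K) (aeval X p) := by
        rw [aeval_algebraMap_apply]
      rw [h2, aeval_X_left_apply] at hp
      exact hp
    rw [IsScalarTower.algebraMap_apply K[X] (RatFunc K) (Om K)] at h1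
    have h3 := (map_eq_zero_iff _ (algebraMap (RatFunc K) (Om K)).injective).mp h1
    exact (map_eq_zero_iff _ (RatFunc.algebraMap_injective K)).mp h3
  exact transcendental_iff_injective.mp htr

omit [IsAlgClosed K] [CharZero K] in
private theorem good_ty {k : ℕ} {π : Place K (Om K)} {be ga : Fin k → Om K} {be0 ga0 : Fin k → K}
    (hbe : ∀ i, Rd π.V π.φ (be i) (be0 i)) (hga : ∀ i, Rd π.V π.φ (ga i) (ga0 i)) (hT : Ty be0 ga0) : Ty be ga := by
  refine ⟨fun i => (hbe i).ne_zero (hT.be0 i), fun i h => hT.ns i ?_, fun i j hij h => hT.co i j hij ?_⟩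
  · have h1 := (hga i).pow 2
    rw [h] at h1
    exact h1.unique ((hbe i).pow 2)
  · have h1 := (hga i).mul (hbe j)
    rw [h] at h1
    exact h1.unique ((hga j).mul (hbe i))

omit [IsAlgClosed K] [CharZero K] in
private theorem good_gal_inj {k : ℕ} (σ : Om K ≃ₐ[RatFunc K] Om K) :
    Function.Injective (gal (A := A) (n := k) σ) := by
  intro s s' h
  have hσ : Function.Injective (σ.toAlgHom.restrictScalars K) := σ.injective
  funext i
  have h1 : (s i).map (σ.toAlgHom.restrictScalars K) = (s' i).map (σ.toAlgHom.restrictScalars K) := congrFun h i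
  ext r
  · have h2 : (σ.toAlgHom.restrictScalars K).comp (s i).b = (σ.toAlgHom.restrictScalars K).comp (s' i).b :=
      congrArg Pt.b h1
    exact hσ (DFunLike.congr_fun h2 r)
  · exact hσ (congrArg Pt.x h1)
  · exact hσ (congrArg Pt.y h1)

theorem good (hk : 0 < k) {P : Fin k → Pt K A K} (hP : ∀ i, OnT be ga (P i)) (hx : ∀ i, (P i).x ≠ 0)
    (hT : Ty (fun i => (P i).b be) (fun i => (P i).b ga)) {π0 : Place K (Om K)} (h0 : Rd π0.V π0.φ (tt K) 0)
    (mv : Mvg be ga k E (fun i => (P i).b) π0) {G : Type} [AddCommGroup G] (tf : TF G) (Φ : Fnl (OnT be ga) k G)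
    (hI : Inv Φ) (hc : ∀ σ : Equiv.Perm (Fin k), ∃ c, Chn be ga P σ c ∧ Φ.cl c = (Equiv.Perm.sign σ : ℤ) • Φ.cl (P ∘ σ)) :
    altSum Φ.cl P = 0 := by
  classical
  have hinj := good_tr K
  have hw0 : ∏ i, (P i).x ≠ 0 := Finset.prod_ne_zero_iff.2 fun i _ => hx i
  have hpal : ∀ u, (atU mv.N u).reflect (2 * k) = atU mv.N u := by
    intro u
    refine Polynomial.map_injective _ hinj ?_
    rw [← reflect_map, mv.prod u, prod_ff_reflect]
  have hM0 : Frm k (Mt be P) ((∏ i, (P i).x) ^ 2) ((∏ i, ff ((P i).b be) ((P i).b ga)).coeff 0) := by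
    rw [prod_ff_coeff_zero, ← Finset.prod_pow]
    exact frm_Ch _ _ _
  have hdet0 : (Mt be P).det = C ((∏ i, (P i).x) ^ 2) * ∏ i, ff ((P i).b be) ((P i).b ga) := by
    rw [← Finset.prod_pow]
    exact det_Ch fun i => OnT_iff.1 (hP i)
  obtain ⟨u, w, M, hw, hMM, hF, hdetM, hnot⟩ := kr hk mv.dT mv.dL mv.u0 mv.t0 hpal hM0 hdet0
  have hwr : Rd π0.V π0.φ (aeval (tt K) w) (∏ i, (P i).x) := by
    rw [← hw]
    exact rd_aeval h0 w
  have hwt : aeval (tt K) w ≠ 0 := hwr.ne_zero hw0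
  have hN : (atU mv.N u).map (aeval (tt K) : K[X] →ₐ[K] Om K).toRingHom =
      ∏ i, ff (mv.bt u i be) (mv.bt u i ga) := mv.prod u
  have hφw : (aeval (tt K) : K[X] →ₐ[K] Om K).toRingHom (w ^ 2) = (aeval (tt K) w) ^ 2 := by
    rw [map_pow]
    rfl
  have hFt : Frm k (atT M) ((aeval (tt K) w) ^ 2) (∏ i, mv.bt u i be) := by
    have h1 := hF.map (aeval (tt K) : K[X] →ₐ[K] Om K).toRingHom
    rw [hφw, ← coeff_map, hN, prod_ff_coeff_zero] at h1
    exact h1
  have hdett : (atT M).det = C ((aeval (tt K) w) ^ 2) * ∏ i, ff (mv.bt u i be) (mv.bt u i ga) := by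
    have h1 : (atT M).det = mapRingHom (aeval (tt K) : K[X] →ₐ[K] Om K).toRingHom M.det := by
      rw [RingHom.map_det]
      rfl
    rw [h1, hdetM, map_mul, coe_mapRingHom, map_C, hφw, hN]
  have hr : ∀ i j n, Rd π0.V π0.φ ((atT M i j).coeff n) ((Mt be P i j).coeff n) := by
    intro i j n
    have h1 : (atT M i j).coeff n = aeval (tt K) ((M i j).coeff n) := by
      unfold atT
      rw [Matrix.map_apply, coe_mapRingHom, coeff_map]
      rfl
    have h2 : (Mt be P i j).coeff n = ((M i j).coeff n).eval 0 := by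
      rw [← hMM, Matrix.map_apply, coe_mapRingHom, coeff_map]
      rfl
    rw [h1, h2]
    exact rd_aeval h0 _
  have hTt : Ty (fun i => mv.bt u i be) (fun i => mv.bt u i ga) :=
    good_ty (fun i => mv.red u i be) (fun i => mv.red u i ga) hT
  choose c hc1 hc2 using hc
  have hlift : ∀ σ : Equiv.Perm (Fin k), ∃ s : Fin k → Pt K A (Om K), (∀ j, (s j).b = mv.bt u (σ j)) ∧
      (∀ j, OnT be ga (s j)) ∧ Mt be s = atT M ∧ ∏ j, (s j).x = aeval (tt K) w ∧ ∀ j, Sp π0 (s j) (c σ j) := by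
    intro σ
    refine sol_lift (b := fun i => (P i).b) (mv.red u) hT (hc1 σ).b (hc1 σ).on (hc1 σ).x0 hFt hdett ?_ ?_
    · rw [(hc1 σ).M]
      exact hr
    · rw [(hc1 σ).w]
      exact hwr
  choose s hs1 hs2 hs3 hs4 hs5 using hlift
  have hSol : ∀ σ, Sol be ga (mv.bt u) (atT M) (aeval (tt K) w) (s σ) := fun σ =>
    ⟨⟨σ, hs1 σ⟩, hs2 σ, hs3 σ, hs4 σ⟩
  let I : Finset (Equiv.Perm (Fin k) × (Fin k → ℤˣ)) :=
    Finset.univ ×ˢ (Finset.univ.filter fun ε : Fin k → ℤˣ => ∏ j, ε j = 1)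
  have hImem : ∀ p : Equiv.Perm (Fin k) × (Fin k → ℤˣ), p ∈ I ↔ ∏ j, p.2 j = 1 := by
    intro p
    simp [I]
  let F : Equiv.Perm (Fin k) × (Fin k → ℤˣ) → (Fin k → Pt K A (Om K)) := fun p => sg p.2 (s p.1)
  have hFSol : ∀ p ∈ I, Sol be ga (mv.bt u) (atT M) (aeval (tt K) w) (F p) := fun p hp =>
    sol_sg (hSol p.1) ((hImem p).1 hp)
  have hall : ∀ t, Sol be ga (mv.bt u) (atT M) (aeval (tt K) w) t → ∃ p ∈ I, F p = t := by
    intro t ht
    obtain ⟨ρ, hρ⟩ := ht.b
    obtain ⟨ε, hε, rfl⟩ := sol_signs hTt hwt (hSol ρ) ht (fun j => by rw [hs1 ρ j, hρ j])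
    exact ⟨(ρ, ε), (hImem _).2 hε, rfl⟩
  have hbinj : ∀ i j, mv.bt u i = mv.bt u j → i = j := by
    intro i j hij
    by_contra hne
    refine hTt.co i j hne ?_
    show mv.bt u i ga * mv.bt u j be = mv.bt u j ga * mv.bt u i be
    rw [hij]
  have hFinj : ∀ p ∈ I, ∀ q ∈ I, F p = F q → p = q := by
    rintro ⟨σ, ε⟩ hp ⟨σ', ε'⟩ hq hpq
    have h1 : σ = σ' := by
      ext j
      have h2 : (sg ε (s σ) j).b = (sg ε' (s σ') j).b := congrArg (fun t => (t j).b) hpq
      have h3 : (s σ j).b = (s σ' j).b := h2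
      rw [hs1, hs1] at h3
      rw [hbinj _ _ h3]
    subst h1
    have h2 : ε = ε' := sg_inj (fun j => (hSol σ).x0 hwt j) hpq
    rw [h2]
  have hnd : (I.val.map F).Nodup := Multiset.Nodup.map_on
    (fun p hp q hq => hFinj p hp q hq) I.nodup
  have hmem : ∀ t ∈ I.val.map F, Sol be ga (mv.bt u) (atT M) (aeval (tt K) w) t := by
    intro t ht
    obtain ⟨p, hp, rfl⟩ := Multiset.mem_map.1 ht
    exact hFSol p hp
  have hGal : GalStable (I.val.map F) := by
    intro σ
    have hM' : (atT M).map (mapRingHom (σ : Om K →+* Om K)) = atT M := by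
      ext i j n
      unfold atT
      rw [Matrix.map_apply, Matrix.map_apply, coe_mapRingHom, coe_mapRingHom, coeff_map, coeff_map]
      have h1 : ∀ p : K[X], (σ : Om K →+* Om K) (aeval (tt K) p) = aeval (tt K) p := by
        intro p
        have h2 : (σ.toAlgHom.restrictScalars K) (aeval (tt K) p) =
            aeval ((σ.toAlgHom.restrictScalars K) (tt K)) p := (aeval_algHom_apply _ _ _).symm
        have h3 : (σ.toAlgHom.restrictScalars K) (tt K) = tt K := σ.commutes _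
        rw [h3] at h2
        exact h2
      exact h1 _
    have hw' : σ (aeval (tt K) w) = aeval (tt K) w := by
      have h2 : (σ.toAlgHom.restrictScalars K) (aeval (tt K) w) =
          aeval ((σ.toAlgHom.restrictScalars K) (tt K)) w := (aeval_algHom_apply _ _ _).symm
      have h3 : (σ.toAlgHom.restrictScalars K) (tt K) = tt K := σ.commutes _
      rw [h3] at h2
      exact h2
    have hnd' : ((I.val.map F).map (gal σ)).Nodup := hnd.map (good_gal_inj σ)
    refine Multiset.eq_of_le_of_card_le ((Multiset.le_iff_subset hnd').2 ?_) ?_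
    · intro t ht
      obtain ⟨t', ht', rfl⟩ := Multiset.mem_map.1 ht
      obtain ⟨p, hp, hpe⟩ := hall _ (sol_gal (hmem t' ht') σ (mv.gal u σ) hM' hw')
      exact Multiset.mem_map.2 ⟨p, hp, hpe⟩
    · rw [Multiset.card_map (gal σ)]
  have hLim : Lim Φ.cl π0 (I.val.map F) (I.val.map fun p => Φ.cl (sg p.2 (c p.1))).sum :=
    Lim.map _ _ _ fun p _ => Or.inl ⟨sg p.2 (c p.1), fun j => Sp_sg (hs5 p.1) p.2 j, rfl⟩
  obtain ⟨π', hπ'⟩ := H71.K3.place_inf K
  have hzero := Φ.eq_zero (fun t ht => (hmem t ht).on) hGal hLim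
    (fun t ht => sol_inf mv hnot hπ' (hmem t ht))
  have hsum : (I.val.map fun p => Φ.cl (sg p.2 (c p.1))).sum =
      (Finset.univ.filter fun ε : Fin k → ℤˣ => ∏ j, ε j = 1).card • altSum Φ.cl P := by
    have h1 : (I.val.map fun p => Φ.cl (sg p.2 (c p.1))).sum = ∑ p ∈ I, Φ.cl (sg p.2 (c p.1)) := rfl
    rw [h1, Finset.sum_product, altSum, Finset.smul_sum]
    refine Finset.sum_congr rfl fun σ _ => ?_
    rw [← hc2 σ, ← Finset.sum_const]
    refine Finset.sum_congr rfl fun ε hε => ?_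
    rw [cl_sg Φ hI (hc1 σ).on, (Finset.mem_filter.1 hε).2]
    simp
  rw [hsum] at hzero
  refine tf _ _ ?_ hzero
  refine (Finset.card_pos.2 ⟨1, ?_⟩).ne'
  rw [Finset.mem_filter]
  exact ⟨Finset.mem_univ _, by simp⟩

end H19.ES
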