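import Pool.Agent.H19.ES.Psi
import Pool.Agent.H19.ES.Hom

/-! # ES.Hor : moving the base point (about 180 lines)

Let `P = (b₀, w₀, δ₀)` be a point of `T`.  `F₀ := -(w₀⁴ - 2 γ w₀² + β²) ∈ A`, `b₀ F₀ = δ₀²`.  `Z` = the finite set of all homomorphisms `z : A → K` with `z t ∈ B ∪ {b₀ t}` (`finite_hom`); `c₁` another value, `z₁` over `c₁` (`exists_hom`).
By `interp` there is `Y ∈ A` with `b₀ Y = δ₀`, `(z Y)² ≠ z F₀` for the other `z ∈ Z` and for `z₁` (choose values: `K` is infinite).  In particular `Y² ≠ F₀`.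
`Ω' = AlgebraicClosure (FractionRing A)`, `ρ ∈ Ω'` with `ρ² = F₀`, `D = A[ρ] ⊆ Ω'` (as a `K`-algebra: `Subalgebra`/`Algebra.adjoin K (range ∪ {ρ})`), a domain, integral over `A`, finite type over `K`.  By `lift_hom` there is `p₀ : D → K` over `b₀`; `p₀ ρ = ± δ₀`; if `p₀ ρ = -δ₀`
replace `ρ` by `-ρ`.  `f := ρ - Y`; `p₀ f = 0`.  `f` is transcendental over `K`: otherwise, `K` being algebraically closed and `D` a domain, `f = c ∈ K`, `c = p₀ f = 0`, `ρ = Y`, `F₀ = Y²`: no.
`D` is algebraic over `K[t]` (`A` is integral over `K[X]`), so over `K[f]` (`alg_of`).  Apply `psi` with `q` = the inclusion `A → D`, `x = w₀` (constant), `y = ρ`: `hOn`: `ρ² + w₀⁴ - 2γw₀² + β² = 0`.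
`hz`: let `p f = 0`, `z = p|A`, `p ρ = z Y`, so `z F₀ = (z Y)²`.  If `z t ∈ B ∪ {b₀ t}` then `z = b₀` by the choice of `Y` and `p ρ = δ₀`: the same point.  Otherwise `z t ∉ B` and the hypothesis `h` applies. -/

namespace H19.ES

open H68.BB Polynomial

variable {K A : Type} [Field K] [IsAlgClosed K] [CharZero K] [CommRing A] [IsDomain A] [Algebra K A] [Algebra K[X] A]
  [IsScalarTower K K[X] A] [Module.Finite K[X] A] [FaithfulSMul K[X] A] {G : Type} [AddCommGroup G]

/-- an element which is integral over `K[X]` is algebraic over `K[t]` -/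
private theorem alg_of_int {K D : Type} [Field K] [CommRing D] [Nontrivial D] [Algebra K D] (φ : K[X] →ₐ[K] D) {r : D}
    (hr : φ.toRingHom.IsIntegralElem r) : IsAlgebraic (Algebra.adjoin K {φ X}) r := by
  obtain ⟨p, hp, h0⟩ := hr
  let ψ : K[X] →ₐ[K] Algebra.adjoin K {φ X} :=
    Polynomial.aeval (⟨φ X, Algebra.self_mem_adjoin_singleton K (φ X)⟩ : Algebra.adjoin K {φ X})
  have h1 : (algebraMap (Algebra.adjoin K {φ X}) D).comp ψ.toRingHom = φ.toRingHom := by
    have h2 : (Algebra.adjoin K {φ X}).val.comp ψ = φ := by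
      ext
      simp [ψ]
    exact congrArg AlgHom.toRingHom h2
  have h3 : IsIntegral (Algebra.adjoin K {φ X}) r := by
    refine ⟨p.map ψ.toRingHom, hp.map _, ?_⟩
    rw [Polynomial.eval₂_map, h1]
    exact h0
  exact h3.isAlgebraic

omit [CharZero K] in
/-- a curve over `Spec A` with a given square root -/
private theorem exists_root (F0 : A) : ∃ (D : Type) (_ : CommRing D) (_ : IsDomain D) (_ : Algebra K D)
    (_ : Algebra.FiniteType K D) (q : A →ₐ[K] D) (ρ : D), Function.Injective q ∧ ρ ^ 2 = q F0 ∧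
    Algebra.adjoin K (Set.range q ∪ {ρ}) = ⊤ ∧ q.toRingHom.IsIntegral ∧
    ∀ r : D, IsAlgebraic (Algebra.adjoin K {q (tA K A)}) r := by
  have hint : (algebraMap K[X] A).IsIntegral := algebraMap_isIntegral_iff.2 inferInstance
  have ht : Transcendental K (tA K A) := by
    unfold tA
    rw [transcendental_algebraMap_iff (FaithfulSMul.algebraMap_injective K[X] A)]
    exact Polynomial.transcendental_X K
  have halgA : ∀ r : A, IsAlgebraic (Algebra.adjoin K {tA K A}) r := fun r =>
    alg_of_int (IsScalarTower.toAlgHom K K[X] A) (hint r)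
  obtain ⟨ι, hι, -⟩ := emb_exists (tA K A) ht halgA
  obtain ⟨s, hs⟩ := IsAlgClosed.exists_pow_nat_eq (ι F0) (n := 2) (by norm_num)
  let Ψ : A[X] →ₐ[K] Om K := Polynomial.eval₂AlgHom ι s (fun _ => Commute.all _ _)
  have hΨC : ∀ a, Ψ (C a) = ι a := fun a => Polynomial.eval₂_C _ _
  have hΨX : Ψ X = s := Polynomial.eval₂_X _ _
  let q : A →ₐ[K] Ψ.range := ι.codRestrict Ψ.range (fun a => ⟨C a, hΨC a⟩)
  let ρ : Ψ.range := ⟨s, X, hΨX⟩
  have hq : Function.Injective q := fun a b hab => hι (congrArg Subtype.val hab)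
  have hρ : ρ ^ 2 = q F0 := Subtype.ext hs
  have hΨ : ∀ r : Ψ.range, ∃ p : A[X], Ψ.rangeRestrict p = r := fun r => by
    obtain ⟨p, hp⟩ := r.2
    exact ⟨p, Subtype.ext hp⟩
  have hC : ∀ a, Ψ.rangeRestrict (C a) = q a := fun a => Subtype.ext (hΨC a)
  have hX : Ψ.rangeRestrict X = ρ := Subtype.ext hΨX
  have hqint : q.toRingHom.IsIntegral := by
    intro r
    obtain ⟨p, rfl⟩ := hΨ r
    have hρi : q.toRingHom.IsIntegralElem ρ := by
      refine ⟨X ^ 2 - C F0, monic_X_pow_sub_C _ (by norm_num), ?_⟩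
      rw [Polynomial.eval₂_sub, Polynomial.eval₂_X_pow, Polynomial.eval₂_C, hρ]
      exact sub_self _
    induction p using Polynomial.induction_on' with
    | add p1 p2 h1 h2 =>
      rw [map_add]
      exact RingHom.IsIntegralElem.add _ h1 h2
    | monomial n a =>
      rw [← Polynomial.C_mul_X_pow_eq_monomial, map_mul, map_pow, hC, hX]
      refine RingHom.IsIntegralElem.mul _ (RingHom.isIntegralElem_map _) ?_
      induction n with
      | zero => rw [pow_zero]; exact RingHom.isIntegralElem_one _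
      | succ n ih => rw [pow_succ]; exact RingHom.IsIntegralElem.mul _ ih hρi
  have hfin : Algebra.FiniteType K Ψ.range := by
    have h1 : Algebra.FiniteType K A := Algebra.FiniteType.trans (S := K[X]) inferInstance inferInstance
    have h2 : Algebra.FiniteType K A[X] := Algebra.FiniteType.trans (S := A) h1 inferInstance
    exact Algebra.FiniteType.of_surjective Ψ.rangeRestrict Ψ.rangeRestrict_surjective
  refine ⟨Ψ.range, inferInstance, inferInstance, inferInstance, hfin, q, ρ, hq, hρ, ?_, hqint, ?_⟩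
  · rw [eq_top_iff]
    rintro r -
    obtain ⟨p, rfl⟩ := hΨ r
    induction p using Polynomial.induction_on' with
    | add p1 p2 h1 h2 =>
      rw [map_add]
      exact add_mem h1 h2
    | monomial n a =>
      rw [← Polynomial.C_mul_X_pow_eq_monomial, map_mul, map_pow, hC, hX]
      have m1 : q a ∈ Algebra.adjoin K (Set.range q ∪ {ρ}) := Algebra.subset_adjoin (Set.mem_union_left _ ⟨a, rfl⟩)
      have m2 : ρ ∈ Algebra.adjoin K (Set.range q ∪ {ρ}) := Algebra.subset_adjoin (Set.mem_union_right _ rfl)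
      exact mul_mem m1 (pow_mem m2 n)
  · intro r
    exact alg_of_int (q.comp (IsScalarTower.toAlgHom K K[X] A)) (RingHom.IsIntegral.trans _ _ hint hqint r)

/-- an algebraic element of a domain over an algebraically closed field is a constant -/
private theorem const_of_alg {K D : Type} [Field K] [IsAlgClosed K] [CommRing D] [IsDomain D] [Algebra K D] {f : D}
    (hf : IsAlgebraic K f) : ∃ c : K, f = algebraMap K D c := by
  have h1 : IsIntegral K f := hf.isIntegral
  have h2 := IsAlgClosed.degree_eq_one_of_irreducible K (minpoly.irreducible h1)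
  obtain ⟨c, hc⟩ := minpoly.mem_range_of_degree_eq_one K f h2
  exact ⟨c, hc.symm⟩

theorem hor {be ga : A} (tf : TF G) (Φ : Fnl (OnT be ga) 1 G) (B : Finset K)
    (h : ∀ P : Pt K A K, OnT be ga P → P.b (tA K A) ∉ B → Φ.cl (fun _ => P) = 0) (P : Pt K A K) (hP : OnT be ga P) :
    Φ.cl (fun _ => P) = 0 := by
  classical
  obtain ⟨b0, w0, d0⟩ := P
  have hP' : d0 ^ 2 + w0 ^ 4 - 2 * b0 ga * w0 ^ 2 + b0 be ^ 2 = 0 := hP
  set F0 : A := 2 * algebraMap K A (w0 ^ 2) * ga - algebraMap K A (w0 ^ 4) - be ^ 2 with hF0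
  have hbF : ∀ z : A →ₐ[K] K, z F0 = 2 * w0 ^ 2 * z ga - w0 ^ 4 - z be ^ 2 := by
    intro z
    simp only [hF0, map_sub, map_mul, map_pow, map_ofNat, AlgHom.commutes, Algebra.algebraMap_self, RingHom.id_apply]
  -- the finite set of homomorphisms
  have hfin : {z : A →ₐ[K] K | z (tA K A) ∈ insert (b0 (tA K A)) B}.Finite := finite_hom _
  obtain ⟨c1, hc1⟩ := Infinite.exists_notMem_finset (insert (b0 (tA K A)) B)
  obtain ⟨z1, hz1⟩ := exists_hom (A := A) c1
  have hfin' : (insert z1 {z : A →ₐ[K] K | z (tA K A) ∈ insert (b0 (tA K A)) B}).Finite := hfin.insert z1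
  have : Finite (insert z1 {z : A →ₐ[K] K | z (tA K A) ∈ insert (b0 (tA K A)) B} : Set (A →ₐ[K] K)) :=
    hfin'.to_subtype
  obtain ⟨Y, hY⟩ := interp (fun z : (insert z1 {z : A →ₐ[K] K | z (tA K A) ∈ insert (b0 (tA K A)) B} :
    Set (A →ₐ[K] K)) => (z : A →ₐ[K] K)) Subtype.val_injective
    (fun z => if (z : A →ₐ[K] K) = b0 then d0 else if (z : A →ₐ[K] K) F0 = 0 then 1 else 0)
  have hYb : b0 Y = d0 := by
    have := hY ⟨b0, Or.inr (Finset.mem_insert_self _ _)⟩
    simpa using this
  have hYz : ∀ z : A →ₐ[K] K, (z = z1 ∨ z (tA K A) ∈ insert (b0 (tA K A)) B) → z ≠ b0 → (z Y) ^ 2 ≠ z F0 := by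
    intro z hz hzb
    have h1 := hY ⟨z, hz⟩
    simp only [hzb, if_false] at h1
    rw [h1]
    split_ifs with h2
    · rw [h2]
      norm_num
    · intro h3
      apply h2
      rw [← h3]
      norm_num
  have hz1b : z1 ≠ b0 := by
    rintro rfl
    apply hc1
    rw [← hz1]
    exact Finset.mem_insert_self _ _
  have hYF : Y ^ 2 ≠ F0 := by
    intro h1
    apply hYz z1 (Or.inl rfl) hz1b
    rw [← map_pow, h1]
  -- the curve
  obtain ⟨D, _, _, _, _, q, ρ, hq, hρ, hgen, hint, halg⟩ := exists_root (K := K) (A := A) F0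
  obtain ⟨p0, hp0⟩ := lift_hom q hq hint b0
  have hp0q : ∀ a, p0 (q a) = b0 a := fun a => by rw [← hp0]; rfl
  have hpm : p0 ρ ^ 2 = d0 ^ 2 := by
    rw [← map_pow, hρ, hp0q, hbF]
    linear_combination (-1 : K) * hP'
  obtain ⟨y, hy, hyd⟩ : ∃ y : D, (y = ρ ∨ y = -ρ) ∧ p0 y = d0 := by
    rcases sq_eq_sq_iff_eq_or_eq_neg.1 hpm with h1 | h1
    · exact ⟨ρ, Or.inl rfl, h1⟩
    · exact ⟨-ρ, Or.inr rfl, by rw [map_neg, h1, neg_neg]⟩
  have hy2 : y ^ 2 = q F0 := by
    rcases hy with rfl | rfl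
    · exact hρ
    · rw [neg_sq, hρ]
  have hOnD : y ^ 2 + (algebraMap K D w0) ^ 4 - 2 * q ga * (algebraMap K D w0) ^ 2 + (q be) ^ 2 = 0 := by
    rw [hy2, hF0]
    simp only [map_sub, map_mul, map_pow, map_ofNat, AlgHom.commutes]
    ring
  have hOn : ∀ (F : Type) [Field F] [Algebra K F] (j : D →ₐ[K] F),
      OnT be ga (⟨j.comp q, j (algebraMap K D w0), j y⟩ : Pt K A F) := by
    intro F _ _ j
    have h1 := congrArg j hOnD
    simp only [map_add, map_sub, map_mul, map_pow, map_zero, map_ofNat] at h1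
    exact h1
  have hgen' : Algebra.adjoin K (Set.range q ∪ {algebraMap K D w0, y}) = ⊤ := by
    rw [eq_top_iff, ← hgen, Algebra.adjoin_le_iff]
    rintro r (⟨a, rfl⟩ | hr)
    · exact Algebra.subset_adjoin (Or.inl ⟨a, rfl⟩)
    · rw [Set.mem_singleton_iff.1 hr]
      have h1 : y ∈ Algebra.adjoin K (Set.range q ∪ {algebraMap K D w0, y}) :=
        Algebra.subset_adjoin (Or.inr (Or.inr rfl))
      rcases hy with h2 | h2
      · rw [← h2]; exact h1
      · have h3 := neg_mem h1
        rw [h2, neg_neg] at h3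
        rw [h2] at h1 ⊢
        exact h3
  set f : D := y - q Y with hf
  have hp0f : p0 f = 0 := by rw [hf, map_sub, hyd, hp0q, hYb, sub_self]
  have hft : Transcendental K f := by
    intro h1
    obtain ⟨c, hc⟩ := const_of_alg h1
    have h2 : c = 0 := by
      have h3 := hp0f
      rw [hc, AlgHom.commutes] at h3
      exact h3
    rw [h2, map_zero, hf, sub_eq_zero] at hc
    apply hYF
    apply hq
    rw [map_pow, ← hc, hy2]
  have hfin := psi (On := OnT be ga) tf Φ q (algebraMap K D w0) y hgen' f hft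
    (fun r => alg_of (q (tA K A)) f halg hft r) (fun j => hOn (Om K) j) p0 hp0f (by
      intro p hpf
      have hpy : p y = p (q Y) := by
        rw [hf, map_sub, sub_eq_zero] at hpf
        exact hpf
      have hpF : (p (q Y)) ^ 2 = p (q F0) := by rw [← hpy, ← map_pow, hy2]
      by_cases hz : (p.comp q) (tA K A) ∈ insert (b0 (tA K A)) B
      · left
        have h1 : p.comp q = b0 := by
          by_contra hne
          exact hYz (p.comp q) (Or.inr hz) hne hpF
        have h2 : ∀ a, p (q a) = b0 a := fun a => by rw [← h1]; rfl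
        refine Pt.ext ?_ ?_ ?_
        · show p.comp q = p0.comp q
          rw [h1, hp0]
        · show p (algebraMap K D w0) = p0 (algebraMap K D w0)
          rw [AlgHom.commutes, AlgHom.commutes]
        · show p y = p0 y
          rw [hpy, h2, hYb, hyd]
      · right
        exact h _ (hOn K p) (fun h1 => hz (Finset.mem_insert_of_mem h1)))
  have e : (⟨p0.comp q, p0 (algebraMap K D w0), p0 y⟩ : Pt K A K) = ⟨b0, w0, d0⟩ := by
    rw [hp0, hyd, AlgHom.commutes]
    rfl
  rw [e] at hfin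
  exact hfin

end H19.ES
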