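import Pool.Agent.H19.ES.Def2
import Pool.Agent.H67.KH.Roots
import Pool.Agent.H71.K3.PlInf

/-! # ES.Vert : moving in a fibre (about 180 lines)

Let `P = (b₀, w₀, δ₀)`.  The points `R = (b₀, w, δ)` of `T` over `b₀` with `κ(R) ∈ B` are finitely many: `κ = δ + i(β + x)` gives `κ(κ - 2iβ) = x (2(γ+β) + 2iκ)` with `2(γ+β) + 2iκ ≠ 0` (otherwise `κ(κ-2iβ) = -(γ²-β²) ≠ 0`), so `κ` determines `x = w²` (two values
of `w`) and `δ`.  Choose `μ ∈ K` different from all `(δ_R - δ₀)/(w_R - w₀)` for these `R` with `w_R ≠ w₀` (`K` infinite).  Over `Ω` let `Q(Y) = (δ₀ + tt + μ(Y - w₀))² + Y⁴ - 2γY² + β²`, monic of degree 4; the multiset of its four roots `w` gives the points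
`(b₀, w, δ₀ + tt + μ(w - w₀))` of `T`, Galois-stable (`roots_sigma`).  At `π₀` (`tt ↦ 0`, `place_exists K 0`) the roots reduce to the roots of `Q₀(Y) = (δ₀ + μ(Y - w₀))² + Y⁴ - 2γY² + β²` (`roots_rd`), points `R` of the line
`δ = δ₀ + μ(w - w₀)`: if `w_R = w₀` then `R = P`; if `w_R ≠ w₀` then `κ(R) ∉ B` by the choice of `μ`, so `Φ(R) = 0` by `h`.  So the limit is `n₀ • Φ(P)`, `n₀` = multiplicity of the root `w₀` of `Q₀`, `≥ 1`.
At the place with `tt ∉ V` all points are dropped (`tt = δ - δ₀ - μ(w - w₀)`).  `Fnl.eq_zero`, `Lim.rel`, `TF`. -/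

namespace H19.ES

open H68.BB Polynomial

section quartic
variable {F : Type} [Field F]

/-- the quartic `(e + m (Y - w0))² + Y⁴ - 2 g Y² + b²` -/
private noncomputable def Qp (e m w0 g b : F) : F[X] :=
  X ^ 4 + (C (m ^ 2 - 2 * g) * X ^ 2 + C (2 * m * (e - m * w0)) * X + C ((e - m * w0) ^ 2 + b ^ 2))

private theorem Qp_deg (e m w0 g b : F) :
    (C (m ^ 2 - 2 * g) * X ^ 2 + C (2 * m * (e - m * w0)) * X + C ((e - m * w0) ^ 2 + b ^ 2) : F[X]).degree < 4 := by
  refine lt_of_le_of_lt (b := ((2 : ℕ) : WithBot ℕ)) ?_ (by norm_cast)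
  compute_degree
  norm_num

private theorem Qp_monic (e m w0 g b : F) : (Qp e m w0 g b).Monic :=
  monic_X_pow_add (n := 4) (Qp_deg e m w0 g b)

private theorem Qp_nd (e m w0 g b : F) : (Qp e m w0 g b).natDegree = 4 := by
  unfold Qp
  compute_degree!

private theorem quad_ne {c e : F} (h : (C c * X ^ 2 - C e : F[X]) = 0) : c = 0 ∧ e = 0 := by
  have h2 := congrArg (fun p : F[X] => p.coeff 2) h
  have h1 := congrArg (fun p : F[X] => p.coeff 0) h
  simp [coeff_X_pow, coeff_C] at h1 h2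
  exact ⟨h2, h1⟩

private theorem Qp_eval (e m w0 g b r : F) : (Qp e m w0 g b).eval r =
    (e + m * (r - w0)) ^ 2 + r ^ 4 - 2 * g * r ^ 2 + b ^ 2 := by
  unfold Qp
  simp only [eval_add, eval_mul, eval_pow, eval_X, eval_C]
  ring

private theorem Qp_map {F' : Type} [Field F'] (f : F →+* F') (e m w0 g b : F) :
    (Qp e m w0 g b).map f = Qp (f e) (f m) (f w0) (f g) (f b) := by
  unfold Qp
  have h2 : f 2 = 2 := map_ofNat f 2
  simp only [Polynomial.map_add, Polynomial.map_mul, Polynomial.map_pow, map_X, map_C, map_sub, map_mul, map_pow, h2,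
    map_add, Polynomial.map_sub]

private theorem Qp_mem (e m w0 g b r : F) : r ∈ (Qp e m w0 g b).roots ↔
    (e + m * (r - w0)) ^ 2 + r ^ 4 - 2 * g * r ^ 2 + b ^ 2 = 0 := by
  rw [mem_roots (Qp_monic e m w0 g b).ne_zero, IsRoot, Qp_eval]

end quartic

variable {K A : Type} [Field K] [IsAlgClosed K] [CharZero K] [CommRing A] [Algebra K A] {G : Type} [AddCommGroup G]

omit [IsAlgClosed K] [CharZero K] in
private theorem Qp_rd {π : Place K (Om K)} {e m w0 g b : Om K} {e' m' w0' g' b' : K} (he : Rd π.V π.φ e e')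
    (hm : Rd π.V π.φ m m') (hw : Rd π.V π.φ w0 w0') (hg : Rd π.V π.φ g g') (hb : Rd π.V π.φ b b') (i : ℕ) :
    Rd π.V π.φ ((Qp e m w0 g b).coeff i) ((Qp e' m' w0' g' b').coeff i) := by
  have hz : Rd π.V π.φ (e - m * w0) (e' - m' * w0') := he.sub (hm.mul hw)
  unfold Qp
  simp only [coeff_add, coeff_C_mul, coeff_X_pow, coeff_X, coeff_C]
  refine Rd.add ?_ (Rd.add (Rd.add (Rd.mul ((hm.pow 2).sub (Rd.two.mul hg)) ?_) (Rd.mul ((Rd.two.mul hm).mul hz) ?_)) ?_)
  · split_ifs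
    · exact Rd.one
    · exact Rd.zero
  · split_ifs
    · exact Rd.one
    · exact Rd.zero
  · split_ifs
    · exact Rd.one
    · exact Rd.zero
  · split_ifs
    · exact (hz.pow 2).add (hb.pow 2)
    · exact Rd.zero

/-- the moving point -/
private noncomputable def mp (b0 : A →ₐ[K] K) (e m w0 : Om K) (w : Om K) : Fin 1 → Pt K A (Om K) :=
  fun _ => ⟨(Algebra.ofId K (Om K)).comp b0, w, e + m * (w - w0)⟩

private theorem bad_mu {im : K} (him : im ^ 2 = -1) (g b w0 d0 : K) (hns : g ^ 2 ≠ b ^ 2) (B : Finset K) :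
    ∃ mu : K, ∀ w, w ≠ w0 → (d0 + mu * (w - w0)) ^ 2 + w ^ 4 - 2 * g * w ^ 2 + b ^ 2 = 0 →
      (d0 + mu * (w - w0)) + im * (b + w ^ 2) ∉ B := by
  classical
  obtain ⟨mu, hmu⟩ := Infinite.exists_notMem_finset (B.biUnion fun k =>
    (C (2 * (g + b) + 2 * im * k) * X ^ 2 - C (k * (k - 2 * im * b)) : K[X]).roots.toFinset.image
      fun w => (k - im * (b + w ^ 2) - d0) / (w - w0))
  refine ⟨mu, fun w hw h hk => hmu ?_⟩
  rw [Finset.mem_biUnion]
  refine ⟨_, hk, ?_⟩
  rw [Finset.mem_image]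
  refine ⟨w, ?_, ?_⟩
  · rw [Multiset.mem_toFinset, mem_roots']
    constructor
    · intro h0
      obtain ⟨h2, h6⟩ := quad_ne h0
      apply hns
      set k := (d0 + mu * (w - w0)) + im * (b + w ^ 2) with hkdef
      have h3 : k = im * (g + b) := by
        have h4 : 2 * (k - im * (g + b)) = 0 := by
          linear_combination (-im) * h2 + 2 * k * him
        have h5 := (mul_eq_zero.1 h4).resolve_left two_ne_zero
        linear_combination h5
      rw [h3] at h6
      linear_combination (-1 : K) * h6 + (g ^ 2 - b ^ 2) * him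
    · simp only [IsRoot, eval_sub, eval_mul, eval_pow, eval_X, eval_C]
      linear_combination (-1 : K) * h + (b + w ^ 2) ^ 2 * him
  · rw [div_eq_iff (sub_ne_zero.2 hw)]
    ring

theorem vert {im : K} (him : im ^ 2 = -1) {be ga : A} (tf : TF G) (Φ : Fnl (OnT be ga) 1 G) (b0 : A →ₐ[K] K)
    (hns : b0 ga ^ 2 ≠ b0 be ^ 2) (B : Finset K)
    (h : ∀ P : Pt K A K, P.b = b0 → OnT be ga P → kap im be P ∉ B → Φ.cl (fun _ => P) = 0) (P : Pt K A K)
    (hb : P.b = b0) (hP : OnT be ga P) : Φ.cl (fun _ => P) = 0 := by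
  classical
  obtain ⟨bP, w0, d0⟩ := P
  change bP = b0 at hb
  subst hb
  change d0 ^ 2 + w0 ^ 4 - 2 * bP ga * w0 ^ 2 + bP be ^ 2 = 0 at hP
  obtain ⟨mu, hmu⟩ := bad_mu him (bP ga) (bP be) w0 d0 hns B
  obtain ⟨π0, ht0, hφ0⟩ := place_exists K (0 : K)
  obtain ⟨π1, hπ1⟩ := H71.K3.place_inf K
  set p : (Om K)[X] := Qp (cst d0 + tt K) (cst mu) (cst w0) (cst (bP ga)) (cst (bP be)) with hp
  set p' : K[X] := Qp d0 mu w0 (bP ga) (bP be) with hp'
  set f := mp bP (cst d0 + tt K) (cst mu) (cst w0) with hf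
  have hrel : Multiset.Rel (Rd π0.V π0.φ) p.roots p'.roots := by
    refine H67.KH.roots_rd (Qp_monic _ _ _ _ _).ne_zero (fun i => ?_) (by rw [hp, hp', Qp_nd, Qp_nd])
    refine Qp_rd ?_ (π0.const mu) (π0.const w0) (π0.const _) (π0.const _) i
    have h1 := Rd.add (π0.const d0) (⟨ht0, hφ0⟩ : Rd π0.V π0.φ (tt K) 0)
    rw [add_zero] at h1
    exact h1
  set g : K → G := fun w => Φ.cl (fun _ => ⟨bP, w, d0 + mu * (w - w0)⟩) with hg
  have hlim : Lim Φ.cl π0 (p.roots.map f) (p'.roots.map g).sum := by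
    refine Lim.rel hrel f g fun w _ w' _ hr => Or.inl ⟨_, fun i => ?_, rfl⟩
    refine ⟨fun r => π0.const _, hr, ?_⟩
    change Rd π0.V π0.φ (cst d0 + tt K + cst mu * (w - cst w0)) (d0 + mu * (w' - w0))
    have h1 := Rd.add (π0.const d0) (⟨ht0, hφ0⟩ : Rd π0.V π0.φ (tt K) 0)
    rw [add_zero] at h1
    exact h1.add (Rd.mul (π0.const mu) (hr.sub (π0.const w0)))
  have hOn : ∀ s ∈ p.roots.map f, ∀ i, OnT be ga (s i) := by
    intro s hs i
    obtain ⟨w, hw, rfl⟩ := Multiset.mem_map.1 hs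
    rw [hp, Qp_mem] at hw
    exact hw
  have hGal : GalStable (p.roots.map f) := by
    intro σ
    have htt : σ (tt K) = tt K := σ.commutes RatFunc.X
    have hcst : ∀ c : K, σ (cst c) = cst c := fun c => (σ.toAlgHom.restrictScalars K).commutes c
    have h1 : (gal σ ∘ f) = f ∘ σ := by
      funext w
      funext i
      have h2 : (σ.toAlgHom.restrictScalars K).comp ((Algebra.ofId K (Om K)).comp bP) = (Algebra.ofId K (Om K)).comp bP := by
        ext r
        exact hcst _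
      have h3 : σ (cst d0 + tt K + cst mu * (w - cst w0)) = cst d0 + tt K + cst mu * (σ w - cst w0) := by
        rw [map_add, map_add, map_mul, map_sub, htt, hcst, hcst, hcst]
      exact Pt.ext h2 rfl h3
    rw [Multiset.map_map, h1, ← Multiset.map_map, H67.KH.roots_sigma, hp, Qp_map]
    have h4 : (σ : Om K →+* Om K) (cst d0 + tt K) = cst d0 + tt K := by
      change σ (cst d0 + tt K) = _
      rw [map_add, htt, hcst]
    have h5 : ∀ c : K, (σ : Om K →+* Om K) (cst c) = cst c := hcst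
    rw [h4, h5, h5, h5, h5]
  have hdrop : ∀ s ∈ p.roots.map f, ∃ i, ¬ Int π1 (s i) := by
    intro s hs
    obtain ⟨w, hw, rfl⟩ := Multiset.mem_map.1 hs
    refine ⟨0, fun hi => hπ1 ?_⟩
    have h1 : w ∈ π1.V := hi.2.1
    have h2 : cst d0 + tt K + cst mu * (w - cst w0) ∈ π1.V := hi.2.2
    have h3 : tt K = (cst d0 + tt K + cst mu * (w - cst w0)) - cst d0 - cst mu * (w - cst w0) := by ring
    rw [h3]
    exact sub_mem (sub_mem h2 (Rd.mem (π1.const d0))) (mul_mem (Rd.mem (π1.const mu)) (sub_mem h1 (Rd.mem (π1.const w0))))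
  have hz := Φ.eq_zero hOn hGal hlim hdrop
  have hmem : w0 ∈ p'.roots := by
    rw [hp', Qp_mem]
    linear_combination hP
  have hgw : ∀ w ∈ p'.roots, w ≠ w0 → g w = 0 := by
    intro w hw hne
    rw [hp', Qp_mem] at hw
    exact h _ rfl hw (hmu w hne hw)
  rw [Finset.sum_multiset_map_count, Finset.sum_eq_single w0] at hz
  · refine tf _ _ (Multiset.count_ne_zero.2 hmem) ?_
    have h6 : g w0 = Φ.cl (fun _ => ⟨bP, w0, d0⟩) := by
      rw [hg]
      simp
    rw [← h6]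
    exact hz
  · intro w hw hne
    rw [hgw w (Multiset.mem_toFinset.1 hw) hne, smul_zero]
  · intro hnot
    exact absurd (Multiset.mem_toFinset.2 hmem) hnot

end H19.ES
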