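import Pool.Agent.H19.ES.Good
import Pool.Agent.H19.ES.Vert
import Pool.Agent.H19.ES.Hor
import Pool.Agent.H19.ES.Fub

/-! # ES.L2 : the theorem at level 2 (about 250 lines)

`l2u` (proof below); `l2` is the special case for a basis of the finite torsion-free `K[X]`-module `A` (`exists_StB`, the maximal degree of the coordinates of `be`, `ga`).  `E, k1` from `mvg m s0 e0`, `B₀` for `f, be, ga`; `k0 = max k1 1`; `Module.Finite` and `FaithfulSMul` follow from the basis (`A` is a domain).  `B` = `B₀` and the values of `t` at the zeros of `be`, `ga² - be²` (nonzero: `A` is a domain, `ga ≠ ± be`; `finite_zero`).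
(1) `l2_good`: let `b : Fin k → (A → K)` have distinct `t`-values not in `B`, pairwise coprime types: `Ty`.  Let `G ≠ 0` be the polynomial of `gen`.  `Q v` := for all tuples `P` of points of `T` with `(P i).b = b i`, `κ(P i) = v i`: `altSum Φ.cl P = 0`.  If `eval v G ≠ 0` then `Q v`: `(P i).x ≠ 0` by `Okk` (if `x = 0` then `δ = ± iβ`, `κ = 0` or `2iβ`),
`sgn_path` for the paths of `gen`, and `good` with a place `π0` with `tt ↦ 0` (`place_exists K 0`) and `mvg`.  By `fub` `Q v` holds for all `v`: `hv`: fix `P` with coordinates `update v i c`; the functional `R ↦ altSum Φ.cl (update P i R)` is a `Fnl (OnT be ga) 1 G` (`alt` and `slots` with `e 0 = i`); `vert` with the finite set `B`: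
for `R` over `b i` with `κ(R) ∉ B` the tuple `update P i R` has the coordinates `update v i (κ R)`.
(2) for arbitrary tuples: descending induction on `j`: the claim holds for all tuples `P` such that `P_0, …, P_(j-1)` have distinct `t`-values not in `B` and pairwise coprime types.  `j = k`: (1).  From `j + 1` to `j`: fix the others and move `P_j` by `hor` with the finite set `B ∪ {t(P_i), i < j} ∪ {t`-values of the zeros of
`β_i • ga - γ_i • be`, `i < j}` (nonzero elements of `A` by `hga`; `finite_zero`).  `j = 0`: all tuples. -/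

namespace H19.ES

open H68.BB Polynomial

variable {K A : Type} [Field K] [IsAlgClosed K] [CharZero K] [CommRing A] [Algebra K A]

omit [IsAlgClosed K] [CharZero K] in
/-- a functional on one slot: the alternating sum as a function of the point in the slot `i` -/
theorem l2_slot {be ga : A} {k : ℕ} {G : Type} [AddCommGroup G] (Φ : Fnl (OnT be ga) k G) (P : Fin k → Pt K A K)
    (hP : ∀ i, OnT be ga (P i)) (i : Fin k) :
    ∃ Ψ : Fnl (OnT be ga) 1 G, ∀ R : Pt K A K, Ψ.cl (fun _ => R) = altSum Φ.cl (Function.update P i R) := by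
  obtain ⟨Ψ, hΨ⟩ := alt Φ
  obtain ⟨Ψ', hΨ'⟩ := slots Ψ P (fun j => OnT_cst' (hP j)) (fun _ : Fin 1 => i) (fun a b _ => Subsingleton.elim a b)
  refine ⟨Ψ', fun R => ?_⟩
  rw [hΨ', hΨ]
  congr 1
  funext j
  by_cases hj : j = i
  · subst hj
    rw [Function.update_self]
    have hinj : Function.Injective (fun _ : Fin 1 => j) := fun a b _ => Subsingleton.elim a b
    exact hinj.extend_apply (fun _ : Fin 1 => R) P 0
  · rw [Function.update_of_ne hj]
    exact Function.extend_apply' _ _ _ (by rintro ⟨a, ha⟩; exact hj ha.symm)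

/-- good tuples -/
theorem l2_good [Algebra K[X] A] {im : K} (him : im ^ 2 = -1) {be ga : A} {k E : ℕ} (hk : 0 < k) {B : Finset K}
    (hmv : ∀ b : Fin k → (A →ₐ[K] K), Function.Injective (fun i => b i (tA K A)) → (∀ i, b i (tA K A) ∉ B) →
      ∀ π0 : Place K (Om K), Rd π0.V π0.φ (tt K) 0 → Nonempty (Mvg be ga k E b π0))
    {G : Type} [AddCommGroup G] (tf : TF G) (Φ : Fnl (OnT be ga) k G) (hI : Inv Φ) (P : Fin k → Pt K A K)
    (hP : ∀ i, OnT be ga (P i)) (hinj : Function.Injective (fun i => (P i).b (tA K A)))
    (hB : ∀ i, (P i).b (tA K A) ∉ B) (hT : Ty (fun i => (P i).b be) (fun i => (P i).b ga)) : altSum Φ.cl P = 0 := by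
  classical
  obtain ⟨Gp, hG0, hG⟩ := gen (k := k) him hT
  have key := fub hG0 (fun v => ∀ P' : Fin k → Pt K A K, (∀ i, (P' i).b = (P i).b) → (∀ i, OnT be ga (P' i)) →
    (∀ i, kap im be (P' i) = v i) → altSum Φ.cl P' = 0) ?_ ?_ (fun i => kap im be (P i)) P (fun _ => rfl) hP (fun _ => rfl)
  · exact key
  · intro v hv P' hb hP' hkap
    obtain ⟨hok, hpath⟩ := hG v hv
    have hx : ∀ i, (P' i).x ≠ 0 := by
      intro i h0
      have h1 := hP' i
      unfold OnT at h1
      rw [h0] at h1
      have h2 : ((P' i).y - im * (P' i).b be) * ((P' i).y + im * (P' i).b be) = 0 := by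
        linear_combination h1 - ((P' i).b be) ^ 2 * him
      obtain ⟨h3, h4, -⟩ := hok i
      have h5 := hkap i
      unfold kap at h5
      rw [h0] at h5
      rcases mul_eq_zero.1 h2 with h6 | h6
      · apply h4
        rw [← h5, ← hb i]
        linear_combination h6
      · apply h3
        rw [← h5]
        linear_combination h6
    have hb' : (fun i => (P' i).b) = fun i => (P i).b := funext hb
    have hT' : Ty (fun i => (P' i).b be) (fun i => (P' i).b ga) := by
      have e1 : (fun i => (P' i).b be) = fun i => (P i).b be := funext fun i => by rw [hb i]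
      have e2 : (fun i => (P' i).b ga) = fun i => (P i).b ga := funext fun i => by rw [hb i]
      rw [e1, e2]
      exact hT
    obtain ⟨π0, hV, hφ⟩ := place_exists K (0 : K)
    have h0 : Rd π0.V π0.φ (tt K) 0 := ⟨hV, hφ⟩
    have hinj' : Function.Injective (fun i => (P' i).b (tA K A)) := by
      have e3 : (fun i => (P' i).b (tA K A)) = fun i => (P i).b (tA K A) := funext fun i => by rw [hb i]
      rw [e3]
      exact hinj
    obtain ⟨mv⟩ := hmv (fun i => (P' i).b) hinj' (fun i => by rw [hb i]; exact hB i) π0 h0
    refine good hk hP' hx hT' h0 mv tf Φ hI (fun σ => ?_)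
    obtain ⟨w, hw⟩ := hpath σ
    refine sgn_path him tf Φ hI P' hP' hx hT' (σ := σ) (w := w) ?_
    have e1 : (fun i => (P' i).b be) = fun i => (P i).b be := funext fun i => by rw [hb i]
    have e2 : (fun i => (P' i).b ga) = fun i => (P i).b ga := funext fun i => by rw [hb i]
    have e3 : (fun i => kap im be (P' i)) = v := funext hkap
    rw [e1, e2, e3]
    exact hw
  · intro v i B' hc c P' hb hP' hkap
    obtain ⟨Ψ, hΨ⟩ := l2_slot Φ P' hP' i
    have h1 : Ψ.cl (fun _ => P' i) = 0 := by
      refine vert him tf Ψ (P i).b (hT.ns i) B' ?_ (P' i) (hb i) (hP' i)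
      intro R hRb hR hRB
      rw [hΨ]
      refine hc (kap im be R) hRB (Function.update P' i R) (fun j => ?_) (fun j => ?_) (fun j => ?_)
      · by_cases hj : j = i
        · subst hj; rw [Function.update_self]; exact hRb
        · rw [Function.update_of_ne hj]; exact hb j
      · by_cases hj : j = i
        · subst hj; rw [Function.update_self]; exact hR
        · rw [Function.update_of_ne hj]; exact hP' j
      · by_cases hj : j = i
        · subst hj; rw [Function.update_self, Function.update_self]
        · rw [Function.update_of_ne hj, Function.update_of_ne hj]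
          have h2 := hkap j
          rw [Function.update_of_ne hj] at h2
          exact h2
    rw [hΨ, Function.update_eq_self] at h1
    exact h1

/-- the theorem for one `k` for which moving families exist -/
theorem l2_core [IsDomain A] [Algebra K[X] A] [IsScalarTower K K[X] A] [Module.Finite K[X] A] [FaithfulSMul K[X] A]
    {im : K} (him : im ^ 2 = -1) {be ga : A} (hbe : be ≠ 0) (hga : ∀ c : K, ga ≠ algebraMap K A c * be)
    {k E : ℕ} (hk : 0 < k) {B : Finset K}
    (hmv : ∀ b : Fin k → (A →ₐ[K] K), Function.Injective (fun i => b i (tA K A)) → (∀ i, b i (tA K A) ∉ B) →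
      ∀ π0 : Place K (Om K), Rd π0.V π0.φ (tt K) 0 → Nonempty (Mvg be ga k E b π0))
    {G : Type} [AddCommGroup G] (tf : TF G) (Φ : Fnl (OnT be ga) k G) (hI : Inv Φ) (P : Fin k → Pt K A K)
    (hP : ∀ i, OnT be ga (P i)) : altSum Φ.cl P = 0 := by
  classical
  have hns : ga ^ 2 - be ^ 2 ≠ 0 := by
    intro h0
    have h1 : (ga - be) * (ga + be) = 0 := by rw [← h0]; ring
    rcases mul_eq_zero.1 h1 with h2 | h2
    · apply hga 1
      rw [map_one, one_mul]
      exact sub_eq_zero.1 h2
    · apply hga (-1)
      rw [map_neg, map_one, neg_one_mul]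
      exact eq_neg_of_add_eq_zero_left h2
  obtain ⟨B1, hB1⟩ := finite_zero (K := K) hbe
  obtain ⟨B2, hB2⟩ := finite_zero (K := K) hns
  -- descending induction: the first `j` points are general
  have main : ∀ j : ℕ, j ≤ k → ∀ P : Fin k → Pt K A K, (∀ i, OnT be ga (P i)) →
      (∀ i : Fin k, (i : ℕ) < k - j → (P i).b (tA K A) ∉ B ∪ (B1 ∪ B2)) →
      (∀ i i' : Fin k, (i : ℕ) < k - j → (i' : ℕ) < k - j → i ≠ i' → (P i).b (tA K A) ≠ (P i').b (tA K A) ∧
        (P i).b ga * (P i').b be ≠ (P i').b ga * (P i).b be) → altSum Φ.cl P = 0 := by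
    intro j
    induction j with
    | zero =>
      intro _ P hP h1 h2
      have hlt : ∀ i : Fin k, (i : ℕ) < k - 0 := fun i => by simp
      refine l2_good him hk hmv tf Φ hI P hP ?_ ?_ ?_
      · intro i i' hii
        by_contra hne
        exact (h2 i i' (hlt i) (hlt i') hne).1 hii
      · intro i hi
        exact h1 i (hlt i) (Finset.mem_union_left _ hi)
      · refine ⟨fun i h0 => ?_, fun i h0 => ?_, fun i i' hne => (h2 i i' (hlt i) (hlt i') hne).2⟩
        · exact h1 i (hlt i) (Finset.mem_union_right _ (Finset.mem_union_left _ (hB1 _ h0)))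
        · refine h1 i (hlt i) (Finset.mem_union_right _ (Finset.mem_union_right _ (hB2 _ ?_)))
          have h0' : (P i).b ga ^ 2 = (P i).b be ^ 2 := h0
          rw [map_sub, map_pow, map_pow, h0', sub_self]
    | succ j ih =>
      intro hj P hP h1 h2
      have hjk : k - (j + 1) < k := by omega
      let a : Fin k := ⟨k - (j + 1), hjk⟩
      have ha : (a : ℕ) = k - (j + 1) := rfl
      have hkj : k - j = k - (j + 1) + 1 := by omega
      -- the bad values
      have hy : ∀ i : Fin k, ∃ Bi : Finset K, (i : ℕ) < k - (j + 1) → ∀ z : A →ₐ[K] K,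
          (P i).b ga * z be = z ga * (P i).b be → z (tA K A) ∈ Bi := by
        intro i
        by_cases hi : (i : ℕ) < k - (j + 1)
        · have hbi : (P i).b be ≠ 0 := by
            intro h0
            exact h1 i hi (Finset.mem_union_right _ (Finset.mem_union_left _ (hB1 _ h0)))
          have hne : algebraMap K A ((P i).b be) * ga - algebraMap K A ((P i).b ga) * be ≠ 0 := by
            intro h0
            apply hga ((P i).b ga / (P i).b be)
            have h3 : algebraMap K A ((P i).b be)⁻¹ * (algebraMap K A ((P i).b be) * ga) =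
                algebraMap K A ((P i).b be)⁻¹ * (algebraMap K A ((P i).b ga) * be) := by
              rw [sub_eq_zero.1 h0]
            rw [← mul_assoc, ← map_mul, inv_mul_cancel₀ hbi, map_one, one_mul, ← mul_assoc, ← map_mul] at h3
            rw [div_eq_inv_mul]
            exact h3
          obtain ⟨Bi, hBi⟩ := finite_zero (K := K) hne
          refine ⟨Bi, fun _ z hz => hBi z ?_⟩
          rw [map_sub, map_mul, map_mul, z.commutes, z.commutes]
          simp only [Algebra.algebraMap_self, RingHom.id_apply]
          linear_combination -hz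
        · exact ⟨∅, fun h => absurd h hi⟩
      choose Bb hBb using hy
      obtain ⟨Ψ, hΨ⟩ := l2_slot Φ P hP a
      have h3 : Ψ.cl (fun _ => P a) = 0 := by
        refine hor tf Ψ ((B ∪ (B1 ∪ B2)) ∪ (Finset.univ.image (fun i : Fin k => (P i).b (tA K A)) ∪
          Finset.univ.biUnion Bb)) ?_ (P a) (hP a)
        intro R hR hRB
        rw [hΨ]
        have hR1 : R.b (tA K A) ∉ B ∪ (B1 ∪ B2) := fun h => hRB (Finset.mem_union_left _ h)
        have hR2 : ∀ i, R.b (tA K A) ≠ (P i).b (tA K A) := fun i h =>
          hRB (Finset.mem_union_right _ (Finset.mem_union_left _ (Finset.mem_image.2 ⟨i, Finset.mem_univ _, h.symm⟩)))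
        have hR3 : ∀ i : Fin k, (i : ℕ) < k - (j + 1) → (P i).b ga * R.b be ≠ R.b ga * (P i).b be := fun i hi h =>
          hRB (Finset.mem_union_right _ (Finset.mem_union_right _ (Finset.mem_biUnion.2
            ⟨i, Finset.mem_univ _, hBb i hi R.b h⟩)))
        have hlt : ∀ i : Fin k, (i : ℕ) < k - j → i ≠ a → (i : ℕ) < k - (j + 1) := by
          intro i hi hne
          have : (i : ℕ) ≠ k - (j + 1) := fun h => hne (Fin.ext (by rw [ha]; exact h))
          omega
        refine ih (by omega) (Function.update P a R) (fun i => ?_) (fun i hi => ?_) (fun i i' hi hi' hne => ?_)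
        · by_cases hia : i = a
          · subst hia; rw [Function.update_self]; exact hR
          · rw [Function.update_of_ne hia]; exact hP i
        · by_cases hia : i = a
          · rw [hia, Function.update_self]; exact hR1
          · rw [Function.update_of_ne hia]; exact h1 i (hlt i hi hia)
        · by_cases hia : i = a
          · have hia' : i' ≠ a := fun h => hne (hia.trans h.symm)
            rw [hia, Function.update_self, Function.update_of_ne hia']
            exact ⟨hR2 i', fun h => hR3 i' (hlt i' hi' hia') h.symm⟩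
          · by_cases hia' : i' = a
            · rw [hia', Function.update_self, Function.update_of_ne hia]
              exact ⟨fun h => hR2 i h.symm, hR3 i (hlt i hi hia)⟩
            · rw [Function.update_of_ne hia, Function.update_of_ne hia']
              exact h2 i i' (hlt i hi hia) (hlt i' hi' hia') hne
      rw [hΨ, Function.update_eq_self] at h3
      exact h3
  exact main k le_rfl P hP (fun i hi => absurd hi (by omega)) (fun i i' hi => absurd hi (by omega))

/-- `k0` depends only on the rank `m`, the degree `s0` of the structure constants and the degree `e0` of the coordinates of `be`, `ga` -/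
theorem l2u (m s0 e0 : ℕ) : ∃ k0 : ℕ, ∀ {K A : Type} [Field K] [IsAlgClosed K] [CharZero K] [CommRing A] [IsDomain A]
    [Algebra K A] [Algebra K[X] A] [IsScalarTower K K[X] A] (f : Module.Basis (Fin m) K[X] A), StB f s0 →
    ∀ {im : K}, im ^ 2 = -1 → ∀ {be ga : A}, (∀ j, (f.repr be j).natDegree ≤ e0) → (∀ j, (f.repr ga j).natDegree ≤ e0) →
    be ≠ 0 → (∀ c : K, ga ≠ algebraMap K A c * be) → ∀ k, k0 ≤ k → ∀ (G : Type) [AddCommGroup G], TF G →
    ∀ Φ : Fnl (OnT be ga) k G, Inv Φ → ∀ P : Fin k → Pt K A K, (∀ i, OnT be ga (P i)) → altSum Φ.cl P = 0 := by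
  obtain ⟨E, k1, h⟩ := mvg m s0 e0
  refine ⟨max k1 1, fun {K A} _ _ _ _ _ _ _ _ f hf {im} him {be ga} hb hg hbe hga k hk G _ tf Φ hI P hP => ?_⟩
  obtain ⟨B, hB⟩ := h f hf be ga hb hg
  have : Module.Finite K[X] A := Module.Finite.of_basis f
  have : Module.Free K[X] A := Module.Free.of_basis f
  have : FaithfulSMul K[X] A := inferInstance
  exact l2_core him hbe hga (le_trans (le_max_right _ _) hk) (hB k (le_trans (le_max_left _ _) hk)) tf Φ hI P hP

theorem l2 {K A : Type} [Field K] [IsAlgClosed K] [CharZero K] [CommRing A] [IsDomain A] [Algebra K A] [Algebra K[X] A]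
    [IsScalarTower K K[X] A] [Module.Finite K[X] A] [FaithfulSMul K[X] A] {im : K} (him : im ^ 2 = -1) {be ga : A}
    (hbe : be ≠ 0) (hga : ∀ c : K, ga ≠ algebraMap K A c * be) :
    ∃ k0 : ℕ, ∀ k, k0 ≤ k → ∀ (G : Type) [AddCommGroup G], TF G → ∀ Φ : Fnl (OnT be ga) k G, Inv Φ →
      ∀ P : Fin k → Pt K A K, (∀ i, OnT be ga (P i)) → altSum Φ.cl P = 0 := by
  classical
  let f := Module.finBasis K[X] A
  obtain ⟨s0, hs⟩ := exists_StB f
  let e0 := (Finset.univ.sup fun j => (f.repr be j).natDegree) ⊔ Finset.univ.sup fun j => (f.repr ga j).natDegree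
  obtain ⟨k0, h⟩ := l2u (Module.finrank K[X] A) s0 e0
  refine ⟨k0, h f hs him (fun j => ?_) (fun j => ?_) hbe hga⟩
  · exact le_trans (Finset.le_sup (f := fun j => (f.repr be j).natDegree) (Finset.mem_univ j)) le_sup_left
  · exact le_trans (Finset.le_sup (f := fun j => (f.repr ga j).natDegree) (Finset.mem_univ j)) le_sup_right

end H19.ES
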