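import Pool.Agent.H19.ES.Hom

/-! # ES.Lagr : interpolation on complete fibres (Mathlib only, about 250 lines)

`hom_val`: `z(y) = ∑_j (coordinate j of y)(z t) · z(f_j)` for a homomorphism `z` (`Module.Basis.sum_repr`, `z (p • f_j) = p(z t) z(f_j)` by `Polynomial.induction_on`).  `inv`: for each `i` the matrix `(z i l (f_j))_{l,j}` is invertible (its rows are linearly
independent: Dedekind, `linearIndependent_monoidHom`, and `hom_val`).  So: if `z i l y = 0` for all `l` then all coordinates of `y` vanish at `t_i`.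
`van_dvd`: if `y` vanishes at all `z i l` then `qq t` divides all coordinates of `y` (`t` injective): `y = q y'`.  `van_zero`: and if the coordinates have degree `< k` then `y = 0`.
`exists_deg`: for any values `c i l` there is `y` with coordinates of degree `< k` and `z i l y = c i l`: for each `i` solve `∑_j a_{ij} z i l (f_j) = c i l`, then Lagrange interpolation `(coordinate j)(t_i) = a_{ij}` (`Lagrange.interpolate`).  `exists_dual` is a special case.
`rem`: for `y` vanishing at the points which are not chosen: `y = q · y₁ + ∑_i b_i(y) v_i` with `y₁` = the element with coordinates `(coordinate of y) /ₘ q`: the difference has coordinates of degree `< k` (`modByMonic`) and vanishes at all points of the fibres.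
`hsp`: the space of `h` with coordinates of degree `< k - s` (dimension `m(k-s)`) and `Van`: `(m-1)k` linear conditions: dimension `≥ k - m s ≥ e`: `e` linearly independent ones (`LinearMap.ker`, rank-nullity; `exists_linearIndependent..`). -/

namespace H19.ES

open Polynomial

variable {K A : Type} [Field K] [CommRing A] [Algebra K A] [Algebra K[X] A] [IsScalarTower K K[X] A] {m k : ℕ}
  (f : Module.Basis (Fin m) K[X] A) (Z : Fbr K A m k)

private theorem z_alg {F : Type} [CommRing F] [Algebra K F] (z : A →ₐ[K] F) (p : K[X]) :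
    z (algebraMap K[X] A p) = aeval (z (tA K A)) p := by
  have h : z.comp (IsScalarTower.toAlgHom K K[X] A) = aeval (z (tA K A)) := by
    apply algHom_ext
    rw [aeval_X]
    rfl
  exact congrArg (fun φ : K[X] →ₐ[K] F => φ p) h

private theorem qq_degree {k : ℕ} (t : Fin k → K) : (qq t).degree = (k : WithBot ℕ) := by
  unfold qq
  rw [degree_prod]
  simp

private theorem qq_eval {k : ℕ} (t : Fin k → K) (i : Fin k) : (qq t).eval (t i) = 0 := by
  unfold qq
  rw [eval_prod]
  apply Finset.prod_eq_zero (Finset.mem_univ i)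
  simp

theorem hom_val {F : Type} [CommRing F] [Algebra K F] (z : A →ₐ[K] F) (y : A) :
    z y = ∑ j, aeval (z (tA K A)) (f.repr y j) * z (f j) := by
  conv_lhs => rw [← f.sum_repr y, map_sum]
  refine Finset.sum_congr rfl fun j _ => ?_
  rw [Algebra.smul_def, map_mul, z_alg]

private theorem qq_dvd {p : K[X]} (h : ∀ i, p.eval (Z.t i) = 0) : qq Z.t ∣ p := by
  unfold qq
  apply Finset.prod_dvd_of_coprime
  · intro i _ j _ hij
    exact pairwise_coprime_X_sub_C Z.tinj hij
  · intro i _
    exact dvd_iff_isRoot.2 (h i)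

/-- the matrix of the values of the basis at a fibre -/
private noncomputable def fibM (i : Fin k) : Matrix (Fin m) (Fin m) K := fun l j => Z.z i l (f j)

private theorem fib_mulVec (i : Fin k) (y : A) :
    (fibM f Z i).mulVec (fun j => (f.repr y j).eval (Z.t i)) = fun l => Z.z i l y := by
  funext l
  rw [hom_val f (Z.z i l) y]
  change ∑ j, fibM f Z i l j * (f.repr y j).eval (Z.t i) = _
  refine Finset.sum_congr rfl fun j _ => ?_
  rw [Z.zt, coe_aeval_eq_eval, mul_comm]
  rfl

private theorem fib_unit (i : Fin k) : IsUnit (fibM f Z i) := by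
  refine Matrix.linearIndependent_rows_iff_isUnit.1 ?_
  have hD := linearIndependent_monoidHom A K
  have hinj : Function.Injective fun l => ((Z.z i l : A →ₐ[K] K) : A →* K) := by
    intro a b hab
    apply Z.zinj i
    ext y
    exact congrArg (fun φ : A →* K => φ y) hab
  have hD' := hD.comp _ hinj
  rw [Fintype.linearIndependent_iff] at hD' ⊢
  intro c hc
  apply hD' c
  funext y
  rw [Finset.sum_apply, Pi.zero_apply]
  have h1 : ∀ j, ∑ l, c l * Z.z i l (f j) = 0 := by
    intro j
    have := congrFun hc j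
    rw [Finset.sum_apply, Pi.zero_apply] at this
    exact this
  calc ∑ l, (c l • (fun y : A => Z.z i l y)) y = ∑ l, c l * Z.z i l y := rfl
    _ = ∑ l, c l * ∑ j, (f.repr y j).eval (Z.t i) * Z.z i l (f j) := by
        refine Finset.sum_congr rfl fun l _ => ?_
        rw [hom_val f (Z.z i l) y, Z.zt, coe_aeval_eq_eval]
    _ = ∑ j, (f.repr y j).eval (Z.t i) * ∑ l, c l * Z.z i l (f j) := by
        simp_rw [Finset.mul_sum]
        rw [Finset.sum_comm]
        refine Finset.sum_congr rfl fun j _ => Finset.sum_congr rfl fun l _ => ?_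
        ring
    _ = 0 := by
        refine Finset.sum_eq_zero fun j _ => ?_
        rw [h1, mul_zero]

private theorem fib_inj (i : Fin k) {y : A} (h : ∀ l, Z.z i l y = 0) (j : Fin m) :
    (f.repr y j).eval (Z.t i) = 0 := by
  have h1 := fib_mulVec f Z i y
  have h2 : (fun l => Z.z i l y) = 0 := funext h
  rw [h2] at h1
  have h3 := Matrix.mulVec_injective_iff_isUnit.2 (fib_unit f Z i)
  have h4 := h3 (h1.trans (Matrix.mulVec_zero _).symm)
  exact congrFun h4 j

private theorem fib_surj (i : Fin k) (c : Fin m → K) : ∃ a, (fibM f Z i).mulVec a = c :=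
  Matrix.mulVec_surjective_iff_isUnit.2 (fib_unit f Z i) c

include f in
theorem van_dvd {y : A} (h : ∀ i j, Z.z i j y = 0) : ∃ y', y = algebraMap K[X] A (qq Z.t) * y' := by
  have h1 : ∀ j, qq Z.t ∣ f.repr y j := fun j => qq_dvd Z fun i => fib_inj f Z i (h i) j
  choose r hr using h1
  refine ⟨∑ j, r j • f j, ?_⟩
  conv_lhs => rw [← f.sum_repr y]
  rw [Finset.mul_sum]
  refine Finset.sum_congr rfl fun j _ => ?_
  rw [hr j, mul_smul, Algebra.smul_def (qq Z.t)]

theorem van_zero {y : A} (hd : dg f k y) (h : ∀ i j, Z.z i j y = 0) : y = 0 := by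
  have h1 : ∀ j, f.repr y j = 0 := by
    intro j
    have h2 : qq Z.t ∣ f.repr y j := qq_dvd Z fun i => fib_inj f Z i (h i) j
    apply eq_zero_of_dvd_of_degree_lt h2
    rw [qq_degree]
    exact hd j
  apply f.repr.injective
  ext1 j
  rw [h1 j, map_zero]
  rfl

theorem exists_deg (c : Fin k → Fin m → K) : ∃ y, dg f k y ∧ ∀ i j, Z.z i j y = c i j := by
  classical
  choose a ha using fun i => fib_surj f Z i (c i)
  have hinj : Set.InjOn Z.t (Finset.univ : Finset (Fin k)) := Z.tinj.injOn
  have hr : ∀ j, f.repr (∑ j, (Lagrange.interpolate Finset.univ Z.t fun i => a i j) • f j) j =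
      Lagrange.interpolate Finset.univ Z.t fun i => a i j := by
    intro j
    rw [f.repr_sum_self]
  refine ⟨∑ j, (Lagrange.interpolate Finset.univ Z.t fun i => a i j) • f j, ?_, ?_⟩
  · intro j
    rw [hr]
    have h1 := Lagrange.degree_interpolate_lt (fun i => a i j) hinj
    rwa [Finset.card_univ, Fintype.card_fin] at h1
  · intro i l
    rw [hom_val f, ← ha i]
    refine Finset.sum_congr rfl fun j _ => ?_
    rw [hr, Z.zt, coe_aeval_eq_eval, Lagrange.eval_interpolate_at_node _ hinj (Finset.mem_univ i),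
      mul_comm]
    rfl

theorem exists_dual : ∃ v, Dual f Z v := by
  classical
  choose v hv hc using fun i => exists_deg f Z (fun i' j => if i' = i ∧ j = Z.j0 i' then (1 : K) else 0)
  refine ⟨v, hv, ?_, ?_⟩
  · intro i
    have := hc i i (Z.j0 i)
    rw [if_pos ⟨rfl, rfl⟩] at this
    exact this
  · intro i i' j h
    rw [hc, if_neg]
    rintro ⟨h1, h2⟩
    rcases h with h | h
    · exact h h1
    · exact h h2

/-- the combinations of the `t^i f_j` -/
private noncomputable def coef (d : ℕ) : (Fin m × Fin d → K) →ₗ[K] A where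
  toFun c := ∑ j, (∑ i : Fin d, C (c (j, i)) * X ^ (i : ℕ)) • f j
  map_add' c c' := by
    rw [← Finset.sum_add_distrib]
    refine Finset.sum_congr rfl fun j _ => ?_
    rw [← add_smul, ← Finset.sum_add_distrib]
    congr 1
    refine Finset.sum_congr rfl fun i _ => ?_
    rw [Pi.add_apply, C_add]
    ring
  map_smul' a c := by
    rw [RingHom.id_apply, Finset.smul_sum]
    refine Finset.sum_congr rfl fun j _ => ?_
    rw [← smul_assoc, Finset.smul_sum]
    congr 1
    refine Finset.sum_congr rfl fun i _ => ?_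
    rw [Pi.smul_apply, smul_eq_mul, C_mul, smul_eq_C_mul]
    ring

private theorem coef_repr (d : ℕ) (c : Fin m × Fin d → K) (j : Fin m) :
    f.repr (coef f d c) j = ∑ i : Fin d, C (c (j, i)) * X ^ (i : ℕ) := by
  change f.repr (∑ j, (∑ i : Fin d, C (c (j, i)) * X ^ (i : ℕ)) • f j) j = _
  rw [f.repr_sum_self]

private theorem coef_dg (d : ℕ) (c : Fin m × Fin d → K) : dg f d (coef f d c) := by
  intro j
  rw [coef_repr]
  refine lt_of_le_of_lt (degree_sum_le _ _) ?_
  refine (Finset.sup_lt_iff (WithBot.bot_lt_coe d)).2 fun i _ => ?_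
  refine lt_of_le_of_lt (degree_C_mul_X_pow_le _ _) ?_
  exact Nat.cast_lt.2 i.2

private theorem coef_inj (d : ℕ) : Function.Injective (coef f d) := by
  rw [injective_iff_map_eq_zero]
  intro c hc
  funext p
  obtain ⟨j, i⟩ := p
  have h1 := coef_repr f d c j
  rw [hc, map_zero, Finsupp.zero_apply] at h1
  have h2 := congrArg (fun q : K[X] => q.coeff i) h1
  simp only [coeff_zero, finsetSum_coeff, coeff_C_mul, coeff_X_pow] at h2
  rw [Finset.sum_eq_single i] at h2
  · rw [if_pos rfl, mul_one] at h2
    exact h2.symm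
  · intro b _ hb
    rw [if_neg (fun h => hb (Fin.ext h.symm)), mul_zero]
  · intro h
    exact absurd (Finset.mem_univ _) h

private theorem sum_fin {p : K[X]} {s : ℕ} (h : p.degree < (s : WithBot ℕ)) :
    ∑ i : Fin s, C (p.coeff i) * X ^ (i : ℕ) = p := by
  rw [Fin.sum_univ_eq_sum_range (fun i => C (p.coeff i) * X ^ i)]
  ext n
  simp only [finsetSum_coeff, coeff_C_mul, coeff_X_pow]
  by_cases hn : n < s
  · rw [Finset.sum_eq_single n]
    · rw [if_pos rfl, mul_one]
    · intro b _ hb
      rw [if_neg (fun h => hb h.symm), mul_zero]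
    · intro h
      exact absurd (Finset.mem_range.2 hn) h
  · rw [Finset.sum_eq_zero]
    · symm
      apply coeff_eq_zero_of_degree_lt
      refine lt_of_lt_of_le h ?_
      exact_mod_cast not_lt.1 hn
    · intro b hb
      rw [if_neg, mul_zero]
      intro h
      exact hn (h ▸ Finset.mem_range.1 hb)

theorem rem {v : Fin k → A} (hv : Dual f Z v) {s : ℕ} {y : A} (hy : Z.Van y) (hd : dg f (k + s) y) :
    y = algebraMap K[X] A (qq Z.t) * (∑ i : Fin s, ∑ j : Fin m, algebraMap K A (quo f Z.t y i j) * (tA K A ^ (i : ℕ) * f j)) +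
      ∑ i, algebraMap K A (Z.b i y) * v i := by
  have hqm : (qq Z.t).Monic := monic_prod_of_monic _ _ fun i _ => monic_X_sub_C _
  have hquo : ∀ j, (∑ i : Fin s, C (quo f Z.t y i j) * X ^ (i : ℕ)) = (f.repr y j) /ₘ qq Z.t := by
    intro j
    have h1 : ((f.repr y j) /ₘ qq Z.t).degree < (s : WithBot ℕ) := by
      by_cases h0 : (f.repr y j) /ₘ qq Z.t = 0
      · rw [h0, degree_zero]
        exact WithBot.bot_lt_coe s
      · rw [degree_eq_natDegree h0, natDegree_divByMonic _ hqm, Nat.cast_lt]
        have h2 : (qq Z.t).natDegree = k := natDegree_eq_of_degree_eq_some (qq_degree _)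
        have h3 : f.repr y j ≠ 0 := by
          intro h4
          rw [h4, zero_divByMonic] at h0
          exact h0 rfl
        have h4 := hd j
        rw [degree_eq_natDegree h3, Nat.cast_lt] at h4
        have h5 : k ≤ (f.repr y j).natDegree := by
          by_contra h6
          apply h0
          rw [divByMonic_eq_zero_iff hqm, qq_degree, degree_eq_natDegree h3, Nat.cast_lt]
          omega
        omega
    exact sum_fin h1
  obtain ⟨y1, hy1⟩ : ∃ y1 : A, y1 = ∑ i : Fin s, ∑ j : Fin m,
      algebraMap K A (quo f Z.t y i j) * (tA K A ^ (i : ℕ) * f j) := ⟨_, rfl⟩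
  rw [← hy1]
  have hy1' : y1 = ∑ j, ((f.repr y j) /ₘ qq Z.t) • f j := by
    rw [hy1, Finset.sum_comm]
    refine Finset.sum_congr rfl fun j _ => ?_
    rw [← hquo j, Finset.sum_smul]
    refine Finset.sum_congr rfl fun i _ => ?_
    rw [Algebra.smul_def, map_mul, map_pow, ← mul_assoc]
    congr 2
    rw [IsScalarTower.algebraMap_apply K K[X] A, algebraMap_eq]
  have hr1 : ∀ j, f.repr y1 j = (f.repr y j) /ₘ qq Z.t := by
    intro j
    rw [hy1', f.repr_sum_self]
  obtain ⟨w, hw⟩ : ∃ w : A, w = y - algebraMap K[X] A (qq Z.t) * y1 := ⟨_, rfl⟩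
  have hwr : ∀ j, f.repr w j = (f.repr y j) %ₘ qq Z.t := by
    intro j
    rw [hw, ← Algebra.smul_def, map_sub, map_smul, Finsupp.sub_apply, Finsupp.smul_apply, hr1,
      smul_eq_mul]
    have := modByMonic_add_div (f.repr y j) (qq Z.t)
    rw [sub_eq_iff_eq_add]
    exact this.symm
  have hwd : dg f k w := by
    intro j
    rw [hwr, ← qq_degree Z.t]
    exact degree_modByMonic_lt _ hqm
  have hbd : dg f k (∑ i, algebraMap K A (Z.b i y) * v i) := by
    intro j
    rw [map_sum, Finsupp.finsetSum_apply]
    refine lt_of_le_of_lt (degree_sum_le _ _) ?_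
    refine (Finset.sup_lt_iff (WithBot.bot_lt_coe k)).2 fun i _ => ?_
    have h1 : algebraMap K A (Z.b i y) * v i = (C (Z.b i y)) • v i := by
      rw [Algebra.smul_def, IsScalarTower.algebraMap_apply K K[X] A, algebraMap_eq]
    rw [h1, map_smul, Finsupp.smul_apply, smul_eq_mul]
    rw [← smul_eq_C_mul]
    exact lt_of_le_of_lt (degree_smul_le _ _) (hv.deg i j)
  have hz : w - ∑ i, algebraMap K A (Z.b i y) * v i = 0 := by
    apply van_zero f Z
    · intro j
      rw [map_sub, Finsupp.sub_apply]
      exact lt_of_le_of_lt (degree_sub_le _ _) (max_lt (hwd j) (hbd j))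
    · intro i' j
      have hq0 : Z.z i' j (algebraMap K[X] A (qq Z.t)) = 0 := by
        rw [z_alg, Z.zt, coe_aeval_eq_eval, qq_eval]
      rw [hw, map_sub, map_sub, map_mul, hq0, zero_mul, sub_zero, map_sum]
      rw [Finset.sum_eq_single i']
      · rw [map_mul, AlgHom.commutes]
        by_cases hj : j = Z.j0 i'
        · subst hj
          have h1 : Z.z i' (Z.j0 i') (v i') = 1 := hv.one i'
          rw [h1]
          change Z.z i' (Z.j0 i') y - Z.z i' (Z.j0 i') y * 1 = 0
          ring
        · rw [hy i' j hj, hv.zero i' i' j (Or.inr hj), mul_zero, sub_zero]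
      · intro i _ hi
        rw [map_mul, hv.zero i i' j (Or.inl hi.symm), mul_zero]
      · intro h
        exact absurd (Finset.mem_univ _) h
  have h3 := sub_eq_zero.1 hz
  rw [← h3, hw]
  ring

theorem dg_mul {s d e : ℕ} (hs : StB f s) {x y : A} (hx : dg f d x) (hy : ∀ j, (f.repr y j).natDegree ≤ e) :
    dg f (d + e + s) (x * y) := by
  intro l
  have h1 : x * y = ∑ i, ∑ j, (f.repr x i * f.repr y j) • (f i * f j) := by
    conv_lhs => rw [← f.sum_repr x, ← f.sum_repr y, Finset.sum_mul_sum]
    refine Finset.sum_congr rfl fun i _ => Finset.sum_congr rfl fun j _ => ?_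
    rw [smul_mul_smul_comm]
  rw [h1, map_sum, Finsupp.finsetSum_apply]
  refine lt_of_le_of_lt (degree_sum_le _ _) ?_
  refine (Finset.sup_lt_iff (WithBot.bot_lt_coe _)).2 fun i _ => ?_
  rw [map_sum, Finsupp.finsetSum_apply]
  refine lt_of_le_of_lt (degree_sum_le _ _) ?_
  refine (Finset.sup_lt_iff (WithBot.bot_lt_coe _)).2 fun j _ => ?_
  rw [map_smul, Finsupp.smul_apply, smul_eq_mul]
  have ha := hx i
  have hb := hy j
  have hc := hs i j l
  generalize f.repr x i = a at *
  generalize f.repr y j = b at *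
  generalize f.repr (f i * f j) l = c at *
  by_cases h0 : a * b * c = 0
  · rw [h0, degree_zero]
    exact WithBot.bot_lt_coe _
  · have hab : a * b ≠ 0 := left_ne_zero_of_mul h0
    have ha0 : a ≠ 0 := left_ne_zero_of_mul hab
    rw [degree_eq_natDegree h0, Nat.cast_lt]
    rw [degree_eq_natDegree ha0, Nat.cast_lt] at ha
    have h2 := natDegree_mul_le (p := a * b) (q := c)
    have h3 := natDegree_mul_le (p := a) (q := b)
    omega

theorem exists_StB : ∃ s, StB f s := by
  refine ⟨Finset.univ.sup fun i => Finset.univ.sup fun j => Finset.univ.sup fun l =>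
    (f.repr (f i * f j) l).natDegree, fun i j l => ?_⟩
  refine le_trans ?_ (Finset.le_sup (f := fun i => Finset.univ.sup fun j => Finset.univ.sup fun l =>
    (f.repr (f i * f j) l).natDegree) (Finset.mem_univ i))
  refine le_trans ?_ (Finset.le_sup (f := fun j => Finset.univ.sup fun l =>
    (f.repr (f i * f j) l).natDegree) (Finset.mem_univ j))
  exact Finset.le_sup (f := fun l => (f.repr (f i * f j) l).natDegree) (Finset.mem_univ l)

theorem hsp {s e : ℕ} (hk : m * s + e ≤ k) : ∃ h : Fin e → A, LinearIndependent K h ∧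
    ∀ l, Z.Van (h l) ∧ dg f (k - s) (h l) := by
  classical
  rcases Nat.eq_zero_or_pos k with hk0 | hk0
  · subst hk0
    obtain rfl : e = 0 := by omega
    exact ⟨Fin.elim0, linearIndependent_empty_type, fun l => l.elim0⟩
  have hm : 1 ≤ m := by
    have := (Z.j0 ⟨0, hk0⟩).2
    omega
  obtain ⟨Ψ, hΨ⟩ : ∃ Ψ : A →ₗ[K] ({p : Fin k × Fin m // p.2 ≠ Z.j0 p.1} → K),
      ∀ y p, Ψ y p = Z.z p.1.1 p.1.2 y :=
    ⟨LinearMap.pi fun p => (Z.z p.1.1 p.1.2).toLinearMap, fun _ _ => rfl⟩
  obtain ⟨T, hT⟩ : ∃ T : (Fin m × Fin (k - s) → K) →ₗ[K] ({p : Fin k × Fin m // p.2 ≠ Z.j0 p.1} → K),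
      T = Ψ.comp (coef f (k - s)) := ⟨_, rfl⟩
  have hrank : e ≤ Module.finrank K (LinearMap.ker T) := by
    have h1 := LinearMap.finrank_range_add_finrank_ker T
    have h2 : Module.finrank K (LinearMap.range T) ≤
        Fintype.card {p : Fin k × Fin m // p.2 ≠ Z.j0 p.1} := by
      refine (Submodule.finrank_le _).trans ?_
      rw [Module.finrank_fintype_fun_eq_card]
    have h3 : Fintype.card {p : Fin k × Fin m // p.2 ≠ Z.j0 p.1} + k = k * m := by
      have h4 := Fintype.card_subtype_compl (fun p : Fin k × Fin m => p.2 = Z.j0 p.1)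
      have h5 : Fintype.card {p : Fin k × Fin m // p.2 = Z.j0 p.1} = k := by
        have e1 : {p : Fin k × Fin m // p.2 = Z.j0 p.1} ≃ Fin k :=
          { toFun := fun p => p.1.1
            invFun := fun i => ⟨(i, Z.j0 i), rfl⟩
            left_inv := fun p => by
              obtain ⟨⟨a, b⟩, h⟩ := p
              have h' : b = Z.j0 a := h
              subst h'
              rfl
            right_inv := fun i => rfl }
        rw [Fintype.card_congr e1, Fintype.card_fin]
      rw [h5, Fintype.card_prod, Fintype.card_fin, Fintype.card_fin] at h4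
      have h6 : k ≤ k * m := Nat.le_mul_of_pos_right k hm
      have h7 : Fintype.card {p : Fin k × Fin m // p.2 ≠ Z.j0 p.1} = k * m - k := h4
      omega
    rw [Module.finrank_fintype_fun_eq_card, Fintype.card_prod, Fintype.card_fin, Fintype.card_fin]
      at h1
    have h8 : m * (k - s) + m * s = k * m := by
      have h9 : s ≤ k := by
        have : 1 * s ≤ m * s := Nat.mul_le_mul_right s hm
        omega
      rw [← Nat.mul_add, Nat.sub_add_cancel h9, Nat.mul_comm]
    omega
  obtain ⟨b, hb⟩ : ∃ b : Fin e → LinearMap.ker T, LinearIndependent K b :=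
    ⟨(Module.finBasis K (LinearMap.ker T)) ∘ Fin.castLE hrank,
      (Module.finBasis K (LinearMap.ker T)).linearIndependent.comp _ (Fin.castLE_injective _)⟩
  refine ⟨fun l => coef f (k - s) (b l).1, ?_, fun l => ⟨?_, coef_dg f _ _⟩⟩
  · have h1 : LinearIndependent K fun l => (b l).1 :=
      hb.map' (LinearMap.ker T).subtype (Submodule.ker_subtype _)
    exact h1.map' (coef f (k - s)) (LinearMap.ker_eq_bot.2 (coef_inj f _))
  · intro i j hj
    have h1 : (Ψ.comp (coef f (k - s))) (b l).1 = 0 := by
      have h0 := (b l).2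
      rw [LinearMap.mem_ker] at h0
      rw [← hT]
      exact h0
    have h2 := congrFun h1 ⟨(i, j), hj⟩
    rw [LinearMap.comp_apply, hΨ] at h2
    exact h2

end H19.ES
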