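import Pool.Agent.H19.ES.Def2
import Pool.Agent.H19.ES.Hom
import Pool.Agent.H67.KH.Val

/-! # ES.Lvl : reduction to level 2 (about 250 lines)

`level2`: `Ω' = AlgebraicClosure (FractionRing A)`; `e` a root of `X³ + a X + b`, `be` a square root of `3e² + a`, `ga = -(3/2) e`; `A' = A[e, be] ⊆ Ω'` (`Algebra.adjoin A {e, be}`), a domain, finite over `A` (`e` and `be` are integral), so finite over `K[X]`.  `be ≠ 0`: otherwise `a = -3e²`, `b = -e³ - ae = 2e³`, `4a³ + 27b² = 0`: against `hj` (`p = 4`,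
`q = 27`; `A → A'` is injective).  `ga ≠ c be`: otherwise `e = -(2c/3) be`, `a = be² - 3e² = (1 - 4c²/3) be²`, `b = -e³ - ae = be³ (2c/3)(1 - 8c²/9)`: `a³` and `b²` are both multiples `p₁ be⁶`, `q₁ be⁶`; a nontrivial relation (`q₁ a³ - p₁ b² = 0`, or if `p₁ = q₁ = 0` the relation `a³ = 0`): against `hj`.
`tfun`: `cl' s = Φ.cl (fun j => psi (s j))`.  For a multiset `S` of tuples over `Ω` on `T` over `A'`: `S.map` of the same formula: on `S` (`y² = -δ²w² = x(x² - 2γx + β²)`, `x = X + e`), Galois-stable; `Sp π (s j) p → Sp π (psi (s j)) (psi p)`; if `s j` is not integral then `psi (s j)` is not: if `(s j).b ∘ i` is integral then `(s j).b` is (`A'` is integral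
over `A`: `mem_of_root` in `H67.KH.Val`), then `w² = X - e` integral, `w` integral, `δ² = -(w⁴ - 2γw² + β²)`, `δ` integral.  `Inv`: `psi (neg2 P) = psi P`.  `surj`: lift `P.b` to `b' : A' → K` (`lift_hom`), `x = P.x - b' e`, `w² = x`; if `w ≠ 0` then `δ = P.y / (im w)`, otherwise `P.y = 0` and `δ = im * b' be`. -/

namespace H19.ES

open H68.BB Polynomial

/-- no relation between the cubes and squares -/
private theorem key_rel {K A O : Type} [Field K] [CharZero K] [CommRing A] [Algebra K A] [CommRing O] [Algebra K O]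
    [Algebra A O] [IsScalarTower K A O] (hinj : Function.Injective (algebraMap A O)) {a b : A}
    (hj : ∀ p q : K, algebraMap K A p * a ^ 3 + algebraMap K A q * b ^ 2 = 0 → p = 0 ∧ q = 0) {e be : O}
    (he : e ^ 3 + algebraMap A O a * e + algebraMap A O b = 0) (hbe : be ^ 2 = 3 * e ^ 2 + algebraMap A O a)
    (_hO : IsDomain O) :
    be ≠ 0 ∧ ∀ c : K, algebraMap K O (-3 / 2) * e ≠ algebraMap K O c * be := by
  have hj' : ∀ p q : K, algebraMap K O p * (algebraMap A O a) ^ 3 + algebraMap K O q * (algebraMap A O b) ^ 2 = 0 →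
      p = 0 ∧ q = 0 := by
    intro p q h
    refine hj p q (hinj ?_)
    rw [map_add, map_mul, map_mul, map_pow, map_pow, ← IsScalarTower.algebraMap_apply K A O,
      ← IsScalarTower.algebraMap_apply K A O, h, map_zero]
  have ha : algebraMap A O a = be ^ 2 - 3 * e ^ 2 := by rw [hbe]; ring
  have hb : algebraMap A O b = -e ^ 3 - algebraMap A O a * e := by linear_combination he
  constructor
  · intro h0
    have h := hj' 4 27 (by
      rw [hb, ha, h0, map_ofNat, map_ofNat]
      ring)
    exact absurd h.1 (by norm_num)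
  · intro c hc
    have h3 : e = algebraMap K O (-2 * c / 3) * be := by
      have h4 : algebraMap K O (-2 / 3) * (algebraMap K O (-3 / 2) * e) = algebraMap K O (-2 / 3) * (algebraMap K O c * be) := by
        rw [hc]
      rw [← mul_assoc, ← map_mul, ← mul_assoc, ← map_mul] at h4
      have h5 : (-2 / 3 : K) * (-3 / 2) = 1 := by norm_num
      rw [h5, map_one, one_mul] at h4
      rw [h4]
      congr 2
      ring
    have hthree : (3 : O) = algebraMap K O 3 := (map_ofNat (algebraMap K O) 3).symm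
    have ha2 : algebraMap A O a = algebraMap K O (1 - 4 * c ^ 2 / 3) * be ^ 2 := by
      rw [ha, h3, mul_pow, ← map_pow, hthree, ← mul_assoc, ← map_mul]
      nth_rewrite 1 [← one_mul (be ^ 2)]
      rw [← map_one (algebraMap K O), ← sub_mul, ← map_sub]
      congr 2
      field_simp
      ring
    have hb2 : algebraMap A O b = algebraMap K O (2 * c / 3 * (1 - 8 * c ^ 2 / 9)) * be ^ 3 := by
      rw [hb, ha2, h3, mul_pow, ← map_pow]
      have h6 : -(algebraMap K O ((-2 * c / 3) ^ 3) * be ^ 3) -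
          algebraMap K O (1 - 4 * c ^ 2 / 3) * be ^ 2 * (algebraMap K O (-2 * c / 3) * be) =
          (-algebraMap K O ((-2 * c / 3) ^ 3) - algebraMap K O (1 - 4 * c ^ 2 / 3) * algebraMap K O (-2 * c / 3)) * be ^ 3 := by
        ring
      rw [h6, ← map_neg, ← map_mul, ← map_sub]
      congr 2
      field_simp
      ring
    have h7 := hj' ((2 * c / 3 * (1 - 8 * c ^ 2 / 9)) ^ 2) (-(1 - 4 * c ^ 2 / 3) ^ 3) (by
      rw [ha2, hb2, map_neg, map_pow, map_pow]
      ring)
    have h8 : (1 - 4 * c ^ 2 / 3 : K) = 0 := by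
      have h9 := h7.2
      rw [neg_eq_zero] at h9
      exact pow_eq_zero_iff (by norm_num) |>.1 h9
    have h10 := hj' 1 0 (by
      rw [ha2, h8, map_zero, zero_mul, zero_mul]
      ring)
    exact one_ne_zero h10.1

theorem level2 {K A : Type} [Field K] [IsAlgClosed K] [CharZero K] [CommRing A] [IsDomain A] [Algebra K A] [Algebra K[X] A]
    [IsScalarTower K K[X] A] [Module.Finite K[X] A] [FaithfulSMul K[X] A] {a b : A}
    (hj : ∀ p q : K, algebraMap K A p * a ^ 3 + algebraMap K A q * b ^ 2 = 0 → p = 0 ∧ q = 0) :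
    ∃ (A' : Type) (_ : CommRing A') (_ : IsDomain A') (_ : Algebra K A') (_ : Algebra K[X] A') (_ : IsScalarTower K K[X] A')
      (_ : Module.Finite K[X] A') (_ : FaithfulSMul K[X] A') (i : A →ₐ[K] A') (e be ga : A'), Function.Injective i ∧
      i.toRingHom.IsIntegral ∧ e ^ 3 + i a * e + i b = 0 ∧ be ^ 2 = 3 * e ^ 2 + i a ∧ 2 * ga = -3 * e ∧ be ≠ 0 ∧
      ∀ c : K, ga ≠ algebraMap K A' c * be := by
  have hinjF : Function.Injective (algebraMap A (AlgebraicClosure (FractionRing A))) := by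
    rw [IsScalarTower.algebraMap_eq A (FractionRing A) (AlgebraicClosure (FractionRing A))]
    exact (algebraMap (FractionRing A) (AlgebraicClosure (FractionRing A))).injective.comp
      (IsFractionRing.injective A (FractionRing A))
  set Ω' := AlgebraicClosure (FractionRing A) with hΩ
  obtain ⟨e, he⟩ : ∃ e : Ω', e ^ 3 + algebraMap A Ω' a * e + algebraMap A Ω' b = 0 := by
    have hm : (X ^ 3 + (C (algebraMap A Ω' a) * X + C (algebraMap A Ω' b)) : Ω'[X]).degree = 3 := by
      have := degree_add_eq_left_of_degree_lt (p := (X ^ 3 : Ω'[X])) (q := (C (algebraMap A Ω' a) * X + C (algebraMap A Ω' b)))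
        (by rw [degree_X_pow]; exact (degree_linear_le).trans_lt (by norm_num))
      rw [this, degree_X_pow]
      rfl
    obtain ⟨e, he⟩ := IsAlgClosed.exists_root _ (show (X ^ 3 + (C (algebraMap A Ω' a) * X + C (algebraMap A Ω' b)) : Ω'[X]).degree ≠ 0 by
      rw [hm]; norm_num)
    refine ⟨e, ?_⟩
    rw [IsRoot, eval_add, eval_add, eval_pow, eval_mul, eval_X, eval_C, eval_C] at he
    rw [add_assoc]
    exact he
  obtain ⟨be, hbe⟩ := IsAlgClosed.exists_pow_nat_eq (3 * e ^ 2 + algebraMap A Ω' a) (n := 2) (by norm_num)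
  have hie : IsIntegral A e := by
    refine ⟨X ^ 3 + (C a * X + C b), monic_X_pow_add ((degree_linear_le).trans_lt (by norm_num)), ?_⟩
    rw [eval₂_add, eval₂_add, eval₂_pow, eval₂_mul, eval₂_X, eval₂_C, eval₂_C, ← add_assoc]
    exact he
  have hibe : IsIntegral A be := by
    refine IsIntegral.of_pow (n := 2) (by norm_num) ?_
    rw [hbe]
    refine IsIntegral.add (IsIntegral.mul ?_ (hie.pow 2)) isIntegral_algebraMap
    have : (3 : Ω') = algebraMap A Ω' 3 := (map_ofNat (algebraMap A Ω') 3).symm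
    rw [this]
    exact isIntegral_algebraMap
  let A' : Subalgebra A Ω' := Algebra.adjoin A {e, be}
  have heA : e ∈ A' := Algebra.subset_adjoin (by simp)
  have hbeA : be ∈ A' := Algebra.subset_adjoin (by simp)
  have hfin : Module.Finite A A' := by
    have h1 : (Subalgebra.toSubmodule A').FG := fg_adjoin_of_finite (by simp) (by
      rintro x (rfl | rfl)
      · exact hie
      · exact hibe)
    exact Module.Finite.iff_fg.2 h1
  have hfX : Module.Finite K[X] A' := Module.Finite.trans A A'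
  have hinj : Function.Injective (algebraMap A A') := by
    intro x y hxy
    refine hinjF ?_
    exact congrArg (fun z : A' => (z : Ω')) hxy
  have hF : FaithfulSMul K[X] A' := by
    rw [faithfulSMul_iff_algebraMap_injective]
    rw [IsScalarTower.algebraMap_eq K[X] A A']
    exact hinj.comp (FaithfulSMul.algebraMap_injective K[X] A)
  have hdom : IsDomain A' := inferInstance
  have h1 := key_rel (K := K) (A := A) (O := A') hinj hj (e := ⟨e, heA⟩) (be := ⟨be, hbeA⟩) (Subtype.ext he) (Subtype.ext hbe) hdom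
  refine ⟨A', inferInstance, hdom, inferInstance, inferInstance, inferInstance, hfX, hF, IsScalarTower.toAlgHom K A A',
    ⟨e, heA⟩, ⟨be, hbeA⟩, algebraMap K A' (-3 / 2) * ⟨e, heA⟩, hinj, ?_, Subtype.ext he, Subtype.ext hbe, ?_, h1.1, h1.2⟩
  · exact Algebra.IsIntegral.isIntegral (R := A) (A := A')
  · rw [← mul_assoc]
    congr 1
    have : (2 : A') = algebraMap K A' 2 := (map_ofNat (algebraMap K A') 2).symm
    rw [this, ← map_mul]
    have h3 : (2 * (-3 / 2) : K) = -3 := by norm_num
    rw [h3, map_neg, map_ofNat]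

section
variable {K A A' : Type} [Field K] [CommRing A] [Algebra K A] [CommRing A'] [Algebra K A']

/-- the point of `S` given by a point of `T` -/
noncomputable def psi' {F : Type} [Field F] [Algebra K F] (i : A →ₐ[K] A') (im : K) (e : A') (P : Pt K A' F) : Pt K A F :=
  ⟨P.b.comp i, P.x ^ 2 + P.b e, algebraMap K F im * P.y * P.x⟩

private theorem psi_on {F : Type} [Field F] [Algebra K F] {i : A →ₐ[K] A'} {im : K} (him : im ^ 2 = -1) {a b : A}
    {e be ga : A'} (he : e ^ 3 + i a * e + i b = 0) (hbe : be ^ 2 = 3 * e ^ 2 + i a) (hga : 2 * ga = -3 * e)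
    {P : Pt K A' F} (hP : OnT be ga P) : OnS a b (psi' i im e P) := by
  unfold OnS psi'
  unfold OnT at hP
  have h1 := congrArg P.b he
  have h2 := congrArg P.b hbe
  have h3 := congrArg P.b hga
  have h4 := congrArg (algebraMap K F) him
  simp only [map_add, map_mul, map_pow, map_neg, map_ofNat, map_zero, map_one] at h1 h2 h3 h4
  show (algebraMap K F im * P.y * P.x) ^ 2 = (P.x ^ 2 + P.b e) ^ 3 + P.b (i a) * (P.x ^ 2 + P.b e) + P.b (i b)
  rw [mul_pow, mul_pow, h4]
  linear_combination (-P.x ^ 2) * hP - h1 + P.x ^ 2 * h2 - P.x ^ 4 * h3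

private theorem psi_sp {i : A →ₐ[K] A'} {im : K} {e : A'} {π : Place K (Om K)} {P : Pt K A' (Om K)} {p : Pt K A' K}
    (h : Sp π P p) : Sp π (psi' i im e P) (psi' i im e p) := by
  refine ⟨fun r => h.1 (i r), (h.2.1.pow 2).add (h.1 e), ?_⟩
  exact ((show Rd π.V π.φ (algebraMap K (Om K) im) im from π.const im).mul h.2.2).mul h.2.1

private theorem mem_of_sq {π : Place K (Om K)} {x : Om K} (h : x ^ 2 ∈ π.V) : x ∈ π.V := by
  rcases π.V.mem_or_inv_mem x with h1 | h1
  · exact h1
  · by_cases hx : x = 0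
    · rw [hx]; exact π.V.zero_mem
    · have h2 : x = x ^ 2 * x⁻¹ := by field_simp
      rw [h2]
      exact π.V.mul_mem _ _ h h1

private theorem psi_int {i : A →ₐ[K] A'} (hint : i.toRingHom.IsIntegral) {im : K}
    {e be ga : A'} {π : Place K (Om K)} {P : Pt K A' (Om K)} (hP : OnT be ga P)
    (h : Int π (psi' i im e P)) : Int π P := by
  have hb : ∀ r, P.b r ∈ π.V := by
    intro r
    obtain ⟨p, hpm, hp⟩ := hint r
    refine H67.KH.mem_of_root (p := p.map (P.b.comp i).toRingHom) (fun j => ?_) (hpm.map _) ?_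
    · rw [coeff_map]
      exact h.1 (p.coeff j)
    · have h1 : (p.map (P.b.comp i).toRingHom).eval (P.b r) = P.b (p.eval₂ i.toRingHom r) := by
        rw [eval_map, ← AlgHom.coe_toRingHom P.b, hom_eval₂]
        rfl
      rw [IsRoot, h1, hp, map_zero]
  have hx2 : P.x ^ 2 ∈ π.V := by
    have h1 := sub_mem h.2.1 (hb e)
    have h2 : (psi' i im e P).x - P.b e = P.x ^ 2 := by
      show P.x ^ 2 + P.b e - P.b e = P.x ^ 2
      ring
    rwa [h2] at h1
  have hx := mem_of_sq hx2
  refine ⟨hb, hx, mem_of_sq ?_⟩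
  have h1 : P.y ^ 2 = -(P.x ^ 2 * P.x ^ 2) + (P.b ga + P.b ga) * P.x ^ 2 - P.b be * P.b be := by
    unfold OnT at hP
    linear_combination hP
  rw [h1]
  exact sub_mem (add_mem (neg_mem (mul_mem hx2 hx2)) (mul_mem (add_mem (hb ga) (hb ga)) hx2)) (mul_mem (hb be) (hb be))

theorem tfun {G : Type} [AddCommGroup G] {i : A →ₐ[K] A'} (hint : i.toRingHom.IsIntegral) {im : K} (him : im ^ 2 = -1) {a b : A}
    {e be ga : A'} (he : e ^ 3 + i a * e + i b = 0) (hbe : be ^ 2 = 3 * e ^ 2 + i a) (hga : 2 * ga = -3 * e) {n : ℕ}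
    (Φ : Fnl (OnS a b) n G) : ∃ Ψ : Fnl (OnT be ga) n G, Inv Ψ ∧ ∀ s, Ψ.cl s = Φ.cl (fun j => psi' i im e (s j)) := by
  have hlim : ∀ (S : Multiset (Fin n → Pt K A' (Om K))) (π : Place K (Om K)) (c : G), (∀ s ∈ S, ∀ j, OnT be ga (s j)) →
      Lim (fun s => Φ.cl (fun j => psi' i im e (s j))) π S c → Lim Φ.cl π (S.map fun s j => psi' i im e (s j)) c := by
    rintro S π c hS ⟨C, hC, rfl⟩
    refine ⟨C, ?_, rfl⟩
    rw [Multiset.rel_map_left]
    refine hC.mono ?_
    intro s hs c _ hc
    rcases hc with ⟨p, hp, rfl⟩ | ⟨⟨j, hj⟩, rfl⟩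
    · exact Or.inl ⟨fun j => psi' i im e (p j), fun j => psi_sp (hp j), rfl⟩
    · exact Or.inr ⟨⟨j, fun h => hj (psi_int hint (hS s hs j) h)⟩, rfl⟩
  refine ⟨⟨fun s => Φ.cl (fun j => psi' i im e (s j)), ?_⟩, ?_, fun s => rfl⟩
  · intro S π π' c c' hS hG hc hc'
    refine Φ.rel (S.map fun s j => psi' i im e (s j)) π π' c c' ?_ ?_ (hlim S π c hS hc) (hlim S π' c' hS hc')
    · intro s hs j
      obtain ⟨s', hs', rfl⟩ := Multiset.mem_map.1 hs
      exact psi_on him he hbe hga (hS s' hs' j)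
    · intro σ
      rw [Multiset.map_map]
      conv_rhs => rw [← hG σ]
      rw [Multiset.map_map]
      refine Multiset.map_congr rfl ?_
      intro s _
      funext j
      refine Pt.ext ?_ ?_ ?_
      · rfl
      · show σ (_ ^ 2 + _) = (σ _) ^ 2 + σ _
        rw [map_add, map_pow]
        rfl
      · show σ (algebraMap K (Om K) im * _ * _) = algebraMap K (Om K) im * σ _ * σ _
        rw [map_mul, map_mul, H67.KH.sigma_cst]
  · intro s j
    show Φ.cl _ = Φ.cl _
    congr 1
    funext l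
    by_cases hl : l = j
    · subst hl
      rw [Function.update_self]
      refine Pt.ext rfl ?_ ?_
      · show (-(s l).x) ^ 2 + _ = (s l).x ^ 2 + _
        rw [neg_sq]
        rfl
      · show algebraMap K K im * (-(s l).y) * (-(s l).x) = algebraMap K K im * (s l).y * (s l).x
        ring
    · rw [Function.update_of_ne hl]

theorem surj [IsAlgClosed K] {i : A →ₐ[K] A'} (hi : Function.Injective i) (hint : i.toRingHom.IsIntegral) {im : K}
    (him : im ^ 2 = -1) {a b : A} {e be ga : A'} (he : e ^ 3 + i a * e + i b = 0) (hbe : be ^ 2 = 3 * e ^ 2 + i a)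
    (hga : 2 * ga = -3 * e) (P : Pt K A K) (hP : OnS a b P) : ∃ Q : Pt K A' K, OnT be ga Q ∧ psi' i im e Q = P := by
  obtain ⟨b', hb'⟩ := lift_hom i hi hint P.b
  have hb2 : ∀ r, b' (i r) = P.b r := fun r => by rw [← hb']; rfl
  obtain ⟨w, hw⟩ := IsAlgClosed.exists_pow_nat_eq (P.x - b' e) (n := 2) (by norm_num)
  have h1 := congrArg b' he
  have h2 := congrArg b' hbe
  have h3 := congrArg b' hga
  simp only [map_add, map_mul, map_pow, map_neg, map_ofNat, map_zero, hb2] at h1 h2 h3
  have him0 : im ≠ 0 := by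
    rintro rfl
    norm_num at him
  have hx : P.x = w ^ 2 + b' e := by rw [hw]; ring
  unfold OnS at hP
  have hPy : P.y ^ 2 = w ^ 2 * (w ^ 4 - 2 * b' ga * w ^ 2 + b' be ^ 2) := by
    rw [hP, hx]
    linear_combination h1 - w ^ 2 * h2 + w ^ 4 * h3
  by_cases hw0 : w = 0
  · have hy : P.y = 0 := by
      have : P.y ^ 2 = 0 := by rw [hPy, hw0]; ring
      exact pow_eq_zero_iff (by norm_num) |>.1 this
    refine ⟨⟨b', w, im * b' be⟩, ?_, Pt.ext hb' hx.symm ?_⟩
    · unfold OnT
      show (im * b' be) ^ 2 + w ^ 4 - 2 * b' ga * w ^ 2 + b' be ^ 2 = 0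
      rw [hw0, mul_pow, him]
      ring
    · show algebraMap K K im * (im * b' be) * w = P.y
      rw [hw0, mul_zero, hy]
  · refine ⟨⟨b', w, P.y / (im * w)⟩, ?_, Pt.ext hb' hx.symm ?_⟩
    · unfold OnT
      show (P.y / (im * w)) ^ 2 + w ^ 4 - 2 * b' ga * w ^ 2 + b' be ^ 2 = 0
      rw [div_pow, mul_pow, him, hPy]
      field_simp
      ring
    · show algebraMap K K im * (P.y / (im * w)) * w = P.y
      rw [Algebra.algebraMap_self_apply]
      field_simp
end

end H19.ES
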