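import Pool.Agent.H19.ES.Uniq

/-! # ES.Pair : recutting a pair of points in the coordinates `κ` (about 300 lines)

`i = im`, `i² = -1`; `xk = κ(κ - 2iβ)/(2(γ+β) + 2iκ)`, `dk = κ - i(β + xk)`: the point of the conic with coordinate `κ ≠ i(γ+β)`.  For two types `(b1, g1)`, `(b2, g2)` and `(k1, k2)` put `x_j = xk b_j g_j k_j`, `X = x₁x₂`, `c = k1 k2`,
`N_j = b_j c + 2 X (g_j + b_j)`, `r1 = k2 N₁/N₂`, `r2 = k1 N₂/N₁`.
`UU` = the conditions of nondegeneracy.  `UU_rec`: let `k_j' = r_j`: `k1' k2' = c`, and `k1'` is the second root of `Q_c(κ) = c(κ - 2ib₁)(c - 2ib₂κ) - 4X((g₁+b₁) + iκ)((g₂+b₂)κ + ic)` (`k1` is a root by the definition of `X`; the product of the roots is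
`c(b₁c + 2X(g₁+b₁))/(b₂c + 2X(g₂+b₂)) = k1 k1'`; coefficients in the file Rec.lean), so, as `k1' ≠ i(g₁+b₁)` (else `Q_c(k1') = 0` gives `c = 2ib₂k1' = -2b₂(g₁+b₁)`, excluded, or `k1' = 2ib₁`, `g₁ = b₁`), similarly `k2' ≠ i(g₂+b₂)`:
`x₁'x₂' = X`, and `x_j' ≠ 0`.  MATRICES: both products are `[[Xλ² - Iλ + b₁b₂, Dλ² - D^λ], [D^λ - D, b₁b₂λ² - Iλ + X]]` with `I = x₁b₂ + x₂b₁ - δ₁δ₂`, `D = x₁δ₂ + δ₁b₂`, `D^ = x₂δ₁ + b₁δ₂` for `Bm₁ Bm₂`, and with `I'`,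
`D^'`, `D'` (exchanged) for `Bm₂' Bm₁'`, so one must show `I' = I`, `D' = D^`, `D^' = D`.  We have `c = -I - b₁b₂ - X + i(D + D^)` and the determinant gives (e1) `I(X + b₁b₂) + DD^ = 2X(b₁g₂ + g₁b₂)`,
(e2) `X² + (b₁b₂)² + I² + D² + D^² = X(2b₁b₂ + 4g₁g₂)`; the same for the primed quantities with the same `c`, `X`.  With `S = D + D^`: `I = -(b₁b₂+X+c) + iS`, and (e2) with `D² + D^² = S² - 2DD^` becomes LINEAR in `S` (as `I² + S² = (b₁b₂+X+c)² - 2i(b₁b₂+X+c)S`)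
with coefficient `-2ic ≠ 0`: so `S' = S`, `I' = I`, `DD^ = D'D^'`, so `{D', D^'} = {D, D^}`.  If `D' = D`, `D^' = D^` then `Bm₁Bm₂ = Bm₁'Bm₂'` for the pairs in the same order and `(x₁, δ₁) = (x₁', δ₁')`: indeed compare: (types coprime; direct: `Bm₁⁻¹Bm₁' = Bm₂Bm₂'⁻¹`; use
the theorem `uniq` of Uniq.lean with `k = 2`), so `k1 = k1'`, excluded.  (Or verify the three identities by `field_simp; ring`.)
`UU_swap`: all conditions are symmetric; `N_j`, `c`, `X` are the same for the new pair.  `UU_poly`: multiply all conditions: with `e_j = 2(g_j+b_j) + 2ik_j`, `n_j = b_j e₁e₂ + 2(g_j+b_j)(k1-2ib₁)(k2-2ib₂)` (`N_j = k1k2 n_j/(e₁e₂)`), `r1 = k2 n₁/n₂`, `k1 ≠ r1` iff `k1n₂ - k2n₁ ≠ 0`.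
`G` = the product of the polynomials `k1, k2, k1-2ib₁, k2-2ib₂, e₁, e₂, n₁, n₂, k1k2+2b₂(g₁+b₁), k1k2+2b₁(g₂+b₂), k1n₂-k2n₁`: each is nonzero as a polynomial: `n_j` has coefficient of `k1k2` equal to `-4b_j + 2(g_j+b_j) = 2(g_j-b_j) ≠ 0`, and `k1n₂ - k2n₁` has
coefficient of `k1²k2` equal to `2(g₂-b₂) ≠ 0`; `a1 = k2 n₁ G/n₂`, `a2 = k1 n₂ G/n₁` (polynomials), so `r_j = a_j/G`. -/

namespace H19.ES

open H68.BB Polynomial

variable {K : Type} [Field K]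

noncomputable def xk (im b g k : K) : K := k * (k - 2 * im * b) / (2 * (g + b) + 2 * im * k)

noncomputable def dk (im b g k : K) : K := k - im * (b + xk im b g k)

noncomputable def nn1 (im b1 g1 b2 g2 k1 k2 : K) : K := b1 * (k1 * k2) + 2 * (xk im b1 g1 k1 * xk im b2 g2 k2) * (g1 + b1)

noncomputable def nn2 (im b1 g1 b2 g2 k1 k2 : K) : K := b2 * (k1 * k2) + 2 * (xk im b1 g1 k1 * xk im b2 g2 k2) * (g2 + b2)

/-- the new coordinate of the point of the first type -/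
noncomputable def r1 (im b1 g1 b2 g2 k1 k2 : K) : K := k2 * nn1 im b1 g1 b2 g2 k1 k2 / nn2 im b1 g1 b2 g2 k1 k2

/-- the new coordinate of the point of the second type -/
noncomputable def r2 (im b1 g1 b2 g2 k1 k2 : K) : K := k1 * nn2 im b1 g1 b2 g2 k1 k2 / nn1 im b1 g1 b2 g2 k1 k2

/-- a point of the conic with `x ≠ 0` and finite -/
def Okk (im b g k : K) : Prop := k ≠ 0 ∧ k ≠ 2 * im * b ∧ 2 * (g + b) + 2 * im * k ≠ 0

/-- the pair can be recut -/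
structure UU (im b1 g1 b2 g2 k1 k2 : K) : Prop where
  ok1 : Okk im b1 g1 k1
  ok2 : Okk im b2 g2 k2
  n1 : nn1 im b1 g1 b2 g2 k1 k2 ≠ 0
  n2 : nn2 im b1 g1 b2 g2 k1 k2 ≠ 0
  c1 : k1 * k2 ≠ -2 * b2 * (g1 + b1)
  c2 : k1 * k2 ≠ -2 * b1 * (g2 + b2)
  ne : k1 ≠ r1 im b1 g1 b2 g2 k1 k2

theorem con_xk {im b g k : K} (him : im ^ 2 = -1) (h : 2 * (g + b) + 2 * im * k ≠ 0) : Con b g (xk im b g k) (dk im b g k) := by
  have h1 : xk im b g k * (2 * (g + b) + 2 * im * k) = k * (k - 2 * im * b) := by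
    unfold xk
    rw [div_mul_cancel₀ _ h]
  unfold Con dk
  linear_combination (b + xk im b g k) ^ 2 * him - h1

/-- the coordinate of a point of the conic -/
theorem xk_of_con [CharZero K] {im b g x d : K} (him : im ^ 2 = -1) (hns : g ^ 2 ≠ b ^ 2) (h : Con b g x d) (hx : x ≠ 0) :
    Okk im b g (d + im * (b + x)) ∧ xk im b g (d + im * (b + x)) = x ∧ dk im b g (d + im * (b + x)) = d := by
  obtain ⟨k, hk⟩ : ∃ k, k = d + im * (b + x) := ⟨_, rfl⟩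
  rw [← hk]
  have h1 : x * (2 * (g + b) + 2 * im * k) = k * (k - 2 * im * b) := by
    unfold Con at h
    rw [hk]
    linear_combination (b + x) ^ 2 * him - h
  have he : 2 * (g + b) + 2 * im * k ≠ 0 := by
    intro he
    rw [he, mul_zero] at h1
    have hu : g + b + im * k = 0 := by
      have h2 : 2 * (g + b + im * k) = 0 := by linear_combination he
      exact (mul_eq_zero.1 h2).resolve_left two_ne_zero
    apply hns
    linear_combination (g - b - im * k) * hu + h1 + k ^ 2 * him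
  have hxk : xk im b g k = x := by
    unfold xk
    rw [← h1, mul_div_assoc, div_self he, mul_one]
  refine ⟨⟨?_, ?_, he⟩, hxk, ?_⟩
  · intro h0
    rw [h0, zero_mul] at h1
    rw [h0] at he
    rcases mul_eq_zero.1 h1 with h2 | h2
    · exact hx h2
    · exact he h2
  · intro h0
    have h2 : k * (k - 2 * im * b) = 0 := by rw [h0]; ring
    rw [h2] at h1
    rcases mul_eq_zero.1 h1 with h3 | h3
    · exact hx h3
    · exact he h3
  · unfold dk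
    rw [hxk, hk]
    ring


private theorem pr_lin {im X B M I D E P Q : K} (him : im ^ 2 = -1) (he1 : I * (X + B) + D * E = 2 * X * P)
    (he2 : X ^ 2 + B ^ 2 + I ^ 2 + D ^ 2 + E ^ 2 = X * Q) (hI : I = -M + im * (D + E)) :
    2 * im * (M - B - X) * (D + E) = X ^ 2 + B ^ 2 + M ^ 2 - 4 * X * P - 2 * M * (X + B) - X * Q := by
  linear_combination (-1 : K) * he2 - 2 * he1 - (M - I - im * (D + E) - 2 * (X + B)) * hI + (D + E) ^ 2 * him

private theorem pr_e1 {b1 g1 x1 d1 b2 g2 x2 d2 : K} (h1 : Con b1 g1 x1 d1) (h2 : Con b2 g2 x2 d2) :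
    (x1 * b2 + x2 * b1 - d1 * d2) * (x1 * x2 + b1 * b2) + (x1 * d2 + d1 * b2) * (x2 * d1 + b1 * d2) =
      2 * (x1 * x2) * (b1 * g2 + g1 * b2) := by
  unfold Con at h1 h2
  linear_combination (x1 * b1) * h2 + (x2 * b2) * h1

private theorem pr_e2 {b1 g1 x1 d1 b2 g2 x2 d2 : K} (h1 : Con b1 g1 x1 d1) (h2 : Con b2 g2 x2 d2) :
    (x1 * x2) ^ 2 + (b1 * b2) ^ 2 + (x1 * b2 + x2 * b1 - d1 * d2) ^ 2 + (x1 * d2 + d1 * b2) ^ 2 + (x2 * d1 + b1 * d2) ^ 2 =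
      (x1 * x2) * (2 * (b1 * b2) + 4 * (g1 * g2)) := by
  unfold Con at h1 h2
  linear_combination (x2 ^ 2 + b2 ^ 2 + d2 ^ 2) * h1 + (2 * g1 * x1) * h2

private theorem pr_I {im b1 x1 d1 b2 x2 d2 k1 k2 : K} (him : im ^ 2 = -1) (h1 : d1 = k1 - im * (b1 + x1))
    (h2 : d2 = k2 - im * (b2 + x2)) : x1 * b2 + x2 * b1 - d1 * d2 = -(b1 * b2 + x1 * x2 + k1 * k2) +
      im * ((x1 * d2 + d1 * b2) + (x2 * d1 + b1 * d2)) := by
  have e1 : k1 = d1 + im * (b1 + x1) := by rw [h1]; ring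
  have e2 : k2 = d2 + im * (b2 + x2) := by rw [h2]; ring
  rw [e1, e2]
  linear_combination ((b1 + x1) * (b2 + x2)) * him

private theorem pr_xk_mul {im b g k : K} (h : 2 * (g + b) + 2 * im * k ≠ 0) :
    xk im b g k * (2 * (g + b) + 2 * im * k) = k * (k - 2 * im * b) := by
  unfold xk
  rw [div_mul_cancel₀ _ h]

private theorem pr_xk_ne {im b g k : K} (h : Okk im b g k) : xk im b g k ≠ 0 := by
  unfold xk
  exact div_ne_zero (mul_ne_zero h.1 (sub_ne_zero.2 h.2.1)) h.2.2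

private theorem pr_c {im b1 g1 b2 g2 k1 k2 : K} (h : UU im b1 g1 b2 g2 k1 k2) :
    r1 im b1 g1 b2 g2 k1 k2 * r2 im b1 g1 b2 g2 k1 k2 = k1 * k2 := by
  have h1 := h.n1
  have h2 := h.n2
  unfold r1 r2
  field_simp

private theorem pr_ty {b1 g1 b2 g2 : K} (hT : Ty ![b1, b2] ![g1, g2]) :
    b1 ≠ 0 ∧ b2 ≠ 0 ∧ g1 ^ 2 ≠ b1 ^ 2 ∧ g2 ^ 2 ≠ b2 ^ 2 :=
  ⟨hT.be0 0, hT.be0 1, hT.ns 0, hT.ns 1⟩

private theorem pr_half [CharZero K] {im b g k : K} (h : 2 * (g + b) + 2 * im * k = 0) : g + b + im * k = 0 := by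
  have h2 : 2 * (g + b + im * k) = 0 := by linear_combination h
  exact (mul_eq_zero.1 h2).resolve_left two_ne_zero

/-- the relation of the two coordinates is satisfied by the new ones -/
private theorem pr_star {im b1 g1 b2 g2 k1 k2 : K} (h : UU im b1 g1 b2 g2 k1 k2) :
    r1 im b1 g1 b2 g2 k1 k2 * (r1 im b1 g1 b2 g2 k1 k2 - 2 * im * b1) *
      (r2 im b1 g1 b2 g2 k1 k2 * (r2 im b1 g1 b2 g2 k1 k2 - 2 * im * b2)) =
    xk im b1 g1 k1 * xk im b2 g2 k2 * ((2 * (g1 + b1) + 2 * im * r1 im b1 g1 b2 g2 k1 k2) *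
      (2 * (g2 + b2) + 2 * im * r2 im b1 g1 b2 g2 k1 k2)) := by
  have hc := pr_c h
  have hA : r1 im b1 g1 b2 g2 k1 k2 * nn2 im b1 g1 b2 g2 k1 k2 = k2 * nn1 im b1 g1 b2 g2 k1 k2 := by
    unfold r1
    rw [div_mul_cancel₀ _ h.n2]
  have hB : r2 im b1 g1 b2 g2 k1 k2 * nn1 im b1 g1 b2 g2 k1 k2 = k1 * nn2 im b1 g1 b2 g2 k1 k2 := by
    unfold r2
    rw [div_mul_cancel₀ _ h.n1]
  have h1 := pr_xk_mul h.ok1.2.2
  have h2 := pr_xk_mul h.ok2.2.2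
  unfold nn1 nn2 at hA hB
  obtain ⟨R1, hR1⟩ : ∃ R1, R1 = r1 im b1 g1 b2 g2 k1 k2 := ⟨_, rfl⟩
  obtain ⟨R2, hR2⟩ : ∃ R2, R2 = r2 im b1 g1 b2 g2 k1 k2 := ⟨_, rfl⟩
  obtain ⟨x1, hx1⟩ : ∃ x1, x1 = xk im b1 g1 k1 := ⟨_, rfl⟩
  obtain ⟨x2, hx2⟩ : ∃ x2, x2 = xk im b2 g2 k2 := ⟨_, rfl⟩
  rw [← hR1, ← hR2] at hc
  rw [← hR1, ← hx1, ← hx2] at hA
  rw [← hR2, ← hx1, ← hx2] at hB
  rw [← hx1] at h1
  rw [← hx2] at h2
  rw [← hR1, ← hR2, ← hx1, ← hx2]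
  have hk : k1 * (k1 - 2 * im * b1) * (k2 * (k2 - 2 * im * b2)) =
      x1 * x2 * ((2 * (g1 + b1) + 2 * im * k1) * (2 * (g2 + b2) + 2 * im * k2)) := by
    rw [← h1, ← h2]
    ring
  linear_combination hk + ((R1 * R2 + k1 * k2) + 4 * im ^ 2 * b1 * b2 - 4 * im ^ 2 * (x1 * x2) -
    2 * im * (b2 * R1 + b1 * R2)) * hc - 2 * im * (hA + hB)

private theorem pr_ok [CharZero K] {im b1 g1 b2 g2 k1 k2 : K} (him : im ^ 2 = -1) (hT : Ty ![b1, b2] ![g1, g2])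
    (h : UU im b1 g1 b2 g2 k1 k2) :
    Okk im b1 g1 (r1 im b1 g1 b2 g2 k1 k2) ∧ Okk im b2 g2 (r2 im b1 g1 b2 g2 k1 k2) := by
  obtain ⟨hb1, hb2, ns1, ns2⟩ := pr_ty hT
  have hst := pr_star h
  have hc := pr_c h
  have hX : xk im b1 g1 k1 * xk im b2 g2 k2 ≠ 0 := mul_ne_zero (pr_xk_ne h.ok1) (pr_xk_ne h.ok2)
  have hR10 : r1 im b1 g1 b2 g2 k1 k2 ≠ 0 := by
    unfold r1
    exact div_ne_zero (mul_ne_zero h.ok2.1 h.n1) h.n2
  have hR20 : r2 im b1 g1 b2 g2 k1 k2 ≠ 0 := by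
    unfold r2
    exact div_ne_zero (mul_ne_zero h.ok1.1 h.n2) h.n1
  have hc1 := h.c1
  have hc2 := h.c2
  obtain ⟨R1, hR1⟩ : ∃ R1, R1 = r1 im b1 g1 b2 g2 k1 k2 := ⟨_, rfl⟩
  obtain ⟨R2, hR2⟩ : ∃ R2, R2 = r2 im b1 g1 b2 g2 k1 k2 := ⟨_, rfl⟩
  rw [← hR1, ← hR2] at hst hc
  rw [← hR1] at hR10
  rw [← hR2] at hR20
  rw [← hR1, ← hR2]
  have hf1 : 2 * (g1 + b1) + 2 * im * R1 ≠ 0 := by
    intro hf
    rw [hf, zero_mul, mul_zero] at hst
    have hu := pr_half hf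
    rcases mul_eq_zero.1 hst with h3 | h3
    · have h4 : R1 - 2 * im * b1 = 0 := (mul_eq_zero.1 h3).resolve_left hR10
      apply ns1
      have h5 : g1 - b1 = 0 := by linear_combination hu - im * h4 - 2 * b1 * him
      linear_combination (g1 + b1) * h5
    · have h4 : R2 - 2 * im * b2 = 0 := (mul_eq_zero.1 h3).resolve_left hR20
      apply hc1
      rw [← hc]
      linear_combination R1 * h4 + 2 * b2 * hu
  have hf2 : 2 * (g2 + b2) + 2 * im * R2 ≠ 0 := by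
    intro hf
    rw [hf, mul_zero, mul_zero] at hst
    have hu := pr_half hf
    rcases mul_eq_zero.1 hst with h3 | h3
    · have h4 : R1 - 2 * im * b1 = 0 := (mul_eq_zero.1 h3).resolve_left hR10
      apply hc2
      rw [← hc]
      linear_combination R2 * h4 + 2 * b1 * hu
    · have h4 : R2 - 2 * im * b2 = 0 := (mul_eq_zero.1 h3).resolve_left hR20
      apply ns2
      have h5 : g2 - b2 = 0 := by linear_combination hu - im * h4 - 2 * b2 * him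
      linear_combination (g2 + b2) * h5
  have hne : R1 * (R1 - 2 * im * b1) * (R2 * (R2 - 2 * im * b2)) ≠ 0 := by
    rw [hst]
    exact mul_ne_zero hX (mul_ne_zero hf1 hf2)
  refine ⟨⟨hR10, ?_, hf1⟩, ⟨hR20, ?_, hf2⟩⟩
  · intro h3
    apply hne
    rw [h3]
    ring
  · intro h3
    apply hne
    rw [h3]
    ring

private theorem pr_X [CharZero K] {im b1 g1 b2 g2 k1 k2 : K} (him : im ^ 2 = -1) (hT : Ty ![b1, b2] ![g1, g2])
    (h : UU im b1 g1 b2 g2 k1 k2) :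
    xk im b1 g1 (r1 im b1 g1 b2 g2 k1 k2) * xk im b2 g2 (r2 im b1 g1 b2 g2 k1 k2) = xk im b1 g1 k1 * xk im b2 g2 k2 := by
  obtain ⟨ok1, ok2⟩ := pr_ok him hT h
  have h1 := pr_xk_mul ok1.2.2
  have h2 := pr_xk_mul ok2.2.2
  have hst := pr_star h
  rw [← h1, ← h2] at hst
  apply mul_right_cancel₀ (mul_ne_zero ok1.2.2 ok2.2.2)
  linear_combination hst

private theorem pr_mat {b1 x1 d1 b2 x2 d2 y1 e1 y2 e2 : K} (hX : y1 * y2 = x1 * x2)
    (hI : x1 * b2 + x2 * b1 - d1 * d2 = y1 * b2 + y2 * b1 - e1 * e2) (hD : x1 * d2 + d1 * b2 = y2 * e1 + b1 * e2)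
    (hE : x2 * d1 + b1 * d2 = y1 * e2 + e1 * b2) :
    Bm b1 x1 d1 * Bm b2 x2 d2 = Bm b2 y2 e2 * Bm b1 y1 e1 := by
  have cX := congrArg (C : K → K[X]) hX
  have cI := congrArg (C : K → K[X]) hI
  have cD := congrArg (C : K → K[X]) hD
  have cE := congrArg (C : K → K[X]) hE
  simp only [C_add, C_sub, C_mul] at cX cI cD cE
  unfold Bm
  rw [Matrix.mul_fin_two, Matrix.mul_fin_two]
  have q00 : (C x1 * X - C b1) * (C x2 * X - C b2) + C d1 * X * C d2 =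
      (C y2 * X - C b2) * (C y1 * X - C b1) + C e2 * X * C e1 := by
    linear_combination (-X ^ 2) * cX - X * cI
  have q01 : (C x1 * X - C b1) * (C d2 * X) + C d1 * X * (C b2 * X - C x2) =
      (C y2 * X - C b2) * (C e1 * X) + C e2 * X * (C b1 * X - C y1) := by
    linear_combination X ^ 2 * cD - X * cE
  have q10 : C d1 * (C x2 * X - C b2) + (C b1 * X - C x1) * C d2 =
      C e2 * (C y1 * X - C b1) + (C b2 * X - C y2) * C e1 := by
    linear_combination X * cE - cD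
  have q11 : C d1 * (C d2 * X) + (C b1 * X - C x1) * (C b2 * X - C x2) =
      C e2 * (C e1 * X) + (C b2 * X - C y2) * (C b1 * X - C y1) := by
    linear_combination (-1 : K[X]) * cX - X * cI
  rw [q00, q01, q10, q11]


private theorem pr_mat' {b1 x1 d1 b2 x2 d2 y1 e1 y2 e2 : K} (hX : y1 * y2 = x1 * x2)
    (hI : x1 * b2 + x2 * b1 - d1 * d2 = y1 * b2 + y2 * b1 - e1 * e2) (hD : x1 * d2 + d1 * b2 = y1 * e2 + e1 * b2)
    (hE : x2 * d1 + b1 * d2 = y2 * e1 + b1 * e2) :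
    Bm b1 x1 d1 * Bm b2 x2 d2 = Bm b1 y1 e1 * Bm b2 y2 e2 := by
  have cX := congrArg (C : K → K[X]) hX
  have cI := congrArg (C : K → K[X]) hI
  have cD := congrArg (C : K → K[X]) hD
  have cE := congrArg (C : K → K[X]) hE
  simp only [C_add, C_sub, C_mul] at cX cI cD cE
  unfold Bm
  rw [Matrix.mul_fin_two, Matrix.mul_fin_two]
  have q00 : (C x1 * X - C b1) * (C x2 * X - C b2) + C d1 * X * C d2 =
      (C y1 * X - C b1) * (C y2 * X - C b2) + C e1 * X * C e2 := by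
    linear_combination (-X ^ 2) * cX - X * cI
  have q01 : (C x1 * X - C b1) * (C d2 * X) + C d1 * X * (C b2 * X - C x2) =
      (C y1 * X - C b1) * (C e2 * X) + C e1 * X * (C b2 * X - C y2) := by
    linear_combination X ^ 2 * cD - X * cE
  have q10 : C d1 * (C x2 * X - C b2) + (C b1 * X - C x1) * C d2 =
      C e1 * (C y2 * X - C b2) + (C b1 * X - C y1) * C e2 := by
    linear_combination X * cE - cD
  have q11 : C d1 * (C d2 * X) + (C b1 * X - C x1) * (C b2 * X - C x2) =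
      C e1 * (C e2 * X) + (C b1 * X - C y1) * (C b2 * X - C y2) := by
    linear_combination (-1 : K[X]) * cX - X * cI
  rw [q00, q01, q10, q11]

private theorem pr_im {im : K} (him : im ^ 2 = -1) : im ≠ 0 := by
  intro h
  rw [h] at him
  norm_num at him

theorem UU_rec [CharZero K] [IsAlgClosed K] {im b1 g1 b2 g2 k1 k2 : K} (him : im ^ 2 = -1) (hT : Ty ![b1, b2] ![g1, g2])
    (h : UU im b1 g1 b2 g2 k1 k2) :
    Okk im b1 g1 (r1 im b1 g1 b2 g2 k1 k2) ∧ Okk im b2 g2 (r2 im b1 g1 b2 g2 k1 k2) ∧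
    xk im b1 g1 (r1 im b1 g1 b2 g2 k1 k2) * xk im b2 g2 (r2 im b1 g1 b2 g2 k1 k2) = xk im b1 g1 k1 * xk im b2 g2 k2 ∧
    Bm b1 (xk im b1 g1 k1) (dk im b1 g1 k1) * Bm b2 (xk im b2 g2 k2) (dk im b2 g2 k2) =
      Bm b2 (xk im b2 g2 (r2 im b1 g1 b2 g2 k1 k2)) (dk im b2 g2 (r2 im b1 g1 b2 g2 k1 k2)) *
        Bm b1 (xk im b1 g1 (r1 im b1 g1 b2 g2 k1 k2)) (dk im b1 g1 (r1 im b1 g1 b2 g2 k1 k2)) := by
  obtain ⟨ok1, ok2⟩ := pr_ok him hT h
  have hX := pr_X him hT h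
  refine ⟨ok1, ok2, hX, ?_⟩
  have hc := pr_c h
  have hc0 : k1 * k2 ≠ 0 := mul_ne_zero h.ok1.1 h.ok2.1
  have C1 := con_xk him h.ok1.2.2
  have C2 := con_xk him h.ok2.2.2
  have C1' := con_xk him ok1.2.2
  have C2' := con_xk him ok2.2.2
  have hx1 := pr_xk_ne h.ok1
  have hx2 := pr_xk_ne h.ok2
  have hy1 := pr_xk_ne ok1
  have hy2 := pr_xk_ne ok2
  have hne := h.ne
  have t1 : dk im b1 g1 k1 = k1 - im * (b1 + xk im b1 g1 k1) := rfl
  have t2 : dk im b2 g2 k2 = k2 - im * (b2 + xk im b2 g2 k2) := rfl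
  have t1' : dk im b1 g1 (r1 im b1 g1 b2 g2 k1 k2) = r1 im b1 g1 b2 g2 k1 k2 -
      im * (b1 + xk im b1 g1 (r1 im b1 g1 b2 g2 k1 k2)) := rfl
  have t2' : dk im b2 g2 (r2 im b1 g1 b2 g2 k1 k2) = r2 im b1 g1 b2 g2 k1 k2 -
      im * (b2 + xk im b2 g2 (r2 im b1 g1 b2 g2 k1 k2)) := rfl
  generalize r1 im b1 g1 b2 g2 k1 k2 = R1 at *
  generalize r2 im b1 g1 b2 g2 k1 k2 = R2 at *
  generalize xk im b1 g1 k1 = x1 at *
  generalize xk im b2 g2 k2 = x2 at *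
  generalize xk im b1 g1 R1 = y1 at *
  generalize xk im b2 g2 R2 = y2 at *
  generalize dk im b1 g1 k1 = d1 at *
  generalize dk im b2 g2 k2 = d2 at *
  generalize dk im b1 g1 R1 = e1 at *
  generalize dk im b2 g2 R2 = e2 at *
  have E1 := pr_e1 C1 C2
  have E1' := pr_e1 C1' C2'
  have I1 := pr_I him t1 t2
  have I1' := pr_I him t1' t2'
  have L := pr_lin him E1 (pr_e2 C1 C2) I1
  have L' := pr_lin him E1' (pr_e2 C1' C2') I1'
  rw [hX, hc] at L'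
  have hS : (x1 * d2 + d1 * b2) + (x2 * d1 + b1 * d2) = (y1 * e2 + e1 * b2) + (y2 * e1 + b1 * e2) := by
    have h3 : 2 * im * (k1 * k2) ≠ 0 := mul_ne_zero (mul_ne_zero two_ne_zero (pr_im him)) hc0
    apply mul_left_cancel₀ h3
    linear_combination L - L'
  rw [hX, hc, ← hS] at I1'
  have hI : x1 * b2 + x2 * b1 - d1 * d2 = y1 * b2 + y2 * b1 - e1 * e2 := by rw [I1, I1']
  have hP : (x1 * d2 + d1 * b2) * (x2 * d1 + b1 * d2) = (y1 * e2 + e1 * b2) * (y2 * e1 + b1 * e2) := by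
    rw [hX, ← hI] at E1'
    linear_combination E1 - E1'
  have hcase : ((y1 * e2 + e1 * b2) - (x1 * d2 + d1 * b2)) * ((y1 * e2 + e1 * b2) - (x2 * d1 + b1 * d2)) = 0 := by
    linear_combination hP - (y1 * e2 + e1 * b2) * hS
  rcases mul_eq_zero.1 hcase with h3 | h3
  · exfalso
    have h4 := pr_mat' hX hI (sub_eq_zero.1 h3).symm (by linear_combination hS + h3)
    have h5 := uniq (be := ![b1, b2]) (ga := ![g1, g2]) (x := ![x1, x2]) (d := ![d1, d2]) (x' := ![y1, y2]) (d' := ![e1, e2])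
      hT (by intro i; fin_cases i <;> assumption) (by intro i; fin_cases i <;> assumption)
      (by intro i; fin_cases i <;> assumption) (by intro i; fin_cases i <;> assumption)
      (by simpa [Ch, List.ofFn_succ] using h4)
    have h6 : x1 = y1 := congrFun h5.1 0
    have h7 : d1 = e1 := congrFun h5.2 0
    apply hne
    rw [t1, t1', h6] at h7
    exact sub_left_injective h7
  · exact pr_mat hX hI (by linear_combination hS + h3) (sub_eq_zero.1 h3).symm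


theorem UU_swap [CharZero K] [IsAlgClosed K] {im b1 g1 b2 g2 k1 k2 : K} (him : im ^ 2 = -1) (hT : Ty ![b1, b2] ![g1, g2])
    (h : UU im b1 g1 b2 g2 k1 k2) :
    UU im b2 g2 b1 g1 (r2 im b1 g1 b2 g2 k1 k2) (r1 im b1 g1 b2 g2 k1 k2) ∧
    r1 im b2 g2 b1 g1 (r2 im b1 g1 b2 g2 k1 k2) (r1 im b1 g1 b2 g2 k1 k2) = k2 ∧
    r2 im b2 g2 b1 g1 (r2 im b1 g1 b2 g2 k1 k2) (r1 im b1 g1 b2 g2 k1 k2) = k1 := by
  obtain ⟨ok1, ok2⟩ := pr_ok him hT h
  have hX := pr_X him hT h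
  have hc := pr_c h
  have N1 : nn1 im b2 g2 b1 g1 (r2 im b1 g1 b2 g2 k1 k2) (r1 im b1 g1 b2 g2 k1 k2) = nn2 im b1 g1 b2 g2 k1 k2 := by
    unfold nn1 nn2
    linear_combination b2 * hc + 2 * (g2 + b2) * hX
  have N2 : nn2 im b2 g2 b1 g1 (r2 im b1 g1 b2 g2 k1 k2) (r1 im b1 g1 b2 g2 k1 k2) = nn1 im b1 g1 b2 g2 k1 k2 := by
    unfold nn1 nn2
    linear_combination b1 * hc + 2 * (g1 + b1) * hX
  have n1 := h.n1
  have n2 := h.n2
  have s1 : r1 im b2 g2 b1 g1 (r2 im b1 g1 b2 g2 k1 k2) (r1 im b1 g1 b2 g2 k1 k2) = k2 := by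
    rw [r1, N1, N2, r1]
    field_simp
  have s2 : r2 im b2 g2 b1 g1 (r2 im b1 g1 b2 g2 k1 k2) (r1 im b1 g1 b2 g2 k1 k2) = k1 := by
    rw [r2, N1, N2, r2]
    field_simp
  refine ⟨⟨ok2, ok1, ?_, ?_, ?_, ?_, ?_⟩, s1, s2⟩
  · rw [N1]
    exact n2
  · rw [N2]
    exact n1
  · rw [mul_comm (r2 im b1 g1 b2 g2 k1 k2), hc]
    exact h.c2
  · rw [mul_comm (r2 im b1 g1 b2 g2 k1 k2), hc]
    exact h.c1
  · rw [s1]
    intro h3
    rw [h3] at hc
    exact h.ne (mul_right_cancel₀ h.ok2.1 hc).symm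

private noncomputable def pE (im b g k : K) : K := 2 * (g + b) + 2 * im * k

private noncomputable def pM (im b g b1 g1 b2 g2 k1 k2 : K) : K :=
  b * (pE im b1 g1 k1 * pE im b2 g2 k2) + 2 * (g + b) * ((k1 - 2 * im * b1) * (k2 - 2 * im * b2))

private theorem pr_nn {im b g b1 g1 b2 g2 k1 k2 : K} (h1 : pE im b1 g1 k1 ≠ 0) (h2 : pE im b2 g2 k2 ≠ 0) :
    b * (k1 * k2) + 2 * (xk im b1 g1 k1 * xk im b2 g2 k2) * (g + b) =
      k1 * k2 * pM im b g b1 g1 b2 g2 k1 k2 / (pE im b1 g1 k1 * pE im b2 g2 k2) := by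
  rw [eq_div_iff (mul_ne_zero h1 h2)]
  have h3 := pr_xk_mul (im := im) (b := b1) (g := g1) (k := k1) h1
  have h4 := pr_xk_mul (im := im) (b := b2) (g := g2) (k := k2) h2
  have h5 : xk im b1 g1 k1 * xk im b2 g2 k2 * (pE im b1 g1 k1 * pE im b2 g2 k2) =
      k1 * (k1 - 2 * im * b1) * (k2 * (k2 - 2 * im * b2)) := by
    rw [← h3, ← h4]
    unfold pE
    ring
  unfold pM
  linear_combination 2 * (g + b) * h5

private noncomputable def pG (im b1 g1 b2 g2 k1 k2 : K) : K :=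
  k1 * k2 * (k1 - 2 * im * b1) * (k2 - 2 * im * b2) * pE im b1 g1 k1 * pE im b2 g2 k2 *
    (k1 * k2 + 2 * b2 * (g1 + b1)) * (k1 * k2 + 2 * b1 * (g2 + b2)) *
    (k1 * pM im b2 g2 b1 g1 b2 g2 k1 k2 - k2 * pM im b1 g1 b1 g1 b2 g2 k1 k2)

private theorem pr_r1 {im b1 g1 b2 g2 k1 k2 : K} (h1 : pE im b1 g1 k1 ≠ 0) (h2 : pE im b2 g2 k2 ≠ 0) (k10 : k1 ≠ 0) (k20 : k2 ≠ 0) :
    r1 im b1 g1 b2 g2 k1 k2 = k2 * pM im b1 g1 b1 g1 b2 g2 k1 k2 / pM im b2 g2 b1 g1 b2 g2 k1 k2 ∧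
    r2 im b1 g1 b2 g2 k1 k2 = k1 * pM im b2 g2 b1 g1 b2 g2 k1 k2 / pM im b1 g1 b1 g1 b2 g2 k1 k2 := by
  unfold r1 r2 nn1 nn2
  rw [pr_nn h1 h2, pr_nn h1 h2]
  constructor <;> field_simp

private theorem pr_iff {im b1 g1 b2 g2 k1 k2 : K} :
    pG im b1 g1 b2 g2 k1 k2 * pM im b1 g1 b1 g1 b2 g2 k1 k2 * pM im b2 g2 b1 g1 b2 g2 k1 k2 ≠ 0 ↔ UU im b1 g1 b2 g2 k1 k2 := by
  constructor
  · intro h
    have hM2 := right_ne_zero_of_mul h
    have h' := left_ne_zero_of_mul h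
    have hM1 := right_ne_zero_of_mul h'
    have hG := left_ne_zero_of_mul h'
    unfold pG at hG
    have ht := right_ne_zero_of_mul hG
    have hG1 := left_ne_zero_of_mul hG
    have hq2 := right_ne_zero_of_mul hG1
    have hG2 := left_ne_zero_of_mul hG1
    have hq1 := right_ne_zero_of_mul hG2
    have hG3 := left_ne_zero_of_mul hG2
    have hE2 := right_ne_zero_of_mul hG3
    have hG4 := left_ne_zero_of_mul hG3
    have hE1 := right_ne_zero_of_mul hG4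
    have hG5 := left_ne_zero_of_mul hG4
    have hp4 := right_ne_zero_of_mul hG5
    have hG6 := left_ne_zero_of_mul hG5
    have hp3 := right_ne_zero_of_mul hG6
    have hG7 := left_ne_zero_of_mul hG6
    have k20 := right_ne_zero_of_mul hG7
    have k10 := left_ne_zero_of_mul hG7
    refine ⟨⟨k10, sub_ne_zero.1 hp3, hE1⟩, ⟨k20, sub_ne_zero.1 hp4, hE2⟩, ?_, ?_, ?_, ?_, ?_⟩
    · unfold nn1
      rw [pr_nn hE1 hE2]
      exact div_ne_zero (mul_ne_zero (mul_ne_zero k10 k20) hM1) (mul_ne_zero hE1 hE2)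
    · unfold nn2
      rw [pr_nn hE1 hE2]
      exact div_ne_zero (mul_ne_zero (mul_ne_zero k10 k20) hM2) (mul_ne_zero hE1 hE2)
    · intro h3
      apply hq1
      rw [h3]
      ring
    · intro h3
      apply hq2
      rw [h3]
      ring
    · rw [(pr_r1 hE1 hE2 k10 k20).1]
      intro h3
      rw [eq_div_iff hM2] at h3
      apply ht
      rw [h3]
      ring
  · intro h
    obtain ⟨k10, hp3, hE1⟩ := h.ok1
    obtain ⟨k20, hp4, hE2⟩ := h.ok2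
    have n1 := h.n1
    have n2 := h.n2
    unfold nn1 at n1
    unfold nn2 at n2
    rw [pr_nn hE1 hE2] at n1 n2
    have hM1 : pM im b1 g1 b1 g1 b2 g2 k1 k2 ≠ 0 := by
      intro h3
      rw [h3, mul_zero, zero_div] at n1
      exact n1 rfl
    have hM2 : pM im b2 g2 b1 g1 b2 g2 k1 k2 ≠ 0 := by
      intro h3
      rw [h3, mul_zero, zero_div] at n2
      exact n2 rfl
    refine mul_ne_zero (mul_ne_zero ?_ hM1) hM2
    unfold pG
    refine mul_ne_zero (mul_ne_zero (mul_ne_zero (mul_ne_zero (mul_ne_zero (mul_ne_zero (mul_ne_zero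
      (mul_ne_zero k10 k20) (sub_ne_zero.2 hp3)) (sub_ne_zero.2 hp4)) hE1) hE2) ?_) ?_) ?_
    · intro h3
      apply h.c1
      linear_combination h3
    · intro h3
      apply h.c2
      linear_combination h3
    · intro h3
      apply h.ne
      rw [(pr_r1 hE1 hE2 k10 k20).1, eq_div_iff hM2]
      linear_combination h3

theorem UU_poly [CharZero K] {im b1 g1 b2 g2 : K} (him : im ^ 2 = -1) (hT : Ty ![b1, b2] ![g1, g2]) :
    ∃ G a1 a2 : MvPolynomial (Fin 2) K, G ≠ 0 ∧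
      (∀ k1 k2, MvPolynomial.eval ![k1, k2] G ≠ 0 ↔ UU im b1 g1 b2 g2 k1 k2) ∧
      ∀ k1 k2, UU im b1 g1 b2 g2 k1 k2 →
        r1 im b1 g1 b2 g2 k1 k2 = MvPolynomial.eval ![k1, k2] a1 / MvPolynomial.eval ![k1, k2] G ∧
        r2 im b1 g1 b2 g2 k1 k2 = MvPolynomial.eval ![k1, k2] a2 / MvPolynomial.eval ![k1, k2] G := by
  obtain ⟨hb1, hb2, ns1, ns2⟩ := pr_ty hT
  have hg1 : g1 + b1 ≠ 0 := fun h => ns1 (by linear_combination (g1 - b1) * h)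
  have hg1' : g1 - b1 ≠ 0 := fun h => ns1 (by linear_combination (g1 + b1) * h)
  have hg2 : g2 + b2 ≠ 0 := fun h => ns2 (by linear_combination (g2 - b2) * h)
  have hg2' : g2 - b2 ≠ 0 := fun h => ns2 (by linear_combination (g2 + b2) * h)
  obtain ⟨E1, hE1⟩ : ∃ E1 : MvPolynomial (Fin 2) K, E1 = MvPolynomial.C (2 * (g1 + b1)) + MvPolynomial.C (2 * im) * MvPolynomial.X 0 := ⟨_, rfl⟩
  obtain ⟨E2, hE2⟩ : ∃ E2 : MvPolynomial (Fin 2) K, E2 = MvPolynomial.C (2 * (g2 + b2)) + MvPolynomial.C (2 * im) * MvPolynomial.X 1 := ⟨_, rfl⟩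
  obtain ⟨p3, hp3⟩ : ∃ p3 : MvPolynomial (Fin 2) K, p3 = MvPolynomial.X 0 - MvPolynomial.C (2 * im * b1) := ⟨_, rfl⟩
  obtain ⟨p4, hp4⟩ : ∃ p4 : MvPolynomial (Fin 2) K, p4 = MvPolynomial.X 1 - MvPolynomial.C (2 * im * b2) := ⟨_, rfl⟩
  obtain ⟨M1, hM1⟩ : ∃ M1 : MvPolynomial (Fin 2) K, M1 = MvPolynomial.C b1 * (E1 * E2) + MvPolynomial.C (2 * (g1 + b1)) * (p3 * p4) := ⟨_, rfl⟩
  obtain ⟨M2, hM2⟩ : ∃ M2 : MvPolynomial (Fin 2) K, M2 = MvPolynomial.C b2 * (E1 * E2) + MvPolynomial.C (2 * (g2 + b2)) * (p3 * p4) := ⟨_, rfl⟩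
  obtain ⟨q1, hq1⟩ : ∃ q1 : MvPolynomial (Fin 2) K, q1 = MvPolynomial.X 0 * MvPolynomial.X 1 + MvPolynomial.C (2 * b2 * (g1 + b1)) := ⟨_, rfl⟩
  obtain ⟨q2, hq2⟩ : ∃ q2 : MvPolynomial (Fin 2) K, q2 = MvPolynomial.X 0 * MvPolynomial.X 1 + MvPolynomial.C (2 * b1 * (g2 + b2)) := ⟨_, rfl⟩
  obtain ⟨t, ht⟩ : ∃ t : MvPolynomial (Fin 2) K, t = MvPolynomial.X 0 * M2 - MvPolynomial.X 1 * M1 := ⟨_, rfl⟩
  obtain ⟨G0, hG0⟩ : ∃ G0 : MvPolynomial (Fin 2) K, G0 = MvPolynomial.X 0 * MvPolynomial.X 1 * p3 * p4 * E1 * E2 * q1 * q2 * t := ⟨_, rfl⟩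
  have eE1 : ∀ k1 k2 : K, MvPolynomial.eval ![k1, k2] E1 = pE im b1 g1 k1 := fun k1 k2 => by simp [hE1, pE]
  have eE2 : ∀ k1 k2 : K, MvPolynomial.eval ![k1, k2] E2 = pE im b2 g2 k2 := fun k1 k2 => by simp [hE2, pE]
  have ep3 : ∀ k1 k2 : K, MvPolynomial.eval ![k1, k2] p3 = k1 - 2 * im * b1 := fun k1 k2 => by simp [hp3]
  have ep4 : ∀ k1 k2 : K, MvPolynomial.eval ![k1, k2] p4 = k2 - 2 * im * b2 := fun k1 k2 => by simp [hp4]
  have eM1 : ∀ k1 k2 : K, MvPolynomial.eval ![k1, k2] M1 = pM im b1 g1 b1 g1 b2 g2 k1 k2 := fun k1 k2 => by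
    simp [hM1, eE1, eE2, ep3, ep4, pM]
  have eM2 : ∀ k1 k2 : K, MvPolynomial.eval ![k1, k2] M2 = pM im b2 g2 b1 g1 b2 g2 k1 k2 := fun k1 k2 => by
    simp [hM2, eE1, eE2, ep3, ep4, pM]
  have eq1 : ∀ k1 k2 : K, MvPolynomial.eval ![k1, k2] q1 = k1 * k2 + 2 * b2 * (g1 + b1) := fun k1 k2 => by simp [hq1]
  have eq2 : ∀ k1 k2 : K, MvPolynomial.eval ![k1, k2] q2 = k1 * k2 + 2 * b1 * (g2 + b2) := fun k1 k2 => by simp [hq2]
  have et : ∀ k1 k2 : K, MvPolynomial.eval ![k1, k2] t = k1 * pM im b2 g2 b1 g1 b2 g2 k1 k2 - k2 * pM im b1 g1 b1 g1 b2 g2 k1 k2 :=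
    fun k1 k2 => by simp [ht, eM1, eM2]
  have eG0 : ∀ k1 k2 : K, MvPolynomial.eval ![k1, k2] G0 = pG im b1 g1 b2 g2 k1 k2 := fun k1 k2 => by
    simp [hG0, eE1, eE2, ep3, ep4, eq1, eq2, et, pG]
  have nz : ∀ (P : MvPolynomial (Fin 2) K) (k1 k2 : K), MvPolynomial.eval ![k1, k2] P ≠ 0 → P ≠ 0 := by
    intro P k1 k2 h h0
    rw [h0, map_zero] at h
    exact h rfl
  refine ⟨G0 * M1 * M2, MvPolynomial.X 1 * M1 * (G0 * M1), MvPolynomial.X 0 * M2 * (G0 * M2), ?_, ?_, ?_⟩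
  · have two : (2 : K) ≠ 0 := two_ne_zero
    have four : (4 : K) ≠ 0 := by norm_num
    have hM1' : M1 ≠ 0 := by
      apply nz M1 (2 * im * b1) 0
      rw [eM1]
      have h1 : pM im b1 g1 b1 g1 b2 g2 (2 * im * b1) 0 = 4 * b1 * ((g1 - b1) * (g2 + b2)) := by
        unfold pM pE
        linear_combination (8 * b1 ^ 2 * (g2 + b2)) * him
      rw [h1]
      exact mul_ne_zero (mul_ne_zero four hb1) (mul_ne_zero hg1' hg2)
    have hM2' : M2 ≠ 0 := by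
      apply nz M2 0 (2 * im * b2)
      rw [eM2]
      have h1 : pM im b2 g2 b1 g1 b2 g2 0 (2 * im * b2) = 4 * b2 * ((g1 + b1) * (g2 - b2)) := by
        unfold pM pE
        linear_combination (8 * b2 ^ 2 * (g1 + b1)) * him
      rw [h1]
      exact mul_ne_zero (mul_ne_zero four hb2) (mul_ne_zero hg1 hg2')
    have ht' : t ≠ 0 := by
      apply nz t 1 0
      rw [et]
      have h1 : (1 : K) * pM im b2 g2 b1 g1 b2 g2 1 0 - 0 * pM im b1 g1 b1 g1 b2 g2 1 0 = 4 * b2 * ((g1 - b1) * (g2 + b2)) := by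
        unfold pM pE
        linear_combination (8 * b1 * b2 * (g2 + b2)) * him
      rw [h1]
      exact mul_ne_zero (mul_ne_zero four hb2) (mul_ne_zero hg1' hg2)
    have hE1' : E1 ≠ 0 := by
      apply nz E1 0 0
      rw [eE1]
      unfold pE
      rw [mul_zero, add_zero]
      exact mul_ne_zero two hg1
    have hE2' : E2 ≠ 0 := by
      apply nz E2 0 0
      rw [eE2]
      unfold pE
      rw [mul_zero, add_zero]
      exact mul_ne_zero two hg2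
    have hp3' : p3 ≠ 0 := by
      apply nz p3 (2 * im * b1 + 1) 0
      rw [ep3]
      simp
    have hp4' : p4 ≠ 0 := by
      apply nz p4 0 (2 * im * b2 + 1)
      rw [ep4]
      simp
    have hq1' : q1 ≠ 0 := by
      apply nz q1 0 0
      rw [eq1, zero_mul, zero_add]
      exact mul_ne_zero (mul_ne_zero two hb2) hg1
    have hq2' : q2 ≠ 0 := by
      apply nz q2 0 0
      rw [eq2, zero_mul, zero_add]
      exact mul_ne_zero (mul_ne_zero two hb1) hg2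
    have hX0 : (MvPolynomial.X 0 : MvPolynomial (Fin 2) K) ≠ 0 := MvPolynomial.X_ne_zero 0
    have hX1 : (MvPolynomial.X 1 : MvPolynomial (Fin 2) K) ≠ 0 := MvPolynomial.X_ne_zero 1
    rw [hG0]
    exact mul_ne_zero (mul_ne_zero (mul_ne_zero (mul_ne_zero (mul_ne_zero (mul_ne_zero (mul_ne_zero (mul_ne_zero
      (mul_ne_zero (mul_ne_zero hX0 hX1) hp3') hp4') hE1') hE2') hq1') hq2') ht') hM1') hM2'
  · intro k1 k2
    rw [map_mul, map_mul, eG0, eM1, eM2]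
    exact pr_iff
  · intro k1 k2 h
    have hne := pr_iff.2 h
    have hG := left_ne_zero_of_mul (left_ne_zero_of_mul hne)
    have hm1 := right_ne_zero_of_mul (left_ne_zero_of_mul hne)
    have hm2 := right_ne_zero_of_mul hne
    obtain ⟨s1, s2⟩ := pr_r1 h.ok1.2.2 h.ok2.2.2 h.ok1.1 h.ok2.1
    rw [s1, s2]
    simp only [map_mul, eG0, eM1, eM2, MvPolynomial.eval_X, Matrix.cons_val_zero, Matrix.cons_val_one]
    constructor <;> field_simp

end H19.ES
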