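import Pool.Agent.H19.ES.Frm

/-! # ES.Peel : splitting off one factor (about 250 lines)

`F` a field, `M` with the formal properties of a product of `k + 1` matrices, `det M = X₀ f g`, `f = ff be ga`, `λ` a root of `f` (so `λ ≠ 0`, `λ² ≠ 1`, `2γλ = β(λ²+1)`, `f = β (X - λ)(X - 1/λ)`), the columns of `M(λ)` multiples of `v = (v₀, v₁)`, and
`x = βλ(v₀²+v₁²)/(v₀²+λ²v₁²)`, `δ = βv₀v₁(λ²-1)/(v₀²+λ²v₁²)`.  Then `(x, δ)` is on the conic (`field_simp`, `ring` with `2γλ = β(λ²+1)`) and `x ≠ 0`.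
Let `N = Bm x β (-δ) * M` (`adj`), `Frm (k+2) N (β X₀) (x β B₀)` by `Frm.mul`.  `N(λ) = 0` because `Bm x β (-δ)` at `λ` kills `v`: `(λβ - x)v₀ = λδv₁`, `δv₀ = (λx - β)v₁`.  By the symmetry (`m11`, `m10`: the value of a reflected
polynomial at `λ` is `λ^n` times the value at `1/λ`; `eval₂_reflect_mul_pow` or `Polynomial.eval₂_reverse_mul_pow`-like lemmas) also `N(1/λ) = 0`.  So `f` divides all entries of `N` (two different roots): `N = x f M'`, `M'` with the formal
properties: degree `≤ k` (the leading coefficient `xβ` of `x f` is not `0`), `m11`, `m10` by `reflect_mul` and `ff_reflect` and cancelling `x f`, `top`: coefficient `k + 2`, `bot`, `r0`: coefficient `0`.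
`Bm β x δ * N = x f M` (`adj_Bm`, `det_Bm`), so `x f M = Bm β x δ * (x f M')` and `M = Bm β x δ * M'`.  Determinants: `x f det M' = det M = X₀ f g`. -/

namespace H19.ES

open H68.BB Polynomial

variable {F : Type} [Field F] [CharZero F]

private theorem sgn_eval (n : ℕ) (p : F[X]) (a : F) : ((-1) ^ n * p).eval a = (-1) ^ n * p.eval a := by
  simp

private theorem eval_inv_of {n : ℕ} {p q : F[X]} {m : ℕ} {l : F} (hl : l ≠ 0) (hq : q = (-1) ^ m * p.reflect n)
    (hp : p.natDegree ≤ n) (h : p.eval l = 0) : q.eval l⁻¹ = 0 := by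
  letI := invertibleOfNonzero hl
  have h1 := eval₂_reflect_mul_pow (RingHom.id F) l n p hp
  rw [invOf_eq_inv, ← eval, ← eval, h] at h1
  have h2 : (p.reflect n).eval l⁻¹ = 0 := by
    rcases mul_eq_zero.1 h1 with h | h
    · exact h
    · exact absurd h (pow_ne_zero _ hl)
  rw [hq, sgn_eval, h2, mul_zero]

private theorem refl_symm {n m : ℕ} {p q : F[X]} (hq : q = (-1) ^ m * p.reflect n) : p = (-1) ^ m * q.reflect n := by
  have h0 : ((-1 : F[X]) ^ m) = C ((-1) ^ m) := by simp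
  rw [hq, h0, reflect_C_mul, reflect_reflect, ← mul_assoc, ← C_mul, ← mul_pow]
  simp

private theorem ff_dvd {be ga l : F} {p : F[X]} (hbe : be ≠ 0) (hl0 : l ≠ 0) (hl1 : l ^ 2 ≠ 1)
    (h2 : 2 * ga * l = be * (l ^ 2 + 1)) {x : F} (hx : x ≠ 0) (hp : p.eval l = 0) (hp' : p.eval l⁻¹ = 0) :
    ∃ q, p = C x * ff be ga * q := by
  have hd : (X - C l) ∣ p := dvd_iff_isRoot.2 hp
  have hd' : (X - C l⁻¹) ∣ p := dvd_iff_isRoot.2 hp'
  have hne : l ≠ l⁻¹ := by
    intro h
    apply hl1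
    rw [pow_two]
    nth_rewrite 2 [h]
    exact mul_inv_cancel₀ hl0
  have hco : IsCoprime (X - C l) (X - C l⁻¹) := isCoprime_X_sub_C_of_isUnit_sub (sub_ne_zero.2 hne).isUnit
  obtain ⟨q, hq⟩ := hco.mul_dvd hd hd'
  refine ⟨C (be * x)⁻¹ * q, ?_⟩
  have hf : ff be ga = C be * ((X - C l) * (X - C l⁻¹)) := by
    have h3 : 2 * ga = be * (l + l⁻¹) := by
      field_simp
      linear_combination h2
    unfold ff
    rw [h3]
    have h4 : (C l * C l⁻¹ : F[X]) = 1 := by
      rw [← C_mul, mul_inv_cancel₀ hl0, C_1]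
    simp only [C_mul, C_add]
    linear_combination (-C be : F[X]) * h4
  have h5 : (C x * C be * C (be * x)⁻¹ : F[X]) = 1 := by
    rw [← C_mul, ← C_mul, mul_comm x be, mul_inv_cancel₀ (mul_ne_zero hbe hx), C_1]
  rw [hf, hq]
  linear_combination (-((X - C l) * (X - C l⁻¹) * q)) * h5

theorem peel {k : ℕ} {be ga X0 B0 : F} {M : Matrix (Fin 2) (Fin 2) F[X]} {g : F[X]} (hM : Frm (k + 1) M X0 (be * B0))
    (hdet : M.det = C X0 * (ff be ga * g)) (hbe : be ≠ 0) (hns : ga ^ 2 ≠ be ^ 2) {l : F} (hl : (ff be ga).eval l = 0)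
    {v0 v1 : F} (hcol : ∀ j, ∃ c, (M 0 j).eval l = c * v0 ∧ (M 1 j).eval l = c * v1) (h1 : v0 ^ 2 + v1 ^ 2 ≠ 0)
    (h2 : v0 ^ 2 + l ^ 2 * v1 ^ 2 ≠ 0) {x d : F} (hx : x = be * l * (v0 ^ 2 + v1 ^ 2) / (v0 ^ 2 + l ^ 2 * v1 ^ 2))
    (hd : d = be * v0 * v1 * (l ^ 2 - 1) / (v0 ^ 2 + l ^ 2 * v1 ^ 2)) :
    Con be ga x d ∧ x ≠ 0 ∧ ∃ M' : Matrix (Fin 2) (Fin 2) F[X], Frm k M' (X0 / x) B0 ∧ M = Bm be x d * M' ∧
      M'.det = C (X0 / x) * g := by
  have hev : be * l ^ 2 - 2 * ga * l + be = 0 := by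
    have h := hl
    unfold ff at h
    simpa using h
  have h2g : 2 * ga * l = be * (l ^ 2 + 1) := by linear_combination -hev
  have hl0 : l ≠ 0 := by
    rintro rfl
    apply hbe
    linear_combination hev
  have hl1 : l ^ 2 ≠ 1 := by
    intro h
    have h3 : ga * l = be := by
      have h4 : (2 : F) * (ga * l) = 2 * be := by
        rw [h] at h2g
        linear_combination h2g
      exact mul_left_cancel₀ two_ne_zero h4
    apply hns
    rw [← h3]
    linear_combination (-ga ^ 2) * h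
  have hx0 : x ≠ 0 := by
    rw [hx]
    exact div_ne_zero (mul_ne_zero (mul_ne_zero hbe hl0) h1) h2
  have hxD : x * (v0 ^ 2 + l ^ 2 * v1 ^ 2) = be * l * (v0 ^ 2 + v1 ^ 2) := by
    rw [hx, div_mul_cancel₀ _ h2]
  have hdD : d * (v0 ^ 2 + l ^ 2 * v1 ^ 2) = be * v0 * v1 * (l ^ 2 - 1) := by
    rw [hd, div_mul_cancel₀ _ h2]
  have hcon : Con be ga x d := by
    unfold Con
    have h3 : (v0 ^ 2 + l ^ 2 * v1 ^ 2) ^ 2 * (d ^ 2 + x ^ 2 - 2 * ga * x + be ^ 2) = 0 := by
      linear_combination (d * (v0 ^ 2 + l ^ 2 * v1 ^ 2) + be * v0 * v1 * (l ^ 2 - 1)) * hdD +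
        (x * (v0 ^ 2 + l ^ 2 * v1 ^ 2) + be * l * (v0 ^ 2 + v1 ^ 2) - 2 * ga * (v0 ^ 2 + l ^ 2 * v1 ^ 2)) * hxD -
        (be * (v0 ^ 2 + v1 ^ 2) * (v0 ^ 2 + l ^ 2 * v1 ^ 2)) * h2g
    exact (mul_eq_zero.1 h3).resolve_left (pow_ne_zero _ h2)
  refine ⟨hcon, hx0, ?_⟩
  have hN := (frm_Bm x be (-d)).mul hM
  rw [show 1 + (k + 1) = 2 + k by ring] at hN
  set N := Bm x be (-d) * M with hNdef
  have k1 : (be * l - x) * v0 = l * d * v1 := by
    apply mul_left_cancel₀ h2
    linear_combination (-v0) * hxD - l * v1 * hdD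
  have k2 : d * v0 = (x * l - be) * v1 := by
    apply mul_left_cancel₀ h2
    linear_combination v0 * hdD - l * v1 * hxD
  have hNl : ∀ i j, (N i j).eval l = 0 := by
    intro i j
    obtain ⟨c, hc0, hc1⟩ := hcol j
    rw [hNdef, Matrix.mul_apply, Fin.sum_univ_two, eval_add, eval_mul, eval_mul, hc0, hc1]
    fin_cases i
    · have e0 : (Bm x be (-d) 0 0).eval l = be * l - x := by
        unfold Bm
        simp
      have e1 : (Bm x be (-d) 0 1).eval l = -d * l := by
        unfold Bm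
        simp
      change (Bm x be (-d) 0 0).eval l * (c * v0) + (Bm x be (-d) 0 1).eval l * (c * v1) = 0
      rw [e0, e1]
      linear_combination c * k1
    · have e0 : (Bm x be (-d) 1 0).eval l = -d := by
        unfold Bm
        simp
      have e1 : (Bm x be (-d) 1 1).eval l = x * l - be := by
        unfold Bm
        simp
      change (Bm x be (-d) 1 0).eval l * (c * v0) + (Bm x be (-d) 1 1).eval l * (c * v1) = 0
      rw [e0, e1]
      linear_combination (-c) * k2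
  have hNl' : ∀ i j, (N i j).eval l⁻¹ = 0 := by
    intro i j
    fin_cases i <;> fin_cases j
    · exact eval_inv_of hl0 (refl_symm hN.m11) (hN.deg 1 1) (hNl 1 1)
    · exact eval_inv_of hl0 (refl_symm hN.m10) (hN.deg 1 0) (hNl 1 0)
    · exact eval_inv_of hl0 hN.m10 (hN.deg 0 1) (hNl 0 1)
    · exact eval_inv_of hl0 hN.m11 (hN.deg 0 0) (hNl 0 0)
  have hq : ∀ i j, ∃ q, N i j = C x * ff be ga * q := fun i j =>
    ff_dvd hbe hl0 hl1 h2g hx0 (hNl i j) (hNl' i j)
  choose q hq using hq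
  have hff2 : (C x * ff be ga).coeff 2 = x * be := by
    unfold ff
    simp
  have hff0 : (C x * ff be ga).coeff 0 = x * be := by
    unfold ff
    simp
  have hxb : x * be ≠ 0 := mul_ne_zero hx0 hbe
  have hfne : C x * ff be ga ≠ 0 := by
    intro h
    rw [h, coeff_zero] at hff2
    exact hxb hff2.symm
  have hfd : (C x * ff be ga).natDegree ≤ 2 := by
    refine natDegree_mul_le.trans ?_
    rw [natDegree_C, zero_add]
    exact ff_natDegree _ _
  have hfd2 : (C x * ff be ga).natDegree = 2 :=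
    le_antisymm hfd (le_natDegree_of_ne_zero (by rw [hff2]; exact hxb))
  have hfr : (C x * ff be ga).reflect 2 = C x * ff be ga := by
    rw [reflect_C_mul, ff_reflect]
  have hdeg : ∀ i j, (q i j).natDegree ≤ k := by
    intro i j
    by_cases h0 : q i j = 0
    · rw [h0, natDegree_zero]
      exact Nat.zero_le _
    · have h3 := hN.deg i j
      rw [hq, natDegree_mul hfne h0, hfd2] at h3
      omega
  have hr : ∀ i j, (N i j).reflect (2 + k) = C x * ff be ga * (q i j).reflect k := by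
    intro i j
    rw [hq, reflect_mul _ _ hfd (hdeg i j), hfr]
  have hM' : N = (C x * ff be ga) • (Matrix.of q) := by
    ext1 i j
    rw [Matrix.smul_apply, smul_eq_mul, Matrix.of_apply]
    exact hq i j
  have hMM : M = Bm be x d * Matrix.of q := by
    have h3 : (C x * ff be ga) • M = (C x * ff be ga) • (Bm be x d * Matrix.of q) := by
      rw [← Matrix.mul_smul, ← hM', hNdef, ← Matrix.mul_assoc, (adj_Bm be x d).1, det_Bm hcon, Matrix.smul_mul,
        Matrix.one_mul]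
    ext1 i j
    have h4 := congrFun (congrFun h3 i) j
    rw [Matrix.smul_apply, Matrix.smul_apply, smul_eq_mul, smul_eq_mul] at h4
    exact mul_left_cancel₀ hfne h4
  refine ⟨Matrix.of q, ⟨?_, ?_, ?_, ?_, ?_, ?_⟩, hMM, ?_⟩
  · intro i j
    exact hdeg i j
  · have h3 := hN.m11
    rw [hr, hq] at h3
    refine mul_left_cancel₀ hfne (h3.trans ?_)
    rw [Matrix.of_apply, pow_add]
    ring
  · have h3 := hN.m10
    rw [hr, hq] at h3
    refine mul_left_cancel₀ hfne (h3.trans ?_)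
    rw [Matrix.of_apply, pow_succ, pow_add, pow_succ]
    ring
  · have h3 := hN.top
    rw [hq, coeff_mul_add_eq_of_natDegree_le hfd (hdeg 0 0), hff2] at h3
    rw [Matrix.of_apply, eq_div_iff hx0]
    apply mul_left_cancel₀ hbe
    linear_combination h3
  · have h3 := hN.bot
    rw [hq, mul_coeff_zero, hff0] at h3
    rw [Matrix.of_apply]
    apply mul_left_cancel₀ hxb
    rw [h3, pow_add]
    ring
  · have h3 := hN.r0
    rw [hq, mul_coeff_zero, hff0] at h3
    rw [Matrix.of_apply]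
    exact (mul_eq_zero.1 h3).resolve_left hxb
  · have h3 := hdet
    rw [hMM, Matrix.det_mul, det_Bm hcon] at h3
    apply mul_left_cancel₀ hfne
    rw [h3]
    have h4 : (C X0 : F[X]) = C x * C (X0 / x) := by
      rw [← C_mul, mul_div_cancel₀ _ hx0]
    rw [h4]
    ring

end H19.ES
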