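import Pool.Agent.H19.ES.SolDef
import Pool.Agent.H19.ES.LiftCh

/-! # ES.Sol1 : the chain `c` over `K` lifts to a chain over `Ω` (about 100 lines)

`lift_ch` for the types `bt (σ j) be`, `bt (σ j) ga` (reducing to those of `c j`; `∏` and `Ty` are invariant under the permutation `σ`: `Equiv.prod_comp`), `x0 j = (c j).x ^ 2`, `d0 j = (c j).y` (`OnT_iff`), `X0 = wt ^ 2`.  It gives `x j`, `d j`.  For every `j` choose `w_j` in `Ω` with `w_j ^ 2 = x j` which
reduces to `(c j).x` (a square root `r` of `x j` is integral (`mem_of_root` in `H67.KH.Val` or: `r² ∈ V`), its reduction `r'` satisfies `r'² = (c j).x²`, so `r' = ± (c j).x`; take `± r`).  `s j = ⟨bt (σ j), w_j, d j⟩`.  `Mt be s = M`.  `∏ w_j`: its square is `∏ x j = wt²` (the coefficient `top` of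
`frm_Ch` and of `hM`), so it is `± wt`, and both `∏ w_j` and `wt` reduce to `∏ (c j).x ≠ 0`, so it is `wt` (characteristic not 2). -/

namespace H19.ES

open H68.BB Polynomial

variable {K A : Type} [Field K] [IsAlgClosed K] [CharZero K] [CommRing A] [Algebra K A] {k : ℕ}

omit [IsAlgClosed K] [CharZero K] in
private theorem s1_prod {π : Place K (Om K)} {ι : Type} (s : Finset ι) {f : ι → Om K} {g : ι → K}
    (h : ∀ i ∈ s, Rd π.V π.φ (f i) (g i)) : Rd π.V π.φ (∏ i ∈ s, f i) (∏ i ∈ s, g i) := by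
  classical
  induction s using Finset.induction_on with
  | empty =>
    rw [Finset.prod_empty, Finset.prod_empty]
    exact Rd.one
  | insert a s ha ih =>
    rw [Finset.prod_insert ha, Finset.prod_insert ha]
    exact (h a (Finset.mem_insert_self _ _)).mul (ih fun i hi => h i (Finset.mem_insert_of_mem hi))

omit [IsAlgClosed K] [CharZero K] in
private theorem s1_sqrt {π : Place K (Om K)} {X0 : Om K} {x0 : K} (h : Rd π.V π.φ X0 (x0 ^ 2)) :
    ∃ w : Om K, w ^ 2 = X0 ∧ Rd π.V π.φ w x0 := by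
  obtain ⟨r, hr⟩ := IsAlgClosed.exists_pow_nat_eq X0 two_pos
  have hmem : r ∈ π.V := by
    rcases π.V.mem_or_inv_mem r with h1 | h1
    · exact h1
    · by_cases h0 : r = 0
      · rw [h0]
        exact π.V.zero_mem
      · have h2 : r = X0 * r⁻¹ := by
          rw [← hr, pow_two, mul_assoc, mul_inv_cancel₀ h0, mul_one]
        rw [h2]
        exact π.V.mul_mem _ _ h.mem h1
  have h3 := Rd.of_mem (φ := π.φ) hmem
  set r' := π.φ ⟨r, hmem⟩
  have h4 := (h3.pow 2)
  rw [hr] at h4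
  have h5 : r' ^ 2 = x0 ^ 2 := h4.unique h
  rcases sq_eq_sq_iff_eq_or_eq_neg.1 h5 with h6 | h6
  · rw [h6] at h3
    exact ⟨r, hr, h3⟩
  · have h7 := h3.neg
    rw [h6, neg_neg] at h7
    exact ⟨-r, by rw [neg_sq, hr], h7⟩

theorem sol_lift {be ga : A} {π0 : Place K (Om K)} {bt : Fin k → (A →ₐ[K] Om K)} {b : Fin k → (A →ₐ[K] K)}
    (red : ∀ i r, Rd π0.V π0.φ (bt i r) (b i r)) (hT : Ty (fun i => b i be) (fun i => b i ga)) {σ : Equiv.Perm (Fin k)}
    {c : Fin k → Pt K A K} (hcb : ∀ j, (c j).b = b (σ j)) (hcon : ∀ j, OnT be ga (c j)) (hcx : ∀ j, (c j).x ≠ 0)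
    {M : Matrix (Fin 2) (Fin 2) (Om K)[X]} {wt : Om K} (hM : Frm k M (wt ^ 2) (∏ i, bt i be))
    (hdet : M.det = C (wt ^ 2) * ∏ i, ff (bt i be) (bt i ga))
    (hr : ∀ i j n, Rd π0.V π0.φ ((M i j).coeff n) ((Mt be c i j).coeff n)) (hw : Rd π0.V π0.φ wt (∏ j, (c j).x)) :
    ∃ s : Fin k → Pt K A (Om K), (∀ j, (s j).b = bt (σ j)) ∧ (∀ j, OnT be ga (s j)) ∧ Mt be s = M ∧
      ∏ j, (s j).x = wt ∧ ∀ j, Sp π0 (s j) (c j) := by
  have hb1 : ∀ j (r : A), Rd π0.V π0.φ (bt (σ j) r) ((c j).b r) := by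
    intro j r
    rw [hcb j]
    exact red (σ j) r
  have hT' : Ty (fun j => (c j).b be) (fun j => (c j).b ga) := by
    refine ⟨fun j => ?_, fun j => ?_, fun i j hij => ?_⟩
    · show (c j).b be ≠ 0
      rw [hcb j]
      exact hT.be0 (σ j)
    · show (c j).b ga ^ 2 ≠ (c j).b be ^ 2
      rw [hcb j]
      exact hT.ns (σ j)
    · show (c i).b ga * (c j).b be ≠ (c j).b ga * (c i).b be
      rw [hcb i, hcb j]
      exact hT.co (σ i) (σ j) (fun h => hij (σ.injective h))
  have hM' : Frm k M (wt ^ 2) (∏ j, bt (σ j) be) := by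
    rw [Equiv.prod_comp σ (fun i => bt i be)]
    exact hM
  have hdet' : M.det = C (wt ^ 2) * ∏ j, ff (bt (σ j) be) (bt (σ j) ga) := by
    rw [Equiv.prod_comp σ (fun i => ff (bt i be) (bt i ga))]
    exact hdet
  obtain ⟨x, d, h1, h2, h3, h4⟩ := lift_ch (π := π0) (be := fun j => bt (σ j) be)
    (ga := fun j => bt (σ j) ga) (be0 := fun j => (c j).b be) (ga0 := fun j => (c j).b ga)
    (x0 := fun j => (c j).x ^ 2) (d0 := fun j => (c j).y) (fun j => hb1 j be) (fun j => hb1 j ga) hT'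
    (fun j => OnT_iff.1 (hcon j)) (fun j => pow_ne_zero 2 (hcx j)) hM' hdet' hr
  choose w hw1 hw2 using fun j => s1_sqrt (h2 j)
  refine ⟨fun j => ⟨bt (σ j), w j, d j⟩, fun j => rfl, fun j => ?_, ?_, ?_, fun j => ?_⟩
  · rw [OnT_iff]
    show Con (bt (σ j) be) (bt (σ j) ga) (w j ^ 2) (d j)
    rw [hw1 j]
    exact h1 j
  · show Ch (fun j => bt (σ j) be) (fun j => w j ^ 2) (fun j => d j) = M
    have h5 : (fun j => w j ^ 2) = x := funext hw1
    rw [h5]
    exact h4
  · show ∏ j, w j = wt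
    have h5 : (∏ j, w j) ^ 2 = wt ^ 2 := by
      rw [← Finset.prod_pow]
      have h6 := (frm_Ch (fun j => bt (σ j) be) x d).top
      rw [h4, hM.top] at h6
      rw [h6]
      exact Finset.prod_congr rfl (fun j _ => hw1 j)
    rcases sq_eq_sq_iff_eq_or_eq_neg.1 h5 with h6 | h6
    · exact h6
    · exfalso
      have h7 : Rd π0.V π0.φ (∏ j, w j) (∏ j, (c j).x) := s1_prod Finset.univ (fun j _ => hw2 j)
      rw [h6] at h7
      have h8 := h7.unique hw.neg
      have h9 : (2 : K) * ∏ j, (c j).x = 0 := by linear_combination h8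
      rcases mul_eq_zero.1 h9 with h10 | h10
      · exact two_ne_zero h10
      · exact (Finset.prod_ne_zero_iff.2 (fun j _ => hcx j)) h10
  · exact ⟨fun r => hb1 j r, hw2 j, h3 j⟩

end H19.ES
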